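import Pool.Agent.P.MP_7cb106_nt.PB.Base

set_option autoImplicit false

section

/-! Step DET. -/

set_option linter.unusedSectionVars false

namespace Pool.Agent.P.MP_7cb106_nt.PT

open Matrix

namespace DETa

variable {K : Type} [NontriviallyNormedField K] [IsUltrametricDist K] {U : Unif K} {n : ℕ}
  {f : Fin n → Fin n → ℤ}

lemma tel {ι : Type} (s : Finset ι) (m : ι → ℤ) (a b : ι → K) (ha : ∀ i, Lv U (m i) (a i))
    (hb : ∀ i, Lv U (m i) (b i)) : ∀ C : ℤ,
    (∀ k ∈ s, Lv U (C - ∑ i ∈ s, m i + m k) (b k - a k)) →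
      Lv U C (∏ i ∈ s, b i - ∏ i ∈ s, a i) := by
  classical
  induction s using Finset.induction_on with
  | empty => intro C _; simpa using lv_zero U C
  | insert x s hx ih =>
    intro C h
    rw [Finset.sum_insert hx] at h
    have e : ∏ i ∈ insert x s, b i - ∏ i ∈ insert x s, a i =
        (b x - a x) * ∏ i ∈ s, b i + a x * (∏ i ∈ s, b i - ∏ i ∈ s, a i) := by
      rw [Finset.prod_insert hx, Finset.prod_insert hx]; ring
    rw [e]
    refine ((h x (Finset.mem_insert_self _ _)).mul' (lv_prod s m b fun i _ => hb i)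
      (by omega)).add ((ha x).mul' (ih (C - m x) fun k hk => ?_) (by omega))
    exact (h k (Finset.mem_insert_of_mem hk)).mono (by omega)

lemma diff (hf : ∀ k l m, f k m ≤ f k l + f l m) {A B : Matrix (Fin n) (Fin n) K}
    (hA : ∀ k l, Lv U (f k l) (A k l)) (hB : ∀ k l, Lv U (f k l) (B k l)) (C : ℤ)
    (h : ∀ a k S, (∀ l, f k l - f a l ≤ S) → Lv U (C - S) (B a k - A a k)) :
    Lv U C (B.det - A.det) := by
  rw [det_apply', det_apply', ← Finset.sum_sub_distrib]
  refine lv_sum _ _ fun σ _ => ?_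
  rw [← mul_sub]
  refine ((lv0_iff U _).2 (IsUltrametricDist.norm_intCast_le_one K _)).mul'
    (tel _ (fun i => f (σ i) i) _ _ (fun i => hA _ _) (fun i => hB _ _) C fun k _ => ?_) (by omega)
  refine (h (σ k) k (∑ i, f (σ i) i - f (σ k) k) fun l => ?_).mono (by omega)
  have h1 := Finset.single_le_sum (f := fun i => f (σ i) i + f i l - f (σ i) l)
    (fun i _ => sub_nonneg.2 (hf _ _ _)) (Finset.mem_univ k)
  rw [Finset.sum_sub_distrib, Finset.sum_add_distrib, Equiv.sum_comp σ fun i => f i l] at h1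
  omega

/-- the level function with zero diagonal -/
def z (f : Fin n → Fin n → ℤ) (k l : Fin n) : ℤ := if k = l then 0 else f k l

lemma z_self (k : Fin n) : z f k k = 0 := if_pos rfl

lemma z_ne {k l : Fin n} (h : k ≠ l) : z f k l = f k l := if_neg h

lemma z_conc (hf : Conc f) (k l m : Fin n) : z f k m ≤ z f k l + z f l m := by
  by_cases h1 : k = l
  · subst h1; rw [z_self, zero_add]
  by_cases h2 : l = m
  · subst h2; rw [z_self, add_zero]
  rw [z_ne h1, z_ne h2]
  by_cases h3 : k = m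
  · subst h3; rw [z_self]; exact (hf.1 k).trans (hf.2 _ _ _)
  · rw [z_ne h3]; exact hf.2 _ _ _

lemma ent (hf : Conc f) {g : GL (Fin n) K} (hg : Lev U f g) (k l : Fin n) :
    Lv U (z f k l) (g.val k l) := by
  by_cases h : k = l
  · subst h
    simpa [z_self] using ((hg.diag k).mono (hf.1 k)).add (lv_one U)
  · rw [z_ne h]; exact hg.off h

lemma ent1 (k l : Fin n) : Lv U (z f k l) ((1 : Matrix (Fin n) (Fin n) K) k l) := by
  by_cases h : k = l
  · subst h; simpa [z_self] using lv_one U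
  · simpa [Matrix.one_apply_ne h] using lv_zero U _

/-- the matrix of the leading minor -/
def pad (j : Fin n) (g : GL (Fin n) K) : Matrix (Fin n) (Fin n) K :=
  of fun k l => if k ≤ j ∧ l ≤ j then g.val k l else (1 : Matrix (Fin n) (Fin n) K) k l

lemma entp (hf : Conc f) {g : GL (Fin n) K} (hg : g ∈ J U f) (j k l : Fin n) :
    Lv U (z f k l) (pad j g k l) := by
  simp only [pad, of_apply]
  split_ifs
  exacts [ent hf (J_lev hf hg) k l, ent1 k l]

lemma adj (hf : Conc f) {g : GL (Fin n) K} (hg : Lev U f g) (k l : Fin n) :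
    Lv U (z f k l) (adjugate g.val k l) := by
  have h := diff (U := U) (z_conc hf) (A := g.val.updateRow l 0)
    (B := g.val.updateRow l (pw U (z f l k) • Pi.single k 1)) (fun a b => ?_) (fun a b => ?_)
    (z f k l + z f l k) fun a b S hS => ?_
  · rw [det_eq_zero_of_row_eq_zero (A := g.val.updateRow l 0) l (by simp), sub_zero,
      det_updateRow_smul, mul_comm, lv_mul_pw] at h
    rwa [adjugate_apply]
  · rw [updateRow_apply]
    split_ifs
    exacts [lv_zero U _, ent hf hg a b]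
  · rw [updateRow_apply]
    split_ifs with h1
    · subst h1
      by_cases h2 : b = k
      · subst h2; simpa using lv_pw U _
      · simpa [h2] using lv_zero U _
    · exact ent hf hg a b
  · rw [updateRow_apply, updateRow_apply]
    split_ifs with h1
    · subst h1
      by_cases h2 : b = k
      · subst h2
        have := hS a
        rw [z_self] at this
        simpa using (lv_pw U (z f a b)).mono (by omega)
      · simpa [h2] using lv_zero U _
    · simpa using lv_zero U _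

lemma pad_mul (j : Fin n) (g h : GL (Fin n) K) (a k : Fin n) :
    pad j (g * h) a k - (pad j g * pad j h) a k =
      ∑ l, if a ≤ j ∧ k ≤ j ∧ j < l then g.val a l * h.val l k else 0 := by
  by_cases ha : a ≤ j
  · by_cases hk : k ≤ j
    · simp only [pad, of_apply, ha, hk, true_and, and_true, if_true, Units.val_mul,
        Matrix.mul_apply, ← Finset.sum_sub_distrib]
      refine Finset.sum_congr rfl fun l _ => ?_
      by_cases hl : l ≤ j
      · simp [hl, hl.not_gt]
      · have : a ≠ l := by rintro rfl; exact hl ha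
        simp [hl, not_le.1 hl, Matrix.one_apply_ne this]
    · have : a ≠ k := by rintro rfl; exact hk ha
      simp [pad, hk, Matrix.mul_apply, Matrix.one_apply]
  · have e : ∀ l, pad j g a l = (1 : Matrix (Fin n) (Fin n) K) a l := fun l => by simp [pad, ha]
    have e2 : (pad j g * pad j h) a k = ((1 : Matrix (Fin n) (Fin n) K) * pad j h) a k := by
      simp only [Matrix.mul_apply, e]
    rw [e2, one_mul]
    simp [pad, ha]

end DETa

open DETa in
theorem p_DET :
    S_DET := by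
  intro K _ _ _ U n f hf
  refine ⟨fun g hg hd => mem_J_of hg fun k m => ?_, fun g hg j => ?_, fun g hg h hh j C hC => ?_,
    fun g hg j C hC => ?_⟩
  · have e : (g⁻¹).val - 1 = -((g⁻¹).val * (g.val - 1)) := by
      rw [Matrix.mul_sub, ← Units.val_mul, inv_mul_cancel]; simp
    rw [e, Matrix.neg_apply, Matrix.mul_apply]
    refine (lv_sum _ _ fun l _ => Lv.mul' (m := z f k l) ?_ (hg l m) ?_).neg
    · rw [Matrix.coe_units_inv, Matrix.inv_def, Ring.inverse_eq_inv', Matrix.smul_apply,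
        smul_eq_mul]
      exact (lv_unit_inv hd).mul' (adj hf hg k l) (by omega)
    · by_cases h : k = l
      · subst h; rw [z_self, zero_add]
      · rw [z_ne h]; exact hf.2 _ _ _
  · have := diff (z_conc hf) ent1 (entp hf hg j) 0 fun a k S hS => by
      have := hS k
      rw [z_self] at this
      exact ((entp hf hg j a k).sub (ent1 a k)).mono (by omega)
    change Lv U 0 (pad j g).det
    simpa using this.add (lv_one U)
  · change Lv U C ((pad j (g * h)).det - (pad j g).det * (pad j h).det)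
    rw [← det_mul]
    refine diff (z_conc hf) (fun k l => ?_) (entp hf (mul_mem hg hh) j) C fun a k S hS => ?_
    · rw [Matrix.mul_apply]
      exact lv_sum _ _ fun m _ => (entp hf hg j k m).mul' (entp hf hh j m l) (z_conc hf _ _ _)
    · rw [pad_mul]
      refine lv_sum _ _ fun l _ => ?_
      split_ifs with h1
      · have h2 : k ≠ l := (h1.2.1.trans_lt h1.2.2).ne
        have h3 := hS l
        have h4 := hC k l h1.2.1 h1.2.2
        rw [z_ne h2] at h3
        exact (ent hf (J_lev hf hg) a l).mul' (J_off hf hh h2.symm) (by omega)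
      · exact lv_zero U _
  · have e : ∏ i ∈ Finset.univ.filter (· ≤ j), g.val i i = (diagonal fun i => pad j g i i).det := by
      rw [det_diagonal, Finset.prod_filter]
      simp [pad]
    rw [e]
    refine diff (z_conc hf) (fun k l => ?_) (entp hf hg j) C fun a k S hS => ?_
    · by_cases h : k = l
      · subst h; rw [diagonal_apply_eq]; exact entp hf hg j k k
      · rw [diagonal_apply_ne _ h]; exact lv_zero U _
    · by_cases h : a = k
      · subst h; rw [diagonal_apply_eq, sub_self]; exact lv_zero U _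
      · have h3 := hS a
        have h4 := hC a k h
        have h5 := entp hf hg j a k
        rw [z_self, z_ne (Ne.symm h)] at h3
        rw [z_ne h] at h5
        rw [diagonal_apply_ne _ h, sub_zero]
        exact h5.mono (by omega)

end Pool.Agent.P.MP_7cb106_nt.PT

end

section

/-! Step THA. -/

set_option linter.unusedSectionVars false

namespace Pool.Agent.P.MP_7cb106_nt.PT

open Matrix

namespace THAa

variable {K : Type} [NontriviallyNormedField K] [IsUltrametricDist K] {n : ℕ} {U : Unif K}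

theorem dl_one (j : Fin n) : Dl j (1 : GL (Fin n) K) = 1 := by
  rw [Dl, ← det_one (n := Fin n)]
  congr 1
  ext k l
  simp

theorem dl_last {j : Fin n} (h : ¬ j.val + 1 < n) (g : GL (Fin n) K) : Dl j g = g.val.det := by
  have : ∀ k : Fin n, k ≤ j := fun k => Fin.le_def.2 (by omega)
  rw [Dl]
  congr 1
  ext k l
  simp [this]

theorem prod_lv {ι : Type} {m : ℤ} (hm : 0 ≤ m) (s : Finset ι) (x : ι → K)
    (h : ∀ i, Lv U m (x i - 1)) : Lv U m (∏ i ∈ s, x i - 1) := by
  classical
  induction s using Finset.induction_on with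
  | empty => simpa using lv_zero U m
  | insert a s ha ih =>
    rw [Finset.prod_insert ha]
    convert ((h a).add ih).add ((h a).mul' ih (by omega)) using 1
    ring

end THAa

theorem p_THA (hDET : S_DET) :
    S_THA := by
  intro K _ _ _ U n χ
  refine ⟨fun f hf hc => ⟨Finset.prod_eq_one fun j _ => by rw [THAa.dl_one, ext_one],
    fun g hg h hh => ?_⟩, fun ⟨N, hN⟩ => ⟨N + 1, fun g hg => Finset.prod_eq_one fun j _ => ?_⟩⟩
  · obtain ⟨-, d2, d3, -⟩ := hDET (U := U) hf
    rw [th, th, th, ← Finset.prod_mul_distrib]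
    refine Finset.prod_congr rfl fun j _ => ?_
    by_cases e : j.val + 1 < n
    · rw [nx, dif_pos e]
      obtain e' | ⟨C, c1, c2, c3⟩ := hc j ⟨_, e⟩ rfl
      · simp only [← e', ext_div_char, div_self (ext_ne_zero _ _), mul_one]
      have u : ∀ g ∈ J U f, ‖Dl j g‖ = 1 := fun g hg => by
        have := d3 g hg _ (inv_mem hg) j C c3
        rw [mul_inv_cancel, THAa.dl_one] at this
        exact norm_eq_one_of_mul (d2 g hg j) (d2 _ (inv_mem hg) j)
          (norm_eq_one_of_lv_one (U := U) (by simpa using (this.mono c1).neg))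
      have v : ∀ g ∈ J U f, Dl j g ≠ 0 := fun g hg e => by simpa [e] using u g hg
      rw [c2.ext_div_congr (u _ (mul_mem hg hh)) (by rw [norm_mul, u g hg, u h hh, mul_one])
        (d3 g hg h hh j C c3), ext_mul _ (v g hg) (v h hh)]
    · simp only [THAa.dl_last e, Units.val_mul, det_mul]
      exact ext_mul _ g.det_ne_zero h.det_ne_zero
  · have h1 := ((hDET (U := U) (conc_const (N + 1))).2.2.2 g hg j (N + 1 : ℕ)
      fun _ _ _ => by omega).add (THAa.prod_lv (Nat.cast_nonneg _) (Finset.univ.filter (· ≤ j)) _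
        (mem_KK.1 hg).1.diag)
    rw [sub_add_sub_cancel] at h1
    have h2 := norm_eq_one_of_lv_one (h1.mono (by omega))
    have h3 : ∀ i, ext (χ i) (Dl j g) = 1 := fun i =>
      ((hN i).ext_eq h2 (h1.mono (by omega))).trans (ext_triv _)
    rw [ext_div_char, nx, h3]
    split_ifs
    · rw [h3, div_one]
    · rw [ext_triv, div_one]

end Pool.Agent.P.MP_7cb106_nt.PT

end

section

/-! Step THB. -/

set_option linter.unusedSectionVars false

namespace Pool.Agent.P.MP_7cb106_nt.PT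

open Matrix

namespace THBa

variable {K : Type} [NontriviallyNormedField K] [IsUltrametricDist K] {n : ℕ}

theorem det_tri {o : Fin n → ℤ} (ho : Function.Injective o) {M : Matrix (Fin n) (Fin n) K}
    (h : M.BlockTriangular o) : M.det = ∏ i, M i i := by
  rw [det_apply, Finset.sum_eq_single 1]
  · simp
  · intro σ _ hσ
    by_contra e
    have h1 : ∀ i ∈ Finset.univ, o (σ i) ≤ o i := fun i hi => not_lt.1 fun a =>
      e (by rw [Finset.prod_eq_zero (f := fun i => M (σ i) i) hi (h a), smul_zero])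
    exact hσ (Equiv.ext fun i => ho ((Finset.sum_eq_sum_iff_of_le h1).1 (Equiv.sum_comp σ o) i
      (Finset.mem_univ _)))
  · simp

theorem ext_prod (χ : Kˣ →* ℂˣ) (s : Finset (Fin n)) {x : Fin n → K} (h : ∀ i, x i ≠ 0) :
    ext χ (∏ i ∈ s, x i) = ∏ i ∈ s, ext χ (x i) := by
  induction s using Finset.induction_on with
  | empty => simpa using ext_one χ
  | insert a s ha ih =>
    rw [Finset.prod_insert ha, Finset.prod_insert ha,
      ext_mul _ (h a) (Finset.prod_ne_zero_iff.2 fun i _ => h i), ih]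

/-- the characters indexed by natural numbers -/
def ch (χ : Fin n → Kˣ →* ℂˣ) (m : ℕ) : Kˣ →* ℂˣ := if h : m < n then χ ⟨m, h⟩ else 1

theorem ch_val (χ : Fin n → Kˣ →* ℂˣ) (j : Fin n) : ch χ j = χ j := dif_pos j.2

theorem tel (χ : Fin n → Kˣ →* ℂˣ) (x : K) {k l : ℕ} (h : k ≤ l) (hl : l ≤ n) :
    ∏ j ∈ Finset.univ.filter (fun j : Fin n => k ≤ j.val ∧ j.val < l), ext (χ j / nx χ j) x =
      ext (ch χ k) x / ext (ch χ l) x := by
  induction l, h using Nat.le_induction with
  | base =>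
    rw [div_self (ext_ne_zero _ _)]
    exact Finset.prod_eq_one fun j hj => absurd (Finset.mem_filter.1 hj).2 (by omega)
  | succ l h ih =>
    have e : Finset.univ.filter (fun j : Fin n => k ≤ j.val ∧ j.val < l + 1) =
        insert ⟨l, hl⟩ (Finset.univ.filter fun j : Fin n => k ≤ j.val ∧ j.val < l) := by
      ext j
      simp only [Finset.mem_filter, Finset.mem_univ, true_and, Finset.mem_insert, Fin.ext_iff]
      omega
    rw [e, Finset.prod_insert (by simp), ih (by omega), ext_div_char, ← ch_val χ ⟨l, hl⟩, mul_comm,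
      div_mul_div_cancel₀ (ext_ne_zero _ _)]
    rfl

theorem dl_rk (b a : Fin n → K) (h : 1 + a ⬝ᵥ b ≠ 0) (j : Fin n) :
    Dl j (rk b a) = 1 + ∑ i ∈ Finset.univ.filter (· ≤ j), a i * b i := by
  have e : (of fun k l => if k ≤ j ∧ l ≤ j then (rk b a).val k l else
      (1 : Matrix (Fin n) (Fin n) K) k l) = 1 + replicateCol Unit (fun i => if i ≤ j then b i else 0) *
        replicateRow Unit fun i => if i ≤ j then a i else 0 := by
    ext k l
    rw [of_apply, rk_val h, ← vecMulVec_eq, Matrix.add_apply, Matrix.add_apply, vecMulVec_apply,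
      vecMulVec_apply]
    by_cases h1 : k ≤ j <;> by_cases h2 : l ≤ j <;> simp [h1, h2]
  rw [Dl, e, det_one_add_replicateCol_mul_replicateRow, dotProduct, Finset.sum_filter]
  congr 1
  exact Finset.sum_congr rfl fun i _ => by split_ifs <;> simp

end THBa

open THBa in
theorem p_THB :
    S_THB := by
  intro K _ _ n χ
  have h4 : ∀ k l, k ≤ l → ∀ x : K, ∏ j ∈ Finset.univ.filter (fun j => k ≤ j ∧ j < l),
      ext (χ j / nx χ j) x = ext (χ k / χ l) x := fun k l h x => by
    rw [ext_div_char, ← ch_val χ k, ← ch_val χ l, ← tel χ x h l.2.le]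
    rfl
  refine ⟨fun o ho g hg => ?_, fun d g => ?_, dl_rk, h4, fun b a k l hkl h0 h => ?_⟩
  · have e : ∀ j, Dl j g = ∏ i ∈ Finset.univ.filter (· ≤ j), g.val i i := fun j => by
      rw [Dl, det_tri ho, Finset.prod_filter]
      · exact Finset.prod_congr rfl fun i _ => by simp
      · intro k l hkl
        rw [of_apply]
        split_ifs
        exacts [hg hkl, one_apply_ne fun e => (e ▸ hkl).false]
    simp only [th, dch, e, ext_prod _ _ (Tri_diag_ne ho hg)]
    rw [Finset.prod_comm' (t' := Finset.univ) (s' := fun i : Fin n =>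
      Finset.univ.filter fun j : Fin n => i.val ≤ j.val ∧ j.val < n) (by simp)]
    refine Finset.prod_congr rfl fun i _ => ?_
    rw [tel χ _ i.2.le le_rfl, ch_val, ch, dif_neg (lt_irrefl _), ext_triv, div_one]
  · refine Finset.prod_congr rfl fun j _ => congrArg _ ?_
    have e : (of fun k l => if k ≤ j ∧ l ≤ j then (dia d * g * (dia d)⁻¹).val k l else
        (1 : Matrix (Fin n) (Fin n) K) k l) = (dia d).val * (of fun k l => if k ≤ j ∧ l ≤ j then
        g.val k l else (1 : Matrix (Fin n) (Fin n) K) k l) * (dia d)⁻¹.val := by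
      ext k l
      rw [of_apply, dia_conj, dia_inv, dia_val, dia_val, mul_diagonal, diagonal_mul, of_apply]
      split_ifs
      · simp
      · by_cases e : k = l
        · subst e; simp
        · simp [e]
    rw [Dl, e, det_units_conj, Dl]
  · rw [← h4 k l hkl.le, th, Finset.prod_filter]
    refine Finset.prod_congr rfl fun j _ => ?_
    have h1 : ∀ s : Finset (Fin n), ∑ i ∈ s, a i * b i =
        (if k ∈ s then a k * b k else 0) + if l ∈ s then a l * b l else 0 := fun s => by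
      rw [← Finset.sum_ite_eq s k fun i => a i * b i, ← Finset.sum_ite_eq s l fun i => a i * b i,
        ← Finset.sum_add_distrib]
      refine Finset.sum_congr rfl fun i _ => ?_
      by_cases e : k = i
      · simp [← e, hkl.ne']
      · by_cases e' : l = i
        · simp [← e', hkl.ne]
        · simp [e, e', h i (Ne.symm e) (Ne.symm e')]
    have h2 := h1 Finset.univ
    rw [← dotProduct, h0] at h2
    rw [dl_rk b a (by simp [h0]), h1]
    simp only [Finset.mem_filter, Finset.mem_univ, true_and, if_true] at h2 ⊢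
    by_cases e : k ≤ j
    · by_cases e' : l ≤ j
      · rw [if_pos e, if_pos e', ← h2, add_zero, ext_one, if_neg fun a => a.2.not_ge e']
      · rw [if_pos e, if_neg e', add_zero, if_pos ⟨e, not_le.1 e'⟩]
    · rw [if_neg e, if_neg fun a => e (hkl.le.trans a), add_zero, add_zero, ext_one,
        if_neg fun a => e a.1]

end Pool.Agent.P.MP_7cb106_nt.PT

end

section

/-! Step UL. -/

set_option linter.unusedSectionVars false

namespace Pool.Agent.P.MP_7cb106_nt.PT

open Matrix

namespace ULa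

variable {K : Type} [NontriviallyNormedField K] [IsUltrametricDist K] {U : Unif K} {n : ℕ}
  {f : Fin n → Fin n → ℤ} {o : Fin n → ℤ}

/-- clearing one row -/
theorem step (hf : Conc f) (h1 : ∀ k l, l ≠ k → 1 ≤ f k l + f l k) {g : GL (Fin n) K}
    (hg : g ∈ J U f) (a : Fin n) : ∃ r ∈ J U f, r ∈ Uni K (fun i => -o i) ∧
      (∀ l, o l < o a → (g * r).val a l = 0) ∧
      ∀ i l, g.val i a = 0 → (g * r).val i l = g.val i l := by
  have hu := J_diag_unit hf (h1 a) hg
  have h0 : g.val a a ≠ 0 := by intro e; rw [e] at hu; simp at hu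
  let v : Fin n → K := fun l => if o l < o a then -g.val a l / g.val a a else 0
  have hv : 1 + v ⬝ᵥ Pi.single a 1 = 1 := by simp [v]
  have h2 : 1 + v ⬝ᵥ Pi.single a 1 ≠ 0 := by rw [hv]; exact one_ne_zero
  have e : ∀ i l, (g * rk (Pi.single a 1) v).val i l = g.val i l + g.val i a * v l := by
    intro i l
    rw [Units.val_mul, rk_val h2, mul_add, mul_one, mul_vecMulVec, Matrix.add_apply,
      vecMulVec_apply, mulVec_single_one]
    rfl
  refine ⟨rk (Pi.single a 1) v, rk_mem_J (by rw [hv, norm_one]) fun k l => ?_, fun k l hkl => ?_,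
    fun l hl => ?_, fun i l hi => by rw [e, hi, zero_mul, add_zero]⟩
  · rw [Pi.single_apply]
    split_ifs with hk
    · subst hk
      rw [one_mul]
      simp only [v]
      split_ifs with hl
      · exact (J_off hf hg (by rintro rfl; exact lt_irrefl _ hl)).neg.div_unit hu
      · exact lv_zero U _
    · rw [zero_mul]
      exact lv_zero U _
  · rw [rk_val h2, add_sub_cancel_left, vecMulVec_apply, Pi.single_apply]
    split_ifs with hk
    · subst hk
      have : ¬ o l < o k := by simpa using hkl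
      simp only [v, if_neg this, mul_zero]
    · exact zero_mul _
  · rw [e]
    simp only [v, if_pos hl]
    field_simp
    ring

theorem all (hf : Conc f) (h1 : ∀ k l, l ≠ k → 1 ≤ f k l + f l k) (ho : Function.Injective o)
    (s : Finset (Fin n)) : (∀ i ∉ s, ∀ x ∈ s, o x < o i) → ∀ g ∈ J U f,
      (∀ i ∉ s, ∀ l, o l < o i → g.val i l = 0) →
        ∃ r ∈ J U f, r ∈ Uni K (fun i => -o i) ∧ g * r ∈ Tri K o := by
  induction s using Finset.induction_on_max_value o with
  | empty =>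
    exact fun _ g _ h => ⟨1, one_mem _, one_mem _, by
      rw [mul_one]; exact mem_Tri.2 fun k => h k (Finset.notMem_empty k)⟩
  | insert a s ha hm ih =>
    intro h g hg hc
    obtain ⟨r, r1, r2, r3, r4⟩ := step (o := o) hf h1 hg a
    obtain ⟨r', q1, q2, q3⟩ := ih (fun i hi x hx => by
      rcases eq_or_ne i a with rfl | e
      · exact lt_of_le_of_ne (hm x hx) fun e => hi (ho e ▸ hx)
      · exact h i (by simp [e, hi]) x (Finset.mem_insert_of_mem hx)) (g * r) (mul_mem hg r1)
      fun i hi l hl => by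
        rcases eq_or_ne i a with rfl | e
        · exact r3 l hl
        · have hi' : i ∉ insert a s := by simp [e, hi]
          rw [r4 i l (hc i hi' a (h i hi' a (Finset.mem_insert_self a s))), hc i hi' l hl]
    exact ⟨r * r', mul_mem r1 q1, mul_mem r2 q2, by rwa [← mul_assoc]⟩

end ULa

theorem p_UL :
    S_UL := by
  intro K _ _ _ U n f o hf h1 ho g hg
  obtain ⟨r, r1, r2, r3⟩ := ULa.all hf h1 ho Finset.univ (by simp) g hg (by simp)
  exact ⟨g * r, mul_mem hg r1, r⁻¹, inv_mem r1, r3, inv_mem r2, by simp⟩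

end Pool.Agent.P.MP_7cb106_nt.PT

end

section

/-! Step DH. -/

set_option linter.unusedSectionVars false

namespace Pool.Agent.P.MP_7cb106_nt.PT

open Matrix

namespace DHa

variable {K : Type} [NontriviallyNormedField K] [IsUltrametricDist K] {n : ℕ}

/-- the two alternatives -/
def Alt (U : Unif K) (f : Fin n → Fin n → ℤ) (g : GL (Fin n) K) : Prop :=
  (∃ b ∈ Tri K (so n), ∃ w, ∃ j ∈ J U f, g = b * pm K w * j) ∨
    ∃ j ∈ J U f, ∃ i i' : Fin n, i < i' ∧ 2 ≤ f i i' + f i' i ∧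
      ∀ s : K, Lv U (f i i' + f i' i - 1) s → ∃ b a : Fin n → K, a ⬝ᵥ b = 0 ∧
        (∀ k, k ≠ i → k ≠ i' → b k = 0) ∧ a i * b i = s ∧ (∀ k l, Lv U (f k l) (b k * a l)) ∧
        (∀ k l, k ≠ l → f k l + f l k ≤ 1 → b k * a l = 0) ∧
        g * j * rk b a * (g * j)⁻¹ ∈ Uni K (so n)

variable {U : Unif K} {f : Fin n → Fin n → ℤ} {g : GL (Fin n) K}

theorem Alt.left {c : GL (Fin n) K} (hc : c ∈ Tri K (so n)) (h : Alt U f (c * g)) : Alt U f g := by
  rcases h with ⟨b, hb, w, j, hj, e⟩ | ⟨j, hj, i, i', h1, h2, h3⟩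
  · exact Or.inl ⟨c⁻¹ * b, mul_mem (inv_mem hc) hb, w, j, hj, by
      rw [mul_assoc, mul_assoc, ← mul_assoc b, ← e, inv_mul_cancel_left]⟩
  · refine Or.inr ⟨j, hj, i, i', h1, h2, fun s hs => ?_⟩
    obtain ⟨b, a, a1, a2, a3, a4, a5, a6⟩ := h3 s hs
    refine ⟨b, a, a1, a2, a3, a4, a5, ?_⟩
    convert Uni_conj so_inj (inv_mem hc) a6 using 1
    group

theorem Alt.right {c : GL (Fin n) K} (hc : c ∈ J U f) (h : Alt U f (g * c)) : Alt U f g := by
  rcases h with ⟨b, hb, w, j, hj, e⟩ | ⟨j, hj, h1⟩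
  · exact Or.inl ⟨b, hb, w, j * c⁻¹, mul_mem hj (inv_mem hc), by
      rw [← mul_assoc, ← e, mul_inv_cancel_right]⟩
  · exact Or.inr ⟨c * j, mul_mem hc hj, by rwa [← mul_assoc]⟩

theorem el_mul {k r : Fin n} (h : k ≠ r) (x : K) (p c : Fin n) :
    (el k r x * g).val p c = g.val p c + if p = k then x * g.val r c else 0 := by
  rw [Units.val_mul, el_val h, add_mul, one_mul, Matrix.add_apply]
  split_ifs with e
  · subst e; simp
  · simp [e]

theorem mul_el {i l : Fin n} (h : i ≠ l) (x : K) (p c : Fin n) :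
    (g * el i l x).val p c = g.val p c + if c = l then g.val p i * x else 0 := by
  rw [Units.val_mul, el_val h, mul_add, mul_one, Matrix.add_apply]
  split_ifs with e
  · subst e; simp
  · simp [e]

theorem row_inv (g : GL (Fin n) K) (k : Fin n) : g.val k ᵥ* (g⁻¹).val = Pi.single k 1 := by
  ext l
  have : (g * g⁻¹).val k l = (g.val k ᵥ* (g⁻¹).val) l := rfl
  rw [← this, mul_inv_cancel, Pi.single_apply]
  simp [Matrix.one_apply, eq_comm]

theorem alt_zero (h : ∀ r, ∃ l, g.val r = Pi.single l 1) : Alt U f g := by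
  choose w hw using h
  have : Function.Injective w := fun r r' e => by
    have h1 := row_inv g r
    rw [hw, e, ← hw, row_inv] at h1
    by_contra hne
    simpa [hne] using congrFun h1 r
  refine Or.inl ⟨1, one_mem _, Equiv.ofBijective w (Finite.injective_iff_bijective.1 this), 1,
    one_mem _, ?_⟩
  ext i j
  simp [pm_apply, hw, Pi.single_apply]

/-- the second alternative holds when the places of the row `k` are not comparable -/
theorem alt_two (h0 : ∀ k, f k k = 0) {k : Fin n}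
    (h1 : ∀ r, k < r → ∀ l, g.val k l ≠ 0 → g.val r l = 0)
    (h2 : ∀ i l, i ≠ l → g.val k i ≠ 0 → g.val k l ≠ 0 → ¬ Lv U (f i l) (g.val k l / g.val k i))
    (h3 : ∃ p : Fin n × Fin n, p.1 < p.2 ∧ g.val k p.1 ≠ 0 ∧ g.val k p.2 ≠ 0) : Alt U f g := by
  classical
  set a := g.val k with ha
  have h4 : ∀ i l, i ≠ l → a i ≠ 0 → a l ≠ 0 → Lv U (1 - f l i) (a l / a i) := fun i l e hi hl => by
    have := lv_inv_of_not (U := U) (m := f l i - 1) (x := a i / a l)
      (by simpa using h2 l i e.symm hl hi)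
    simpa using this
  have h5 : ∀ i l, i ≠ l → a i ≠ 0 → a l ≠ 0 → 2 ≤ f i l + f l i := fun i l e hi hl => by
    by_contra hc
    exact h2 i l e hi hl ((h4 i l e hi hl).mono (by omega))
  obtain ⟨⟨i, i'⟩, hp, hmax⟩ := Finset.exists_max_image
    (Finset.univ.filter fun p : Fin n × Fin n => p.1 < p.2 ∧ a p.1 ≠ 0 ∧ a p.2 ≠ 0)
    (fun p => f p.1 p.2 + f p.2 p.1) (let ⟨p, hp⟩ := h3; ⟨p, by simpa using hp⟩)
  obtain ⟨hlt, hi, hi'⟩ : i < i' ∧ a i ≠ 0 ∧ a i' ≠ 0 := by simpa using hp
  have hC := h5 i i' hlt.ne hi hi'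
  refine Or.inr ⟨1, one_mem _, i, i', hlt, hC, fun s hs => ?_⟩
  have h6 : ∀ p l, a p ≠ 0 → Lv U (f p l) (s * (a p)⁻¹ * a l) := fun p l hp => by
    by_cases hl : a l = 0
    · rw [hl, mul_zero]; exact lv_zero U _
    by_cases e : p = l
    · subst e
      rw [inv_mul_cancel_right₀ hp, h0]
      exact hs.mono (by omega)
    rw [mul_assoc, inv_mul_eq_div]
    refine hs.mul' (h4 p l e hp hl) ?_
    rcases lt_or_gt_of_ne e with e' | e'
    · have := hmax (p, l) (by simp [e', hp, hl])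
      simp only at this
      omega
    · have := hmax (l, p) (by simp [e', hp, hl])
      simp only at this
      omega
  let b : Fin n → K := Pi.single i (s * (a i)⁻¹) - Pi.single i' (s * (a i')⁻¹)
  have b1 : b i = s * (a i)⁻¹ := by simp [b, hlt.ne]
  have b2 : b i' = -(s * (a i')⁻¹) := by simp [b, hlt.ne']
  have b3 : ∀ p, p ≠ i → p ≠ i' → b p = 0 := fun p e e' => by simp [b, e, e']
  have b4 : ∀ p, b p ≠ 0 → a p ≠ 0 := fun p hp => by
    by_cases e : p = i
    · rwa [e]
    by_cases e' : p = i'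
    · rwa [e']
    exact (hp (b3 p e e')).elim
  have hab : a ⬝ᵥ b = 0 := by
    simp only [b, dotProduct_sub, dotProduct_single]
    field_simp
    ring
  refine ⟨b, a, hab, b3, by rw [b1]; field_simp, fun p l => ?_, fun p l e hf => ?_, ?_⟩
  · by_cases e : p = i
    · rw [e, b1]; exact h6 i l hi
    by_cases e' : p = i'
    · rw [e', b2, neg_mul]; exact (h6 i' l hi').neg
    rw [b3 p e e', zero_mul]
    exact lv_zero U _
  · by_contra hc
    have := h5 p l e (b4 p (left_ne_zero_of_mul hc)) (right_ne_zero_of_mul hc)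
    omega
  · have hgb : ∀ r, k ≤ r → (g.val *ᵥ b) r = 0 := fun r hr => by
      rcases hr.eq_or_lt with rfl | hr
      · exact hab
      · show ∑ l, g.val r l * b l = 0
        refine Finset.sum_eq_zero fun l _ => ?_
        by_cases e : b l = 0
        · simp [e]
        · simp [h1 r hr l (b4 l e)]
    rw [mul_one, rk_conj (by simp [hab]), ha, row_inv]
    intro r l hrl
    rw [rk_val (by simp [hgb k le_rfl]), add_sub_cancel_left, vecMulVec_apply, Pi.single_apply]
    split_ifs with e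
    · rw [hgb r (e ▸ so_le.1 hrl), zero_mul]
    · exact mul_zero _

theorem alt_step (h0 : ∀ k, f k k = 0) {k : Fin n}
    (ih : ∀ g : GL (Fin n) K, (∀ r, k ≤ r → ∃ l, g.val r = Pi.single l 1) → Alt U f g) (m : ℕ) :
    ∀ g : GL (Fin n) K, (∀ r, k < r → ∃ l, g.val r = Pi.single l 1) →
      (Function.support (g.val k)).ncard = m → Alt U f g := by
  induction m using Nat.strong_induction_on with
  | _ m ihm =>
  intro g hg hm
  have key : ∀ (g' : GL (Fin n) K) (l : Fin n), (∀ r, k < r → g'.val r = g.val r) →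
      g.val k l ≠ 0 → g'.val k l = 0 → (∀ c, c ≠ l → g'.val k c = g.val k c) → Alt U f g' := by
    intro g' l a1 a2 a3 a4
    refine ihm _ ?_ g' (fun r hr => a1 r hr ▸ hg r hr) rfl
    rw [← hm]
    refine Set.ncard_lt_ncard ⟨fun c hc => ?_, fun h => h a2 a3⟩
    have : c ≠ l := by rintro rfl; exact hc a3
    rwa [Function.mem_support, ← a4 c this]
  by_cases h1 : ∀ r, k < r → ∀ l, g.val k l ≠ 0 → g.val r l = 0
  swap
  · push Not at h1
    obtain ⟨r, hr, l, hl, hrl⟩ := h1
    obtain ⟨l', e⟩ := hg r hr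
    obtain rfl : l = l' := by by_contra h; simp [e, h] at hrl
    refine Alt.left (Uni_le_Tri (el_mem_Uni (so_lt.2 hr) (-g.val k l))) (key _ l
      (fun p hp => funext fun c => ?_) hl ?_ fun c hc => ?_) <;> rw [el_mul hr.ne]
    · simp [hp.ne']
    · simp [e]
    · simp [e, hc]
  by_cases h2 : ∀ i l, i ≠ l → g.val k i ≠ 0 → g.val k l ≠ 0 →
      ¬ Lv U (f i l) (g.val k l / g.val k i)
  swap
  · push Not at h2
    obtain ⟨i, l, e, hi, hl, hv⟩ := h2
    refine Alt.right (el_mem_J e hv.neg) (key _ l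
      (fun p hp => funext fun c => ?_) hl ?_ fun c hc => ?_) <;> rw [mul_el e]
    · simp [h1 p hp i hi]
    · rw [if_pos rfl]; field_simp; ring
    · simp [hc]
  by_cases h3 : ∃ p : Fin n × Fin n, p.1 < p.2 ∧ g.val k p.1 ≠ 0 ∧ g.val k p.2 ≠ 0
  · exact alt_two h0 h1 h2 h3
  obtain ⟨i, hi⟩ : ∃ i, g.val k i ≠ 0 := by
    by_contra hc
    push Not at hc
    have := congrFun (row_inv g k) k
    rw [show g.val k = 0 from funext hc] at this
    simp at this
  refine Alt.left (dia_mem_Tri _ (Pi.mulSingle k (Units.mk0 _ hi)⁻¹)) (ih _ fun r hr => ?_)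
  rcases hr.eq_or_lt with rfl | hr
  · refine ⟨i, funext fun c => ?_⟩
    rw [Units.val_mul, dia_val, diagonal_mul, Pi.single_apply]
    split_ifs with e
    · simp [e, hi]
    · have : g.val k c = 0 := by
        by_contra hc
        rcases lt_or_gt_of_ne e with e' | e'
        · exact h3 ⟨(c, i), e', hc, hi⟩
        · exact h3 ⟨(i, c), e', hi, hc⟩
      simp [this]
  · obtain ⟨l, e⟩ := hg r hr
    refine ⟨l, funext fun c => ?_⟩
    rw [Units.val_mul, dia_val, diagonal_mul, e]
    simp [hr.ne']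

theorem alt_all (h0 : ∀ k, f k k = 0) (t : ℕ) :
    ∀ g : GL (Fin n) K, (∀ r, t ≤ r.val → ∃ l, g.val r = Pi.single l 1) → Alt U f g := by
  induction t with
  | zero => exact fun g h => alt_zero fun r => h r (Nat.zero_le _)
  | succ t ih =>
    intro g h
    by_cases ht : t < n
    · exact alt_step h0 (k := ⟨t, ht⟩) (fun g h => ih g h) _ g h rfl
    · exact ih g fun r hr => absurd r.2 (by omega)

end DHa

theorem p_DH :
    S_DH := by
  intro K _ _ _ U n f _ h0 g
  exact DHa.alt_all h0 n g fun r hr => absurd r.2 (by omega)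

end Pool.Agent.P.MP_7cb106_nt.PT

end

section

/-! Step DW. -/

set_option linter.unusedSectionVars false

namespace Pool.Agent.P.MP_7cb106_nt.PT

open Matrix

theorem p_DW (hDH : S_DH) (hTHB : S_THB) :
    S_DW := by
  intro K _ _ _ U n χ f e V _ _ π m Λ g hf h0 hn hM he hb hc hm hΛ hg
  refine (hDH K U hf h0 g).resolve_right ?_
  rintro ⟨j, hj, i, i', hi, h2, h3⟩
  obtain ⟨c1, c2⟩ := hc i i' hi h2
  refine c2 fun x _ hx => ?_
  obtain ⟨b, a, a1, a2, a3, a4, a5, a6⟩ := h3 _ hx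
  have a7 : a i' * b i' = -(x - 1 : K) := by
    rw [dotProduct, Fintype.sum_eq_add i i' hi.ne fun k hk => by rw [a2 k hk.1 hk.2, mul_zero],
      a3] at a1
    exact (neg_eq_of_add_eq_zero_right a1).symm
  have h4 : rk b a ∈ J U (inn f e) := rk_mem_J (by rw [a1, add_zero, norm_one]) fun k l => by
    by_cases e1 : f k l + f l k = 0
    · rw [inn_of_eq e1]
      by_cases e2 : k = l
      · subst e2
        by_cases e3 : k = i
        · rw [e3, mul_comm, a3]
          exact hx.mono (by omega)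
        by_cases e4 : k = i'
        · rw [e4, mul_comm, a7]
          exact hx.neg.mono (by omega)
        rw [a2 k e3 e4, zero_mul]
        exact lv_zero U e
      · rw [a5 k l e2 (by omega)]
        exact lv_zero U e
    · rw [inn_of_ne e1]
      exact a4 k l
  have h5 := hΛ _ a6 (π g m)
  rw [← rep_mul, show g * j * rk b a * (g * j)⁻¹ * g = g * (j * rk b a * j⁻¹) by group, rep_mul,
    hm _ (inn_conj hf h0 hn (by omega) hb hj h4), hM.conj hj (J_mono (le_inn hn (by omega)) h4),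
    map_smul, map_smul, (hTHB χ).2.2.2.2 b a i i' hi a1 fun k p q => by rw [a2 k p q, mul_zero],
    a3, add_sub_cancel, ext_div_char, ext_val, ext_val, smul_eq_mul, mul_left_eq_self₀,
    or_iff_left hg, div_eq_one_iff_eq (Units.ne_zero _)] at h5
  exact Units.ext h5

end Pool.Agent.P.MP_7cb106_nt.PT

end

section

/-! Step FM. -/

set_option linter.unusedSectionVars false

namespace Pool.Agent.P.MP_7cb106_nt.PT

open Matrix

namespace FMa

theorem core (hDW : S_DW) (hTHA : S_THA) {K : Type} [NontriviallyNormedField K]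
    [IsUltrametricDist K] [LocallyCompactSpace K] {U : Unif K} {n : ℕ}
    {χ χ' : Fin n → Kˣ →* ℂˣ} {c f : Fin n → Fin n → ℤ}
    {V : Type} [AddCommGroup V] [Module ℂ V] {π : Representation ℂ (GL (Fin n) K) V}
    {m : V} {Λ : V →ₗ[ℂ] ℂ} {g : GL (Fin n) K} (hD : Dat U χ c) (hf : Fit c f)
    (h0 : ∀ k, f k k = 0) (hg : Λ (π g m) ≠ 0) {Θ : GL (Fin n) K → ℂ} (hE : Eig π (J U f) Θ m)
    (hΘ : ∀ h ∈ J U (inn f 1), Θ h = th χ h) (hP : PF π (so n) χ' Λ) :
    ∃ b ∈ Tri K (so n), ∃ w : Equiv.Perm (Fin n), ∃ j ∈ J U f, g = b * pm K w * j ∧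
      ∀ (i : Fin n) (α : Kˣ), ‖(α : K)‖ = 1 → Θ (di i α) = χ' (w.symm i) α := by
  obtain ⟨b, hb, w, j, hj, e⟩ := hDW (e := 1) hf.conc h0 hf.nonneg (ch_th hTHA hD hf).mult le_rfl
    (fun k l => by have := hf.nonneg k l; have := hf.nonneg l k; omega)
    (fun k l hkl h2 => ⟨h2, by rw [hf.sum k l hkl.ne]; exact hD.differ k l hkl.ne⟩)
    ((hE.mono (J_mono (le_inn hf.nonneg zero_le_one))).congr hΘ) (fun u hu v => hP.uni hu v) hg
  refine ⟨b, hb, w, j, hj, e, fun i α hα => ?_⟩
  have h1 : (Λ ∘ₗ π (pm K w)) m ≠ 0 := by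
    intro h
    apply hg
    rw [e, mul_assoc, rep_mul, hP b hb, rep_mul, hE j hj, map_smul, map_smul]
    rw [LinearMap.comp_apply] at h
    rw [h, smul_zero, mul_zero]
  have h2 := hP.pm w (di i α) (dia_mem_Tri _ _) m
  rw [hE _ (di_mem_J0 h0 i hα), map_smul, dch_di, smul_eq_mul] at h2
  exact mul_right_cancel₀ h1 h2

end FMa

theorem p_FM (hDW : S_DW) (hTHA : S_THA) (hTHB : S_THB) :
    S_FM := by
  intro K _ _ _ U n χ c f V _ _ π m Λ g hD hf h0 hg
  refine ⟨fun Θ hE hΘ ⟨σ, χ', h1, h2⟩ => ?_, fun hE ⟨χ', h1, h2⟩ => ?_⟩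
  · obtain ⟨b, -, w, j, -, -, h⟩ := FMa.core hDW hTHA hD hf h0 hg hE hΘ h2
    exact ⟨w.symm.trans σ, fun i α hα => by
      rw [h i α hα, agree_zero_iff.1 (h1 (w.symm i)) α hα]; rfl⟩
  · obtain ⟨b, hb, w, j, hj, e, h⟩ := FMa.core hDW hTHA hD hf h0 hg hE (fun _ _ => rfl) h2
    have hw : w = 1 := by
      have : ∀ i, i = w.symm i := fun i => hD.inj (agree_zero_iff.2 fun α hα => by
        have := h i α hα
        rw [th_di hTHB, agree_zero_iff.1 (h1 (w.symm i)) α hα] at this
        exact Units.ext this)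
      ext i
      rw [← w.apply_symm_apply i, ← this i]
      simp only [Equiv.Perm.coe_one, id]
      rw [this (w i), w.symm_apply_apply]
      conv_lhs => rw [this i]
      rw [w.apply_symm_apply]
    exact ⟨b, hb, j, hj, by rw [e, hw, pm_one, mul_one]⟩

end Pool.Agent.P.MP_7cb106_nt.PT

end

section

/-! Step JAC1. -/

set_option linter.unusedSectionVars false

namespace Pool.Agent.P.MP_7cb106_nt.PT

open Matrix

namespace JAC1a

variable {K : Type} [NontriviallyNormedField K] [IsUltrametricDist K] {n : ℕ} {U : Unif K}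

theorem lev_conj {f : Fin n → Fin n → ℤ} (hf : Conc f) (h0 : ∀ k l, 0 ≤ f k l) (o : Fin n → ℤ)
    (N : ℕ) {g : GL (Fin n) K} (hg : g ∈ J U f) (hu : g ∈ Uni K (fun i => -o i)) :
    Lev U (fun _ _ => (N : ℤ))
      (dg U (fun i => N * o i) * g * (dg U (fun i => N * o i))⁻¹) := by
  have e : (fun _ _ : Fin n => (N : ℤ)) =
      sh (fun k l => (N : ℤ) - N * o k + N * o l) (fun i => N * o i) := by
    funext k l; simp only [sh]; ring
  rw [e, lev_dg]
  intro k l
  by_cases h : o k ≤ o l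
  · rw [mem_Uni.1 hu k l (by simpa using h)]
    exact lv_zero U _
  · refine (J_lev hf hg k l).mono (le_trans ?_ (h0 k l))
    have h1 : (1 : ℤ) ≤ o k - o l := by omega
    have h2 : (0 : ℤ) ≤ N := by positivity
    nlinarith

theorem conj_mem {f : Fin n → Fin n → ℤ} (hf : Conc f) (h0 : ∀ k l, 0 ≤ f k l) (o : Fin n → ℤ)
    (N : ℕ) {g : GL (Fin n) K} (hg : g ∈ J U f) (hu : g ∈ Uni K (fun i => -o i)) :
    dg U (fun i => N * o i) * g * (dg U (fun i => N * o i))⁻¹ ∈ KK U n N := by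
  refine mem_KK.2 ⟨lev_conj hf h0 o N hg hu, ?_⟩
  have e : (dg U (fun i => N * o i) * g * (dg U (fun i => N * o i))⁻¹)⁻¹ =
      dg U (fun i => N * o i) * g⁻¹ * (dg U (fun i => N * o i))⁻¹ := by group
  rw [e]
  exact lev_conj hf h0 o N ((J U f).inv_mem hg) ((Uni K _).inv_mem hu)

end JAC1a

theorem p_JAC1 (hAV : S_AV) (hUL : S_UL) (hTHA : S_THA) (hTHB : S_THB) :
    S_JAC1 := by
  intro K _ _ _ U n χ c f V _ _ π Λ hD hf hs hΛ hP
  obtain ⟨σ, χ1, h1, h2⟩ := hP
  have h3 := h2.pm σ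
  set o : Fin n → ℤ := fun i => so n (σ.symm i) with ho
  have hoi : Function.Injective o := so_inj.comp σ.symm.injective
  set χ2 : Fin n → Kˣ →* ℂˣ := fun i => χ1 (σ.symm i) with hχ2
  have hag : ∀ i, Agree U (χ2 i) (χ i) 0 := fun i => by
    have := h1 (σ.symm i)
    rwa [Equiv.apply_symm_apply] at this
  set Λ1 : V →ₗ[ℂ] ℂ := Λ ∘ₗ π (pm K σ) with hΛ1
  obtain ⟨x, hx⟩ : ∃ x, Λ1 x ≠ 0 := by
    by_contra h
    push Not at h
    apply hΛ
    ext v
    have := h (π (pm K σ)⁻¹ v)
    rwa [hΛ1, LinearMap.comp_apply, rep_inv'] at this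
  obtain ⟨N, hN⟩ := hs x
  set t : GL (Fin n) K := dg U (fun i => N * o i) with ht
  have htT : t⁻¹ ∈ Tri K o := (Tri K o).inv_mem (dia_mem_Tri o _)
  set z : V := π t⁻¹ x with hz
  have hz0 : Λ1 z ≠ 0 := by
    rw [hz, h3 _ htT]
    exact mul_ne_zero (dch_ne_zero _ _) hx
  have hfix : ∀ l ∈ J U f, l ∈ Uni K (fun i => -o i) → π l z = z := by
    intro l hl hu
    have e : l * t⁻¹ = t⁻¹ * (t * l * t⁻¹) := by group
    rw [hz, ← rep_mul, e, rep_mul, hN _ (JAC1a.conj_mem hf.conc hf.nonneg o N hl hu)]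
  have hch := ch_th hTHA hD hf
  obtain ⟨S, hS1, hS2, hS3⟩ := (hAV hs hch).2 z
  have h1le : ∀ k l, l ≠ k → 1 ≤ f k l + f l k := hf.one_le hD.toCF
  have hterm : ∀ s ∈ S, Λ1 ((th χ s)⁻¹ • π s z) = Λ1 z := by
    intro s hsS
    obtain ⟨b, hb, l, hl, hbT, hlU, rfl⟩ := hUL hf.conc h1le hoi s (hS2 s hsS)
    have e1 : th χ (b * l) = dch χ2 b := by
      rw [hch.mult.2 b hb l hl, th_uni hTHB χ (neg_inj' hoi) hlU, mul_one,
        (hTHB χ).1 o hoi b hbT]
      exact (dch_congr hag fun i => J_diag_unit hf.conc (h1le i) hb).symm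
    rw [map_smul, rep_mul, hfix l hl hlU, h3 b hbT, e1, smul_eq_mul, ← mul_assoc,
      inv_mul_cancel₀ (dch_ne_zero _ _), one_mul]
  refine ⟨_, fun e => ?_, hS3⟩
  have := congrArg Λ1 e
  rw [map_sum, Finset.sum_congr rfl hterm, Finset.sum_const, map_zero, nsmul_eq_mul] at this
  refine mul_ne_zero ?_ hz0 this
  exact_mod_cast (Finset.card_pos.2 ⟨1, hS1⟩).ne'

end Pool.Agent.P.MP_7cb106_nt.PT

end

section

/-! Step TAIL. -/

set_option linter.unusedSectionVars false

namespace Pool.Agent.P.MP_7cb106_nt.PT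

open Matrix

namespace TAILa

variable {K : Type} [NontriviallyNormedField K] [IsUltrametricDist K] {n : ℕ}

theorem th_one (hTHB : S_THB) (χ : Fin n → Kˣ →* ℂˣ) (k : Fin n) {x : ℤ} (hx : x < 0 ∨ n ≤ x)
    {g : GL (Fin n) K} (h1 : ∀ i, i ≠ k → g.val i i = 1)
    (h0 : ∀ i j, i ≠ j → (x < 0 → i ≠ k) → (n ≤ x → j ≠ k) → g.val i j = 0) :
    th χ g = ext (χ k) (g.val k k) := by
  have ho : Function.Injective fun i : Fin n => if i = k then x else (i.val : ℤ) := by
    intro i j e
    have := i.2; have := j.2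
    simp only [Fin.ext_iff] at e ⊢
    split_ifs at e <;> omega
  rw [(hTHB χ).1 _ ho g (mem_Tri.2 fun i j e => ?_), dch, Finset.prod_eq_single k]
  · intro i _ e; rw [h1 i e, ext_one]
  · simp
  · have := i.2; have := j.2
    refine h0 i j ?_ (fun _ => ?_) fun _ => ?_
    all_goals
      intro e'
      simp only [Fin.ext_iff] at e e'
      split_ifs at e <;> omega

end TAILa

open TAILa in
theorem p_TAIL (hTHB : S_THB) :
    S_TAIL := by
  intro K _ _ _ U n χ c a r u hD ha h0 hl hu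
  classical
  obtain ⟨W, hW⟩ : ∃ W, W = u.val - 1 := ⟨_, rfl⟩
  rw [← hW] at h0 hl
  have eu : u.val = 1 + W := by rw [hW]; abel
  have hWW : W * W = 0 := by
    ext i j
    rw [Matrix.mul_apply, Matrix.zero_apply]
    refine Finset.sum_eq_zero fun m _ => ?_
    rcases lt_or_ge m.val r with e | e
    · rw [h0 i m (.inr e), zero_mul]
    · rw [h0 m j (.inl e), mul_zero]
  have ei : (u⁻¹).val = 1 - W := Units.inv_eq_of_mul_eq_one_right (by
    rw [eu, add_mul, one_mul, mul_sub, mul_one, hWW]; abel)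
  have hne : (Finset.univ.filter fun p : Fin n × Fin n => ¬ Lv U a (W p.1 p.2)).Nonempty := by
    by_contra e
    simp only [Finset.not_nonempty_iff_eq_empty, Finset.filter_eq_empty_iff, not_not,
      Finset.mem_univ, forall_const, Prod.forall] at e
    have key : ∀ k l, Lv U (fstd c a k l) (W k l) := fun k l => by
      rcases lt_or_ge k l with e' | e'
      · rw [fstd_lt c a e']; exact e k l
      · rw [h0 k l (by rw [Fin.le_def] at e'; omega)]; exact lv_zero U _
    refine hu (mem_J_of (fun k l => hW ▸ key k l) fun k l => ?_)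
    rw [ei, sub_sub_cancel_left]
    exact (key k l).neg
  obtain ⟨⟨k, l⟩, hp, hmin⟩ := Finset.exists_min_image _
    (fun p : Fin n × Fin n => (p.2.val : ℤ) - p.1.val) hne
  simp only [Finset.mem_filter, Finset.mem_univ, true_and, Prod.forall] at hp hmin
  have hm : ∀ i j : Fin n, (j.val : ℤ) - i.val < l.val - k.val → Lv U a (W i j) := fun i j e => by
    by_contra e'
    exact absurd (hmin i j e') e.not_ge
  have w0 := ne_zero_of_not_lv hp
  have hk : k.val < r := by by_contra e; exact w0 (h0 k l (.inl (by omega)))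
  have hr : r ≤ l.val := by by_contra e; exact w0 (h0 k l (.inr (by omega)))
  have kl : k < l := by rw [Fin.lt_def]; omega
  have hd := hD.differ k l kl.ne
  simp only [Agree, not_forall] at hd
  obtain ⟨α, a1, a2, a3⟩ := hd
  obtain ⟨t, ht⟩ : ∃ t, t = ((α : K) - 1) / W k l := ⟨_, rfl⟩
  have lt : Lv U (c k l - a) t := by
    rw [ht]
    exact (a2.div_of_not (m' := a - 1) (by rwa [sub_add_cancel])).mono (by omega)
  have uo : ∀ i j, i ≠ j → u.val i j = W i j := fun i j e => by
    rw [eu, Matrix.add_apply, Matrix.one_apply_ne e, zero_add]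
  have ud : ∀ i, u.val i i = 1 := fun i => by
    rw [eu, Matrix.add_apply, Matrix.one_apply_eq, h0 i i (by omega), add_zero]
  have ea : 1 + u.val k l * t = α := by
    rw [uo k l kl.ne, ht, mul_div_cancel₀ _ w0]; ring
  have e1 : 1 + (Pi.single k 1 : Fin n → K) ⬝ᵥ (fun i => u.val i l * t) = α := by simpa using ea
  have e2 : 1 + u.val k ⬝ᵥ Pi.single l t = α := by simpa using ea
  have ec : u⁻¹ * rk (fun i => u.val i l * t) (Pi.single k 1) * u =
      rk (Pi.single l t) (u.val k) := by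
    have := rk_conj (e1 ▸ α.ne_zero) u⁻¹
    rw [inv_inv] at this
    rw [this]
    congr 1
    · have : (fun i => u.val i l * t) = u.val *ᵥ Pi.single l t := by
        ext i; simp [mulVec, dotProduct_single]
      rw [this, mulVec_mulVec, ← Units.val_mul, inv_mul_cancel, Units.val_one, one_mulVec]
    · ext j; simp [vecMul, single_dotProduct]
  have a0 := ha.1
  have a4 := ha.2 k l kl.ne
  have sy := hD.symm l k
  refine ⟨rk (fun i => u.val i l * t) (Pi.single k 1), rk_mem_J (e1 ▸ a1) fun i j => ?_, ?_⟩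
  · rcases eq_or_ne j k with rfl | e
    swap
    · rw [Pi.single_eq_of_ne e, mul_zero]; exact lv_zero U _
    rw [Pi.single_eq_same, mul_one]
    rcases eq_or_ne i l with rfl | e
    · rw [ud, one_mul, fstd_gt c a kl, sy]; exact lt
    rw [uo i l e]
    rcases lt_trichotomy i j with e' | rfl | e'
    · rw [fstd_lt c a e']; exact (hl i l).mul' lt (by omega)
    · rw [fstd_diag]; exact (hl i l).mul' lt (by omega)
    · rcases lt_or_ge i.val r with e3 | e3
      · have := hD.intv j j i l le_rfl e'.le (by rw [Fin.le_def]; omega)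
        have := hD.symm i j
        rw [fstd_gt c a e']
        exact (hm i l (by rw [Fin.lt_def] at e'; omega)).mul' lt (by omega)
      · rw [h0 i l (.inl e3), zero_mul]; exact lv_zero U _
  rw [ec]
  refine ⟨rk_mem_J (e2 ▸ a1) fun i j => ?_, ?_⟩
  · rcases eq_or_ne i l with rfl | e
    swap
    · rw [Pi.single_eq_of_ne e, zero_mul]; exact lv_zero U _
    rw [Pi.single_eq_same]
    rcases eq_or_ne k j with rfl | e
    · rw [ud, mul_one, fstd_gt c a kl, sy]; exact lt
    rw [uo k j e]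
    rcases lt_trichotomy i j with e' | rfl | e'
    · rw [fstd_lt c a e']; exact lt.mul' (hl k j) (by omega)
    · rw [fstd_diag]; exact lt.mul' (hl k i) (by omega)
    · rcases lt_or_ge j.val r with e3 | e3
      · rw [h0 k j (.inr e3), mul_zero]; exact lv_zero U _
      · have := hD.intv k j i i (by rw [Fin.le_def]; omega) e'.le le_rfl
        have := hD.symm i j
        rw [fstd_gt c a e']
        exact lt.mul' (hm k j (by rw [Fin.lt_def] at e'; omega)) (by omega)
  · have n1 := e1 ▸ α.ne_zero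
    have n2 := e2 ▸ α.ne_zero
    rw [th_one hTHB χ k (x := n) (.inr le_rfl) (fun i e => by simp [rk_apply n1, e])
        fun i j e _ e' => by simp [rk_apply n1, e, e' le_rfl],
      th_one hTHB χ l (x := -1) (.inl (by omega)) (fun i e => by simp [rk_apply n2, e])
        fun i j e e' _ => by simp [rk_apply n2, e, e' (by omega)], rk_apply n1, rk_apply n2,
      if_pos rfl, if_pos rfl, Pi.single_eq_same, Pi.single_eq_same, mul_one, mul_comm t, ea,
      ext_val, ext_val]
    exact fun e => a3 (Units.ext e)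

end Pool.Agent.P.MP_7cb106_nt.PT

end

section

/-! Step JAC2. -/

set_option linter.unusedSectionVars false

namespace Pool.Agent.P.MP_7cb106_nt.PT

open Matrix

namespace JAC2a

variable {K : Type} [NontriviallyNormedField K] [IsUltrametricDist K] [LocallyCompactSpace K]
  {U : Unif K} {n : ℕ} {χ : Fin n → Kˣ →* ℂˣ} {c : Fin n → Fin n → ℤ} {a : ℤ}
  {V : Type} [AddCommGroup V] [Module ℂ V] {π : Representation ℂ (GL (Fin n) K) V}

/-- a triangular element only needs the levels on its side -/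
theorem tri_mem {f f' : Fin n → Fin n → ℤ} (hf : Conc f) {o : Fin n → ℤ} {g : GL (Fin n) K}
    (hg : g ∈ J U f) (ht : g ∈ Tri K o) (h : ∀ k l, o k ≤ o l → f' k l ≤ f k l) : g ∈ J U f' := by
  have key : ∀ g ∈ J U f, g ∈ Tri K o → Lev U f' g := by
    intro g hg ht k l
    by_cases e : o k ≤ o l
    · exact (J_lev hf hg k l).mono (h k l e)
    · have hne : k ≠ l := by rintro rfl; exact e le_rfl
      rw [Matrix.sub_apply, mem_Tri.1 ht k l (not_le.1 e), Matrix.one_apply_ne hne, sub_zero]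
      exact lv_zero U _
  exact mem_J_of (key g hg ht) (key _ ((J U f).inv_mem hg) ((Tri K o).inv_mem ht))

/-- all gaps of `y` are at least `N` -/
def Gap (N : ℤ) (y : Fin n → ℤ) : Prop := ∀ k l, k < l → N ≤ y k - y l

theorem Gap.le {y : Fin n → ℤ} (h : Gap 0 y) {k l : Fin n} (e : k ≤ l) : y l ≤ y k := by
  rcases e.eq_or_lt with rfl | e
  · exact le_rfl
  · have := h k l e; omega

theorem low_mem {f : Fin n → Fin n → ℤ} (hf : Conc f) {y : Fin n → ℤ} (hy : Gap 0 y)
    {l : GL (Fin n) K} (hl : l ∈ J U f) (ht : l ∈ Uni K fun i => -so n i) :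
    (dg U y)⁻¹ * l * dg U y ∈ J U f :=
  (mem_J_sh' hf y).2 (tri_mem hf hl (Uni_le_Tri ht) fun k l e => by
    have := hy.le (so_le.1 (neg_le_neg_iff.1 e)); simp only [sh]; omega)

theorem upp_mem {f : Fin n → Fin n → ℤ} (hf : Conc f) {y : Fin n → ℤ} (hy : Gap 0 y)
    {b : GL (Fin n) K} (hb : b ∈ J U f) (ht : b ∈ Tri K (so n)) :
    dg U y * b * (dg U y)⁻¹ ∈ J U f :=
  tri_mem (hf.sh y) ((mem_J_sh hf y).2 hb) ((Tri K _).mul_mem ((Tri K _).mul_mem
    (dia_mem_Tri _ _) ht) ((Tri K _).inv_mem (dia_mem_Tri _ _))) fun k l e => by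
      have := hy.le (so_le.1 e); simp only [sh]; omega

/-- the tail that starts at `r` -/
def tl (n r : ℕ) : Fin n → ℤ := fun i => if r ≤ i.val then -1 else 0

theorem gap_tl (r : ℕ) : Gap 0 (tl n r) := by
  intro k l e
  rw [Fin.lt_def] at e
  simp only [tl]; split_ifs <;> omega

theorem co_act {H : Subgroup (GL (Fin n) K)} {Θ : GL (Fin n) K → ℂ} {h : GL (Fin n) K}
    (hh : h ∈ H) {x : V} : π h x ∈ Co π H Θ ↔ Θ h • x ∈ Co π H Θ :=
  ⟨fun e => by simpa using Submodule.sub_mem _ e (sub_mem_Co π Θ hh x),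
    fun e => by simpa using Submodule.add_mem _ e (sub_mem_Co π Θ hh x)⟩

theorem avg_sub {H : Subgroup (GL (Fin n) K)} {Θ : GL (Fin n) K → ℂ} (hΘ : Mult H Θ)
    {S : Finset (GL (Fin n) K)} (hS : ∀ s ∈ S, s ∈ H) (x : V) :
    ∑ s ∈ S, (Θ s)⁻¹ • π s x - (S.card : ℂ) • x ∈ Co π H Θ := by
  rw [Nat.cast_smul_eq_nsmul, ← Finset.sum_const, ← Finset.sum_sub_distrib]
  refine Submodule.sum_mem _ fun s hs => ?_
  have := Submodule.smul_mem _ (Θ s)⁻¹ (sub_mem_Co π Θ (hS s hs) x)
  rwa [smul_sub, smul_smul, inv_mul_cancel₀ (hΘ.ne_zero (hS s hs)), one_smul] at this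

/-- the commutator of a triangular element with a tail -/
theorem comm_tail {f : Fin n → Fin n → ℤ} (hf : Conc f) (h0 : ∀ k l, 0 ≤ f k l)
    (hu : ∀ k l, k < l → f k l = a) (r : ℕ) {b : GL (Fin n) K} (hb : b ∈ J U f)
    (ht : b ∈ Tri K (so n)) {u : GL (Fin n) K}
    (e : u = (dg U (tl n r))⁻¹ * b * dg U (tl n r) * b⁻¹) :
    (∀ k l : Fin n, r ≤ k.val ∨ l.val < r → (u.val - 1) k l = 0) ∧
      ∀ k l, Lv U (a - 1) ((u.val - 1) k l) := by
  have e1 : ∀ k m, (u.val - 1) k m =
      ∑ l, (b.val k l * pw U (tl n r l - tl n r k) - b.val k l) * (b⁻¹).val l m := by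
    intro k m
    have e2 : u.val - 1 = ((dg U (-tl n r) * b * (dg U (-tl n r))⁻¹).val - b.val) * (b⁻¹).val := by
      rw [Matrix.sub_mul, ← Units.val_mul, ← Units.val_mul, mul_inv_cancel, e, dg_neg, inv_inv]
      rfl
    rw [e2, Matrix.mul_apply]
    refine Finset.sum_congr rfl fun l _ => ?_
    rw [Matrix.sub_apply, dg_conj, Pi.neg_apply, Pi.neg_apply, neg_sub_neg]
  have z : ∀ k l : Fin n, r ≤ k.val ∨ l.val < r →
      b.val k l * pw U (tl n r l - tl n r k) - b.val k l = 0 := by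
    intro k l h
    rcases lt_or_ge l k with e | e
    · rw [mem_Tri.1 ht k l (so_lt.2 e)]; simp
    · rw [Fin.le_def] at e
      rw [show tl n r l - tl n r k = 0 by simp only [tl]; split_ifs <;> omega, pw_zero]; simp
  refine ⟨fun k m h => ?_, fun k m => ?_⟩
  · rw [e1]
    refine Finset.sum_eq_zero fun l _ => ?_
    rcases lt_or_ge m l with e | e
    · rcases h with h | h
      · rw [z k l (Or.inl h), zero_mul]
      · rw [mem_Tri.1 ((Tri K _).inv_mem ht) l m (so_lt.2 e), mul_zero]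
    · rw [Fin.le_def] at e
      rw [z k l (by omega), zero_mul]
  · rw [e1]
    refine lv_sum _ _ fun l _ => ?_
    by_cases h : r ≤ k.val ∨ l.val < r
    · rw [z k l h, zero_mul]; exact lv_zero U _
    · have e : k < l := by rw [Fin.lt_def]; omega
      have h1 := J_off hf hb e.ne
      rw [hu k l e] at h1
      refine Lv.mul' (m := a - 1) (Lv.sub (h1.mul' (lv_pw U _) ?_) (h1.mono (by omega)))
        (K0_ent (J_le_K0 h0 ((J U f).inv_mem hb)) l m) (by omega)
      simp only [tl]; split_ifs <;> omega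

section
variable (hTAIL : S_TAIL) (hAV : S_AV) (hUL : S_UL) (hTHA : S_THA) (hTHB : S_THB)
  (hD : Dat U χ c) (ha : Adm c a) (hs : Sm U π)
include hTAIL hAV hUL hTHA hTHB hD ha hs

/-- one tail -/
theorem one (r : ℕ) {y : V} (hy : Eig π (J U (fstd c a)) (th χ) y)
    (h : π (dg U (tl n r)) y ∈ Co π (J U (fstd c a)) (th χ)) : y = 0 := by
  classical
  have hf := fit_fstd hD.toCF ha
  have hc := ch_th hTHA hD hf
  obtain ⟨h1, h2⟩ := hAV hs hc
  obtain ⟨S, hS1, hS, hz⟩ := h2 (π (dg U (tl n r)) y)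
  have z0 := h1 _ hz (by
    simpa using Submodule.add_mem _ (avg_sub (π := π) hc.mult hS (π (dg U (tl n r)) y))
      (Submodule.smul_mem _ (S.card : ℂ) h))
  set t := dg U (tl n r) with ht
  have z1 : ∑ s ∈ S, (th χ s)⁻¹ • π (t⁻¹ * s * t) y = 0 := by
    have := congrArg (π t⁻¹) z0
    simpa only [map_sum, map_smul, map_zero, ← rep_mul, ← mul_assoc] using this
  rw [← Finset.sum_filter_add_sum_filter_not S fun s => t⁻¹ * s * t ∈ J U (fstd c a)] at z1
  have a1 : ∑ s ∈ S.filter fun s => t⁻¹ * s * t ∈ J U (fstd c a), (th χ s)⁻¹ • π (t⁻¹ * s * t) y =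
      ((S.filter fun s => t⁻¹ * s * t ∈ J U (fstd c a)).card : ℂ) • y := by
    rw [Nat.cast_smul_eq_nsmul, ← Finset.sum_const]
    refine Finset.sum_congr rfl fun s hs => ?_
    rw [hy _ (Finset.mem_filter.1 hs).2, th_dg' hTHB, smul_smul,
      inv_mul_cancel₀ (th_ne_zero χ s), one_smul]
  have a2 : ∑ s ∈ S.filter fun s => ¬ t⁻¹ * s * t ∈ J U (fstd c a),
      (th χ s)⁻¹ • π (t⁻¹ * s * t) y ∈ Co π (J U (fstd c a)) (th χ) := by
    refine Submodule.sum_mem _ fun s hs => Submodule.smul_mem _ _ ?_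
    obtain ⟨hs1, hs2⟩ := Finset.mem_filter.1 hs
    obtain ⟨b, hb, l, hl, hb', hl', rfl⟩ :=
      hUL hf.conc (hf.one_le hD.toCF) so_inj s (hS s hs1)
    have hj := (J U (fstd c a)).mul_mem hb (low_mem hf.conc (gap_tl r) hl hl')
    have e : t⁻¹ * (b * l) * t = t⁻¹ * b * t * b⁻¹ * (b * (t⁻¹ * l * t)) := by group
    obtain ⟨u1, u2⟩ := comm_tail hf.conc hf.nonneg (fun k l e => fstd_lt c a e) r hb hb' rfl
    obtain ⟨j, hj1, hj2, hj3⟩ := hTAIL hD ha u1 u2 fun hu =>
      hs2 (e ▸ (J U (fstd c a)).mul_mem hu hj)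
    rw [e, rep_mul, hy _ hj, map_smul]
    exact Submodule.smul_mem _ _ (hy.mem_Co hj1 hj2 hj3)
  rw [a1, add_eq_zero_iff_neg_eq] at z1
  rw [← z1, neg_mem_iff, Submodule.smul_mem_iff] at a2
  · exact h1 y hy a2
  · exact Nat.cast_ne_zero.2 (Finset.card_ne_zero.2 ⟨1, Finset.mem_filter.2
      ⟨hS1, by simp⟩⟩)

/-- adding a tail -/
theorem step (r : ℕ) {v : V} (hv : Eig π (J U (fstd c a)) (th χ) v) {y : Fin n → ℤ} (hy : Gap 0 y)
    (h : π (dg U (tl n r + y)) v ∈ Co π (J U (fstd c a)) (th χ)) :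
    π (dg U y) v ∈ Co π (J U (fstd c a)) (th χ) := by
  have hf := fit_fstd hD.toCF ha
  have hc := ch_th hTHA hD hf
  obtain ⟨S, hS1, hS, hz⟩ := (hAV hs hc).2 (π (dg U y) v)
  have z0 := one hTAIL hAV hUL hTHA hTHB hD ha hs r hz (by
    rw [map_sum]
    refine Submodule.sum_mem _ fun s hs => ?_
    obtain ⟨b, hb, l, hl, hb', hl', rfl⟩ :=
      hUL hf.conc (hf.one_le hD.toCF) so_inj s (hS s hs)
    have e : dg U (tl n r) * (b * l) * dg U y = dg U (tl n r) * b * (dg U (tl n r))⁻¹ *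
        (dg U (tl n r + y) * ((dg U y)⁻¹ * l * dg U y)) := by rw [dg_add]; group
    rw [map_smul, ← rep_mul, ← rep_mul, e, rep_mul, rep_mul π (dg U (tl n r + y)),
      hv _ (low_mem hf.conc hy hl hl'), map_smul, map_smul]
    exact Submodule.smul_mem _ _ (Submodule.smul_mem _ _
      ((co_act (upp_mem hf.conc (gap_tl r) hb hb')).2 (Submodule.smul_mem _ _ h))))
  have := avg_sub (π := π) hc.mult hS (π (dg U y) v)
  rwa [z0, zero_sub, neg_mem_iff, Submodule.smul_mem_iff _
    (Nat.cast_ne_zero.2 (Finset.card_ne_zero.2 ⟨1, hS1⟩))] at this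

theorem far {v : V} (hv : Eig π (J U (fstd c a)) (th χ) v) (h0 : v ≠ 0) (N : ℕ) :
    ∃ y, Gap N y ∧ π (dg U y) v ∉ Co π (J U (fstd c a)) (th χ) := by
  induction N with
  | zero =>
    refine ⟨0, fun k l _ => by simp, fun h => h0 ?_⟩
    rw [dg_zero, map_one] at h
    exact (hAV hs (ch_th hTHA hD (fit_fstd hD.toCF ha))).1 v hv h
  | succ N ih =>
    have key : ∀ r : ℕ, ∃ y : Fin n → ℤ,
        (∀ k l, k < l → (N : ℤ) + (if l.val < r then 1 else 0) ≤ y k - y l) ∧
        π (dg U y) v ∉ Co π (J U (fstd c a)) (th χ) := by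
      intro r
      induction r with
      | zero => simpa [Gap] using ih
      | succ r ih =>
        obtain ⟨y, hy, hn⟩ := ih
        refine ⟨tl n r + y, fun k l e => ?_, fun h => hn
          (step hTAIL hAV hUL hTHA hTHB hD ha hs r hv (fun k l e => ?_) h)⟩
        · have := hy k l e
          rw [Fin.lt_def] at e
          simp only [Pi.add_apply, tl]
          split_ifs at this ⊢ <;> omega
        · have := hy k l e
          split_ifs at this <;> omega
    obtain ⟨y, hy, hn⟩ := key n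
    exact ⟨y, fun k l e => by simpa [l.2] using hy k l e, hn⟩

end

theorem lev_far {f : Fin n → Fin n → ℤ} (h0 : ∀ k, f k k = 0) {b : GL (Fin n) K}
    (hb : b ∈ Bz K n) : ∃ N : ℕ, ∀ y, Gap N y → Lev U f (dg U y * b * (dg U y)⁻¹) := by
  choose A hA using fun p : Fin n × Fin n => exists_lv U (b.val p.1 p.2)
  obtain ⟨N, hN⟩ := exists_bound fun k l => (A (k, l) : ℤ) + f k l
  refine ⟨N, fun y hy => lev_of (fun k l e => ?_) fun k => ?_⟩
  · rw [dg_conj]
    rcases lt_or_gt_of_ne e with e | e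
    · have := hN k l
      have := hy k l e
      exact (hA (k, l)).mul' (lv_pw U _) (by omega)
    · rw [mem_Tri.1 hb.1 k l (so_lt.2 e), zero_mul]; exact lv_zero U _
  · rw [dg_conj, sub_self, pw_zero, mul_one, h0]
    exact (lv_unit (hb.2 k)).sub (lv_one U)

theorem push (hTHB : S_THB) {f : Fin n → Fin n → ℤ} (h0 : ∀ k, f k k = 0) {x : V}
    (hx : x ∈ Co π (Bz K n) (dch χ)) :
    ∃ N : ℕ, ∀ y, Gap N y → π (dg U y) x ∈ Co π (J U f) (th χ) := by
  have mono : ∀ {N N' : ℕ} {y : Fin n → ℤ}, N ≤ N' → Gap N' y → Gap N y :=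
    fun h hy k l e => le_trans (by exact_mod_cast h) (hy k l e)
  induction hx using Submodule.span_induction with
  | mem x hx =>
    obtain ⟨b, hb, x, rfl⟩ := hx
    obtain ⟨N, hN⟩ := lev_far (U := U) h0 hb
    obtain ⟨N', hN'⟩ := lev_far (U := U) h0 ((Bz K n).inv_mem hb)
    refine ⟨max N N', fun y hy => ?_⟩
    have hj : dg U y * b * (dg U y)⁻¹ ∈ J U f := mem_J_of (hN y (mono (le_max_left _ _) hy))
      (by simpa [mul_assoc] using hN' y (mono (le_max_right _ _) hy))
    have := sub_mem_Co π (th χ) hj (π (dg U y) x)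
    rwa [th_dg hTHB, (hTHB χ).1 _ so_inj b hb.1, rep_mul, rep_inv, rep_mul, ← map_smul,
      ← map_sub] at this
  | zero => exact ⟨0, fun y _ => by simp⟩
  | add x x' _ _ h h' =>
    obtain ⟨N, hN⟩ := h
    obtain ⟨N', hN'⟩ := h'
    exact ⟨max N N', fun y hy => by
      rw [map_add]
      exact Submodule.add_mem _ (hN y (mono (le_max_left _ _) hy))
        (hN' y (mono (le_max_right _ _) hy))⟩
  | smul r x _ h =>
    exact h.imp fun N hN y hy => by rw [map_smul]; exact Submodule.smul_mem _ _ (hN y hy)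

end JAC2a

theorem p_JAC2 (hTAIL : S_TAIL) (hAV : S_AV) (hUL : S_UL) (hTHA : S_THA) (hTHB : S_THB) :
    S_JAC2 := by
  intro K _ _ _ U n χ c a V _ _ π v hD ha hs hv h0 h
  obtain ⟨N, hN⟩ := JAC2a.push (U := U) hTHB (fstd_diag c a) h
  obtain ⟨y, hy, hn⟩ := JAC2a.far hTAIL hAV hUL hTHA hTHB hD ha hs hv h0 N
  exact hn (hN y hy)

end Pool.Agent.P.MP_7cb106_nt.PT

end

section

/-! Step INT. -/

set_option linter.unusedSectionVars false

namespace Pool.Agent.P.MP_7cb106_nt.PT

open Matrix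

namespace INTa

variable {K : Type} [NontriviallyNormedField K] [IsUltrametricDist K] [LocallyCompactSpace K]
  {U : Unif K} {n : ℕ} {χ : Fin n → Kˣ →* ℂˣ} {c f : Fin n → Fin n → ℤ}
  {V : Type} [AddCommGroup V] [Module ℂ V] {π : Representation ℂ (GL (Fin n) K) V}

theorem tri_uni {o : Fin n → ℤ} {g : GL (Fin n) K} (h1 : g ∈ Tri K o)
    (h2 : g ∈ Uni K fun i => -o i) : g = 1 := by
  ext k l
  by_cases e : o l < o k
  · have hne : k ≠ l := by rintro rfl; exact lt_irrefl _ e
    rw [mem_Tri.1 h1 k l e, Units.val_one, Matrix.one_apply_ne hne]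
  · exact sub_eq_zero.1 (mem_Uni.1 h2 k l (by simpa using e))

theorem eig_map {T : Type} [AddCommGroup T] [Module ℂ T] {π1 : Representation ℂ (GL (Fin n) K) T}
    {q : V →ₗ[ℂ] T} (hq : ∀ g x, q (π g x) = π1 g (q x)) {H : Subgroup (GL (Fin n) K)}
    {Θ : GL (Fin n) K → ℂ} {v : V} (hv : Eig π H Θ v) : Eig π1 H Θ (q v) :=
  fun g hg => by rw [← hq, hv g hg, map_smul]

theorem low (hFM : S_FM) (hUL : S_UL) (hD : Dat U χ c) (hf : Fit c f) (h0 : ∀ k, f k k = 0)
    {Λ : V →ₗ[ℂ] ℂ} (hΛ : PS U χ π Λ) {v : V} (hv : Eig π (J U f) (th χ) v)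
    {l : GL (Fin n) K} (hl : l ∈ Uni K fun i => -so n i) (hne : Λ (π l v) ≠ 0) : l ∈ J U f := by
  obtain ⟨b1, hb1, j1, hj1, e⟩ := (hFM hD hf h0 hne).2 hv hΛ
  obtain ⟨b2, -, l2, hl2, hb2, hl2', e2⟩ := hUL hf.conc (hf.one_le hD.toCF) so_inj j1 hj1
  have e3 : l * l2⁻¹ = b1 * b2 := by rw [e, e2]; group
  have := tri_uni (e3 ▸ (Tri K _).mul_mem hb1 hb2) ((Uni K _).mul_mem hl ((Uni K _).inv_mem hl2'))
  rwa [mul_inv_eq_one.1 this]

open Classical in
theorem term (hFM : S_FM) (hUL : S_UL) (hTHA : S_THA) (hTHB : S_THB) (hD : Dat U χ c)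
    (hf : Fit c f) (h0 : ∀ k, f k k = 0) {Λ : V →ₗ[ℂ] ℂ} (hΛ : PS U χ π Λ) {v : V}
    (hv : Eig π (J U f) (th χ) v) {b l : GL (Fin n) K} (hb : b ∈ J U f) (hl : l ∈ J U f)
    (hb' : b ∈ Tri K (so n)) (hl' : l ∈ Uni K fun i => -so n i) (d : Fin n → Kˣ) :
    (th χ (b * l))⁻¹ * Λ (π (b * l) (π (dia d) v)) =
      (if (dia d)⁻¹ * l * dia d ∈ J U f then 1 else 0) * Λ (π (dia d) v) := by
  have hu : (dia d)⁻¹ * l * dia d ∈ Uni K fun i => -so n i := by
    simpa using Uni_conj (neg_inj' so_inj) ((Tri K _).inv_mem (dia_mem_Tri _ d)) hl'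
  have h1 : Λ (π ((dia d)⁻¹ * l * dia d) v) =
      (if (dia d)⁻¹ * l * dia d ∈ J U f then 1 else 0) * Λ v := by
    split_ifs with h
    · rw [hv _ h, th_uni hTHB χ (neg_inj' so_inj) hu, one_smul, one_mul]
    · rw [zero_mul]
      by_contra hne
      exact h (low hFM hUL hD hf h0 hΛ hv hu hne)
  obtain ⟨χ1, ha, hP⟩ := hΛ
  have h2 : th χ (b * l) = dch χ1 b := by
    rw [(ch_th hTHA hD hf).mult.2 b hb l hl, th_uni hTHB χ (neg_inj' so_inj) hl', mul_one,
      (hTHB χ).1 _ so_inj b hb',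
      dch_congr ha fun i => J_diag_unit hf.conc (hf.one_le hD.toCF i) hb]
  have e : l * dia d = dia d * ((dia d)⁻¹ * l * dia d) := by group
  rw [h2, rep_mul, hP b hb', ← mul_assoc, inv_mul_cancel₀ (dch_ne_zero _ _), one_mul, ← rep_mul, e,
    rep_mul, hP _ (dia_mem_Tri _ d), h1, hP _ (dia_mem_Tri _ d)]
  ring

/-- the principal series functionals on quotients do not separate `x` and `y` -/
def Tst (U : Unif K) (χ : Fin n → Kˣ →* ℂˣ) (π : Representation ℂ (GL (Fin n) K) V) (x y : V) :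
    Prop :=
  ∀ (T : Type) [AddCommGroup T] [Module ℂ T] (π1 : Representation ℂ (GL (Fin n) K) T)
    (q : V →ₗ[ℂ] T) (Λ : T →ₗ[ℂ] ℂ), (∀ g x, q (π g x) = π1 g (q x)) → PS U χ π1 Λ →
    Λ (q x) = Λ (q y)

theorem claim (hFM : S_FM) (hAV : S_AV) (hUL : S_UL) (hTHA : S_THA) (hTHB : S_THB)
    (hD : Dat U χ c) (hf : Fit c f) (h0 : ∀ k, f k k = 0) (hs : Sm U π) {δ : V}
    (hδ : Eig π (J U f) (th χ) δ) (g : GL (Fin n) K) :
    ∃ y ∈ Submodule.span ℂ {y | Eig π (J U f) (th χ) y ∧
      ∃ d, y ∈ Sp π {x | ∃ s ∈ J U f, x = s * dia d} δ}, Tst U χ π (π g δ) y := by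
  classical
  by_cases hg : ∃ b ∈ Tri K (so n), ∃ j ∈ J U f, g = b * j
  swap
  · refine ⟨0, Submodule.zero_mem _, fun T _ _ π1 q Λ hq hΛ => ?_⟩
    rw [map_zero, map_zero, hq]
    by_contra hne
    exact hg ((hFM hD hf h0 hne).2 (eig_map hq hδ) hΛ)
  obtain ⟨b0, hb0, j, hj, rfl⟩ := hg
  obtain ⟨u, hu, d, -, rfl⟩ := Tri_eq so_inj hb0
  obtain ⟨S, h1, hS, hE⟩ := (hAV hs (ch_th hTHA hD hf)).2 (π (dia d) δ)
  choose! b hb l hl hb' hl' e using hUL (U := U) hf.conc (hf.one_le hD.toCF) so_inj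
  set γ : ℂ := ∑ s ∈ S, if (dia d)⁻¹ * l s * dia d ∈ J U f then 1 else 0 with hγ
  have hγ0 : γ ≠ 0 := by
    rw [hγ, Finset.sum_boole, Nat.cast_ne_zero, ← Nat.pos_iff_ne_zero, Finset.card_pos]
    refine ⟨1, Finset.mem_filter.2 ⟨h1, ?_⟩⟩
    have e1 : l 1 = (b 1)⁻¹ := eq_inv_of_mul_eq_one_right (e 1 (J U f).one_mem).symm
    rw [tri_uni (e1 ▸ (Tri K _).inv_mem (hb' 1 (J U f).one_mem)) (hl' 1 (J U f).one_mem)]
    simp
  refine ⟨(th χ j / γ) • ∑ s ∈ S, (th χ s)⁻¹ • π s (π (dia d) δ),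
    Submodule.smul_mem _ _ (Submodule.subset_span ⟨hE, d, Submodule.sum_mem _ fun s hs =>
      Submodule.smul_mem _ _ ?_⟩), fun T _ _ π1 q Λ hq hΛ => ?_⟩
  · rw [← rep_mul]; exact mem_Sp π (by exact ⟨s, hS s hs, rfl⟩) δ
  have hv := eig_map hq hδ
  have h2 : Λ (q (∑ s ∈ S, (th χ s)⁻¹ • π s (π (dia d) δ))) = γ * Λ (π1 (dia d) (q δ)) := by
    rw [map_sum, map_sum, hγ, Finset.sum_mul]
    refine Finset.sum_congr rfl fun s hs => ?_
    have hs' := hS s hs
    rw [map_smul, map_smul, hq, hq, smul_eq_mul,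
      ← term hFM hUL hTHA hTHB hD hf h0 hΛ hv (hb s hs') (hl s hs') (hb' s hs') (hl' s hs') d,
      ← e s hs']
  obtain ⟨χ1, -, hP⟩ := hΛ
  rw [map_smul, map_smul, h2, hq, mul_assoc, rep_mul, hP.uni hu, rep_mul, hv j hj, map_smul,
    map_smul, smul_eq_mul, smul_eq_mul, ← mul_assoc, div_mul_cancel₀ _ hγ0]

end INTa

open INTa in
theorem p_INT (hJAC2 : S_JAC2) (hE3 : S_E3) (hFM : S_FM) (hAV : S_AV) (hUL : S_UL) (hTHA : S_THA) (hTHB : S_THB) :
    S_INT := by
  intro K _ _ _ U n χ c a V _ _ π δ u hD ha hs hsep hδ hu hsp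
  have hf := fit_fstd hD.toCF ha
  set A := Submodule.span ℂ {y | Eig π (J U (fstd c a)) (th χ) y ∧
    ∃ d, y ∈ Sp π {x | ∃ s ∈ J U (fstd c a), x = s * dia d} δ} with hA
  have h1 : ∀ y ∈ A, Eig π (J U (fstd c a)) (th χ) y := by
    intro y hy
    induction hy using Submodule.span_induction with
    | mem x hx => exact hx.1
    | zero => exact eig_zero _ _ _
    | add x y _ _ hx hy => exact hx.add hy
    | smul t x _ hx => exact hx.smul t
  have h2 : ∀ x ∈ Sp π Set.univ δ, ∃ y ∈ A, Tst U χ π x y := by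
    intro x hx
    induction hx using Submodule.span_induction with
    | mem x hx =>
      obtain ⟨g, -, rfl⟩ := hx
      exact claim hFM hAV hUL hTHA hTHB hD hf (fstd_diag c a) hs hδ g
    | zero => exact ⟨0, A.zero_mem, fun _ _ _ _ _ _ _ _ => rfl⟩
    | add x y _ _ hx hy =>
      obtain ⟨x', hx', e1⟩ := hx
      obtain ⟨y', hy', e2⟩ := hy
      exact ⟨x' + y', A.add_mem hx' hy', fun T _ _ π1 q Λ hq hΛ => by
        simp only [map_add, e1 T π1 q Λ hq hΛ, e2 T π1 q Λ hq hΛ]⟩
    | smul t x _ hx =>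
      obtain ⟨x', hx', e1⟩ := hx
      exact ⟨t • x', A.smul_mem t hx', fun T _ _ π1 q Λ hq hΛ => by
        simp only [map_smul, e1 T π1 q Λ hq hΛ]⟩
  obtain ⟨y, hy, hT⟩ := h2 u hsp
  by_contra hne
  obtain ⟨T, _, _, π1, q, hi, hs1, hq, hq0⟩ := hsep (u - y) (sub_ne_zero.2 fun e => hne (e ▸ hy))
  have hv := eig_map hq (hu.sub (h1 y hy))
  obtain ⟨Λ, hΛ0, hΛ⟩ := sorted hJAC2 hE3 hD ha hi hs1 hv hq0
  refine ps_ne hFM hD hf (fstd_diag c a) hi hΛ hΛ0 hv hq0 ?_
  rw [map_sub, map_sub, hT T π1 q Λ hq hΛ, sub_self]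

end Pool.Agent.P.MP_7cb106_nt.PT

end

section

/-! Step START. -/

set_option linter.unusedSectionVars false

namespace Pool.Agent.P.MP_7cb106_nt.PT

open Matrix

theorem p_START (hAV : S_AV) (hUL : S_UL) (hTHA : S_THA) (hTHB : S_THB) :
    S_START := by
  intro K _ _ _ U n χ c a V _ _ ρ X P hM hD ha
  obtain ⟨Λ, ⟨χ', hχ, hΛ⟩, v, hv, h0⟩ := hM.start
  obtain ⟨N1, hN1⟩ := hM.sm v
  obtain ⟨B, hB⟩ := exists_bound c
  obtain ⟨f, hlt, hge⟩ : ∃ f : Fin n → Fin n → ℤ, (∀ k l, l < k → f k l = (N1 + B + 1 : ℕ)) ∧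
      ∀ k l, k ≤ l → f k l = 0 :=
    ⟨fun k l => if l < k then (N1 + B + 1 : ℕ) else 0, fun _ _ h => if_pos h,
      fun _ _ h => if_neg h.not_gt⟩
  have hn (k l) : 0 ≤ f k l := by
    rcases lt_or_ge l k with h | h
    · rw [hlt k l h]; positivity
    · exact (hge k l h).ge
  have hs (k l) (e : k ≠ l) : f k l + f l k = (N1 + B + 1 : ℕ) := by
    rcases lt_or_gt_of_ne e with h | h
    · rw [hge k l h.le, hlt l k h, zero_add]
    · rw [hge l k h.le, hlt k l h, add_zero]
  have hf : Conc f := conc_of (fun k => hn k k)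
    (fun k l _ => by rw [hge k k le_rfl]; exact add_nonneg (hn _ _) (hn _ _))
    fun x y z h1 h2 => by
      simp only [hge _ _ h1.le, hge _ _ h2.le, hge _ _ (h1.trans h2).le, hlt _ _ h1, hlt _ _ h2,
        hlt _ _ (h1.trans h2)]
      omega
  have h1 (k l) (e : l ≠ k) : 1 ≤ f k l + f l k := by rw [hs k l e.symm]; omega
  have hc := ch_th' hTHA hD hf hn fun k l e => by have := hB k l; rw [hs k l e]; omega
  obtain ⟨S, hS1, hS, he⟩ := (hAV hM.sm hc).2 v
  have key : ∀ s ∈ S, Λ ((th χ s)⁻¹ • ρ s v) = Λ v := by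
    intro s h
    obtain ⟨b, hb, l, hl, hb', hl', rfl⟩ := hUL hf h1 so_inj s (hS s h)
    have lv (g) (hg : g ∈ J U f) (hg' : g ∈ Uni K fun i => -so n i) :
        Lev U (fun _ _ => (N1 : ℤ)) g := fun k j => by
      rcases lt_or_ge j k with e | e
      · exact (J_lev hf hg k j).mono (by simp only [hlt k j e]; omega)
      · rw [hg' k j (neg_le_neg (so_le.2 e))]; exact lv_zero U _
    rw [map_smul, rep_mul, hN1 l (mem_KK.2 ⟨lv l hl hl', lv _ ((J U f).inv_mem hl)
      ((Uni K _).inv_mem hl')⟩), hΛ b hb', hc.mult.2 b hb l hl,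
      th_uni hTHB χ (neg_inj' so_inj) hl', mul_one, (hTHB χ).1 _ so_inj b hb',
      dch_congr hχ fun i => J_diag_unit hf (h1 i) hb, smul_eq_mul,
      inv_mul_cancel_left₀ (dch_ne_zero _ _)]
  have hr : Rel U ρ X (J U f) (th χ) 1 := by
    refine ⟨_, Submodule.sum_mem _ fun s h => Submodule.smul_mem _ _
      (hM.stab (St_one (U := U) ▸ hc.le (hS s h)) hv), fun e => ?_, he.mono inf_le_left⟩
    have := congrArg Λ e
    rw [map_sum, Finset.sum_congr rfl key, map_zero, Finset.sum_const, nsmul_eq_mul] at this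
    exact mul_ne_zero (Nat.cast_ne_zero.2 (Finset.card_ne_zero_of_mem hS1)) h0 this
  refine ⟨N1 + B + 1, fun m hm => ?_⟩
  have := hr.act hM (H' := J U (fstd c a)) (Θ' := th χ) (dg U m) fun s h2 h3 => by
    rw [mul_one, St_dg] at h3
    have hF := fit_fstd hD.toCF ha
    have hm' : Conc fun k l => m k - m l := ⟨fun k => by simp, fun k l j => by simp⟩
    have lv (g) (hg : g ∈ J U (fstd c a)) (hg' : g ∈ J U fun k l => m k - m l) :
        Lev U (sh f m) g := fun k l => by
      rcases lt_or_ge l k with e | e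
      · refine (J_lev hF.conc hg k l).mono ?_
        have := hm l k e
        have := hF.nonneg k l
        rw [sh, hlt k l e]
        omega
      · exact (J_lev hm' hg' k l).mono (by rw [sh, hge k l e, zero_add])
    exact ⟨(mem_J_sh' hf m).2 (mem_J_of (lv s h2 h3)
      (lv _ ((J U _).inv_mem h2) ((J U _).inv_mem h3))), (th_dg' hTHB χ m s).symm⟩
  rwa [mul_one] at this

end Pool.Agent.P.MP_7cb106_nt.PT

end

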