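import Pool.Agent.P.MP_7cb106_nt.PB.Base

set_option autoImplicit false

section

/-! Step STEP3. -/

set_option linter.unusedSectionVars false

namespace Pool.Agent.P.MP_7cb106_nt.PT

open Matrix

namespace STEP3a

variable {K : Type} [NontriviallyNormedField K] [IsUltrametricDist K] {U : Unif K} {n : ℕ}
  {κ : Type} [Field κ] (R : Red U κ) {c f : Fin n → Fin n → ℤ} {k r : Fin n}
  {g h : GL (Fin n) K}

/-- ratio of two diagonal entries -/
def al (k r : Fin n) (h : GL (Fin n) K) : κ := R.red (h.val r r) / R.red (h.val k k)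

/-- leading term of the entry `(r, k)` -/
def be (C : ℤ) (k r : Fin n) (h : GL (Fin n) K) : κ :=
  R.red (h.val r k / pw U (C - 1)) / R.red (h.val k k)

theorem rd_ne (hc : CF c) (hf : Fit c f) (hg : g ∈ J U f) (i : Fin n) : R.red (g.val i i) ≠ 0 :=
  (R.ne_zero_iff (J_diag hf.conc hg i)).2 (J_diag_unit hf.conc (hf.one_le hc i) hg)

theorem rd_mul (hc : CF c) (hf : Fit c f) (hg : g ∈ J U f) (hh : h ∈ J U f) (i : Fin n) :
    R.red ((g * h).val i i) = R.red (g.val i i) * R.red (h.val i i) := by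
  have a := J_diag hf.conc hg i
  have b := J_diag hf.conc hh i
  rw [← R.mul _ _ a b]
  exact R.congr (a.mul' b (by omega)) (J_diag_mul hf.conc (hf.one_le hc i) hg hh)

theorem al_one (h1 : ∀ i, Lv U 1 (g.val i i - 1)) : al R k r g = 1 := by
  rw [al, R.congr (lv_one U) (h1 r), R.congr (lv_one U) (h1 k), R.one, div_one]

theorem ch_al (hc : CF c) (hf : Fit c f) (η : MulChar κ ℂ) :
    Ch U (J U f) fun h => η (al R k r h) := by
  refine ⟨J_le_K0 hf.nonneg, ⟨?_, fun g hg h hh => ?_⟩, 1, fun g _ hg => ?_⟩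
  · simp [al, R.one]
  · simp only [← map_mul, al, rd_mul R hc hf hg hh, mul_div_mul_comm]
  · rw [al_one R fun i => (mem_KK.1 hg).1.diag i, map_one]

theorem f0_rk (e : k < r) : ft c r k.val r k = c r k - 1 := by rw [ft_gt c r _ e]; simp
theorem f1_rk (e : k < r) : ft c r (k.val + 1) r k = c r k := by rw [ft_gt c r _ e]; simp
theorem f0_kr (e : k < r) : ft c r k.val k r = 1 := by rw [ft_lt c r _ e]; simp
theorem f1_kr (e : k < r) : ft c r (k.val + 1) k r = 0 := by rw [ft_lt c r _ e]; simp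

theorem f_eq {i j : Fin n} (h1 : ¬ (i = r ∧ j = k)) (h2 : ¬ (i = k ∧ j = r)) :
    ft c r k.val i j = ft c r (k.val + 1) i j := by
  rcases lt_trichotomy i j with e | rfl | e
  · rw [ft_lt c r _ e, ft_lt c r _ e]
    simp only [Fin.ext_iff] at h2 ⊢; split_ifs <;> omega
  · rw [ft_diag, ft_diag]
  · rw [ft_gt c r _ e, ft_gt c r _ e]
    simp only [Fin.ext_iff] at h1 ⊢; split_ifs <;> omega

theorem f_tri (hc : CF c) (e : k < r) {i : Fin n} (h1 : i ≠ k) (h2 : i ≠ r) :
    c r k ≤ ft c r k.val r i + ft c r k.val i k := by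
  rcases lt_or_gt_of_ne h1 with a | a
  · have := hc.ord a e
    rw [ft_gt c r _ (a.trans e), ft_lt c r _ a, if_neg (fun h => absurd h.2 (not_le.2 a)),
      if_neg fun h => e.ne h.1]
    omega
  rcases lt_or_gt_of_ne h2 with b | b
  · have := hc.ord a b
    rw [ft_gt c r _ b, ft_gt c r _ a, if_neg (c := i = r ∧ _) fun h => h2 h.1]
    split_ifs <;> omega
  · have := hc.ord e b
    rw [ft_lt c r _ b, ft_gt c r _ a, if_neg fun h => h2 h.1, if_neg fun h => h2 h.1]
    omega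

theorem lv_rk (hc : CF c) (e : k < r) (hg : g ∈ J U (ft c r k.val)) :
    Lv U 0 (g.val r k / pw U (c r k - 1)) := by
  rw [lv_div_pw, zero_add, ← f0_rk e]
  exact J_off (fit_ft hc r _).conc hg e.ne'

theorem be_mul (hc : CF c) (e : k < r) (hg : g ∈ J U (ft c r k.val))
    (hh : h ∈ J U (ft c r k.val)) :
    be R (c r k) k r (g * h) = be R (c r k) k r g + al R k r g * be R (c r k) k r h := by
  have hf := fit_ft hc r k.val
  have a1 := lv_rk hc e hg
  have a2 := lv_rk hc e hh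
  have a3 := J_diag hf.conc hg r
  have a4 := J_diag hf.conc hh k
  have key : Lv U (c r k) ((g * h).val r k - (g.val r k * h.val k k + g.val r r * h.val r k)) := by
    rw [Units.val_mul, Matrix.mul_apply, ← Finset.add_sum_erase _ _ (Finset.mem_univ k),
      ← Finset.add_sum_erase _ _ (Finset.mem_erase.2 ⟨e.ne', Finset.mem_univ r⟩), ← add_assoc,
      add_sub_cancel_left]
    refine lv_sum _ _ fun i hi => ?_
    obtain ⟨h2, hi⟩ := Finset.mem_erase.1 hi
    have h1 := Finset.ne_of_mem_erase hi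
    exact (J_off hf.conc hg h2.symm).mul' (J_off hf.conc hh h1) (f_tri hc e h1 h2)
  have h1 : R.red ((g * h).val r k / pw U (c r k - 1)) =
      R.red (g.val r k / pw U (c r k - 1)) * R.red (h.val k k) +
        R.red (g.val r r) * R.red (h.val r k / pw U (c r k - 1)) := by
    have b1 : Lv U 0 _ := a1.mul' a4 (by omega)
    have b2 : Lv U 0 _ := a3.mul' a2 (by omega)
    rw [← R.mul _ _ a1 a4, ← R.mul _ _ a3 a2, ← R.add _ _ b1 b2]
    refine R.congr (b1.add b2) ?_
    rw [div_mul_eq_mul_div, ← mul_div_assoc, ← add_div, ← sub_div, lv_div_pw, add_sub_cancel]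
    exact key
  have := rd_ne R hc hf hg k
  have := rd_ne R hc hf hh k
  rw [be, be, be, al, h1, rd_mul R hc hf hg hh]
  field_simp

theorem be_zero (hc : CF c) (e : k < r) (hg : g ∈ J U (ft c r k.val)) :
    be R (c r k) k r g = 0 ↔ Lv U (c r k) (g.val r k) := by
  rw [be, div_eq_zero_iff, or_iff_left (rd_ne R hc (fit_ft hc r _) hg k),
    R.zero_iff _ (lv_rk hc e hg), lv_div_pw, add_sub_cancel]

theorem mem_iff (hc : CF c) (e : k < r) {m : Fin n → ℤ} (hm : 1 ≤ m k - m r) (h : GL (Fin n) K) :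
    h ∈ J U (ft c r (k.val + 1)) ⊓ St U (dg U m) ↔
      h ∈ J U (ft c r k.val) ⊓ St U (dg U m) ∧ be R (c r k) k r h = 0 := by
  have c0 := (fit_ft hc r k.val).conc
  have c1 := (fit_ft hc r (k.val + 1)).conc
  have cm : Conc fun k l => m k - m l := ⟨fun _ => by simp, fun _ _ _ => by simp⟩
  have l1 : ∀ g ∈ J U (ft c r (k.val + 1)), g ∈ St U (dg U m) → Lev U (ft c r k.val) g := by
    intro g h1 h2 i j
    rw [St_dg] at h2
    by_cases a : i = r ∧ j = k
    · rw [a.1, a.2]; exact (J_lev c1 h1 r k).mono (by rw [f0_rk e, f1_rk e]; omega)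
    by_cases b : i = k ∧ j = r
    · rw [b.1, b.2]; exact (J_lev cm h2 k r).mono (by rw [f0_kr e]; exact hm)
    rw [f_eq a b]; exact J_lev c1 h1 i j
  have l2 : ∀ g ∈ J U (ft c r k.val), be R (c r k) k r g = 0 → Lev U (ft c r (k.val + 1)) g := by
    intro g h1 h2 i j
    by_cases a : i = r ∧ j = k
    · rw [a.1, a.2, f1_rk e]
      simpa [Matrix.one_apply_ne e.ne'] using (be_zero R hc e h1).1 h2
    by_cases b : i = k ∧ j = r
    · rw [b.1, b.2]; exact (J_lev c0 h1 k r).mono (by rw [f0_kr e, f1_kr e]; omega)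
    rw [← f_eq a b]; exact J_lev c0 h1 i j
  constructor
  · rintro ⟨h1, h2⟩
    have h3 := mem_J_of (l1 h h1 h2) (l1 _ (inv_mem h1) (inv_mem h2))
    exact ⟨⟨h3, h2⟩, (be_zero R hc e h3).2 (f1_rk (c := c) e ▸ J_off c1 h1 e.ne')⟩
  · rintro ⟨⟨h1, h2⟩, h3⟩
    refine ⟨mem_J_of (l2 h h1 h3) (l2 _ (inv_mem h1) ?_), h2⟩
    have h4 := be_mul R hc e (inv_mem h1) h1
    rw [inv_mul_cancel, h3, mul_zero, add_zero] at h4
    rw [← h4, be_zero R hc e (one_mem _)]
    simpa [Matrix.one_apply_ne e.ne'] using lv_zero U _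

end STEP3a

open STEP3a in
theorem p_STEP3 (hAFF : S_AFF) (hWIT : S_WIT) (hFM : S_FM) (hTHA : S_THA) (hTHB : S_THB) :
    S_STEP3 := by
  intro K _ _ _ U n χ c V _ _ ρ X P κ _ _ R k r m hM hD e hm ⟨v, hv, hv0, hE⟩
  have hc := hD.toCF
  have f0 := fit_ft hc r k.val
  have f1 := fit_ft hc r (k.val + 1)
  choose lift hl1 hl2 using R.surj
  have hs : ∀ x, el r k (lift x * pw U (c r k - 1)) ∈ J U (ft c r k.val) ⊓ St U (dg U m) := by
    intro x
    have h1 : Lv U (c r k - 1) (lift x * pw U (c r k - 1)) := (hl1 x).mul' (lv_pw U _) (by omega)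
    have := hc.pos r k e.ne'
    exact ⟨el_mem_J e.ne' (by rwa [f0_rk e]), St_dg (U := U) m ▸ el_mem_J e.ne' (h1.mono (by omega))⟩
  obtain ⟨A, B⟩ := hAFF (π := ρ) (α := al R k r) (β := be R (c r k) k r)
    (s := fun x => el r k (lift x * pw U (c r k - 1))) ((ch_th hTHA hD f0).mult.mono inf_le_left)
    (fun h hh => div_ne_zero (rd_ne R hc f0 hh.1 r) (rd_ne R hc f0 hh.1 k))
    (fun g hg h hh => be_mul R hc e hg.1 hh.1) (mem_iff R hc e hm)
    (fun x => ⟨hs x, by simp [be, el_apply e.ne', e.ne, e.ne', pw_ne, hl2, R.one],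
      by simp [al, el_apply e.ne', e.ne, e.ne', R.one]⟩) hE
  have hX : ∀ a : κ → ℂ, ∑ x, a x • ρ (el r k (lift x * pw U (c r k - 1))) v ∈ X (dg U m) :=
    fun a => Submodule.sum_mem _ fun x _ => Submodule.smul_mem _ _ (hM.stab (hs x).2 hv)
  by_cases h0 : ∑ x, (th χ (el r k (lift x * pw U (c r k - 1))))⁻¹ •
    ρ (el r k (lift x * pw U (c r k - 1))) v = 0
  swap
  · exact Or.inl ⟨_, hX _, h0, A⟩
  refine Or.inr ⟨fun η hη => ?_, v, hv, hv0, hE, lift, fun x => ⟨hl1 x, hl2 x⟩,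
    by simpa [th_el hTHB χ e.ne'] using h0⟩
  obtain ⟨u, hu, hu0, hE'⟩ := wit hWIT hM ((ch_th hTHA hD f1).mul (ch_al R hc f1 η))
    ⟨_, hX _, fun h => hv0 ((B η).2 hη h0 h), (B η).1⟩
  obtain ⟨Λ, g, hΛ, hg⟩ := hM.sep u hu hu0
  obtain ⟨σ, hσ⟩ := (hFM hD f1 (ft_diag c r _) hg).1 _ hE' (fun h hh => by
    have hi := conc_inn f1.conc f1.nonneg zero_le_one fun i j => by
      have := f1.nonneg i j; have := f1.nonneg j i; omega
    rw [al_one R fun i => ?_, map_one, mul_one]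
    have := (J_lev hi hh).diag i
    rwa [inn_of_eq (by simp [ft_diag])] at this) hΛ
  simp only [th_di hTHB, al, di_val, if_true] at hσ
  have h1 : ∀ i, i ≠ k → i ≠ r → σ i = i := fun i a b =>
    (hD.inj (agree_zero_iff.2 fun x hx => Units.ext (by
      simpa [a.symm, b.symm, R.one] using hσ i x hx))).symm
  have h2 : ∀ x : Kˣ, ‖(x : K)‖ = 1 → (χ r x : ℂ) * η (R.red x) = χ (σ r) x := fun x hx => by
    simpa [e.ne, R.one] using hσ r x hx
  have h3 : σ r ≠ r := fun h => hη (MulChar.ext fun a => by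
    have b := (R.ne_zero_iff (hl1 a)).1 (by rw [hl2]; exact a.ne_zero)
    have := h2 (Units.mk0 (lift a) (by rintro h; simp [h] at b)) b
    rw [h, mul_eq_left₀ (Units.ne_zero _), Units.val_mk0, hl2] at this
    rw [this, MulChar.one_apply_coe])
  have h4 : σ r = k := by
    by_contra h
    exact h3 (σ.injective (h1 _ h h3))
  rwa [h4] at h2

end Pool.Agent.P.MP_7cb106_nt.PT

end

section

/-! Step F2. -/

set_option linter.unusedSectionVars false

namespace Pool.Agent.P.MP_7cb106_nt.PT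

open Matrix

namespace F2a

abbrev Z2 : Type := ZMod 3 × ZMod 3

def A1 (x : ZMod 3) (v : Z2) : Z2 := (v.1, v.2 + v.1 * x)
def A2 (x : ZMod 3) (v : Z2) : Z2 := (v.1 + v.2 * x, v.2)
def dt (v w : Z2) : ZMod 3 := v.1 * w.2 - v.2 * w.1
def rt (v : Z2) : Z2 := (-v.2, v.1)

theorem perm : ∀ v : Z2, v ≠ 0 → List.Perm
    [A1 1 v, A1 (-0) (A2 1 (A1 0 v)), A1 (-1) (A2 1 (A1 1 v)), A1 (- -1) (A2 1 (A1 (-1) v)),
      A1 (-1) v, A1 (-0) (A2 (-1) (A1 0 v)), A1 (-1) (A2 (-1) (A1 1 v)),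
      A1 (- -1) (A2 (-1) (A1 (-1) v))]
    [v, v, rt v, -rt v, v + rt v, -(v + rt v), v - rt v, -(v - rt v)] := by decide

theorem fin (γ : Z2 → ℂ) (h : ∀ w, γ (-w) = -γ w) (v : Z2) (hv : v ≠ 0) :
    ∑ y : Fin 2, (γ (A1 (![1, -1] y) v) + ∑ x : Fin 3,
      γ (A1 (-(![0, 1, -1] x)) (A2 (![1, -1] y) (A1 (![0, 1, -1] x) v)))) = 2 * γ v := by
  have := ((perm v hv).map γ).sum_eq
  simp only [List.map_cons, List.map_nil, List.sum_cons, List.sum_nil, h] at this
  simp only [Fin.sum_univ_two, Fin.sum_univ_three, Matrix.cons_val_zero, Matrix.cons_val_one,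
    Matrix.cons_val_two, Matrix.head_cons, Matrix.tail_cons]
  linear_combination this

theorem dt1 (x : ZMod 3) (v w : Z2) : dt (A1 x v) (A1 x w) = dt v w := by
  simp only [dt, A1]; ring
theorem dt2 (x : ZMod 3) (v w : Z2) : dt (A2 x v) (A2 x w) = dt v w := by
  simp only [dt, A2]; ring

theorem solve : ∀ (ε : ZMod 3) (p p' v : Z2), ε * ε = 1 → v ≠ 0 → dt p' (ε • v) = dt p v →
    ∃ x : ZMod 3, p' = ε • (p + x • v) := by decide

variable {K : Type} [NontriviallyNormedField K] [IsUltrametricDist K] [LocallyCompactSpace K]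
  {U : Unif K} {n : ℕ} {χ : Fin n → Kˣ →* ℂˣ} {c : Fin n → Fin n → ℤ} {k r : Fin n}

theorem klt (e : r.val = k.val + 1) : k < r := by rw [Fin.lt_def]; omega

theorem sum1 (h : CF c) {a b : Fin n} (hab : a < b) (hne : ¬ (a = k ∧ b = r))
    (e : r.val = k.val + 1) : fx c r k 0 a b + fx c r k 0 b a = c a b := by
  have := h.symm a b
  have h1 : ¬ (a = r ∧ b = k) := by
    rintro ⟨rfl, rfl⟩; exact absurd (klt e) hab.not_gt
  rw [fx, fx, if_neg h1, if_neg (fun h => hne h.symm), fstd_lt c 0 hab, fstd_gt c 0 hab]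
  omega

theorem out1 (h : CF c) (e : r.val = k.val + 1) {i m l : Fin n} (hi : i = k ∨ i = r)
    (hm : m = k ∨ m = r) (h1 : l ≠ k) (h2 : l ≠ r) :
    1 ≤ fx c r k 0 i l + fx c r k 0 l m := by
  have hn := fx_nonneg h r k le_rfl
  rcases lt_or_gt_of_ne h1 with a | a
  · have a' : l < i := by rcases hi with rfl | rfl; exacts [a, a.trans (klt e)]
    have := hn l m
    have := h.pos i l a'.ne'
    rw [fx, if_neg (fun h => h1 h.2), fstd_gt c 0 a']
    omega
  · have a0 : r < l := by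
      rw [Fin.lt_def] at a ⊢
      have : l.val ≠ r.val := fun h => h2 (Fin.ext h)
      omega
    have a' : m < l := by rcases hm with rfl | rfl; exacts [a, a0]
    have := hn i l
    have := h.pos l m a'.ne'
    have q : fx c r k 0 l m = c l m - 0 := by rw [fx, if_neg (fun h => h2 h.1), fstd_gt c 0 a']
    omega

theorem ent0 (h : CF c) {g : GL (Fin n) K} (hg : g ∈ J U (fx c r k 0)) (a b : Fin n) :
    Lv U 0 (g.val a b) := K0_ent (J_le_K0 (fx_nonneg h r k le_rfl) hg) a b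

theorem mulb (R : Red U (ZMod 3)) (h : CF c) (e : r.val = k.val + 1) (hc : c k r = 1)
    {g g' : GL (Fin n) K} (hg : g ∈ J U (fx c r k 0)) (hg' : g' ∈ J U (fx c r k 0))
    {i m : Fin n} (hi : i = k ∨ i = r) (hm : m = k ∨ m = r) :
    R.red ((g * g').val i m) = R.red (g.val i k) * R.red (g'.val k m) +
      R.red (g.val i r) * R.red (g'.val r m) := by
  have hf := conc_fx_zero h e hc
  have h0 := fx_diag c (klt e).ne' 0
  rw [Units.val_mul, Matrix.mul_apply,
    R.sum _ _ fun l _ => (ent0 h hg i l).mul' (ent0 h hg' l m) (by omega),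
    Finset.sum_eq_add_of_mem k r (Finset.mem_univ _) (Finset.mem_univ _) (klt e).ne,
    R.mul _ _ (ent0 h hg _ _) (ent0 h hg' _ _), R.mul _ _ (ent0 h hg _ _) (ent0 h hg' _ _)]
  intro l _ hl
  exact R.of_lv ((J_ent hf h0 hg i l).mul' (J_ent hf h0 hg' l m) (out1 h e hi hm hl.1 hl.2))

/-- the modified characters -/
def ph (χ : Fin n → Kˣ →* ℂˣ) (k r : Fin n) : Fin n → Kˣ →* ℂˣ :=
  fun i => if i = r then χ k else χ i

theorem ph_agree (hD : Dat U χ c) (hc : c k r = 1) (a : Fin n) : Agree U (ph χ k r a) (χ a) 1 := by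
  unfold ph
  split_ifs with h
  · subst h; rw [← hc]; exact hD.agree _ _
  · exact fun _ _ _ => rfl

theorem mult1 (hTHA : S_THA) (hD : Dat U χ c) (e : r.val = k.val + 1) (hc : c k r = 1) :
    Mult (J U (fx c r k 0)) (th (ph χ k r)) := by
  refine (hTHA K U n _).1 _ (conc_fx_zero hD.toCF e hc) fun j j' ej => ?_
  by_cases hj : j = k
  · subst hj
    have : j' = r := Fin.ext (by omega)
    subst this
    left
    simp [ph]
  · have p := hD.pos j j' (by rintro rfl; omega)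
    refine Or.inr ⟨c j j', p, (((ph_agree hD hc j).mono p).trans (hD.agree j j')).trans
      ((ph_agree hD hc j').mono p).symm, fun a b ha hb => ?_⟩
    rw [sum1 hD.toCF (ha.trans_lt hb) ?_ e]
    · refine hD.intv a j j' b ha ?_ ?_
      · rw [Fin.le_def]; omega
      · rw [Fin.le_def]; rw [Fin.lt_def] at hb; omega
    · rintro ⟨rfl, rfl⟩
      rw [Fin.le_def] at ha; rw [Fin.lt_def] at hb
      exact hj (Fin.ext (by omega))

theorem th_eq (hDET : S_DET) (hD : Dat U χ c) (e : r.val = k.val + 1) (hc : c k r = 1)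
    {g : GL (Fin n) K} (hg : g ∈ J U (fx c k r 1)) :
    th χ g = th (ph χ k r) g * ext (χ r / χ k) (g.val r r) := by
  have hf := conc_fx_one hD.toCF e
  have hs : ∀ a b, a ≠ b → 1 ≤ fx c k r 1 a b + fx c k r 1 b a := by
    intro a b hab
    have h1 : ∀ a b, fstd c 0 a b ≤ fx c k r 1 a b := by
      intro a b
      rw [fx]; split_ifs with h
      · rw [h.1, h.2, fstd_lt c 0 (klt e)]; omega
      · exact le_rfl
    have := (fit_fstd hD.toCF (adm_zero hD.toCF)).sum a b hab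
    have := hD.pos a b hab
    have := h1 a b
    have := h1 b a
    omega
  have hu : ∀ a, ‖g.val a a‖ = 1 := fun a => J_diag_unit hf (fun l hl => hs a l hl.symm) hg
  have ha : Agree U (χ r) (χ k) 1 := by rw [← hc]; exact (hD.agree k r).symm
  have hP : ∀ j, ‖∏ i ∈ Finset.univ.filter (· ≤ j), g.val i i‖ = 1 := fun j => by
    rw [norm_prod]; exact Finset.prod_eq_one fun i _ => hu i
  have hE : ∀ j, ext (χ r / χ k) (Dl j g) =
      ext (χ r / χ k) (∏ i ∈ Finset.univ.filter (· ≤ j), g.val i i) := fun j => by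
    have := (hDET hf).2.2.2 g hg j 1 hs
    exact ha.ext_div_congr (norm_eq_one_of_lv (hP j) this) (hP j) this
  have e1 : χ = fun i => ph χ k r i * (fun i => if i = r then χ r / χ k else 1) i := by
    funext i
    simp only [ph]
    split_ifs with h
    · rw [h]; ext x; simp
    · ext x; simp
  have e2 : Finset.univ.filter (· ≤ r) = insert r (Finset.univ.filter (· ≤ k)) := by
    ext i
    simp only [Finset.mem_filter, Finset.mem_univ, true_and, Finset.mem_insert, Fin.le_def,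
      Fin.ext_iff]
    omega
  have n0 : ∀ x : K, ‖x‖ = 1 → x ≠ 0 := by rintro x hx rfl; simp at hx
  conv_lhs => rw [e1, th_mul_char]
  congr 1
  rw [th, Finset.prod_eq_mul_of_mem k r (Finset.mem_univ _) (Finset.mem_univ _) (klt e).ne]
  · have a1 : nx (fun i => if i = r then χ r / χ k else 1) k = χ r / χ k := by
      rw [nx, dif_pos (by have := r.2; omega), if_pos (Fin.ext e.symm)]
    have a2 : nx (fun i => if i = r then χ r / χ k else 1) r = 1 := by
      rw [nx]; split_ifs with h1 h2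
      · rw [Fin.ext_iff] at h2; simp at h2
      · rfl
      · rfl
    rw [a1, a2, if_neg (klt e).ne, if_pos rfl, ext_div_char _ 1, ext_div_char 1, ext_triv,
      ext_triv, hE, hE, e2,
      Finset.prod_insert (by simpa using klt e), ext_mul _ (n0 _ (hu r)) (n0 _ (hP k))]
    have := ext_ne_zero (χ r / χ k) (∏ i ∈ Finset.univ.filter (· ≤ k), g.val i i)
    field_simp
  · intro j _ hj
    have a1 : nx (fun i => if i = r then χ r / χ k else 1) j = 1 := by
      rw [nx]; split_ifs with h1 h2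
      · rw [Fin.ext_iff] at h2
        exact absurd (Fin.ext (by simp at h2; omega)) hj.1
      · rfl
      · rfl
    rw [a1, if_neg hj.2, ext_div_char, ext_triv, div_one]

theorem neg_one (R : Red U (ZMod 3)) (hD : Dat U χ c) (e : r.val = k.val + 1) (hc : c k r = 1) :
    ext (χ r / χ k) (-1 : K) = -1 := by
  have ha : Agree U (χ r) (χ k) 1 := by rw [← hc]; exact (hD.agree k r).symm
  have h1 : ext (χ r / χ k) (-1 : K) * ext (χ r / χ k) (-1 : K) = 1 := by
    rw [← ext_mul _ (by simp) (by simp)]; simpa using ext_one _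
  refine (mul_self_eq_one_iff.1 h1).resolve_left fun h2 => ?_
  have hd := hD.differ k r (klt e).ne
  rw [hc, sub_self] at hd
  refine hd (agree_zero_iff.2 fun x hx => ?_)
  have h3 : ∀ a : ZMod 3, a ≠ 0 → a = 1 ∨ a = -1 := by decide
  rcases h3 _ ((R.ne_zero_iff (lv_unit hx)).2 hx) with h | h
  · exact (ha x hx ((R.eq_iff (lv_unit hx) (lv_one U)).1 (by rw [h, R.one]))).symm
  · have h4 := ha.ext_div_congr hx (y := -1) (by simp)
      ((R.eq_iff (lv_unit hx) (lv_one U).neg).1 (by rw [h, R.neg (lv_one U), R.one]))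
    rw [h2, ext_div_char, ext_val, ext_val, div_eq_one_iff_eq (Units.ne_zero _)] at h4
    exact Units.ext h4.symm

theorem lev_H (R : Red U (ZMod 3)) (h : CF c) (e : r.val = k.val + 1) (hc : c k r = 1)
    {g : GL (Fin n) K} (hg : g ∈ J U (fx c r k 0)) (h1 : R.red (g.val k r) = 0)
    (h2 : R.red (g.val r k) = 0) : Lev U (fx c k r 1) g := by
  have hf := conc_fx_zero h e hc
  refine lev_of (fun a b hab => ?_) fun a => ?_
  · rw [fx]
    split_ifs with p
    · rw [p.1, p.2]; exact (R.zero_iff _ (ent0 h hg _ _)).1 h1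
    · by_cases q : a = r ∧ b = k
      · rw [q.1, q.2, fstd_gt c 0 (klt e), h.symm, hc]
        exact (R.zero_iff _ (ent0 h hg _ _)).1 h2
      · have := J_off hf hg hab
        rwa [fx, if_neg q] at this
  · rw [fx_diag c (klt e).ne]; exact (ent0 h hg a a).sub (lv_one U)

variable {V : Type} [AddCommGroup V] [Module ℂ V] {π : Representation ℂ (GL (Fin n) K) V} {u : V}

theorem key1 (hDET : S_DET) (hTHA : S_THA) (R : Red U (ZMod 3)) (hD : Dat U χ c)
    (e : r.val = k.val + 1) (hc : c k r = 1) (hu : Eig π (J U (fx c k r 1)) (th χ) u)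
    (Λ : V →ₗ[ℂ] ℂ) {ε : K} (hε : ‖ε‖ = 1) {g g' : GL (Fin n) K} (hg : g ∈ J U (fx c r k 0))
    (hg' : g' ∈ J U (fx c r k 0)) (hk : ∀ a, a = k ∨ a = r → ∀ b, b = k ∨ b = r →
      R.red (g'.val a b) = R.red ε * R.red (g.val a b)) :
    Λ (π g' u) / th (ph χ k r) g' = ext (χ r / χ k) ε * (Λ (π g u) / th (ph χ k r) g) := by
  have h := hD.toCF
  have hM := mult1 hTHA hD e hc
  have hi := (J U _).inv_mem hg
  have hi' := (J U _).inv_mem hg'
  have hh := (J U _).mul_mem hi hg'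
  have l : k = k ∨ k = r := Or.inl rfl
  have l' : r = k ∨ r = r := Or.inr rfl
  have a1 : ∀ a, a = k ∨ a = r → ∀ b, b = k ∨ b = r → R.red ((g⁻¹ * g').val a b) =
      R.red ε * R.red ((1 : GL (Fin n) K).val a b) := by
    intro a ha b hb
    rw [← inv_mul_cancel g, mulb R h e hc hi hg' ha hb, mulb R h e hc hi hg ha hb, hk k l b hb,
      hk r l' b hb]
    ring
  have a2 : ∀ a, a = k ∨ a = r → ∀ b, b = k ∨ b = r → R.red ε * R.red ((g'⁻¹ * g).val a b) =
      R.red ((1 : GL (Fin n) K).val a b) := by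
    intro a ha b hb
    rw [← inv_mul_cancel g', mulb R h e hc hi' hg' ha hb, mulb R h e hc hi' hg ha hb, hk k l b hb,
      hk r l' b hb]
    ring
  have n0 := (R.ne_zero_iff (lv_unit hε)).2 hε
  have z1 : R.red ((1 : GL (Fin n) K).val k r) = 0 := by
    rw [Units.val_one, Matrix.one_apply_ne (klt e).ne, R.zero]
  have z2 : R.red ((1 : GL (Fin n) K).val r k) = 0 := by
    rw [Units.val_one, Matrix.one_apply_ne (klt e).ne', R.zero]
  have hH : g⁻¹ * g' ∈ J U (fx c k r 1) := by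
    refine mem_J_of (lev_H R h e hc hh ?_ ?_) ?_
    · rw [a1 k l r l', z1, mul_zero]
    · rw [a1 r l' k l, z2, mul_zero]
    · rw [_root_.mul_inv_rev, inv_inv]
      refine lev_H R h e hc ((J U _).mul_mem hi' hg) ?_ ?_
      · exact (mul_eq_zero.1 ((a2 k l r l').trans z1)).resolve_left n0
      · exact (mul_eq_zero.1 ((a2 r l' k l).trans z2)).resolve_left n0
  have ha : Agree U (χ r) (χ k) 1 := by rw [← hc]; exact (hD.agree k r).symm
  have a3 : Lv U 1 ((g⁻¹ * g').val r r - ε) := by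
    rw [← R.eq_iff (ent0 h hh r r) (lv_unit hε), a1 r l' r l', Units.val_one, Matrix.one_apply_eq,
      R.one, mul_one]
  have a4 := ha.ext_div_congr (norm_eq_one_of_lv hε a3) hε a3
  have e1 : g' = g * (g⁻¹ * g') := by group
  have a5 : th (ph χ k r) g' = th (ph χ k r) g * th (ph χ k r) (g⁻¹ * g') := by
    rw [← hM.2 _ hg _ hh, ← e1]
  have a6 : Λ (π g' u) = th χ (g⁻¹ * g') * Λ (π g u) := by
    conv_lhs => rw [e1]
    rw [rep_mul, hu _ hH, map_smul, map_smul, smul_eq_mul]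
  rw [a5, a6, th_eq hDET hD e hc hH, a4]
  have := th_ne_zero (ph χ k r) g
  have := th_ne_zero (ph χ k r) (g⁻¹ * g')
  field_simp

/-- the reduction of the row `a` at the columns `k`, `r` -/
def rw2 (R : Red U (ZMod 3)) (k r : Fin n) (g : GL (Fin n) K) (a : Fin n) : Z2 :=
  (R.red (g.val a k), R.red (g.val a r))

theorem mul_el {a b : Fin n} (h : a ≠ b) (x : K) (g : GL (Fin n) K) (i j : Fin n) :
    (g * el a b x).val i j = g.val i j + if j = b then g.val i a * x else 0 := by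
  rw [Units.val_mul, el_val h, mul_add, mul_one, Matrix.add_apply]
  split_ifs with p
  · rw [p, Matrix.mul_single_apply_same]
  · rw [Matrix.mul_single_apply_of_ne _ _ _ _ _ p]

theorem el_mul {a b : Fin n} (h : a ≠ b) (x : K) (g : GL (Fin n) K) (i j : Fin n) :
    (el a b x * g).val i j = g.val i j + if i = a then x * g.val b j else 0 := by
  rw [Units.val_mul, el_val h, add_mul, one_mul, Matrix.add_apply]
  split_ifs with p
  · rw [p, Matrix.single_mul_apply_same]
  · rw [Matrix.single_mul_apply_of_ne _ _ _ _ _ p]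

theorem el1 (e : r.val = k.val + 1) {x : K} (hx : Lv U 0 x) : el k r x ∈ J U (fx c r k 0) :=
  el_mem_J (klt e).ne (by rwa [fx, if_neg fun h => (klt e).ne h.1, fstd_lt c 0 (klt e)])
theorem el2 (e : r.val = k.val + 1) {x : K} (hx : Lv U 0 x) : el r k x ∈ J U (fx c r k 0) :=
  el_mem_J (klt e).ne' (by rwa [fx, if_pos ⟨rfl, rfl⟩])

theorem rw1 (R : Red U (ZMod 3)) (h : CF c) (e : r.val = k.val + 1) {g : GL (Fin n) K}
    (hg : g ∈ J U (fx c r k 0)) {x : K} (hx : Lv U 0 x) (a : Fin n) :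
    rw2 R k r (g * el k r x) a = A1 (R.red x) (rw2 R k r g a) := by
  simp only [rw2, A1, mul_el (klt e).ne, if_neg (klt e).ne, if_true, add_zero]
  rw [R.add _ _ (ent0 h hg _ _) ((ent0 h hg _ _).mul' hx (by omega)), R.mul _ _ (ent0 h hg _ _) hx]
theorem rw1' (R : Red U (ZMod 3)) (h : CF c) (e : r.val = k.val + 1) {g : GL (Fin n) K}
    (hg : g ∈ J U (fx c r k 0)) {x : K} (hx : Lv U 0 x) (a : Fin n) :
    rw2 R k r (g * el r k x) a = A2 (R.red x) (rw2 R k r g a) := by
  simp only [rw2, A2, mul_el (klt e).ne', if_neg (klt e).ne', if_true, add_zero]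
  rw [R.add _ _ (ent0 h hg _ _) ((ent0 h hg _ _).mul' hx (by omega)), R.mul _ _ (ent0 h hg _ _) hx]

theorem rw_ne (R : Red U (ZMod 3)) (h : CF c) (e : r.val = k.val + 1) (hc : c k r = 1)
    {g : GL (Fin n) K} (hg : g ∈ J U (fx c r k 0)) {i : Fin n} (hi : i = k ∨ i = r) :
    rw2 R k r g i ≠ 0 := by
  intro h0
  have := mulb R h e hc hg ((J U _).inv_mem hg) hi hi
  rw [mul_inv_cancel, Units.val_one, Matrix.one_apply_eq, R.one,
    show R.red (g.val i k) = 0 from congrArg Prod.fst h0,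
    show R.red (g.val i r) = 0 from congrArg Prod.snd h0] at this
  simp at this

theorem key2 (hDET : S_DET) (hTHA : S_THA) (hTHB : S_THB) (R : Red U (ZMod 3)) (hD : Dat U χ c)
    (e : r.val = k.val + 1) (hc : c k r = 1) (hu : Eig π (J U (fx c k r 1)) (th χ) u)
    {Λ : V →ₗ[ℂ] ℂ} {i' i : Fin n} (hi : i' = k ∧ i = r ∨ i' = r ∧ i = k)
    (hΛ : ∀ x v, Λ (π (el i' i x) v) = Λ v) {ε : K} (hε : ‖ε‖ = 1) {g g' : GL (Fin n) K}
    (hg : g ∈ J U (fx c r k 0)) (hg' : g' ∈ J U (fx c r k 0))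
    (h1 : rw2 R k r g' i = R.red ε • rw2 R k r g i)
    (h2 : dt (rw2 R k r g' i') (rw2 R k r g' i) = dt (rw2 R k r g i') (rw2 R k r g i)) :
    Λ (π g' u) / th (ph χ k r) g' = ext (χ r / χ k) ε * (Λ (π g u) / th (ph χ k r) g) := by
  have h := hD.toCF
  have h3 : ∀ a : ZMod 3, a ≠ 0 → a * a = 1 := by decide
  have ne : i' ≠ i := by rcases hi with ⟨rfl, rfl⟩ | ⟨rfl, rfl⟩; exacts [(klt e).ne, (klt e).ne']
  rw [h1] at h2
  obtain ⟨x, hx⟩ := solve _ _ _ _ (h3 _ ((R.ne_zero_iff (lv_unit hε)).2 hε))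
    (rw_ne R h e hc hg (hi.symm.imp And.right And.right)) h2
  obtain ⟨y, hy, rfl⟩ := R.surj x
  have hy' : el i' i y ∈ J U (fx c r k 0) := by
    rcases hi with ⟨rfl, rfl⟩ | ⟨rfl, rfl⟩; exacts [el1 e hy, el2 e hy]
  have := key1 hDET hTHA R hD e hc hu Λ hε ((J U _).mul_mem hy' hg) hg' ?_
  · rwa [rep_mul, hΛ, (mult1 hTHA hD e hc).2 _ hy' _ hg, th_el hTHB _ ne, one_mul] at this
  · intro a ha b hb
    have q : a = i' ∨ a = i := by
      rcases hi with ⟨p, q⟩ | ⟨p, q⟩ <;> rw [p, q]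
      exacts [ha, ha.symm]
    rw [el_mul ne]
    rcases q with rfl | rfl
    · rw [if_pos rfl, R.add _ _ (ent0 h hg _ _) (hy.mul' (ent0 h hg _ _) (by omega)),
        R.mul _ _ hy (ent0 h hg _ _)]
      rcases hb with rfl | rfl
      · exact congrArg Prod.fst hx
      · exact congrArg Prod.snd hx
    · rw [if_neg ne.symm, add_zero]
      rcases hb with rfl | rfl
      · exact congrArg Prod.fst h1
      · exact congrArg Prod.snd h1

theorem main (hDET : S_DET) (hTHA : S_THA) (hTHB : S_THB) (R : Red U (ZMod 3)) (hD : Dat U χ c)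
    (e : r.val = k.val + 1) (hc : c k r = 1) (hu : Eig π (J U (fx c k r 1)) (th χ) u)
    {Λ : V →ₗ[ℂ] ℂ} {i' i : Fin n} (hi : i' = k ∧ i = r ∨ i' = r ∧ i = k)
    (hΛ : ∀ x v, Λ (π (el i' i x) v) = Λ v) {j : GL (Fin n) K} (hj : j ∈ J U (fx c r k 0)) :
    Λ (π j (cusp π k r u)) = 0 := by
  classical
  have h := hD.toCF
  have hM := mult1 hTHA hD e hc
  let P : Z2 → GL (Fin n) K → Prop := fun w g => g ∈ J U (fx c r k 0) ∧ rw2 R k r g i = w ∧
    dt (rw2 R k r g i') (rw2 R k r g i) = dt (rw2 R k r j i') (rw2 R k r j i)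
  let γ : Z2 → ℂ := fun w =>
    if p : ∃ g, P w g then Λ (π p.choose u) / th (ph χ k r) p.choose else 0
  have g1 : ∀ w g, P w g → γ w = Λ (π g u) / th (ph χ k r) g := by
    intro w g hg
    have p : ∃ g, P w g := ⟨g, hg⟩
    have q := p.choose_spec
    simp only [γ, dif_pos p]
    rw [key2 hDET hTHA hTHB R hD e hc hu hi hΛ norm_one hg.1 q.1
      (by rw [R.one, one_smul, q.2.1, hg.2.1]) (q.2.2.trans hg.2.2.symm), ext_one, one_mul]
  have z : dia (fun _ => (-1 : Kˣ)) ∈ J U (fx c r k 0) :=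
    dia_mem_J0 (fx_diag c (klt e).ne' 0) fun _ => by simp
  have g2 : ∀ w g, P w g → P (-w) (g * dia fun _ => -1) := by
    intro w g hg
    have q : ∀ a, rw2 R k r (g * dia fun _ => -1) a = -rw2 R k r g a := by
      intro a
      simp only [rw2, Units.val_mul, dia_val, mul_diagonal, Units.val_neg, Units.val_one, mul_neg,
        mul_one, R.neg (ent0 h hg.1 _ _), Prod.neg_mk]
    refine ⟨(J U _).mul_mem hg.1 z, by rw [q, hg.2.1], ?_⟩
    rw [q, q, ← hg.2.2]
    simp [dt]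
  have g3 : ∀ w, γ (-w) = -γ w := by
    intro w
    by_cases p : ∃ g, P w g
    · obtain ⟨g, hg⟩ := p
      have q := g2 w g hg
      rw [g1 _ _ hg, g1 _ _ q, key2 hDET hTHA hTHB R hD e hc hu hi hΛ (ε := -1) (by simp) hg.1 q.1
        (by rw [R.neg (lv_one U), R.one, q.2.1, hg.2.1, neg_smul, one_smul])
        (q.2.2.trans hg.2.2.symm), neg_one R hD e hc, neg_one_mul]
    · have p' : ¬ ∃ g, P (-w) g := fun ⟨g, hg⟩ => p ⟨_, by simpa using g2 _ g hg⟩
      simp only [γ, dif_neg p, dif_neg p', neg_zero]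
  have s1 : ∀ w g, P w g → ∀ x, Lv U 0 x → P (A1 (R.red x) w) (g * el k r x) := by
    intro w g hg x hx
    refine ⟨(J U _).mul_mem hg.1 (el1 e hx), by rw [rw1 R h e hg.1 hx, hg.2.1], ?_⟩
    rw [rw1 R h e hg.1 hx, rw1 R h e hg.1 hx, dt1, hg.2.2]
  have s2 : ∀ w g, P w g → ∀ x, Lv U 0 x → P (A2 (R.red x) w) (g * el r k x) := by
    intro w g hg x hx
    refine ⟨(J U _).mul_mem hg.1 (el2 e hx), by rw [rw1' R h e hg.1 hx, hg.2.1], ?_⟩
    rw [rw1' R h e hg.1 hx, rw1' R h e hg.1 hx, dt2, hg.2.2]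
  have t1 : ∀ g ∈ J U (fx c r k 0), ∀ x, Lv U 0 x →
      th (ph χ k r) (g * el k r x) = th (ph χ k r) g := fun g hg x hx => by
    rw [hM.2 _ hg _ (el1 e hx), th_el hTHB _ (klt e).ne, mul_one]
  have t2 : ∀ g ∈ J U (fx c r k 0), ∀ x, Lv U 0 x →
      th (ph χ k r) (g * el r k x) = th (ph χ k r) g := fun g hg x hx => by
    rw [hM.2 _ hg _ (el2 e hx), th_el hTHB _ (klt e).ne', mul_one]
  have p0 : P (rw2 R k r j i) j := ⟨hj, rfl, rfl⟩
  have y1 : ∀ y : Fin 2, Lv U 0 ((![1, -1] : Fin 2 → K) y) ∧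
      R.red ((![1, -1] : Fin 2 → K) y) = (![1, -1] : Fin 2 → ZMod 3) y := by
    intro y
    fin_cases y
    · exact ⟨lv_one U, R.one⟩
    · exact ⟨(lv_one U).neg, (R.neg (lv_one U)).trans (by rw [R.one]; rfl)⟩
  have x1 : ∀ x : Fin 3, Lv U 0 ((![0, 1, -1] : Fin 3 → K) x) ∧
      R.red ((![0, 1, -1] : Fin 3 → K) x) = (![0, 1, -1] : Fin 3 → ZMod 3) x := by
    intro x
    fin_cases x
    · exact ⟨lv_zero U 0, R.zero⟩
    · exact ⟨lv_one U, R.one⟩
    · exact ⟨(lv_one U).neg, (R.neg (lv_one U)).trans (by rw [R.one]; rfl)⟩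
  have F := fin γ g3 _ (rw_ne R h e hc hj (hi.symm.imp And.right And.right))
  have n0 := th_ne_zero (ph χ k r) j
  rw [g1 _ _ p0] at F
  rw [cusp, map_sub, map_sub, map_smul, map_smul, map_sum, map_sum, smul_eq_mul, sub_eq_zero,
    ← div_left_inj' n0, mul_div_assoc, ← F, Finset.sum_div]
  refine Finset.sum_congr rfl fun y _ => ?_
  rw [map_add, map_add, map_sum, map_sum, add_div, Finset.sum_div]
  congr 1
  · rw [← (y1 y).2, g1 _ _ (s1 _ _ p0 _ (y1 y).1), t1 _ hj _ (y1 y).1, rep_mul]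
  · refine Finset.sum_congr rfl fun x _ => ?_
    have a := s1 _ _ p0 _ (x1 x).1
    have b := s2 _ _ a _ (y1 y).1
    rw [← (y1 y).2, ← (x1 x).2, ← R.neg (x1 x).1, g1 _ _ (s1 _ _ b _ (x1 x).1.neg),
      t1 _ b.1 _ (x1 x).1.neg, t2 _ a.1 _ (y1 y).1, t1 _ hj _ (x1 x).1, ← rep_mul]
    simp only [mul_assoc]

theorem eig_cusp (hDET : S_DET) (hTHA : S_THA) (hD : Dat U χ c)
    (e : r.val = k.val + 1) (hc : c k r = 1) (hu : Eig π (J U (fx c k r 1)) (th χ) u) :
    Eig π (J U (inn (fx c r k 0) 1)) (th (ph χ k r)) (cusp π k r u) := by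
  have h := hD.toCF
  have hM := mult1 hTHA hD e hc
  have hn := fx_nonneg h r k le_rfl
  have h0 := fx_diag c (klt e).ne' 0
  have hb : ∀ a b, fx c r k 0 a b + fx c r k 0 b a = 0 ∨ 1 ≤ fx c r k 0 a b + fx c r k 0 b a := by
    intro a b; have := hn a b; have := hn b a; omega
  have z : fx c r k 0 k r + fx c r k 0 r k = 0 := by
    rw [fx, fx, if_neg fun h => (klt e).ne h.1, if_pos ⟨rfl, rfl⟩, fstd_lt c 0 (klt e)]; rfl
  have le : J U (inn (fx c r k 0) 1) ≤ J U (fx c k r 1) := by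
    refine J_mono fun a b => ?_
    rw [fx]
    split_ifs with p
    · rw [p.1, p.2, inn_of_eq z]
    · by_cases q : a = r ∧ b = k
      · rw [q.1, q.2, inn_of_eq (by omega), fstd_gt c 0 (klt e), h.symm, hc]; rfl
      · have := le_inn hn zero_le_one a b
        rwa [fx, if_neg q] at this
  have le' : J U (inn (fx c r k 0) 1) ≤ J U (fx c r k 0) := J_mono (le_inn hn zero_le_one)
  have ha : Agree U (χ r) (χ k) 1 := by rw [← hc]; exact (hD.agree k r).symm
  have act : ∀ s ∈ J U (fx c r k 0),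
      Eig π (J U (inn (fx c r k 0) 1)) (th (ph χ k r)) (π s u) := by
    intro s hs
    refine hu.act s fun g hg => ?_
    have hs' := (J U _).inv_mem hs
    have m := inn_conj (conc_fx_zero h e hc) h0 hn zero_le_one hb hs' hg
    have m' := hM.conj hs' (le' hg)
    rw [inv_inv] at m m'
    have d := (J_lev (conc_inn (conc_fx_zero h e hc) hn zero_le_one hb) m).diag r
    rw [inn_of_eq (by rw [h0]; rfl)] at d
    exact ⟨le m, by rw [th_eq hDET hD e hc (le m), m',
      ha.ext_div_congr (norm_eq_one_of_lv_one d) norm_one d, ext_one, mul_one]⟩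
  have y1 : ∀ y : Fin 2, Lv U 0 ((![1, -1] : Fin 2 → K) y) := by
    intro y
    fin_cases y
    exacts [lv_one U, (lv_one U).neg]
  have x1 : ∀ x : Fin 3, Lv U 0 ((![0, 1, -1] : Fin 3 → K) x) := by
    intro x
    fin_cases x
    exacts [lv_zero U 0, lv_one U, (lv_one U).neg]
  have a0 := act 1 (J U _).one_mem
  rw [map_one, Module.End.one_apply] at a0
  refine Eig.sub (Finset.sum_induction _ _ (fun _ _ => Eig.add) (eig_zero _ _ _) fun y _ =>
    (act _ (el1 e (y1 y))).add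
      (Finset.sum_induction _ _ (fun _ _ => Eig.add) (eig_zero _ _ _) fun x _ => act _ ?_))
    (a0.smul 2)
  exact (J U _).mul_mem ((J U _).mul_mem (el1 e (x1 x)) (el2 e (y1 y))) (el1 e (x1 x).neg)

end F2a

open F2a in
theorem p_F2 (hDW : S_DW) (hDET : S_DET) (hTHA : S_THA) (hTHB : S_THB) :
    S_F2 := by
  intro K _ _ _ U n χ c V _ _ π R k r u Λ hD e hc hu hΛ g
  by_contra hne
  have h := hD.toCF
  have hn := fx_nonneg h r k le_rfl
  obtain ⟨b, hb, w, j, hj, rfl⟩ := hDW (conc_fx_zero h e hc) (fx_diag c (klt e).ne' 0) hn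
    (mult1 hTHA hD e hc) le_rfl (fun a b => by have := hn a b; have := hn b a; omega)
    (fun a b hab h2 => by
      refine ⟨h2, ?_⟩
      have q : ¬ (a = k ∧ b = r) := by
        rintro ⟨rfl, rfl⟩
        rw [fx, fx, if_neg fun h => hab.ne h.1, if_pos ⟨rfl, rfl⟩, fstd_lt c 0 hab] at h2
        omega
      rw [sum1 h hab q e] at h2 ⊢
      exact fun p => hD.differ a b hab.ne
        ((((ph_agree hD hc a).mono (by omega)).symm.trans p).trans
          ((ph_agree hD hc b).mono (by omega))))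
    (eig_cusp hDET hTHA hD e hc hu) (by obtain ⟨_, _, _, p⟩ := hΛ; exact fun _ hs => p.uni hs) hne
  obtain ⟨o, Λ', ho, ⟨_, _, _, p⟩, h1⟩ := po_shift hΛ hb hne
  rcases lt_or_gt_of_ne (ho.ne (klt e).ne) with q | q
  · exact h1 (main hDET hTHA hTHB R hD e hc hu (Or.inl ⟨rfl, rfl⟩)
      (fun x => p.uni (el_mem_Uni q x)) hj)
  · exact h1 (main hDET hTHA hTHB R hD e hc hu (Or.inr ⟨rfl, rfl⟩)
      (fun x => p.uni (el_mem_Uni q x)) hj)

end Pool.Agent.P.MP_7cb106_nt.PT

end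

section

/-! Step EXC. -/

set_option linter.unusedSectionVars false

namespace Pool.Agent.P.MP_7cb106_nt.PT

open Matrix

namespace EXCa

variable {K : Type} [NontriviallyNormedField K] [IsUltrametricDist K] {n : ℕ} {U : Unif K}

/-- the row `k` of `w` has the entries `α` at `k`, `β` at `r` and zero elsewhere -/
def Row (k r : Fin n) (α β : K) (w : GL (Fin n) K) : Prop :=
  ∀ j, w.val k j = (if j = k then α else 0) + if j = r then β else 0

theorem Row.mul {k r : Fin n} {α β : K} {w : GL (Fin n) K} (h : Row k r α β w)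
    (s : GL (Fin n) K) (j : Fin n) : (w * s).val k j = α * s.val k j + β * s.val r j := by
  rw [Units.val_mul, Matrix.mul_apply]
  simp only [h _, add_mul, ite_mul, zero_mul, Finset.sum_add_distrib, Finset.sum_ite_eq',
    Finset.mem_univ, if_true]

theorem row_el {k r : Fin n} (e : k ≠ r) (y : K) : Row k r 1 y (el k r y) := by
  intro j
  rw [el_apply e]
  simp [eq_comm]

theorem row_conj {k r : Fin n} (e : k ≠ r) (x y : K) :
    Row k r (1 + x * y) (-(x * x * y)) (el k r x * el r k y * el k r (-x)) := by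
  have h1 : Row k r (1 + x * y) x (el k r x * el r k y) := by
    intro j
    rw [(row_el e x).mul, el_apply e.symm, el_apply e.symm]
    by_cases a : j = k
    · subst a; simp [e, e.symm]
    · by_cases b : j = r
      · subst b; simp [e, e.symm]
      · simp [a, b, Ne.symm a, Ne.symm b]
  intro j
  rw [h1.mul, el_apply e, el_apply e]
  by_cases a : j = k
  · subst a; simp [e, e.symm]
  · by_cases b : j = r
    · subst b; simp [e, e.symm]; ring
    · simp [a, b, Ne.symm a, Ne.symm b]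

theorem not_St {k r : Fin n} (e : k ≠ r) {α β : K} {w s : GL (Fin n) K} (h : Row k r α β w)
    (hα : Lv U 0 α) (hβ : ‖β‖ = 1) (h1 : Lv U 1 (s.val k r)) (h2 : ‖s.val r r‖ = 1)
    {m : Fin n → ℤ} (hm : 1 ≤ m k - m r) : w * s ∉ St U (dg U m) := by
  intro hs
  rw [St_dg] at hs
  have h3 := (J_off ⟨fun k => by simp, fun _ _ _ => by omega⟩ hs e).mono hm
  rw [h.mul] at h3
  have h4 := h3.sub (hα.mul' h1 (le_refl 1))
  rw [add_sub_cancel_left] at h4
  exact ((norm_eq_one_iff (U := U)).1 (by rw [norm_mul, hβ, h2, one_mul])).2 h4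

end EXCa

theorem p_EXC (hF2 : S_F2) (hWIT : S_WIT) (hTHA : S_THA) (hTHB : S_THB) :
    S_EXC := by
  intro K _ _ _ U n χ c V _ _ ρ X P R k r m v lift hM hD hr hc hm hv he hl hsum
  have hlt : k < r := by rw [Fin.lt_def]; omega
  have e : k ≠ r := hlt.ne
  have hC := hD.toCF
  have hF := fit_fstd hC (adm_zero hC)
  have hle : ∀ i j, fstd c 0 i j ≤ fx c k r 1 i j := fun i j => by
    rw [fx]
    split_ifs with h
    · rw [h.1, h.2, fstd_lt c 0 hlt]; exact zero_le_one
    · exact le_rfl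
  have hconc := conc_fx_one hC hr
  have hs : ∀ i j, i ≠ j → c i j ≤ fx c k r 1 i j + fx c k r 1 j i := fun i j h => by
    have := hF.sum i j h; have := hle i j; have := hle j i; omega
  obtain ⟨u, hu, hE, γ, hγ, hin, hout⟩ := hWIT hM
    (ch_th' hTHA hD hconc (fx_nonneg hC k r zero_le_one) hs) hv
    (he.mono (inf_le_inf_right _ (J_mono hle)))
  have hz : cusp ρ k r u = 0 := by
    by_contra h0
    obtain ⟨Λ, g, h1, h2⟩ := hM.sep (cusp ρ k r u) (Submodule.sub_mem _
      (Submodule.sum_mem _ fun _ _ => Submodule.add_mem _ (hM.act_sup _ hu)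
        (Submodule.sum_mem _ fun _ _ => hM.act_sup _ hu)) (Submodule.smul_mem _ _ hu)) h0
    exact h2 (hF2 R hD hr hc hE h1 g)
  have hSt : ∀ y : K, Lv U 0 y → el r k y ∈ St U (dg U m) := fun y hy => by
    rw [St_dg]; exact el_mem_J e.symm (hy.mono (by omega))
  have hrow : ∀ {α β : K} {w : GL (Fin n) K}, EXCa.Row k r α β w → Lv U 0 α → ‖β‖ = 1 →
      P (dg U m) (ρ w u) = 0 := fun h hα hβ => hout _ fun s hs' =>
    EXCa.not_St e h hα hβ (by simpa [fx] using J_off hconc hs' e)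
      (J_diag_unit hconc (fun l hl => (hC.pos r l hl.symm).trans (hs r l hl.symm)) hs') hm
  have a1 : ∀ y : K, ‖y‖ = 1 → P (dg U m) (ρ (el k r y) u) = 0 := fun y hy =>
    hrow (EXCa.row_el e y) (lv_one U) hy
  have a2 : ∀ x y : K, ‖x‖ = 1 → ‖y‖ = 1 →
      P (dg U m) (ρ (el k r x * el r k y * el k r (-x)) u) = 0 := fun x y hx hy =>
    hrow (EXCa.row_conj e x y) ((lv_one U).add ((lv_unit hx).mul_unit hy)) (by simp [hx, hy])
  have a3 : ∀ y : K, ‖y‖ = 1 → P (dg U m) (ρ (el k r 0 * el r k y * el k r (-0)) u) =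
      γ • ρ (el r k y) v := fun y hy => by
    rw [neg_zero, el_zero e, one_mul, mul_one]; exact hin _ (hSt y (lv_unit hy))
  have a4 : P (dg U m) u = γ • v := by simpa using hin 1 (St U _).one_mem
  have n1 : ‖(1 : K)‖ = 1 := norm_one
  have n2 : ‖(-1 : K)‖ = 1 := by simp
  have hP := congrArg (P (dg U m)) hz
  simp only [cusp, Fin.sum_univ_two, Fin.sum_univ_three, map_sub, map_add, map_smul, map_zero,
    Matrix.cons_val_zero, Matrix.cons_val_one, Matrix.cons_val_two, Matrix.head_cons,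
    Matrix.tail_cons, Matrix.cons_val_fin_one, a1 _ n1, a1 _ n2, a2 _ _ n1 n1, a2 _ _ n1 n2,
    a2 _ _ n2 n1, a2 _ _ n2 n2, a3 _ n1, a3 _ n2, a4, zero_add, add_zero] at hP
  have b : ∀ (x : ZMod 3) (z : K), Lv U 0 z → R.red z = x →
      ρ (el r k (lift x)) v = ρ (el r k z) v := fun x z hz' hx => by
    have h1 : Lv U 1 (lift x - z) := (R.eq_iff (hl x).1 hz').1 ((hl x).2.trans hx.symm)
    have h2 : el r k (lift x - z) ∈ J U (fstd c 0) := el_mem_J e.symm (by
      rw [fstd_gt c 0 hlt, hC.symm r k, hc]; exact h1)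
    rw [show lift x = z + (lift x - z) by ring, el_add e.symm, rep_mul,
      he _ ⟨h2, hSt _ (h1.mono zero_le_one)⟩, th_el hTHB χ e.symm, one_smul]
  have h3 : ∀ f : ZMod 3 → V, ∑ x, f x = f 0 + f 1 + f (-1) := fun f => Fin.sum_univ_three f
  rw [h3, b 0 0 (lv_zero U 0) R.zero, b 1 1 (lv_one U) R.one,
    b (-1) (-1) (lv_one U).neg (by rw [R.neg (lv_one U), R.one]), el_zero e.symm, map_one] at hsum
  have h4 : (γ * 3) • v = γ • ((1 : Module.End ℂ V) v + ρ (el r k 1) v + ρ (el r k (-1)) v) -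
      (γ • ρ (el r k 1) v + γ • ρ (el r k (-1)) v - (2 : ℂ) • γ • v) := by
    rw [Module.End.one_apply]; module
  rw [hsum, hP, smul_zero, sub_zero] at h4
  exact (smul_eq_zero.1 h4).resolve_left (mul_ne_zero hγ three_ne_zero)

end Pool.Agent.P.MP_7cb106_nt.PT

end

section

/-! Step Q3. -/

set_option linter.unusedSectionVars false

namespace Pool.Agent.P.MP_7cb106_nt.PT

open Matrix

namespace Q3a

theorem card_char (κ : Type) [Field κ] [Fintype κ] :
    Nat.card (MulChar κ ℂ) = Fintype.card κ - 1 := by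
  have : NeZero ((Monoid.exponent κˣ : ℕ) : ℂ) :=
    ⟨by exact_mod_cast Monoid.exponent_ne_zero_of_finite⟩
  rw [MulChar.card_eq_card_units_of_hasEnoughRootsOfUnity κ ℂ, Nat.card_units,
    Nat.card_eq_fintype_card]

theorem ex_one (κ : Type) [Field κ] [Fintype κ] (h : 3 ≤ Fintype.card κ) :
    ∃ η : MulChar κ ℂ, η ≠ 1 := by
  have h1 := card_char κ
  have : Finite (MulChar κ ℂ) := Nat.finite_of_card_ne_zero (by omega)
  have : Nontrivial (MulChar κ ℂ) := Finite.one_lt_card_iff_nontrivial.1 (by omega)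
  exact exists_ne 1

theorem ex_two (κ : Type) [Field κ] [Fintype κ] (h : 4 ≤ Fintype.card κ) :
    ∃ η η' : MulChar κ ℂ, η ≠ 1 ∧ η' ≠ 1 ∧ η ≠ η' := by
  have h1 := card_char κ
  have : Finite (MulChar κ ℂ) := Nat.finite_of_card_ne_zero (by omega)
  have := Fintype.ofFinite (MulChar κ ℂ)
  rw [Nat.card_eq_fintype_card] at h1
  obtain ⟨a, b, d, hab, had, hbd⟩ := (Fintype.two_lt_card_iff (α := MulChar κ ℂ)).1 (by omega)
  by_cases ha : a = 1
  · exact ⟨b, d, ha ▸ hab.symm, ha ▸ had.symm, hbd⟩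
  by_cases hb : b = 1
  · exact ⟨a, d, ha, hb ▸ hbd.symm, had⟩
  · exact ⟨a, b, ha, hb, hab⟩

variable {K : Type} [NontriviallyNormedField K] [IsUltrametricDist K] {U : Unif K} {n : ℕ}

theorem big {κ : Type} [Field κ] [Fintype κ] (R : Red U κ) (h : 4 ≤ Fintype.card κ)
    {χ χ' : Kˣ →* ℂˣ} (hb : ∀ η : MulChar κ ℂ, η ≠ 1 → ∀ x : Kˣ, ‖(x : K)‖ = 1 →
      (χ x : ℂ) * η (R.red x) = χ' x) : False := by
  obtain ⟨η, η', h1, h2, h3⟩ := ex_two κ h
  refine h3 (MulChar.ext fun a => ?_)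
  obtain ⟨x, hx, e⟩ := R.surj a
  have hn : ‖x‖ = 1 := (R.ne_zero_iff hx).1 (e ▸ a.ne_zero)
  have h0 : x ≠ 0 := by rintro rfl; simp at hn
  have a1 := hb η h1 (Units.mk0 x h0) hn
  have a2 := hb η' h2 (Units.mk0 x h0) hn
  rw [← a2, Units.val_mk0, e] at a1
  exact mul_left_cancel₀ (Units.ne_zero _) a1

theorem agree_one (R : Red U (ZMod 3)) {χ χ' : Kˣ →* ℂˣ}
    (hb : ∀ η : MulChar (ZMod 3) ℂ, η ≠ 1 → ∀ x : Kˣ, ‖(x : K)‖ = 1 →
      (χ x : ℂ) * η (R.red x) = χ' x) : Agree U χ χ' 1 := by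
  obtain ⟨η, h1⟩ := ex_one (ZMod 3) (by simp)
  intro x hx hl
  have := hb η h1 x hx
  rw [R.congr (lv_one U) hl, R.one, map_one, mul_one] at this
  exact Units.ext this

theorem agree_zero (R : Red U (ZMod 3)) {χ χ' : Kˣ →* ℂˣ} (h : Agree U χ χ' 1)
    (e : χ (-1) = χ' (-1)) : Agree U χ χ' 0 := by
  refine agree_zero_iff.2 fun x hx => ?_
  have h0 := (R.ne_zero_iff (lv_unit hx)).2 hx
  have h3 : ∀ a : ZMod 3, a ≠ 0 → a = 1 ∨ -a = 1 := by decide
  rcases h3 _ h0 with h1 | h1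
  · exact h x hx ((R.eq_iff (lv_unit hx) (lv_one U)).1 (by rw [h1, R.one]))
  · have := h (-x) (by simpa using hx) ((R.eq_iff (by simpa using (lv_unit hx).neg) (lv_one U)).1
      (by rw [Units.val_neg, R.neg (lv_unit hx), h1, R.one]))
    rw [← neg_one_mul, map_mul, map_mul, e] at this
    exact mul_left_cancel this

theorem pm_one (χ : Kˣ →* ℂˣ) : χ (-1) = 1 ∨ χ (-1) = -1 := by
  have : χ (-1) * χ (-1) = 1 := by rw [← map_mul]; simp
  have h := congrArg Units.val this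
  rw [Units.val_mul, Units.val_one, mul_self_eq_one_iff] at h
  exact h.imp (fun e => Units.ext e) fun e => Units.ext e

variable {χ : Fin n → Kˣ →* ℂˣ} {c : Fin n → Fin n → ℤ}

theorem next (R : Red U (ZMod 3)) (hD : Dat U χ c) {k r : Fin n} (hkr : k < r)
    (h : Agree U (χ r) (χ k) 1) : c k r = 1 ∧ r.val = k.val + 1 := by
  have h1 : c k r = 1 := by
    have := hD.pos k r hkr.ne
    by_contra hne
    exact hD.differ k r hkr.ne (h.symm.mono (by omega))
  refine ⟨h1, ?_⟩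
  by_contra hne
  have hlt := Fin.lt_def.1 hkr
  let l : Fin n := ⟨k.val + 1, by have := r.2; omega⟩
  have hkl : k < l := Fin.lt_def.2 (Nat.lt_succ_self _)
  have hlr : l < r := Fin.lt_def.2 (by show k.val + 1 < r.val; omega)
  have ho := hD.toCF.ord hkl hlr
  have key : ∀ i j, i < j → c i j = 1 → χ i (-1) ≠ χ j (-1) := fun i j hij hc e =>
    hD.differ i j hij.ne (by rw [hc]; exact agree_zero R (hc ▸ hD.agree i j) e)
  have a1 := key k l hkl (by omega)
  have a2 := key l r hlr (by omega)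
  have a3 := key k r hkr h1
  rcases pm_one (χ k) with e1 | e1 <;> rcases pm_one (χ l) with e2 | e2 <;>
    rcases pm_one (χ r) with e3 | e3 <;> simp_all

theorem mem_max {f g h : Fin n → Fin n → ℤ} (hf : Conc f) (hg : Conc g)
    (e : ∀ k l, h k l ≤ f k l ∨ h k l ≤ g k l) {s : GL (Fin n) K} (h1 : s ∈ J U f)
    (h2 : s ∈ J U g) : s ∈ J U h := by
  have key : ∀ s, s ∈ J U f → s ∈ J U g → Lev U h s := fun s h1 h2 k l =>
    (e k l).elim (J_lev hf h1 k l).mono (J_lev hg h2 k l).mono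
  exact mem_J_of (key s h1 h2) (key _ ((J U f).inv_mem h1) ((J U g).inv_mem h2))

variable [LocallyCompactSpace K]
  {V : Type} [AddCommGroup V] [Module ℂ V] {ρ : Representation ℂ (GL (Fin n) K) V}
  {X : GL (Fin n) K → Submodule ℂ V} {P : GL (Fin n) K → V →ₗ[ℂ] V}

theorem move (hTHB : S_THB) (hM : Md U χ ρ X P) (hc : CF c) {r : Fin n} {m : Fin n → ℤ}
    (hm : ∀ l, r < l → m l ≤ m r) (h : Rel U ρ X (J U (ft c r 0)) (th χ) (dg U m)) :
    Rel U ρ X (J U (fstd c 0)) (th χ) (dg U (Pi.single r 1 + m)) := by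
  rw [dg_add]
  refine h.act hM _ fun s hs hs' => ⟨?_, (th_dg' hTHB χ _ s).symm⟩
  rw [← dg_add, St_dg] at hs'
  rw [mem_J_sh' (fit_ft hc r 0).conc]
  refine mem_max (fit_fstd hc (adm_zero hc)).conc
    ⟨fun k => by simp, fun k l j => by simp⟩ (fun k l => ?_) hs hs'
  simp only [sh, Pi.add_apply, Pi.single_apply]
  rcases lt_trichotomy k l with e | rfl | e
  · have := hm l
    rw [ft_lt c r 0 e, fstd_lt c 0 e]
    by_cases h1 : k = r
    · subst h1; have := this e; simp [e.ne']; omega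
    · by_cases h2 : l = r <;> simp [h1, h2]
  · rw [ft_diag, fstd_diag]; simp
  · rw [ft_gt c r 0 e, fstd_gt c 0 e]
    by_cases h1 : k = r
    · subst h1; simp [e.ne]
    · by_cases h2 : l = r <;> simp [h1, h2]

theorem fin (hTHB : S_THB) (hM : Md U χ ρ X P) (hc : CF c)
    (hs : ∀ (k r : Fin n) (m : Fin n → ℤ), k < r → 1 ≤ m k - m r →
      Rel U ρ X (J U (ft c r (k.val + 1))) (th χ) (dg U m) →
      Rel U ρ X (J U (ft c r k.val)) (th χ) (dg U m)) (d : ℕ) :
    ∀ m : Fin n → ℤ, (∀ k l, k < l → m l ≤ m k) → (∀ i, m i ≤ 0) → ∑ i, m i = -(d : ℤ) →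
      Rel U ρ X (J U (fstd c 0)) (th χ) (dg U m) → Rel U ρ X (J U (fstd c 0)) (th χ) 1 := by
  induction d with
  | zero =>
    intro m _ h0 hd h
    have : m = 0 := funext fun i =>
      (Finset.sum_eq_zero_iff_of_nonpos fun i _ => h0 i).1 (by simpa using hd) i
        (Finset.mem_univ i)
    rwa [this, dg_zero] at h
  | succ d ih =>
    intro m ha h0 hd h
    have hne : (Finset.univ.filter fun i => m i < 0).Nonempty := by
      by_contra hn
      have : ∑ i, m i = 0 := Finset.sum_eq_zero fun i _ => by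
        by_contra hi
        exact hn ⟨i, by simpa using lt_of_le_of_ne (h0 i) hi⟩
      push_cast at hd
      omega
    obtain ⟨r, hr, hmin⟩ := Finset.exists_min_image _ id hne
    have hr : m r < 0 := by simpa using hr
    have hk : ∀ k, k < r → m k = 0 := fun k e => by
      by_contra hi
      exact (hmin k (by simpa using lt_of_le_of_ne (h0 k) hi)).not_gt e
    have row : ∀ j t : ℕ, t + j = r.val → Rel U ρ X (J U (ft c r t)) (th χ) (dg U m) := by
      intro j
      induction j with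
      | zero => intro t e; rw [show t = r.val from e, ft_self]; exact h
      | succ j ihj =>
        intro t e
        obtain ⟨k, rfl⟩ : ∃ k : Fin n, k.val = t := ⟨⟨t, by have := r.2; omega⟩, rfl⟩
        have hlt : k < r := Fin.lt_def.2 (by omega)
        exact hs k r m hlt (by rw [hk _ hlt]; omega) (ihj (k.val + 1) (by omega))
    refine ih (Pi.single r 1 + m) (fun k l e => ?_) (fun i => ?_) ?_
      (move hTHB hM hc (ha r) (row r.val 0 (zero_add _)))
    · have := ha k l e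
      simp only [Pi.add_apply, Pi.single_apply]
      split_ifs with h1 h2 h2
      · omega
      · subst h1; rw [hk k e]; omega
      · omega
      · omega
    · have := h0 i
      simp only [Pi.add_apply, Pi.single_apply]
      split_ifs with h1
      · subst h1; omega
      · omega
    · simp only [Pi.add_apply, Finset.sum_add_distrib, hd]
      simp

end Q3a

theorem p_Q3 (hSTART : S_START) (hSTEP3 : S_STEP3) (hEXC : S_EXC) (hTHB : S_THB) :
    S_Q3 := by
  intro K _ _ _ U n χ c V _ _ ρ X P hR hM hD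
  obtain ⟨N, hN⟩ := hSTART hM hD (adm_zero hD.toCF)
  refine Q3a.fin hTHB hM hD.toCF (fun k r m hkr hm h => ?_) (∑ i : Fin n, N * i.val)
    (fun i => -((N * i.val : ℕ) : ℤ)) (fun k l e => ?_) (fun i => by omega) (by simp)
    (hN _ fun k l e => ?_)
  · rcases hR with ⟨⟨R⟩⟩ | ⟨κ, _, _, h4, ⟨R⟩⟩
    · refine (hSTEP3 R hM hD hkr hm h).resolve_right ?_
      rintro ⟨hb, v, hv, h0, he, lift, hl, hsum⟩
      obtain ⟨h1, h2⟩ := Q3a.next R hD hkr (Q3a.agree_one R hb)
      rw [← h2, ft_self] at he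
      rw [hD.symm r k, h1, sub_self, pw_zero] at hsum
      exact h0 (hEXC R hM hD h2 h1 hm hv he hl (by simpa using hsum))
    · exact (hSTEP3 R hM hD hkr hm h).resolve_right fun hb => Q3a.big R h4 hb.1
  · have := Nat.mul_le_mul_left N (Fin.lt_def.1 e).le
    omega
  · have := Nat.mul_le_mul_left N (Nat.succ_le_of_lt (Fin.lt_def.1 e))
    rw [Nat.mul_succ] at this
    omega

end Pool.Agent.P.MP_7cb106_nt.PT

end

section

/-! Step LATB. -/

set_option linter.unusedSectionVars false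

namespace Pool.Agent.P.MP_7cb106_nt.PT

open Matrix

namespace LATBa

variable {K : Type} [NontriviallyNormedField K] [IsUltrametricDist K] {U : Unif K} {n : ℕ}
  (R : Red U (ZMod 2))

theorem dgv (y : Fin n → ℤ) (x : Fin n → K) :
    ((dg U y)⁻¹).val *ᵥ x = fun i => x i * pw U (-y i) := by
  funext i
  rw [← dg_neg, dg_val, mulVec_diagonal, mul_comm, Pi.neg_apply]

theorem lvd (a b : ℤ) (x : K) : Lv U a (x * pw U (-b)) ↔ Lv U (a + b) x := by
  rw [← lv_mul_pw (m := a + b) (k := -b), add_neg_cancel_right]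

theorem dgv_mem (y : Fin n → ℤ) (x : Fin n → K) :
    x ∈ {x | ∀ i, Lv U 0 ((((dg U y)⁻¹).val *ᵥ x) i)} ↔ ∀ i, Lv U (y i) (x i) := by
  simp only [Set.mem_ofPred_eq, dgv, lvd, zero_add]

theorem uwv {r : Fin n} {w : Fin n → ZMod 2} (hw : Low r.val w) (x : Fin n → K) :
    ((uw K r w)⁻¹).val *ᵥ x = fun i => x i - lf K w i * x r := by
  funext i
  rw [uw, rk_inv_val (by rw [uw_dot hw]; simp), uw_dot hw]
  simp [sub_mulVec, vecMulVec_mulVec, mul_comm]

/-- the word of a vector -/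
def wd (r : ℕ) (x : Fin n → K) : Fin n → ZMod 2 := fun i => if i.val < r then R.red (x i) else 0

theorem wd_succ (r : Fin n) (x : Fin n → K) :
    wd R (r.val + 1) x = wd R r.val x + R.red (x r) • Pi.single r 1 := by
  funext i
  rcases lt_trichotomy i r with h | rfl | h
  · simp [wd, h, h.le, h.ne]
  · simp [wd]
  · simp [wd, h.not_gt, h.not_ge, h.ne']

theorem succ_iff (r : Fin n) (C : Submodule (ZMod 2) (Fin n → ZMod 2)) (m : Fin n → ℤ)
    (x : Fin n → K) : x ∈ LC R (r.val + 1) C m ↔ (∀ i : Fin n, i.val < r → Lv U 0 (x i)) ∧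
      Lv U 0 (x r) ∧ wd R r.val x + R.red (x r) • Pi.single r 1 ∈ C ∧
      ∀ i : Fin n, r.val < i.val → Lv U (m i) (x i) := by
  rw [← wd_succ]
  refine ⟨fun h => ⟨fun i e => h.1 i (by omega), h.1 r (by omega), h.2⟩,
    fun h => ⟨fun i e => ?_, h.2.2⟩⟩
  rcases (Nat.lt_succ_iff.1 e).lt_or_eq with e | e
  exacts [h.1 i e, Fin.ext e ▸ h.2.1]

theorem uw_iff {r : Fin n} {w : Fin n → ZMod 2} (hw : Low r.val w)
    (C : Submodule (ZMod 2) (Fin n → ZMod 2)) {m : Fin n → ℤ} (hm : 0 ≤ m r) (x : Fin n → K) :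
    ((uw K r w)⁻¹).val *ᵥ x ∈ LC R r.val C m ↔ (∀ i : Fin n, i.val < r → Lv U 0 (x i)) ∧
      Lv U (m r) (x r) ∧ wd R r.val x - R.red (x r) • w ∈ C ∧
      ∀ i : Fin n, r.val < i.val → Lv U (m i) (x i) := by
  have e1 : ∀ i : Fin n, r.val ≤ i.val → x i - lf K w i * x r = x i := fun i h => by
    simp [lf, hw i h]
  have e2 : (∀ i : Fin n, i.val < r → Lv U 0 (x i)) → Lv U 0 (x r) →
      wd R r.val (fun i => x i - lf K w i * x r) = wd R r.val x - R.red (x r) • w := fun a b => by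
    funext i
    by_cases h : i.val < r.val
    · simp only [wd, if_pos h, Pi.sub_apply, Pi.smul_apply, smul_eq_mul]
      rw [R.sub (a i h) ((lv_lf w i).mul' b (by omega)), R.mul _ _ (lv_lf w i) b, red_lf, mul_comm]
    · simp only [wd, if_neg h, Pi.sub_apply, Pi.smul_apply, hw i (not_lt.1 h), smul_zero, sub_zero]
  rw [uwv hw]
  refine ⟨fun h => ?_, fun h => ⟨fun i e => (h.1 i e).sub ((lv_lf w i).mul' h.2.1 (by omega)),
    C.mem_carrier.1 ((e2 h.1 (h.2.1.mono hm)).symm ▸ h.2.2.1 : wd R _ _ ∈ C), fun i e => ?_⟩⟩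
  · have a : ∀ i : Fin n, r.val ≤ i.val → Lv U (m i) (x i) := fun i e => e1 i e ▸ h.2.2 i e
    have b : ∀ i : Fin n, i.val < r → Lv U 0 (x i) := fun i e => by
      simpa using (h.1 i e).add ((lv_lf w i).mul' (a r le_rfl) (by omega))
    exact ⟨b, a r le_rfl, e2 b ((a r le_rfl).mono hm) ▸ h.2.1, fun i e => a i e.le⟩
  · show Lv U (m i) (x i - lf K w i * x r)
    rw [e1 i e]
    rcases e.lt_or_eq with e | e
    exacts [h.2.2.2 i e, Fin.ext e ▸ h.2.1]

end LATBa

open LATBa in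
theorem p_LATB :
    S_LATB := by
  intro K _ _ _ U n R
  refine ⟨fun m => Set.ext fun x => ?_, fun r C m g hg => ⟨fun e => Set.ext fun x => ?_,
    fun w hw hC => ⟨fun h => Set.ext fun x => ?_, fun h => Set.ext fun x => ?_,
      fun h h' => Set.ext fun x => ?_⟩⟩⟩
  · rw [Lat, dgv_mem]
    simp [LC, Pi.zero_def.symm]
  · have e1 : ∀ i : Fin n, i.val < r.val → x i * pw U (-(Pi.single r e : Fin n → ℤ) i) = x i :=
      fun i h => by rw [Pi.single_eq_of_ne (Fin.ne_of_lt h), neg_zero, pw_zero, mul_one]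
    rw [mem_Lat_mul, hg, dgv]
    refine and_congr (forall₂_congr fun i h => by simp only [e1 i h]) (and_congr ?_
      (forall₂_congr fun i _ => lvd _ _ _))
    rw [iff_eq_eq]
    congr 1
    exact funext fun i => if_ctx_congr Iff.rfl (fun h => congrArg _ (e1 i h)) fun _ => rfl
  · rw [mem_Lat_mul, hg, uw_iff R hw C (by omega), succ_iff, h]
    refine and_congr_right fun _ => ⟨fun a => ⟨a.1.mono (by omega), ?_, a.2.2⟩, fun a => ?_⟩
    · simpa only [R.of_lv a.1, zero_smul, sub_zero, add_zero] using a.2.1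
    · have b : R.red (x r) = 0 := by simpa [wd] using hC _ a.2.1 r le_rfl
      exact ⟨(R.zero_iff _ a.1).1 b,
        by simpa only [b, zero_smul, sub_zero, add_zero] using a.2.1, a.2.2⟩
  · rw [mem_Lat_mul, hg, uw_iff R hw C (by omega), succ_iff, h]
    refine and_congr_right fun _ => and_congr_right fun _ => and_congr_left fun _ => ?_
    rw [Submodule.mem_sup]
    refine ⟨fun a => ⟨_, a, _, Submodule.smul_mem _ (R.red (x r))
      (Submodule.mem_span_singleton_self _), by rw [smul_add]; abel⟩, ?_⟩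
    rintro ⟨c, hc, z, hz, e⟩
    obtain ⟨b, rfl⟩ := Submodule.mem_span_singleton.1 hz
    have e1 : b = R.red (x r) := by
      simpa [wd, hC c hc r le_rfl, hw r le_rfl] using congrFun e r
    rw [e1, smul_add, ← add_assoc, add_left_inj] at e
    rwa [← e, add_sub_cancel_right]
  · rw [mem_Lat_mul, hg, uw_iff R hw C (by omega), C.sub_mem_iff_left (C.smul_mem _ h')]
    refine and_congr_right fun _ => ⟨fun a => ⟨a.2.1, fun i e => ?_⟩,
      fun a => ⟨a.2 r le_rfl, a.1, fun i e => a.2 i e.le⟩⟩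
    rcases e.lt_or_eq with e | e
    exacts [a.2.2 i e, Fin.ext e ▸ a.1]

end Pool.Agent.P.MP_7cb106_nt.PT

end

section

/-! Step LATC. -/

set_option linter.unusedSectionVars false

namespace Pool.Agent.P.MP_7cb106_nt.PT

open Matrix

namespace LATCa

variable {K : Type} [NontriviallyNormedField K] [IsUltrametricDist K] [LocallyCompactSpace K]
  {U : Unif K} {n : ℕ} {R : Red U (ZMod 2)} {C C' : Submodule (ZMod 2) (Fin n → ZMod 2)}

/-- vectors supported on the places below `r` -/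
def lo (n r : ℕ) : Submodule (ZMod 2) (Fin n → ZMod 2) where
  carrier := {x | Low r x}
  add_mem' := fun a b i h => by rw [Pi.add_apply, a i h, b i h, add_zero]
  zero_mem' := fun _ _ => rfl
  smul_mem' := fun c _ a i h => by rw [Pi.smul_apply, a i h, smul_zero]

theorem lo_le (r : ℕ) : lo n r ≤ lo n (r + 1) := fun _ h i e => h i (Nat.le_of_succ_le e)

theorem lo_of {r : Fin n} {x : Fin n → ZMod 2} (h : x ∈ lo n (r.val + 1)) (e : x r = 0) :
    x ∈ lo n r.val := fun i hi => by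
  rcases hi.eq_or_lt with a | a
  exacts [Fin.ext a ▸ e, h i a]

theorem mem {m : Fin n → ℤ} {x : Fin n → K} :
    x ∈ LC R n C m ↔ (∀ i, Lv U 0 (x i)) ∧ (fun i => R.red (x i)) ∈ C := by
  simp [LC, fun i : Fin n => i.2.not_ge]

theorem ex (hB : S_LATB) (R : Red U (ZMod 2)) (C : Submodule (ZMod 2) (Fin n → ZMod 2)) (r : ℕ)
    (h : r ≤ n) : ∃ g, Lat U g = LC R r (C ⊓ lo n r) 1 := by
  induction r with
  | zero => exact ⟨_, ((hB R).1 1).trans (by
      rw [show C ⊓ lo n 0 = ⊥ from eq_bot_iff.2 fun x h => funext fun i => h.2 i i.1.zero_le])⟩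
  | succ r ih =>
    obtain ⟨g, hg⟩ := ih (Nat.le_of_succ_le h)
    lift r to Fin n using h
    by_cases e : ∃ x ∈ C ⊓ lo n (r.val + 1), x r = 1
    · obtain ⟨x, hx, e⟩ := e
      have l : ∀ y ∈ C ⊓ lo n (r.val + 1), y r = 1 → ∀ z ∈ lo n (r.val + 1), z r = 1 →
          y - z ∈ lo n r.val := fun y a b z c d =>
        lo_of (sub_mem a.2 c) (by rw [Pi.sub_apply, b, d, sub_self])
      refine ⟨_, (((hB R).2 r _ _ _ (((hB R).2 r _ _ g hg).1 (-1))).2 (x - Pi.single r 1)
        (l x hx e _ (fun i hi => Pi.single_eq_of_ne (Fin.ne_of_gt hi) _) (Pi.single_eq_same _ _))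
        fun _ h => h.2).2.1 (by simp) |>.trans ?_⟩
      rw [sub_add_cancel, show (C ⊓ lo n r.val) ⊔ Submodule.span (ZMod 2) {x} = C ⊓ lo n (r.val + 1)
        from le_antisymm (sup_le (inf_le_inf_left _ (lo_le _)) (by simpa using hx)) fun y hy => by
          rcases zmod2_cases (y r) with a | a
          · exact Submodule.mem_sup_left ⟨hy.1, lo_of hy.2 a⟩
          · rw [← sub_add_cancel y x]
            exact Submodule.add_mem_sup ⟨sub_mem hy.1 hx.1, l y hy a x hx.2 e⟩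
              (Submodule.mem_span_singleton_self x)]
      ext y
      refine and_congr_right' (and_congr_right' (forall₂_congr fun i hi => ?_))
      rw [Pi.add_apply, Pi.single_eq_of_ne (Fin.ne_of_gt hi), add_zero]
    · refine ⟨_, (((hB R).2 r _ _ g hg).2 0 (fun _ _ => rfl) fun _ h => h.2).1 rfl |>.trans ?_⟩
      rw [le_antisymm (inf_le_inf_left C (lo_le _)) fun y hy =>
        ⟨hy.1, lo_of hy.2 ((zmod2_cases _).resolve_right fun a => e ⟨y, hy, a⟩)⟩]

theorem st {h : GL (Fin n) K} (hh : Lev U (fun _ _ => ((1 : ℕ) : ℤ)) h) (x : Fin n → K)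
    (hx : x ∈ LC R n C 0) : h.val *ᵥ x ∈ LC R n C 0 := by
  rw [mem] at hx ⊢
  have a : ∀ i, Lv U 1 ((h.val *ᵥ x) i - x i) := fun i => by
    have : (h.val *ᵥ x) i - x i = ((h.val - 1) *ᵥ x) i := by rw [sub_mulVec, one_mulVec]; rfl
    rw [this, mulVec, dotProduct]
    exact lv_sum _ _ fun j _ => (hh i j).mul (hx.1 j)
  refine ⟨fun i => by simpa using ((a i).mono zero_le_one).add (hx.1 i), ?_⟩
  simpa only [fun i => R.congr (hx.1 i) (a i)] using hx.2

theorem rig {e : Fin n → K} (h : ∀ x ∈ LC R n C' 0, (fun i => e i * x i) ∈ LC R n C 0)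
    (hC : ∀ i, Pi.single i 1 ∉ C) (i : Fin n) : ‖e i‖ ≤ 1 := by
  have a : ∀ j, Lv U 1 ((Pi.single i (pw U 1) : Fin n → K) j) := fun j => by
    rw [Pi.single_apply]
    split_ifs
    exacts [lv_pw U 1, lv_zero U 1]
  obtain ⟨b, c⟩ := mem.1 (h _ (mem.2 ⟨fun j => (a j).mono zero_le_one, by
    simp only [fun j => R.of_lv (a j)]; exact C'.zero_mem⟩))
  replace b := b i
  rw [Pi.single_eq_same] at b
  refine (lv0_iff U _).1 (lv_mul_pw.1 ((R.zero_iff _ b).1 ((zmod2_cases _).resolve_right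
    fun d => hC i ?_)))
  convert c using 1
  funext j
  rcases eq_or_ne j i with rfl | f
  · rw [Pi.single_eq_same, Pi.single_eq_same, d]
  · rw [Pi.single_eq_of_ne f, Pi.single_eq_of_ne f, mul_zero, R.zero]

theorem le {e : Fin n → K} (h : ∀ x ∈ LC R n C' 0, (fun i => e i * x i) ∈ LC R n C 0)
    (he : ∀ i, ‖e i‖ = 1) : C' ≤ C := fun w hw => by
  have := (mem.1 (h _ (mem.2 ⟨lv_lf w, by simpa only [red_lf] using hw⟩))).2
  simpa only [fun i => R.mul _ _ (lv_unit (he i)) (lv_lf w i), red_lf, R.one, one_mul,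
    fun i => R.congr (lv_one U) (R.unit_two (he i))] using this

end LATCa

open LATCa in
theorem p_LATC (hLATB : S_LATB) :
    S_LATC := by
  intro K _ _ _ U n R
  choose g hg using fun C => ex hLATB R C n le_rfl
  replace hg : ∀ C, Lat U (g C) = LC R n C 0 := fun C => by
    ext x
    rw [hg, mem, mem, inf_eq_left.2 fun x _ i h => absurd h i.2.not_ge]
  refine ⟨g, hg, fun C h hh => mem_St_of ?_ ?_, fun C C' d a b h => ?_⟩
  · rw [hg]
    exact st (mem_KK.1 hh).1
  · rw [hg]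
    exact st (mem_KK.1 hh).2
  rw [mul_assoc, ← Lat_eq_iff, hg] at h
  have h1 : ∀ x, x ∈ LC R n C' 0 ↔ (fun i => (d i : K)⁻¹ * x i) ∈ LC R n C 0 := fun x => by
    rw [h, mem_Lat_mul, hg, dia_inv, dia_val]
    refine iff_of_eq (congrArg _ (funext fun i => ?_))
    simp [mulVec_diagonal]
  have h2 : ∀ x ∈ LC R n C 0, (fun i => (d i : K) * x i) ∈ LC R n C' 0 := fun x hx =>
    (h1 _).2 (by simpa using hx)
  have h3 : ∀ i, ‖(d i : K)‖ = 1 := fun i => le_antisymm (rig h2 b i) (by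
    have := rig (fun x => (h1 x).1) a i
    rwa [norm_inv, inv_le_one₀ (norm_pos_iff.2 (d i).ne_zero)] at this)
  exact ⟨le_antisymm (le h2 h3) (le (fun x => (h1 x).1) fun i => by rw [norm_inv, h3, inv_one]), h3⟩

end Pool.Agent.P.MP_7cb106_nt.PT

end

section

/-! Step Q2. -/

set_option linter.unusedSectionVars false

namespace Pool.Agent.P.MP_7cb106_nt.PT

open Matrix

namespace Q2a

variable {K : Type} [NontriviallyNormedField K] [IsUltrametricDist K] {U : Unif K} {n : ℕ}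

theorem lc_congr (R : Red U (ZMod 2)) {r : ℕ} (C : Submodule (ZMod 2) (Fin n → ZMod 2))
    {m m' : Fin n → ℤ} (h : ∀ i : Fin n, r ≤ i.val → m i = m' i) : LC R r C m = LC R r C m' :=
  Set.ext fun _ => and_congr_right fun _ => and_congr_right fun _ =>
    forall₂_congr fun i hi => by rw [h i hi]

theorem low_sup {r : Fin n} {C : Submodule (ZMod 2) (Fin n → ZMod 2)} {w : Fin n → ZMod 2}
    (hC : ∀ x ∈ C, Low r.val x) (hw : Low r.val w) :
    ∀ x ∈ C ⊔ Submodule.span (ZMod 2) {w + Pi.single r 1}, Low (r.val + 1) x := by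
  intro x hx i hi
  obtain ⟨y, hy, z, hz, rfl⟩ := Submodule.mem_sup.1 hx
  obtain ⟨a, rfl⟩ := Submodule.mem_span_singleton.1 hz
  have e : i ≠ r := fun e => by omega
  simp [hC y hy i (by omega), hw i (by omega), e]

theorem no_sup {r : Fin n} {C : Submodule (ZMod 2) (Fin n → ZMod 2)} {w : Fin n → ZMod 2}
    (hC : ∀ x ∈ C, Low r.val x) (h1 : ∀ i, Pi.single i 1 ∉ C) (hw : Low r.val w) (h2 : w ∉ C)
    (i : Fin n) : Pi.single i 1 ∉ C ⊔ Submodule.span (ZMod 2) {w + Pi.single r 1} := by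
  intro hx
  obtain ⟨y, hy, z, hz, e⟩ := Submodule.mem_sup.1 hx
  obtain ⟨a, rfl⟩ := Submodule.mem_span_singleton.1 hz
  rcases zmod2_cases a with rfl | rfl
  · rw [zero_smul, add_zero] at e
    exact h1 i (e ▸ hy)
  · obtain rfl : r = i := by
      by_contra e'
      simpa [hC y hy r le_rfl, hw r le_rfl, e'] using congrFun e r
    rw [one_smul, ← add_assoc, add_eq_right] at e
    exact h2 (eq_neg_of_add_eq_zero_right e ▸ C.neg_mem hy)

end Q2a

open Q2a in
theorem p_Q2 (hSTART : S_START) (hSTEP2 : S_STEP2) (hCONJ : S_CONJ) (hFAR : S_FAR) (hLATB : S_LATB) (hKAPB : S_KAPB) :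
    S_Q2 := by
  intro K _ _ _ U n χ c V _ _ ρ X P R hM hD
  have step : ∀ (r : Fin n) (k : ℕ) (C : Submodule (ZMod 2) (Fin n → ZMod 2)) (m : Fin n → ℤ)
      (g : GL (Fin n) K), m r = -k → (∀ l, r < l → m l < m r) → (∀ x ∈ C, Low r.val x) →
      (∀ i, Pi.single i 1 ∉ C) → Lat U g = LC R r.val C m →
      Rel U ρ X (J U (fstd c 1)) (th χ) g →
      ∃ (C : Submodule (ZMod 2) (Fin n → ZMod 2)) (g : GL (Fin n) K),
        (∀ x ∈ C, Low (r.val + 1) x) ∧ (∀ i, Pi.single i 1 ∉ C) ∧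
        Lat U g = LC R (r.val + 1) C m ∧ Rel U ρ X (J U (fstd c 1)) (th χ) g := by
    intro r k
    induction k using Nat.strong_induction_on with
    | _ k ih =>
    intro C m g h1 h2 h3 h4 h5 h6
    obtain ⟨w, hw, h7⟩ := hSTEP2 R hM hD h5 h2 h6
    have h8 := ((hLATB R).2 r C m g h5).1 1
    obtain ⟨a1, a2, a3⟩ := ((hLATB R).2 r C _ _ h8).2 w hw h3
    have h9 : Rel U ρ X (J U (fstd c 1)) (th χ) (uw K r w * (dg U (Pi.single r 1) * g)) :=
      h7.act hM _ fun s hs _ => by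
        have b1 := (hCONJ R hD hw s hs).2.1
        refine ⟨b1, Eq.trans (congrArg _ ?_) (hCONJ R hD hw _ b1).2.2⟩
        group
    have e1 : (m + Pi.single r 1 : Fin n → ℤ) r = 1 - k := by
      rw [Pi.add_apply, Pi.single_eq_same, h1, neg_add_eq_sub]
    have e2 : ∀ i : Fin n, r.val + 1 ≤ i.val → (m + Pi.single r 1 : Fin n → ℤ) i = m i :=
      fun i hi => by rw [Pi.add_apply, Pi.single_eq_of_ne fun e => by omega, add_zero]
    rcases k with _ | k
    · exact ⟨C, _, fun x hx i hi => h3 x hx i (by omega), h4,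
        (a1 (by simpa using e1)).trans (lc_congr R C e2), h9⟩
    by_cases e : Lat U (uw K r w * (dg U (Pi.single r 1) * g)) = LC R r.val C (m + Pi.single r 1)
    · obtain ⟨C', g', b1, b2, b3, b4⟩ := ih k k.lt_succ_self C _ _ (by rw [e1]; push_cast; ring)
        (fun l hl => by have := h2 l hl; rw [e2 l hl, e1]; omega) h3 h4 e h9
      exact ⟨C', g', b1, b2, b3.trans (lc_congr R C' e2), b4⟩
    · have e3 : (m + Pi.single r 1 : Fin n → ℤ) r = 0 := by
        by_contra e3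
        obtain rfl := hFAR R hM hD h8 (by omega) h3 h4 hw h7
        exact e (by rw [uw_zero, one_mul, h8])
      exact ⟨_, _, low_sup h3 hw, no_sup h3 h4 hw fun h => e (a3 e3 h),
        (a2 e3).trans (lc_congr R _ e2), h9⟩
  obtain ⟨N, hN⟩ := hSTART hM hD ((hKAPB R).2 hD).1
  have key : ∀ r ≤ n, ∃ (C : Submodule (ZMod 2) (Fin n → ZMod 2)) (g : GL (Fin n) K),
      (∀ x ∈ C, Low r x) ∧ (∀ i, Pi.single i 1 ∉ C) ∧
      Lat U g = LC R r C (fun i => -((N + 1) * i.val : ℕ)) ∧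
      Rel U ρ X (J U (fstd c 1)) (th χ) g := by
    intro r hr
    induction r with
    | zero =>
      refine ⟨⊥, _, fun x hx i _ => by rw [hx]; rfl, by simp, (hLATB R).1 _, hN _ fun k l h => ?_⟩
      have := Nat.mul_le_mul_left (N + 1) (show k.val + 1 ≤ l.val from h)
      rw [mul_add_one] at this
      omega
    | succ r ih =>
      obtain ⟨C, g, b1, b2, b3, b4⟩ := ih (by omega)
      exact step ⟨r, hr⟩ _ C _ g rfl (fun l hl => neg_lt_neg (Nat.cast_lt.2
        (mul_lt_mul_of_pos_left hl N.succ_pos))) b1 b2 b3 b4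
  obtain ⟨C, g, -, b2, b3, b4⟩ := key n le_rfl
  exact ⟨C, g, b2, b3.trans (lc_congr R C fun i hi => absurd i.2 hi.not_gt), b4⟩

end Pool.Agent.P.MP_7cb106_nt.PT

end

section

/-! Step MAIN. -/

set_option linter.unusedSectionVars false

namespace Pool.Agent.P.MP_7cb106_nt.PT

open Matrix

namespace MAINa

theorem perm {K : Type} [NormedField K] {n : ℕ} (χ : Fin n → Kˣ →* ℂˣ) (w : Equiv.Perm (Fin n))
    {V : Type} [AddCommGroup V] [Module ℂ V] (π : Representation ℂ (GL (Fin n) K) V) :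
    Principal (fun i => χ (w i)) π ↔ Principal χ π :=
  ⟨fun ⟨u, χ', l, h1, h2, h3⟩ => ⟨w * u, χ', l, h1, h2, h3⟩,
    fun ⟨u, χ', l, h1, h2, h3⟩ => ⟨w⁻¹ * u, χ', l, h1, by simpa using h2, h3⟩⟩

end MAINa

theorem p_MAIN (hBR : S_BR) (hORD : S_ORD) (hRED : S_RED) (hFIN : S_FIN) (hQ3 : S_Q3) (hQ2 : S_Q2) (hLATC : S_LATC) (hKAPB : S_KAPB) :
    S_MAIN := by
  intro K _ _ _ n χ h1 h2
  obtain ⟨⟨U⟩, h⟩ := hBR K
  obtain ⟨w, c, hD⟩ := hORD K U n χ (fun i => (h U).1 _ (h1 i))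
    fun i j e => h2 i j (agree_zero_iff.1 e)
  suffices Concl (fun i => χ (w i)) (Code K n) by simpa only [Concl, MAINa.perm] using this
  by_cases e : ∃ x : K, ‖x‖ = 1 ∧ ‖x - 1‖ = 1
  · have ha := adm_zero hD.toCF
    refine hFIN (a := 0) (g := fun _ => 1) hD ha ⟨fun C => ?_, fun C C' d hd => ⟨?_, fun i => ?_⟩⟩
      fun V _ _ ρ X P hM => ⟨⟨⊥, fun i hi => ?_, fun _ => rfl⟩, hQ3 ((hRED K U).2 e) hM hD⟩
    · rw [St_one]; exact J_le_K0 (fit_fstd hD.toCF ha).nonneg
    · exact Subtype.ext ((C.2.2 e).trans (C'.2.2 e).symm)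
    · rw [inv_one, one_mul, mul_one, mem_K0, dia_inv] at hd
      have a := hd.1 i i
      have b := hd.2 i i
      rw [dia_val, diagonal_apply_eq] at a b
      exact norm_eq_one_of_mul a b (by simp)
    · simpa using congrFun ((Submodule.mem_bot _).1 hi) i
  · obtain ⟨R⟩ := (hRED K U).1 e
    obtain ⟨g, g1, g2, g3⟩ := hLATC (n := n) R
    obtain ⟨k1, k2, -⟩ := (hKAPB R).2 hD
    refine hFIN (a := 1) (g := fun C : Code K n => g C.1) hD k1
      ⟨fun C => k2.trans (g2 _), fun C C' d hd => (g3 _ _ d C.2.1 C'.2.1 hd).imp_left Subtype.ext⟩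
      fun V _ _ ρ X P hM => ?_
    obtain ⟨C, k, q1, q2, q3⟩ := hQ2 R hM hD
    exact ⟨⟨C, q1, fun h => absurd h e⟩, q3.right hM (Lat_eq_iff.1 (q2.trans (g1 C).symm))⟩

end Pool.Agent.P.MP_7cb106_nt.PT

end

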