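import Pool.Agent.P.MP_7cb106_nt.PB.Base

set_option autoImplicit false

section

/-! Step KAPA. -/

set_option linter.unusedSectionVars false

namespace Pool.Agent.P.MP_7cb106_nt.PT

open Matrix

namespace KAPAa

variable {K : Type} [NontriviallyNormedField K] [IsUltrametricDist K] {U : Unif K} {n : ℕ}
  (R : Red U (ZMod 2)) {A B : Matrix (Fin n) (Fin n) K}

lemma int_mul (hA : ∀ k l, Lv U 0 (A k l)) (hB : ∀ k l, Lv U 0 (B k l)) (k l : Fin n) :
    Lv U 0 ((A * B) k l) := by
  rw [Matrix.mul_apply]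
  exact lv_sum _ _ fun m _ => (hA k m).mul' (hB m l) (by omega)

lemma red_mul (hA : ∀ k l, Lv U 0 (A k l)) (hB : ∀ k l, Lv U 0 (B k l)) :
    (A * B).map R.red = A.map R.red * B.map R.red := by
  ext k l
  rw [map_apply, Matrix.mul_apply, Matrix.mul_apply,
    R.sum _ _ fun m _ => (hA k m).mul' (hB m l) (by omega)]
  exact Finset.sum_congr rfl fun m _ => R.mul _ _ (hA k m) (hB m l)

lemma lv1 {g : GL (Fin n) K} {N : ℕ} (hg : g ∈ KK U n (N + 1)) (k l : Fin n) :
    Lv U N ((g.val - 1) k l / pw U 1) := lv_div_pw.2 (by simpa using (mem_KK.1 hg).1 k l)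

lemma Xm_eq (g : GL (Fin n) K) : Xm R g = ((pw U 1)⁻¹ • (g.val - 1)).map R.red := by
  ext k l
  simp only [Xm, of_apply, map_apply, Matrix.smul_apply, smul_eq_mul, div_eq_inv_mul]

lemma Xm_mul {g h : GL (Fin n) K} (hg : g ∈ KK U n 1) (hh : h ∈ KK U n 1) :
    Xm R (g * h) = Xm R g + Xm R h := by
  ext k m
  have e : (g * h).val - 1 = (g.val - 1) + (h.val - 1) + (g.val - 1) * (h.val - 1) := by
    rw [Units.val_mul]; noncomm_ring
  have h1 : Lv U 0 _ := lv1 (N := 0) hg k m
  have h2 : Lv U 0 _ := lv1 (N := 0) hh k m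
  simp only [Xm, of_apply, Matrix.add_apply, e, add_div]
  rw [← R.add _ _ h1 h2]
  refine R.congr (h1.add h2) ?_
  rw [add_sub_cancel_left, lv_div_pw, Matrix.mul_apply]
  exact lv_sum _ _ fun l _ => ((mem_KK.1 hg).1 k l).mul' ((mem_KK.1 hh).1 l m) (by simp)

lemma rdm_mul {g h : GL (Fin n) K} (hg : g ∈ KK U n 0) (hh : h ∈ KK U n 0) :
    rdm R (g * h) = rdm R g * rdm R h := red_mul R (K0_ent hg) (K0_ent hh)

lemma Xm_conj {k h : GL (Fin n) K} (hk : k ∈ KK U n 0) (hh : h ∈ KK U n 1) :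
    Xm R (k⁻¹ * h * k) = rdm R k⁻¹ * Xm R h * rdm R k := by
  have e : (k⁻¹ * h * k).val - 1 = (k⁻¹).val * (h.val - 1) * k.val := by
    rw [Matrix.mul_sub, Matrix.sub_mul, Matrix.mul_one, ← Units.val_mul k⁻¹ k, inv_mul_cancel]
    rfl
  have h1 : ∀ i j, Lv U 0 (((pw U 1)⁻¹ • (h.val - 1)) i j) := fun i j => by
    rw [Matrix.smul_apply, smul_eq_mul, ← div_eq_inv_mul]
    exact lv1 (N := 0) hh i j
  have h2 := K0_ent (inv_mem hk)
  rw [Xm_eq, Xm_eq, e, ← Matrix.smul_mul, ← Matrix.mul_smul,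
    red_mul R (int_mul h2 h1) (K0_ent hk), red_mul R h2 h1]
  rfl

end KAPAa

open KAPAa in
theorem p_KAPA :
    S_KAPA := by
  intro K _ _ _ U n R
  have k2 : ∀ β, ∀ g ∈ KK U n 2, kap R β g = 1 := fun β g hg => by
    have : Xm R g = 0 := by
      ext k l
      exact R.of_lv (lv1 (N := 1) hg k l)
    rw [kap, this, Matrix.mul_zero, trace_zero, sg_zero]
  refine ⟨fun g hg h hh => Xm_mul R hg hh, fun β H hH => ⟨hH.trans (KK_mono zero_le_one), ?_, 2,
    fun g _ => k2 β g⟩, fun k hk k' hk' => rdm_mul R hk hk', fun k hk => ?_, fun β k hk h hh => ?_,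
    fun β k l h => ?_, fun β k α => ?_, fun f hf h => ?_⟩
  · refine ⟨k2 β 1 (one_mem _), fun g hg h hh => ?_⟩
    rw [kap, Xm_mul R (hH hg) (hH hh), Matrix.mul_add, trace_add, sg_add, kap, kap]
  · ext i j
    have h1 : Lv U 1 (k.val i j - (1 : Matrix (Fin n) (Fin n) K) i j) := (mem_KK.1 hk).1 i j
    by_cases e : i = j
    · subst e
      rw [one_apply_eq] at h1 ⊢
      exact (R.congr (lv_one U) h1).trans R.one
    · rw [one_apply_ne e] at h1 ⊢
      exact R.of_lv (by simpa using h1)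
  · rw [kap, kap, Xm_conj R hk hh, ← Matrix.mul_assoc, ← Matrix.mul_assoc, trace_mul_comm,
      ← Matrix.mul_assoc, ← Matrix.mul_assoc]
  · have : Xm R (el k l (pw U 1)) = single k l 1 := by
      ext i j
      simp only [Xm, of_apply, el_val h, add_sub_cancel_left, single_apply]
      split_ifs
      · rw [div_self (pw_ne U 1), R.one]
      · rw [zero_div, R.zero]
    rw [kap, this, trace_mul_single]
    simp
  · have : Xm R (di k α) = single k k (R.red (((α : K) - 1) / pw U 1)) := by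
      ext i j
      simp only [Xm, of_apply, Matrix.sub_apply, di_val, single_apply, one_apply]
      by_cases e : i = j
      · subst e
        by_cases e' : i = k
        · simp [e']
        · simp [e', Ne.symm e', R.zero]
      · rw [if_neg e, if_neg e, if_neg (by rintro ⟨rfl, rfl⟩; exact e rfl)]
        simp [R.zero]
    rw [kap, this, trace_mul_single]
    simp
  · have key : ∀ g ∈ J U f, Lev U (fun _ _ => ((1 : ℕ) : ℤ)) g := fun g hg =>
      lev_of (fun k l e => (J_off hf hg e).mono (h k l e)) fun k => R.unit_two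
        (J_diag_unit hf (fun l e => by have := h k l e.symm; have := h l k e; omega) hg)
    exact fun g hg => mem_KK.2 ⟨key g hg, key _ (inv_mem hg)⟩

end Pool.Agent.P.MP_7cb106_nt.PT

end

section

/-! Step KAPB. -/

set_option linter.unusedSectionVars false

namespace Pool.Agent.P.MP_7cb106_nt.PT

open Matrix

namespace KAPBa

variable {K : Type} [NontriviallyNormedField K] [IsUltrametricDist K] {U : Unif K}

theorem first (R : Red U (ZMod 2)) (χ χ' : Kˣ →* ℂˣ) (C : ℤ) (hC : 2 ≤ C) (h1 : Agree U χ χ' C)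
    (h2 : ¬ Agree U χ χ' (C - 1)) (y : K) (hy : Lv U (C - 1) y) :
    ext (χ / χ') (1 + y) = sg (R.red (y / pw U (C - 1))) := by
  have n1 : ‖1 + y‖ = 1 := norm_eq_one_of_lv_one (U := U) (by simpa using hy.mono (by omega))
  have one : ∀ z : K, ‖z‖ = 1 → Lv U C (z - 1) → ext (χ / χ') z = 1 := fun z a b => by
    rw [ext_div_char, h1.ext_eq a b, div_self (ext_ne_zero _ _)]
  by_cases e : Lv U C y
  · rw [one _ n1 (by simpa using e), R.of_lv (lv_div_pw.2 (e.mono (by omega))), sg_zero]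
  simp only [Agree, not_forall] at h2
  obtain ⟨x, x1, x2, x3⟩ := h2
  have a1 := R.unit_two (norm_div_pw hy (by simpa using e))
  have a2 := R.unit_two (norm_div_pw x2 (by simpa using fun h => x3 (h1 x x1 h)))
  have a3 := a1.sub a2
  rw [sub_sub_sub_cancel_right, ← sub_div, lv_div_pw] at a3
  have two : Lv U 1 (1 + 1 : K) := (R.zero_iff _ ((lv_one U).add (lv_one U))).1 (by
    rw [R.add _ _ (lv_one U) (lv_one U), R.one]; decide)
  have a4 := one (x * x) (by rw [norm_mul, x1, one_mul]) (by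
    rw [show (x : K) * x - 1 = (x - 1) * (x - 1 + (1 + 1)) by ring]
    exact x2.mul' ((x2.mono (by omega)).add two) (by omega))
  rw [ext_mul _ x.ne_zero x.ne_zero, mul_self_eq_one_iff] at a4
  rw [R.congr (lv_one U) a1, R.one, sg_one, h1.ext_div_congr n1 x1 (by
    rw [show 1 + y - x = y - (x - 1) by ring]; exact a3.mono (by omega))]
  refine a4.resolve_left fun h => x3 (Units.ext ?_)
  rwa [ext_div_char, div_eq_one_iff_eq (ext_ne_zero _ _), ext_val, ext_val] at h

end KAPBa

open KAPBa in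
theorem p_KAPB (hKAPA : S_KAPA) :
    S_KAPB := by
  intro K _ _ _ U n R
  refine ⟨first R, fun {χ c} hD => ?_⟩
  have hc := hD.toCF
  have two : ∀ k l, k ≠ l → 2 ≤ c k l := fun k l e => by
    by_contra h
    have := hc.pos k l e
    exact hD.differ k l e fun x hx _ => hD.agree k l x hx ((R.unit_two hx).mono (by omega))
  have ad : Adm c 1 := ⟨zero_le_one, two⟩
  have cf := (fit_fstd hc ad).conc
  have le1 : J U (fstd c 1) ≤ KK U n 1 := (hKAPA R).2.2.2.2.2.2.2 _ cf fun k l e => by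
    have := two k l e
    rcases lt_or_gt_of_ne e with h | h
    · rw [fstd_lt c 1 h]
    · rw [fstd_gt c 1 h]; omega
  have un : ∀ k l l', k ≠ l → k ≠ l' → c k l ≤ 2 → c k l' ≤ 2 → l = l' := by
    intro k l l' e e' h h'
    refine hD.inj fun x hx _ => Units.ext ?_
    have key : ∀ l, k ≠ l → c k l ≤ 2 →
        (χ k x : ℂ) / χ l x = sg (R.red (((x : K) - 1) / pw U (2 - 1))) := fun l e h => by
      have a := le_antisymm h (two k l e)
      have := first R _ _ 2 le_rfl (a ▸ hD.agree k l) (a ▸ hD.differ k l e) _ (R.unit_two hx)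
      rwa [add_sub_cancel, ext_div_char, ext_val, ext_val] at this
    have := (key l e h).trans (key l' e' h').symm
    rwa [div_eq_div_iff (Units.ne_zero _) (Units.ne_zero _), mul_right_inj' (Units.ne_zero _),
      eq_comm] at this
  have ad2 : ∀ r, ∀ g ∈ J U (fstd c 1), ∀ h ∈ J U (fstd c 1),
      prow R c r (g * h) = prow R c r g + prow R c r h := by
    intro r g hg h hh
    funext l
    simp only [prow, Pi.add_apply]
    split_ifs with e
    swap
    · rfl
    have lv : ∀ g ∈ J U (fstd c 1), Lv U 0 (g.val r l / pw U (c r l - 1)) := fun g hg =>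
      lv_div_pw.2 ((J_off cf hg e.ne').mono (by rw [fstd_gt c 1 e]; omega))
    have lw : ∀ g ∈ J U (fstd c 1), ∀ i j,
        Lv U (if i = j then 1 else fstd c 1 i j) ((g.val - 1) i j) := fun g hg i j => by
      split_ifs
      exacts [(mem_KK.1 (le1 hg)).1 i j, J_lev cf hg i j]
    rw [← R.add _ _ (lv g hg) (lv h hh)]
    refine R.congr ((lv g hg).add (lv h hh)) ?_
    have e1 : (g * h).val r l - (g.val r l + h.val r l) = ((g.val - 1) * (h.val - 1)) r l := by
      simp [Matrix.sub_mul, Matrix.mul_sub, Matrix.one_apply_ne e.ne']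
      ring
    rw [← add_div, ← sub_div, lv_div_pw, e1, Matrix.mul_apply]
    refine lv_sum _ _ fun i _ => (lw g hg r i).mul' (lw h hh i l) ?_
    rcases lt_trichotomy i l with a | rfl | a
    · have := hc.ord a e
      rw [if_neg (a.trans e).ne', if_neg a.ne, fstd_gt c 1 (a.trans e), fstd_lt c 1 a]
      omega
    · rw [if_neg e.ne', if_pos rfl, fstd_gt c 1 e]
      omega
    rcases lt_trichotomy i r with b | rfl | b
    · have := hc.ord a b
      have := two l i a.ne
      have := two i r b.ne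
      rw [if_neg b.ne', if_neg a.ne', fstd_gt c 1 b, fstd_gt c 1 a]
      omega
    · rw [if_pos rfl, if_neg e.ne', fstd_gt c 1 e]
    · have := hc.ord e b
      rw [if_neg b.ne, if_neg a.ne', fstd_lt c 1 b, fstd_gt c 1 a]
      omega
  refine ⟨ad, le1, J_mono fun k l => ?_, un, fun k l e h => ?_, ad2, fun r w => ?_⟩
  · rw [inn_fh hc]
    split_ifs <;> omega
  · have a : k.val + 1 < n := by have := l.2; rw [Fin.lt_def] at e; omega
    have b : k < ⟨_, a⟩ := Nat.lt_succ_self _
    rw [un k l ⟨_, a⟩ e.ne b.ne h ((hc.intv k k _ l le_rfl b.le e).trans h)]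
  · obtain ⟨N, hN⟩ := Finite.exists_le fun k => (c r k).toNat
    have tr : ∀ g ∈ KK U n N, psi R c r w g = 1 := fun g hg => by
      have : prow R c r g = 0 := funext fun k => by
        have := hN k
        simp only [prow]
        split_ifs with e
        exacts [R.of_lv (lv_div_pw.2 (((mem_KK.1 hg).1.off e.ne').mono (by omega))), rfl]
      rw [psi, this, dotProduct_zero, sg_zero]
    exact ⟨le1.trans (KK_mono zero_le_one), ⟨tr 1 (one_mem _), fun g hg h hh => by
      rw [psi, ad2 r g hg h hh, dotProduct_add, sg_add, psi, psi]⟩, N, fun g _ => tr g⟩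

end Pool.Agent.P.MP_7cb106_nt.PT

end

section

/-! Step STEP2. -/

set_option linter.unusedSectionVars false

namespace Pool.Agent.P.MP_7cb106_nt.PT

open Matrix

namespace STEP2a

variable {K : Type} [NontriviallyNormedField K] [IsUltrametricDist K] {U : Unif K} {n : ℕ}
  {c : Fin n → Fin n → ℤ} {R : Red U (ZMod 2)} {r : Fin n}
  {C : Submodule (ZMod 2) (Fin n → ZMod 2)} {m : Fin n → ℤ} {g s : GL (Fin n) K}

theorem up (hg : Lat U g = LC R r.val C m) (hs : s ∈ St U g) {l : Fin n} (h : r < l) :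
    Lv U (m r - m l) (s.val r l) := by
  have h1 : (Pi.single l (pw U (m l)) : Fin n → K) ∈ Lat U g := by
    have e : ∀ i : Fin n, i.val < r.val → (Pi.single l (pw U (m l)) : Fin n → K) i = 0 :=
      fun i hi => Pi.single_eq_of_ne ((Fin.lt_def.2 hi).trans h).ne _
    rw [hg]
    refine ⟨fun i hi => e i hi ▸ lv_zero U 0, ?_, fun i _ => ?_⟩
    · convert C.zero_mem using 1
      funext i
      split_ifs with hi
      · rw [e i hi, R.zero]; rfl
      · rfl
    · rw [Pi.single_apply]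
      split_ifs with hi
      · exact hi ▸ lv_pw U _
      · exact lv_zero U _
  have h2 := (hg ▸ St_mulVec hs h1 : _ ∈ LC R r.val C m).2.2 r le_rfl
  rw [mulVec_single, ← sub_add_cancel (m r) (m l)] at h2
  exact lv_mul_pw.1 h2

theorem lev (hg : Lat U g = LC R r.val C m) (hm : ∀ l, r < l → m l < m r)
    (h1 : Lev U (fstd c 1) s) (h2 : s ∈ St U (dg U (Pi.single r 1) * g))
    (h3 : prow R c r s = 0) : Lev U (sh (fstd c 1) (Pi.single r 1)) s := by
  refine lev_of (fun k l e => ?_) fun k => (h1.diag k).mono (by simp [sh])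
  by_cases hk : k = r
  swap
  · refine (h1.off e).mono ?_
    rw [sh, Pi.single_eq_of_ne hk, Pi.single_apply]
    split_ifs <;> omega
  subst hk
  rw [sh, Pi.single_eq_same, Pi.single_eq_of_ne e.symm]
  rcases lt_or_gt_of_ne e with h | h
  · have a := up hg (mem_St_mul.1 h2) h
    have b := dg_conj (U := U) (Pi.single k 1)
      ((dg U (Pi.single k 1))⁻¹ * s * dg U (Pi.single k 1)) k l
    rw [show ∀ t : GL (Fin n) K, t * (t⁻¹ * s * t) * t⁻¹ = s from fun t => by group,
      Pi.single_eq_same, Pi.single_eq_of_ne e.symm] at b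
    have := hm l h
    rw [b, fstd_lt c 1 h]
    exact a.mul' (lv_pw U _) (by omega)
  · have a := h1.off e
    have b := congrFun h3 l
    rw [fstd_gt c 1 h] at a ⊢
    rw [prow, if_pos h, Pi.zero_apply, R.zero_iff _ (lv_div_pw.2 (by rwa [zero_add])),
      lv_div_pw] at b
    exact b.mono (by omega)

end STEP2a

theorem p_STEP2 (hFOUR : S_FOUR) (hKAPB : S_KAPB) (hTHA : S_THA) (hTHB : S_THB) :
    S_STEP2 := by
  intro K _ _ _ U n χ c V _ _ ρ X P R r C m g hM hD hg hm ⟨v, hv, h0, he⟩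
  obtain ⟨ha, -, -, -, -, hp, -⟩ := (hKAPB R).2 hD
  have hf := fit_fstd hD.toCF ha
  have h1 : prow R c r (1 : GL (Fin n) K) = 0 := by
    have := hp r 1 (one_mem _) 1 (one_mem _)
    rw [mul_one] at this
    exact left_eq_add.1 this
  obtain ⟨w, v', a1, a2, a3⟩ := hFOUR (π := ρ)
    (H := J U (fstd c 1) ⊓ St U (dg U (Pi.single r 1) * g)) (p := prow R c r)
    ((ch_th hTHA hD hf).mult.mono inf_le_left) (fun a ha b hb => hp r a ha.1 b hb.1)
    (fun s hs e => by
      have e' : prow R c r s⁻¹ = 0 := by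
        have := hp r s hs.1 s⁻¹ (inv_mem hs.1)
        rw [mul_inv_cancel, h1, e, zero_add] at this
        exact this.symm
      have b := (mem_J hf.conc).1 hs.1
      have d := (mem_J_sh' hf.conc _).2 (mem_J_of (STEP2a.lev hg hm b.1 hs.2 e)
        (STEP2a.lev hg hm b.2 (inv_mem hs.2) e'))
      rw [← rep_mul, show ∀ t : GL (Fin n) K, s * t = t * (t⁻¹ * s * t) from fun t => by group,
        rep_mul, he _ ⟨d, mem_St_mul.1 hs.2⟩, map_smul, th_dg' hTHB])
    (rep_ne ρ (dg U (Pi.single r 1)) h0)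
  refine ⟨fun i => if i < r then w i else 0, fun i hi => if_neg (not_lt.2 hi), v',
    hM.sp_le (fun s hs => hs.2) (hM.act _ g v hv) a1, a2, a3.congr fun s _ => ?_⟩
  rw [psi]
  congr 2
  refine Finset.sum_congr rfl fun i _ => ?_
  by_cases h : i < r <;> simp [prow, h]

end Pool.Agent.P.MP_7cb106_nt.PT

end

section

/-! Step CONJ. -/

set_option linter.unusedSectionVars false

namespace Pool.Agent.P.MP_7cb106_nt.PT

open Matrix

namespace CONJa

variable {K : Type} [NontriviallyNormedField K] [IsUltrametricDist K] {U : Unif K} {n : ℕ}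
  {c : Fin n → Fin n → ℤ} {r : Fin n}

theorem nrm (hc : CF c) (ha : Adm c 1) (h1 : J U (fstd c 1) ≤ KK U n 1) {u h : GL (Fin n) K}
    (hu : u ∈ Tri K (so n)) (hu' : u ∈ KK U n 0) (hh : h ∈ J U (fstd c 1)) :
    u * h * u⁻¹ ∈ J U (fstd c 1) := by
  have hf := fit_fstd hc ha
  obtain ⟨N, hN⟩ := exists_bound (fstd c 1)
  have hb : ∀ k l, fstd c 1 k l + fstd c 1 l k = 0 ∨ 1 ≤ fstd c 1 k l + fstd c 1 l k := fun k l => by
    have := hf.nonneg k l; have := hf.nonneg l k; omega
  have k1 : ∀ u ∈ Tri K (so n), u ∈ KK U n 0 →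
      Lev U (fun k l => if k ≤ l then 0 else (N : ℤ)) u := fun u a b k l => by
    beta_reduce
    split_ifs with e
    · exact (mem_KK.1 b).1 k l
    · rw [Matrix.sub_apply, mem_Tri.1 a k l (so_lt.2 (not_le.1 e)),
        one_apply_ne fun e' => e e'.le, sub_zero]
      exact lv_zero U _
  have k2 : ∀ h ∈ J U (fstd c 1), Lev U (inn (fstd c 1) 1) h := fun h a k l => by
    unfold inn
    split_ifs
    exacts [(mem_KK.1 (h1 a)).1 k l, J_lev hf.conc a k l]
  refine J_conj (conc_inn hf.conc hf.nonneg zero_le_one hb) ⟨fun k => by simp, fun k l m => ?_⟩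
    (fun k => by simp) (fun k k' l' l => ?_)
    (mem_J_of (k1 u hu hu') (k1 _ (inv_mem hu) (inv_mem hu')))
    (mem_J_of (k2 h hh) (k2 _ (inv_mem hh)))
  · simp only [Fin.le_def]
    split_ifs <;> omega
  · have a1 := hN k l
    have a2 : 1 ≤ inn (fstd c 1) 1 k' l' ∧ (l' < k' → inn (fstd c 1) 1 k' l' = c k' l' - 1) := by
      rcases lt_trichotomy k' l' with e | rfl | e
      · have := ha.2 k' l' e.ne
        rw [inn_of_ne (by rw [hf.sum _ _ e.ne]; omega), fstd_lt c 1 e]
        exact ⟨le_rfl, fun e' => absurd e e'.not_gt⟩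
      · rw [inn_of_eq (by simp [fstd_diag])]
        simp
      · have := ha.2 k' l' e.ne'
        rw [inn_of_ne (by rw [hf.sum _ _ e.ne']; omega), fstd_gt c 1 e]
        omega
    split_ifs with e1 e2
    · rcases lt_trichotomy k l with e | rfl | e
      · rw [fstd_lt c 1 e]; omega
      · rw [fstd_diag]; omega
      · have := hc.intv l' l k k' e2 e.le e1
        have := hc.symm k l
        have := hc.symm k' l'
        rw [fstd_gt c 1 e, a2.2 ((e2.trans_lt e).trans_le e1)]
        omega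
    all_goals omega

theorem ev {a : Fin n → K} (h : a r = 0) :
    (rk (Pi.single r 1) a).val = 1 + vecMulVec (Pi.single r 1) a := rk_val (by simp [h])

theorem ev' {a : Fin n → K} (h : a r = 0) (k l : Fin n) :
    ((rk (Pi.single r 1) a).val - 1) k l = if k = r then a l else 0 := by
  rw [ev h, add_sub_cancel_left, vecMulVec_apply, Pi.single_apply, ite_mul, one_mul, zero_mul]

theorem eadd {a a' : Fin n → K} (h : a r = 0) (h' : a' r = 0) :
    rk (Pi.single r 1) (a + a') = rk (Pi.single r 1) a * rk (Pi.single r 1) a' := by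
  ext1
  rw [Units.val_mul, ev h, ev h', ev (by simp [h, h']), add_mul, one_mul, mul_add, mul_one,
    vecMulVec_mul_vecMulVec, vecMulVec_add]
  simp [h, add_comm, add_left_comm]

theorem euni {a : Fin n → K} (h : ∀ k, r ≤ k → a k = 0) :
    rk (Pi.single r 1) a ∈ Uni K fun i => -so n i := fun k l e => by
  rw [ev' (h r le_rfl)]
  split_ifs with e'
  exacts [h l (e' ▸ so_le.1 (neg_le_neg_iff.1 e)), rfl]

theorem psi_one (R : Red U (ZMod 2)) (w : Fin n → ZMod 2) {h : GL (Fin n) K}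
    (e : ∀ k < r, h.val r k = 0) : psi R c r w h = 1 := by
  have : prow R c r h = 0 := funext fun k => by
    unfold prow
    split_ifs with a
    · rw [e k a, zero_div, R.zero]; rfl
    · rfl
  rw [psi, this, dotProduct_zero, sg_zero]

end CONJa

open CONJa in
theorem p_CONJ (hUL : S_UL) (hKAPB : S_KAPB) (hTHA : S_THA) (hTHB : S_THB) :
    S_CONJ := by
  intro K _ _ _ U n χ c R r w hD hw
  obtain ⟨ha, h1, -, -, -, -, hψ⟩ := (hKAPB (n := n) R).2 hD
  have hf := fit_fstd hD.toCF ha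
  have l0 : ∀ k, r ≤ k → lf K w k = 0 := fun k e => if_pos (hw k e)
  have u0 : 1 + (Pi.single r 1 : Fin n → K) ⬝ᵥ lf K w ≠ 0 := by rw [uw_dot hw]; simp
  have uU : ∀ o : Fin n → ℤ, (∀ k < r, o k < o r) → uw K r w ∈ Uni K o := fun o ho k l e => by
    rw [uw, rk_val u0, add_sub_cancel_left, vecMulVec_apply, Pi.single_apply]
    split_ifs with e'
    · rw [l0 k (not_lt.1 fun a => (ho k a).not_ge (e' ▸ e)), zero_mul]
    · exact mul_zero _
  have u1 := uU (so n) fun k => so_lt.2
  have hn := fun h => nrm (h := h) hD.toCF ha h1 (Uni_le_Tri u1) (uw_mem_K0 hw)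
  have hθ := (ch_th hTHA hD hf).mult
  let P : GL (Fin n) K → Prop := fun h => h ∈ J U (fstd c 1) ∧
    th χ (uw K r w * h * (uw K r w)⁻¹) = th χ h * psi R c r w h
  have hP : ∀ g h, P g → P h → P (g * h) := fun g h a b => ⟨mul_mem a.1 b.1, by
    rw [← conj_mul, hθ.2 _ (hn g a.1) _ (hn h b.1), a.2, b.2, hθ.2 _ a.1 _ b.1,
      (hψ r w).mult.2 _ a.1 _ b.1]
    ring⟩
  refine fun h hh => ⟨hn h hh, by
    simpa using nrm hD.toCF ha h1 (inv_mem (Uni_le_Tri u1)) (inv_mem (uw_mem_K0 hw)) hh, ?_⟩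
  obtain ⟨b, hb, l, hl, hb', hl', rfl⟩ := hUL hf.conc (hf.one_le hD.toCF) so_inj h hh
  have hE : ∀ (k : Fin n) (x : K), (r ≤ k → x = 0) → Lv U (fstd c 1 r k) x →
      P (rk (Pi.single r 1) (Pi.single k x)) := fun k x h0 hx => by
    have s0 : ∀ j, r ≤ j → (Pi.single k x : Fin n → K) j = 0 := fun j e => by
      rw [Pi.single_apply]
      split_ifs with e'
      exacts [h0 (e' ▸ e), rfl]
    have s1 := s0 r le_rfl
    refine ⟨rk_mem_J (by simp [s1]) fun i j => ?_, ?_⟩
    · rw [Pi.single_apply, Pi.single_apply]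
      split_ifs with e e'
      · subst e e'; simpa using hx
      all_goals simpa using lv_zero U _
    rw [th_uni hTHB χ (neg_inj' so_inj) (euni s0), one_mul]
    rcases le_or_gt r k with e | e
    · rw [h0 e, Pi.single_zero, show rk (Pi.single r (1 : K)) 0 = 1 from Units.ext (by simp [ev]),
        (hψ r w).mult.1, mul_one, mul_inv_cancel]
      exact hθ.1
    have e1 : (uw K r w).val *ᵥ Pi.single r 1 = Pi.single r 1 + lf K w := by
      rw [uw, rk_val u0, add_mulVec, one_mulVec, vecMulVec_mulVec]; simp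
    have e2 : Pi.single k x ᵥ* ((uw K r w)⁻¹).val = Pi.single k x - Pi.single r (x * lf K w k) := by
      rw [uw, rk_inv_val u0, uw_dot hw, vecMul_sub, vecMul_one, vecMul_smul, vecMul_vecMulVec]
      simp [← Pi.single_smul]
    rw [fstd_gt c 1 e] at hx
    have c2 := ha.2 k r e.ne
    rw [rk_conj (by simp [s1]), e1, e2, (hTHB χ).2.2.2.2 _ _ k r e
      (by simp [e.ne, l0 r le_rfl]) (fun i a b => by simp [a, b])]
    simp only [Pi.sub_apply, Pi.add_apply, Pi.single_eq_same, Pi.single_eq_of_ne e.ne, sub_zero,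
      zero_add]
    rw [(hKAPB (n := n) R).1 _ _ (c k r) (by omega) (hD.agree k r) (hD.differ k r e.ne) _
      (hD.symm k r ▸ hx.mul' (lv_lf w k) (by omega)), psi, dotProduct, Finset.sum_eq_single k,
      mul_div_right_comm, hD.symm k r, R.mul _ _ (lv_div_pw.2 (by simpa using hx)) (lv_lf w k),
      red_lf, mul_comm]
    · simp [prow, e, ev s1, e.ne', vecMulVec_apply]
    · intro j _ hj
      by_cases a : j < r
      · simp [prow, a, ev s1, a.ne', vecMulVec_apply, hj, R.zero]
      · simp [prow, a]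
    · simp
  have a0 : ∀ k, r ≤ k → (l.val - 1) r k = 0 := fun k e => hl' r k (neg_le_neg (so_le.2 e))
  have hA : P (rk (Pi.single r 1) ((l.val - 1) r)) := by
    have := Finset.sum_induction (s := Finset.univ) (fun k => Pi.single k ((l.val - 1) r k))
      (fun a : Fin n → K => a r = 0 ∧ P (rk (Pi.single r 1) a))
      (fun a a' h h' => ⟨by simp [h.1, h'.1], eadd h.1 h'.1 ▸ hP _ _ h.2 h'.2⟩)
      ⟨rfl, by simpa using hE r 0 (fun _ => rfl) (lv_zero U _)⟩ fun k _ =>
        ⟨by rw [Pi.single_apply]; split_ifs with e; exacts [a0 k e.le, rfl],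
          hE k _ (a0 k) (J_lev hf.conc hl r k)⟩
    rw [Finset.univ_sum_single] at this
    exact this.2
  obtain ⟨m, hm⟩ : ∃ m, l = m * rk (Pi.single r 1) ((l.val - 1) r) :=
    ⟨_, (inv_mul_cancel_right _ _).symm⟩
  have m0 := eq_mul_inv_of_mul_eq hm.symm
  have m1 : m ∈ Uni K fun i => -so n i := m0 ▸ mul_mem hl' (inv_mem (euni a0))
  have m2 : ∀ k, (m.val - 1) r k = 0 := fun k => by
    have e := congrArg (fun g : GL (Fin n) K => (g.val - 1) r k) hm
    simp only [Units.val_mul, ev (a0 r le_rfl), mul_add, mul_one, mul_vecMulVec] at e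
    rw [add_sub_right_comm, Matrix.add_apply, vecMulVec_apply] at e
    simpa [Uni_diag m1] using e
  refine (hP _ _ ⟨hb, ?_⟩ (hm ▸ hP m _ ⟨m0 ▸ mul_mem hl (inv_mem hA.1), ?_⟩ hA)).2
  · have t := Uni_le_Tri u1
    rw [psi_one R w fun k e => mem_Tri.1 hb' r k (so_lt.2 e), mul_one, (hTHB χ).1 _ so_inj b hb',
      (hTHB χ).1 _ so_inj _ (mul_mem (mul_mem t hb') (inv_mem t)),
      dch_mul χ so_inj (mul_mem t hb') (inv_mem t), dch_mul χ so_inj t hb', dch_uni χ u1,
      dch_uni χ (inv_mem u1), one_mul, mul_one]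
  · have t := uU (fun i => if i = r then 1 else -so n i) fun k e => by simp [e.ne, so]; omega
    have t' : m ∈ Uni K fun i => if i = r then 1 else -so n i := fun k j e => by
      by_cases a : k = r
      · exact a ▸ m2 j
      · refine m1 k j ?_
        simp only [if_neg a, so] at e ⊢
        split_ifs at e <;> omega
    rw [psi_one R w fun k e => by simpa [e.ne'] using m2 k, mul_one,
      th_uni hTHB χ (neg_inj' so_inj) m1]
    refine th_uni hTHB χ (fun i j e => ?_) (mul_mem (mul_mem t t') (inv_mem t))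
    simp only [so, Fin.ext_iff] at e ⊢
    split_ifs at e <;> omega

end Pool.Agent.P.MP_7cb106_nt.PT

end

section

/-! Step LOW. -/

set_option linter.unusedSectionVars false

namespace Pool.Agent.P.MP_7cb106_nt.PT

open Matrix

namespace LOWa

variable {K : Type} [NontriviallyNormedField K] [IsUltrametricDist K] {U : Unif K} {n : ℕ}
  {c : Fin n → Fin n → ℤ}

theorem up {l : GL (Fin n) K} (hu : l ∈ Uni K (fun i => -so n i)) {i k : Fin n} (h : i < k) :
    l.val i k = 0 := mem_Tri.1 (Uni_le_Tri hu) i k (neg_lt_neg (so_lt.2 h))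

theorem low (hc : CF c) (ha : Adm c 1) {l : GL (Fin n) K} (hl : l ∈ J U (inn (fh c) 1))
    {i k : Fin n} (h : k < i) : Lv U (max (c i k - 2) 1) (l.val i k) ∧
      (c i k ≤ 2 → Lv U (c i k - 1) (l.val i k)) := by
  have h1 := J_off (conc_inn (conc_fh hc) (fh_nonneg c) zero_le_one (fh_blk hc (by omega))) hl h.ne'
  rw [inn_fh hc, if_neg h.le.not_gt] at h1
  have := ha.2 i k h.ne'
  refine ⟨h1.mono ?_, fun e => h1.mono ?_⟩ <;> split_ifs <;> omega

theorem lev {l : GL (Fin n) K} (hu : l ∈ Uni K (fun i => -so n i))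
    (h : ∀ i k, k < i → Lv U (c i k - 1) (l.val i k)) : Lev U (fstd c 1) l := by
  refine lev_of (fun i k e => ?_) fun k => ?_
  · rcases lt_or_gt_of_ne e with e | e
    · rw [up hu e]; exact lv_zero U _
    · rw [fstd_gt c 1 e]; exact h i k e
  · rw [Uni_diag hu, sub_self]; exact lv_zero U _

theorem ineq (hc : CF c) {i j k l : Fin n} (hkl : k < l) (hji : j < i) (hk : k ≤ i) (hl : j ≤ l) :
    c i j - 1 ≤ (if i = k then 0 else max (c i k - 2) 1) + 1 +
      (if j = l then 0 else max (c l j - 2) 1) := by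
  have s1 := hc.symm i j
  have s2 := hc.symm i k
  have s3 := hc.symm l j
  by_cases e1 : i = k
  · subst e1
    have := hc.intv j j i l le_rfl hji.le hkl.le
    rw [if_pos rfl, if_neg (hji.trans hkl).ne]; omega
  by_cases e2 : j = l
  · subst e2
    have := hc.intv k j i i hkl.le hji.le le_rfl
    rw [if_neg e1, if_pos rfl]; omega
  rw [if_neg e1, if_neg e2]
  rcases le_or_gt k j with e3 | e3
  · have := hc.intv k j i i e3 hji.le le_rfl; omega
  · have := hc.intv j j k l le_rfl e3.le hkl.le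
    have := hc.ultra j k i
    omega

end LOWa

open LOWa

theorem p_LOW (hTHB : S_THB) :
    S_LOW := by
  intro K _ _ _ U n χ c l hD ha hl hu hn
  have hc := hD.toCF
  have hl' := (J U _).inv_mem hl
  have hu' := (Uni K _).inv_mem hu
  classical
  have hex : ∃ d : ℕ, ∃ i k : Fin n, k < i ∧ i.val - k.val = d ∧
      ¬ (Lv U (c i k - 1) (l.val i k) ∧ Lv U (c i k - 1) ((l⁻¹).val i k)) := by
    by_contra h
    push Not at h
    exact hn (mem_J_of (lev hu fun i k e => (h _ i k e rfl).1) (lev hu' fun i k e => (h _ i k e rfl).2))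
  obtain ⟨i0, k0, hlt, hd, hbad⟩ := Nat.find_spec hex
  have hmin : ∀ i k : Fin n, k < i → i.val - k.val < i0.val - k0.val →
      Lv U (c i k - 1) (l.val i k) ∧ Lv U (c i k - 1) ((l⁻¹).val i k) := by
    intro i k e h
    by_contra hb
    exact Nat.find_min hex (hd ▸ h) ⟨i, k, e, rfl, hb⟩
  have hmid : ∀ i, i ≠ k0 → i ≠ i0 → Lv U (c i0 k0) (l.val i0 i * (l⁻¹).val i k0) := by
    intro i e1 e2
    rcases lt_or_gt_of_ne e1 with e1 | e1
    · rw [up hu' e1, mul_zero]; exact lv_zero U _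
    rcases lt_or_gt_of_ne e2 with e2 | e2
    · have := hc.ord e1 e2
      have := ha.2 k0 i e1.ne
      have := ha.2 i i0 e2.ne
      rw [Fin.lt_def] at e1 e2
      exact (hmin i0 i e2 (by omega)).1.mul' (hmin i k0 e1 (by omega)).2 (by omega)
    · rw [up hu e2, zero_mul]; exact lv_zero U _
  have hsum : ∑ i, l.val i0 i * (l⁻¹).val i k0 = 0 := by
    rw [← Matrix.mul_apply, ← Units.val_mul, mul_inv_cancel, Units.val_one,
      Matrix.one_apply_ne hlt.ne']
  have hb1 : ¬ Lv U (c i0 k0 - 2 + 1) (l.val i0 k0) := by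
    intro h
    refine hbad ⟨h.mono (by omega), ?_⟩
    rw [← Finset.add_sum_erase _ _ (Finset.mem_univ i0), ← Finset.add_sum_erase _ _
      (Finset.mem_erase.2 ⟨hlt.ne, Finset.mem_univ k0⟩), Uni_diag hu, Uni_diag hu', one_mul,
      mul_one] at hsum
    rw [eq_neg_of_add_eq_zero_left hsum]
    refine ((h.mono (by omega)).add (lv_sum _ _ fun i hi => (hmid i ?_ ?_).mono (by omega))).neg
    · exact Finset.ne_of_mem_erase hi
    · exact Finset.ne_of_mem_erase (Finset.mem_of_mem_erase hi)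
  have h0 := ne_zero_of_not_lv hb1
  have hdiff := hD.differ k0 i0 hlt.ne
  unfold Agree at hdiff
  push Not at hdiff
  obtain ⟨α, hα, hα1, hne⟩ := hdiff
  rw [hc.symm k0 i0] at hα1
  set x := ((α : K) - 1) / l.val i0 k0 with hx
  have hx1 : Lv U 1 x := (hα1.div_of_not hb1).mono (by omega)
  have hconj : l⁻¹ * el k0 i0 x * l =
      rk (fun i => (l⁻¹).val i k0 * x) (fun j => l.val i0 j) := by
    have := rk_conj (b := Pi.single k0 x) (a := Pi.single i0 1)
      (by rw [el_dot hlt.ne]; simp) l⁻¹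
    rw [inv_inv] at this
    rw [el, this]
    congr 1 <;> funext i <;> simp
  have hdot : ∀ s : Finset (Fin n), ∑ i ∈ s, l.val i0 i * ((l⁻¹).val i k0 * x) =
      (∑ i ∈ s, l.val i0 i * (l⁻¹).val i k0) * x := fun s => by
    rw [Finset.sum_mul]; exact Finset.sum_congr rfl fun i _ => (mul_assoc _ _ _).symm
  have hab : (fun j => l.val i0 j) ⬝ᵥ (fun i => (l⁻¹).val i k0 * x) = 0 := by
    rw [dotProduct, hdot, hsum, zero_mul]
  refine ⟨el k0 i0 x, el_mem_J hlt.ne (by rwa [fstd_lt c 1 hlt]), ?_, ?_⟩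
  · rw [hconj]
    refine rk_mem_J (by rw [hab]; simp) fun i j => ?_
    rcases lt_or_ge i k0 with e1 | e1
    · rw [up hu' e1, zero_mul, zero_mul]; exact lv_zero U _
    rcases lt_or_ge i0 j with e2 | e2
    · rw [up hu e2, mul_zero]; exact lv_zero U _
    have a1 : Lv U (if i = k0 then 0 else max (c i k0 - 2) 1) ((l⁻¹).val i k0) := by
      split_ifs with e
      · rw [e, Uni_diag hu']; exact lv_one U
      · exact (low hc ha hl' (lt_of_le_of_ne e1 (Ne.symm e))).1
    have a2 : Lv U (if j = i0 then 0 else max (c i0 j - 2) 1) (l.val i0 j) := by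
      split_ifs with e
      · rw [e, Uni_diag hu]; exact lv_one U
      · exact (low hc ha hl (lt_of_le_of_ne e2 e)).1
    refine ((a1.mul hx1).mul a2).mono ?_
    rcases lt_or_ge j i with e | e
    · rw [fstd_gt c 1 e]; exact ineq hc hlt e e1 e2
    · have : fstd c 1 i j ≤ 1 := by
        rcases eq_or_lt_of_le e with rfl | e
        · rw [fstd_diag]; omega
        · rw [fstd_lt c 1 e]
      split_ifs <;> omega
  · rw [th_el hTHB χ hlt.ne, hconj, th]
    have hD1 := (hTHB χ).2.2.1 _ _ (by rw [hab]; simp :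
      1 + (fun j => l.val i0 j) ⬝ᵥ (fun i => (l⁻¹).val i k0 * x) ≠ 0)
    rw [← Finset.prod_filter_mul_prod_filter_not _ (fun j => k0 ≤ j ∧ j < i0),
      Finset.prod_eq_one (s := Finset.univ.filter fun j => ¬ (k0 ≤ j ∧ j < i0)), mul_one,
      Finset.prod_congr rfl (g := fun j => ext (χ j / nx χ j) (α : K)),
      (hTHB χ).2.2.2.1 k0 i0 hlt.le, ext_div_char, ext_val, ext_val]
    · intro e
      exact hne (Units.ext ((div_eq_one_iff_eq (Units.ne_zero _)).1 e.symm))
    · intro j hj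
      obtain ⟨h1, h2⟩ := (Finset.mem_filter.1 hj).2
      have hj1 : j.val + 1 < n := by have := i0.2; rw [Fin.lt_def] at h2; omega
      have hlv : Lv U (c i0 k0) (Dl j (rk (fun i => (l⁻¹).val i k0 * x) fun j => l.val i0 j) - α) := by
        rw [hD1, hdot, ← Finset.add_sum_erase _ _ (Finset.mem_filter.2 ⟨Finset.mem_univ k0, h1⟩),
          Uni_diag hu', mul_one, add_mul, hx, mul_div_cancel₀ _ h0, ← hx]
        have : Lv U (c i0 k0) ((∑ i ∈ (Finset.univ.filter (· ≤ j)).erase k0,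
            l.val i0 i * (l⁻¹).val i k0) * x) :=
          (lv_sum _ _ fun i hi => hmid i (Finset.ne_of_mem_erase hi)
            ((Finset.mem_filter.1 (Finset.mem_of_mem_erase hi)).2.trans_lt h2).ne).mul' hx1 (by omega)
        convert this using 1
        ring
      have hle : c j ⟨j.val + 1, hj1⟩ ≤ c i0 k0 := by
        rw [hc.symm i0 k0]
        exact hc.intv k0 j _ i0 h1 (by rw [Fin.le_def]; simp) (by rw [Fin.le_def]; exact h2)
      rw [nx, dif_pos hj1]
      exact ((hD.agree j _).mono hle).ext_div_congr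
        (norm_eq_one_of_lv hα (hlv.mono (hc.pos _ _ hlt.ne'))) hα hlv
    · intro j hj
      have hj' := (Finset.mem_filter.1 hj).2
      rw [hD1, hdot]
      rcases lt_or_ge j k0 with e | e
      · rw [Finset.sum_eq_zero, zero_mul, add_zero, ext_one]
        intro i hi
        rw [up hu' ((Finset.mem_filter.1 hi).2.trans_lt e), mul_zero]
      · have e2 : i0 ≤ j := not_lt.1 fun h => hj' ⟨e, h⟩
        rw [Finset.sum_subset (Finset.filter_subset _ _), hsum, zero_mul, add_zero, ext_one]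
        intro i _ hi
        rw [up hu (e2.trans_lt (not_le.1 fun h => hi (Finset.mem_filter.2 ⟨Finset.mem_univ _, h⟩))),
          zero_mul]

end Pool.Agent.P.MP_7cb106_nt.PT

end

section

/-! Step SWAP. -/

set_option linter.unusedSectionVars false

namespace Pool.Agent.P.MP_7cb106_nt.PT

open Matrix

namespace SWAPa

variable {K : Type} [NontriviallyNormedField K] [IsUltrametricDist K] {U : Unif K} {n : ℕ}
  {c : Fin n → Fin n → ℤ}

theorem conc1 (h : CF c) : Conc (inn (fh c) 1) :=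
  conc_inn (conc_fh h) (fh_nonneg c) zero_le_one (fh_blk h (by norm_num))

theorem one_le (h : CF c) (k l : Fin n) : 1 ≤ inn (fh c) 1 k l := by
  rw [inn_fh h]; split_ifs <;> omega

theorem kap_blk (h : CF c) (ha : Adm c 1) (R : Red U (ZMod 2))
    (β : Matrix (Fin n) (Fin n) (ZMod 2)) {s : GL (Fin n) K} (h0 : s ∈ J U (fstd c 1))
    (h1 : s ∈ J U (inn (fh c) 1)) : kap R (blk c β) s = kap R β s := by
  unfold kap
  congr 1
  simp only [Matrix.trace, Matrix.diag, Matrix.mul_apply]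
  refine Finset.sum_congr rfl fun k _ => Finset.sum_congr rfl fun l _ => ?_
  rw [blk, of_apply]
  split_ifs with e
  · rfl
  have hs := h.symm k l
  have : Xm R s l k = 0 := by
    refine R.of_lv (lv_div_pw.2 ?_)
    rcases lt_trichotomy l k with d | rfl | d
    · refine (J_lev (conc1 h) h1 l k).mono ?_
      rw [inn_fh h, if_neg (by omega), if_pos d]; omega
    · exact absurd (by rw [h.diag]; omega) e
    · refine (J_lev (fit_fstd h ha).conc h0 l k).mono ?_
      rw [fstd_gt c 1 d]; omega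
  rw [this, mul_zero, mul_zero]

theorem tri_mem (h : CF c) {b : GL (Fin n) K} (h1 : b ∈ J U (inn (fh c) 1))
    (hb : b ∈ Tri K (so n)) : b ∈ J U (fstd c 1) := by
  have key : ∀ b : GL (Fin n) K, b ∈ J U (inn (fh c) 1) → b ∈ Tri K (so n) →
      Lev U (fstd c 1) b := by
    intro b h1 hb k l
    have := one_le h k l
    rcases lt_trichotomy k l with d | rfl | d
    · exact (J_lev (conc1 h) h1 k l).mono (by rw [fstd_lt c 1 d]; omega)
    · exact (J_lev (conc1 h) h1 k k).mono (by rw [fstd_diag]; omega)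
    · rw [Matrix.sub_apply, mem_Tri.1 hb k l (so_lt.2 d), Matrix.one_apply_ne d.ne', sub_zero]
      exact lv_zero U _
  exact mem_J_of (key b h1 hb) (key _ ((J U _).inv_mem h1) ((Tri K _).inv_mem hb))

end SWAPa

theorem p_SWAP (hLOW : S_LOW) (hAV : S_AV) (hUL : S_UL) (hKAPA : S_KAPA) (hKAPB : S_KAPB) (hTHA : S_THA) :
    S_SWAP := by
  classical
  intro K _ _ _ U n χ c V _ _ π R β u hD hs hu he
  have hc := hD.toCF
  obtain ⟨hA, le0, le1, -⟩ := (hKAPB R).2 hD
  obtain ⟨-, hch, -, hrd, hcj, -⟩ := hKAPA (n := n) R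
  have hC0 := (ch_th hTHA hD (fit_fstd hc hA)).mul (hch β _ le0)
  have hC1 := (ch_th' hTHA hD (SWAPa.conc1 hc)
    (fun k l => zero_le_one.trans (SWAPa.one_le hc k l)) fun k l e => by
      have := hc.symm k l
      rw [inn_fh hc, inn_fh hc]
      rcases lt_or_gt_of_ne e with d | d
      · rw [if_pos d, if_neg d.not_gt]; split_ifs <;> omega
      · rw [if_pos d, if_neg d.not_gt]; split_ifs <;> omega).mul (hch (blk c β) _ le1)
  obtain ⟨S, h1, hS, hE⟩ := (hAV hs hC1).2 u
  refine ⟨_, Submodule.sum_mem _ fun s _ => Submodule.smul_mem _ _ (mem_Sp π (Set.mem_univ s) u),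
    fun h0 => hu ((hAV hs hC0).1 u he ?_), hE⟩
  have key : ∀ s ∈ S, (th χ s * kap R (blk c β) s)⁻¹ • π s u -
      (if s ∈ J U (fstd c 1) then u else 0) ∈
        Co π (J U (fstd c 1)) fun h => th χ h * kap R β h := by
    intro s hs
    split_ifs with e
    · rw [he s e, SWAPa.kap_blk hc hA R β e (hS s hs), smul_smul,
        inv_mul_cancel₀ (hC0.mult.ne_zero e), one_smul, sub_self]
      exact Submodule.zero_mem _
    obtain ⟨b, hb, l, hl, hb', hl', rfl⟩ := ul_rev hUL (SWAPa.conc1 hc) (fun k l _ => by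
      have := SWAPa.one_le hc k l; have := SWAPa.one_le hc l k; omega) so_inj (hS s hs)
    have hb0 := SWAPa.tri_mem hc hb hb'
    obtain ⟨h, hh, hh', hne⟩ := hLOW hD hA hl hl' fun h => e ((J U _).mul_mem h hb0)
    rw [sub_zero, rep_mul, he b hb0, map_smul]
    refine Submodule.smul_mem _ _ (Submodule.smul_mem _ _ (he.mem_Co hh hh' ?_))
    rw [hcj β l (KK_mono zero_le_one (le1 hl)) h (le0 hh), hrd l (le1 hl),
      hrd _ (le1 ((J U _).inv_mem hl)), Matrix.one_mul, Matrix.mul_one]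
    exact fun h' => hne (mul_right_cancel₀ (sg_ne_zero _) h')
  have hsum := Submodule.neg_mem _ (Submodule.sum_mem _ key)
  rw [Finset.sum_sub_distrib, h0, zero_sub, neg_neg, ← Finset.sum_filter, Finset.sum_const,
    ← Nat.cast_smul_eq_nsmul ℂ] at hsum
  refine (Submodule.smul_mem_iff _ ?_).1 hsum
  exact Nat.cast_ne_zero.2 (Finset.card_ne_zero.2 ⟨1, Finset.mem_filter.2 ⟨h1, (J U _).one_mem⟩⟩)

end Pool.Agent.P.MP_7cb106_nt.PT

end

section

/-! Step FLAT. -/

set_option linter.unusedSectionVars false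

namespace Pool.Agent.P.MP_7cb106_nt.PT

open Matrix

namespace FLATa

theorem partner {n : ℕ} {c : Fin n → Fin n → ℤ} (hs : ∀ k l, c k l = c l k)
    (hu : ∀ k l l', k ≠ l → k ≠ l' → c k l ≤ 2 → c k l' ≤ 2 → l = l') :
    ∃ (p : Fin n → Fin n) (γ : Fin n → ZMod 2),
      (∀ k l, l < k → c l k ≤ 2 → p k = l ∧ p l = l ∧ γ k = 1 ∧ γ l = 0) ∧
      ∀ k, (p k = k ∧ γ k = 0) ∨ (p k < k ∧ c (p k) k ≤ 2 ∧ γ k = 1) := by
  classical
  refine ⟨fun k => if h : ∃ l, l < k ∧ c l k ≤ 2 then h.choose else k,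
    fun k => if ∃ l, l < k ∧ c l k ≤ 2 then 1 else 0, fun k l h1 h2 => ?_, fun k => ?_⟩
  · have a : ∃ l, l < k ∧ c l k ≤ 2 := ⟨l, h1, h2⟩
    have b : ¬ ∃ m, m < l ∧ c m l ≤ 2 := fun ⟨m, b1, b2⟩ =>
      (b1.trans h1).ne' (hu l k m h1.ne b1.ne' h2 (hs _ _ ▸ b2))
    exact ⟨(dif_pos a).trans (hu k _ _ a.choose_spec.1.ne' h1.ne' (hs _ _ ▸ a.choose_spec.2)
      (hs _ _ ▸ h2)), dif_neg b, if_pos a, if_neg b⟩
  · by_cases a : ∃ l, l < k ∧ c l k ≤ 2
    · simp only [dif_pos a, if_pos a]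
      exact Or.inr ⟨a.choose_spec.1, a.choose_spec.2, trivial⟩
    · exact Or.inl ⟨dif_neg a, if_neg a⟩

end FLATa

theorem p_FLAT (hDET : S_DET) (hKAPB : S_KAPB) (hTHB : S_THB) :
    S_FLAT := by
  intro K _ _ _ U n χ c R hD
  obtain ⟨h1, h2⟩ := hKAPB (n := n) R
  obtain ⟨ha, -, -, hu, -⟩ := h2 hD
  obtain ⟨p, γ, p1, p2⟩ := FLATa.partner hD.symm hu
  have a2 : ∀ k, Agree U (χ (p k)) (χ k) 2 := fun k => by
    rcases p2 k with e | e
    · rw [e.1]; exact fun _ _ _ => rfl
    · exact (hD.agree _ _).mono e.2.1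
  have a4 : ∀ (k : Fin n) (α : Kˣ), ‖(α : K)‖ = 1 →
      (χ k α : ℂ) = χ (p k) α * sg (γ k * R.red (((α : K) - 1) / pw U 1)) := fun k α hα => by
    rcases p2 k with e | ⟨e1, e2, e3⟩
    · rw [e.1, e.2, zero_mul, sg_zero, mul_one]
    · have e4 : c (p k) k - 1 = 2 - 1 := by have := ha.2 _ _ e1.ne; omega
      have := h1 _ _ 2 le_rfl (a2 k).symm (fun h => hD.differ _ _ e1.ne (e4 ▸ h.symm)) (α - 1)
        (R.unit_two hα)
      rw [add_sub_cancel, ext_div_char, ext_val, ext_val, div_eq_iff (Units.ne_zero _)] at this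
      rw [this, e3, one_mul, mul_comm]
      rfl
  have a5 : ∀ k l, k ≠ l → c k l ≤ 2 → χ (p k) = χ (p l) ∧ γ k + γ l = 1 := fun k l e h => by
    rcases lt_or_gt_of_ne e with e | e
    · obtain ⟨b1, b2, b3, b4⟩ := p1 l k e h
      rw [b1, b2, b3, b4, zero_add]
      exact ⟨rfl, rfl⟩
    · obtain ⟨b1, b2, b3, b4⟩ := p1 k l e (hD.symm _ _ ▸ h)
      rw [b1, b2, b3, b4, add_zero]
      exact ⟨rfl, rfl⟩
  refine ⟨fun k => χ (p k), γ, fun j j' e => ?_, a2, fun h hh => ?_, a4, a5, fun k hk => ?_⟩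
  · by_cases h : c j j' ≤ 2
    · exact Or.inl (a5 j j' (by rintro rfl; omega) h).1
    refine Or.inr ⟨c j j', by omega, (((a2 j).mono (by omega)).trans (hD.agree _ _)).trans
      ((a2 j').symm.mono (by omega)), fun k l hk hl => ?_⟩
    have := hD.intv k j j' l hk (by rw [Fin.le_def]; omega)
      (by rw [Fin.le_def]; rw [Fin.lt_def] at hl; omega)
    rw [fh_sum hD.toCF, if_neg (by omega)]
    exact this
  · have hc : Conc (inn (fh c) 1) :=
      conc_inn (conc_fh hD.toCF) (fh_nonneg c) zero_le_one (fh_blk hD.toCF (by omega))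
    have hs : ∀ k l, k ≠ l → 2 ≤ inn (fh c) 1 k l + inn (fh c) 1 l k := fun k l e => by
      have := hD.symm k l
      rw [inn_fh hD.toCF, inn_fh hD.toCF]
      split_ifs <;> omega
    have u : ∀ i, ‖h.val i i‖ = 1 := fun i =>
      J_diag_unit hc (fun l e => by have := hs i l e.symm; omega) hh
    let d : Fin n → Kˣ := fun i => Units.mk0 (h.val i i) fun e => by simpa [e] using u i
    have hd : dia d ∈ J U (inn (fh c) 1) := dia_mem_J u fun i => (J_lev hc hh).diag i
    have a6 : ∀ i, Agree U (χ i / χ (p i)) 1 2 := fun i x b1 b2 => by simp [a2 i x b1 b2]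
    have e : th (fun i => χ i / χ (p i)) h = th (fun i => χ i / χ (p i)) (dia d) := by
      refine Finset.prod_congr rfl fun j _ => ?_
      have b1 := (hDET hc).2.2.2 h hh j 2 hs
      have b2 : Lv U 2 (Dl j (dia d) - ∏ i ∈ Finset.univ.filter (· ≤ j), h.val i i) := by
        simpa [dia_val, d] using (hDET hc).2.2.2 _ hd j 2 hs
      have b3 : ‖∏ i ∈ Finset.univ.filter (· ≤ j), h.val i i‖ = 1 := by simp [u]
      refine Agree.ext_div_congr (m := 2) ((a6 j).trans ?_)
        (norm_eq_one_of_lv b3 (b1.mono (by omega))) (norm_eq_one_of_lv b3 (b2.mono (by omega)))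
        (by simpa using b1.sub b2)
      unfold nx
      split_ifs
      exacts [(a6 _).symm, fun _ _ _ => rfl]
    have := th_mul_char (fun i => χ (p i)) (fun i => χ i / χ (p i)) h
    rw [show (fun i => χ (p i) * (χ i / χ (p i))) = χ from funext fun i => by ext; simp] at this
    rw [this, e, (hTHB _).1 _ so_inj _ (dia_mem_Tri _ _), dch_dia, kap, trace, sg_sum]
    refine congrArg _ (Finset.prod_congr rfl fun i _ => ?_)
    rw [MonoidHom.div_apply, Units.val_div_eq_div_val, a4 i (d i) (u i),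
      mul_div_cancel_left₀ _ (Units.ne_zero _)]
    simp [Xm, d]
  · rcases p2 k with e | ⟨e1, e2, -⟩
    · exact e.2
    · have := hk _ e1.ne
      have := hD.symm k (p k)
      omega

end Pool.Agent.P.MP_7cb106_nt.PT

end

section

/-! Step F3. -/

set_option linter.unusedSectionVars false

namespace Pool.Agent.P.MP_7cb106_nt.PT

open Matrix

namespace F3a

variable {n : ℕ}

theorem sub_mul {c : Fin n → Fin n → ℤ} {m : ℕ} {e : Fin m → Fin n} (he : Function.Injective e)
    (hc : ∀ x l, c (e x) l ≤ 2 → l ∈ Set.range e) {M : Matrix (Fin n) (Fin n) (ZMod 2)}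
    (hM : ∀ k l, ¬ c k l ≤ 2 → M k l = 0) (N : Matrix (Fin n) (Fin n) (ZMod 2)) :
    (M * N).submatrix e e = M.submatrix e e * N.submatrix e e := by
  ext x y
  simp only [submatrix_apply, Matrix.mul_apply]
  symm
  refine Finset.sum_of_injOn e he.injOn (fun _ _ => Finset.mem_univ _) (fun l _ hl => ?_)
    fun _ _ => rfl
  rw [hM _ _ fun h => hl (by simpa using hc x l h), zero_mul]

theorem sub_inv {c : Fin n → Fin n → ℤ} {m : ℕ} {e : Fin m → Fin n} (he : Function.Injective e)
    (hc : ∀ x l, c (e x) l ≤ 2 → l ∈ Set.range e) {A B G : Matrix (Fin n) (Fin n) (ZMod 2)}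
    (hA : ∀ k l, ¬ c k l ≤ 2 → A k l = 0) (hG : ∀ k l, ¬ c k l ≤ 2 → G k l = 0)
    (hAB : A * B = 1) :
    ((A * G * B).submatrix e e).trace = (G.submatrix e e).trace ∧
      ((A * G * B).submatrix e e).det = (G.submatrix e e).det := by
  have h1 := sub_mul he hc hA B
  rw [hAB, submatrix_one _ he] at h1
  rw [Matrix.mul_assoc, sub_mul he hc hA, sub_mul he hc hG]
  constructor
  · rw [trace_mul_comm, Matrix.mul_assoc, mul_eq_one_comm.1 h1.symm, Matrix.mul_one]
  · rw [det_mul, det_mul, mul_left_comm, ← det_mul, ← h1, det_one, mul_one]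

theorem two (g g' p q x y z t : ZMod 2) (h : g + g' = 1) (h1 : x = g ∧ y = g' ∨ x = g' ∧ y = g)
    (h2 : z = 0 ∨ t = 0) (h3 : x + y = g + 1 * 1 + (g' + q * p))
    (h4 : x * y - z * t = (g + 1 * 1) * (g' + q * p) - 1 * p * (q * 1)) : False := by
  have h5 : z * t = 0 := by rcases h2 with e | e <;> simp [e]
  rw [h5] at h4
  revert h h1 h3 h4
  clear h2 h5
  revert g g' p q x y
  decide

theorem alg {c : Fin n → Fin n → ℤ} (hc : CF c)
    (hu : ∀ k l l', k ≠ l → k ≠ l' → c k l ≤ 2 → c k l' ≤ 2 → l = l')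
    {γ p q : Fin n → ZMod 2} {i : Fin n} (hp : p i = 1) (hq : q i = 1)
    (h1 : ∀ k l, k ≠ l → c k l ≤ 2 → γ k + γ l = 1)
    {A B G : Matrix (Fin n) (Fin n) (ZMod 2)} (hG : G = diagonal γ + blk c (vecMulVec q p))
    (hG0 : ∀ k l, ¬ c k l ≤ 2 → G k l = 0) (hA : ∀ k l, ¬ c k l ≤ 2 → A k l = 0) (hAB : A * B = 1)
    {σ : Equiv.Perm (Fin n)} (hσ : ∀ k, c k (σ k) ≤ 2) (hd : ∀ k, (A * G * B) k k = γ (σ k))
    (ho : ∀ k l, k ≠ l → c k l ≤ 2 → (A * G * B) k l = 0 ∨ (A * G * B) l k = 0) : False := by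
  have d0 : ∀ k, c k k ≤ 2 := fun k => by rw [hc.diag]; omega
  have gd : ∀ k, G k k = γ k + q k * p k := fun k => by
    simp [hG, blk, d0 k, vecMulVec_apply]
  have go : ∀ k l, k ≠ l → c k l ≤ 2 → G k l = q k * p l := fun k l e h => by
    simp [hG, blk, h, vecMulVec_apply, diagonal_apply_ne _ e]
  by_cases hi : ∃ j, j ≠ i ∧ c i j ≤ 2
  · obtain ⟨j, hj, hij⟩ := hi
    have hji : c j i ≤ 2 := by rw [hc.symm]; exact hij
    have m1 : ∀ l, c i l ≤ 2 → l = i ∨ l = j := fun l h => by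
      by_cases e : l = i
      exacts [Or.inl e, Or.inr (hu i l j (Ne.symm e) hj.symm h hij)]
    have m2 : ∀ l, c j l ≤ 2 → l = i ∨ l = j := fun l h => by
      by_cases e : l = j
      exacts [Or.inr e, Or.inl (hu j l i (Ne.symm e) hj h hji)]
    have he : Function.Injective ![i, j] := by
      intro x y h
      fin_cases x <;> fin_cases y <;> simp_all [eq_comm]
    obtain ⟨t1, t2⟩ := sub_inv (c := c) he (fun x l h => by
      fin_cases x
      · rcases m1 l h with rfl | rfl <;> simp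
      · rcases m2 l h with rfl | rfl <;> simp) hA hG0 hAB
    simp only [trace_fin_two, det_fin_two, submatrix_apply, cons_val_zero, cons_val_one,
      gd, go i j hj.symm hij, go j i hj hji, hp, hq] at t1 t2
    refine two _ _ _ _ _ _ _ _ (h1 i j hj.symm hij) ?_ (ho i j hj.symm hij) t1 t2
    rw [hd, hd]
    have := σ.injective.ne hj
    rcases m1 _ (hσ i) with e | e <;> rcases m2 _ (hσ j) with e' | e'
    · exact absurd (e'.trans e.symm) this
    · exact Or.inl ⟨congrArg γ e, congrArg γ e'⟩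
    · exact Or.inr ⟨congrArg γ e, congrArg γ e'⟩
    · exact absurd (e'.trans e.symm) this
  · push Not at hi
    have m1 : ∀ l, c i l ≤ 2 → l = i := fun l h => by
      by_contra e
      have := hi l e
      omega
    obtain ⟨t1, -⟩ := sub_inv (c := c) (e := ![i]) (Function.injective_of_subsingleton _)
      (fun x l h => by
        fin_cases x
        exact ⟨0, (m1 l h).symm⟩) hA hG0 hAB
    simp only [trace_fin_one, submatrix_apply, cons_val_zero, gd, hd, m1 _ (hσ i), hp, hq] at t1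
    simp at t1

variable {K : Type} [NontriviallyNormedField K] [IsUltrametricDist K] {U : Unif K}

theorem kap_add (R : Red U (ZMod 2)) (β β' : Matrix (Fin n) (Fin n) (ZMod 2)) (h : GL (Fin n) K) :
    kap R (β + β') h = kap R β h * kap R β' h := by
  rw [kap, add_mul, trace_add, sg_add]; rfl

theorem kap_two (R : Red U (ZMod 2)) {c : Fin n → Fin n → ℤ} (hc : CF c)
    {G : Matrix (Fin n) (Fin n) (ZMod 2)} (hG : ∀ k l, ¬ c k l ≤ 2 → G k l = 0) {h : GL (Fin n) K}
    (hh : h ∈ J U (inn (fh c) 2)) : kap R G h = 1 := by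
  have hl := J_lev (conc_inn (conc_fh hc) (fh_nonneg c) (by omega) (fh_blk hc (by omega))) hh
  rw [kap, ← sg_zero]
  congr 1
  refine Finset.sum_eq_zero fun k _ => ?_
  rw [diag_apply, Matrix.mul_apply]
  refine Finset.sum_eq_zero fun l _ => ?_
  by_cases e : c k l ≤ 2
  · refine mul_eq_zero_of_right _ (R.of_lv (lv_div_pw.2 ?_))
    have := hl l k
    rwa [inn_fh hc, if_pos (by rw [hc.symm]; exact e)] at this
  · rw [hG k l e, zero_mul]

end F3a

theorem p_F3 (hFLAT : S_FLAT) (hDW : S_DW) (hKAPA : S_KAPA) (hKAPB : S_KAPB) (hTHA : S_THA) (hTHB : S_THB) :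
    S_F3 := by
  intro K _ _ _ U n χ c V _ _ π R p q i u Λ hD hp hq hu hΛ g
  by_contra hne
  obtain ⟨φ, γ, hcut, hag, hth, hχ, hpair, -⟩ := hFLAT R hD
  obtain ⟨-, -, k3, k4, k5, k6, k7, -⟩ := hKAPA (n := n) R
  obtain ⟨-, -, b3, b4, -⟩ := (hKAPB R).2 hD
  have hc : CF c := hD.toCF
  have cf := conc_fh hc
  have nn := fh_nonneg c
  obtain ⟨G, hG⟩ : ∃ G, G = diagonal γ + blk c (vecMulVec q p) := ⟨_, rfl⟩
  have hG0 : ∀ k l, ¬ c k l ≤ 2 → G k l = 0 := fun k l e => by
    have : k ≠ l := by rintro rfl; rw [hc.diag] at e; omega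
    simp [hG, blk, e, diagonal_apply_ne _ this]
  have hu1 : Eig π (J U (inn (fh c) 1)) (fun h => th φ h * kap R G h) u :=
    hu.congr fun h hh => by rw [hth h hh, hG, F3a.kap_add, mul_assoc]
  have hu2 : Eig π (J U (inn (fh c) 2)) (th φ) u :=
    (hu1.mono (J_mono fun k l => by unfold inn; split_ifs <;> omega)).congr fun h hh => by
      rw [F3a.kap_two R hc hG0 hh, mul_one]
  have hm : Mult (J U (fh c)) (th φ) := (hTHA K U n φ).1 _ cf hcut
  have lev2 : ∀ k l, Agree U (φ k) (φ l) 2 ∨ Agree U (φ k) (χ l) 2 ∨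
      Agree U (φ k) (φ l) (c k l - 1) → c k l ≤ 2 := fun k l h => by
    by_contra e
    have e' : k ≠ l := by rintro rfl; rw [hc.diag] at e; omega
    have a1 := (hag k).mono (show 2 ≤ c k l - 1 by omega)
    have a2 := (hag l).mono (show 2 ≤ c k l - 1 by omega)
    refine hD.differ k l e' (a1.symm.trans ?_)
    rcases h with h | h | h
    exacts [(h.mono (by omega)).trans a2, h.mono (by omega), h.trans a2]
  obtain ⟨b, hb, w, j, hj, rfl⟩ := hDW (e := 2) cf (fh_diag hc) nn hm (by omega)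
    (fh_blk hc (by omega)) (fun k l _ h => by
      rw [fh_sum hc] at h ⊢
      split_ifs at h ⊢ with e
      · omega
      · exact ⟨by omega, fun h' => e (lev2 k l (Or.inr (Or.inr h')))⟩) hu2
    (by obtain ⟨_, _, _, h2⟩ := hΛ; exact fun x hx v => h2.uni hx v) hne
  obtain ⟨o, Λ', ho, ⟨σ, χ', h1, h2⟩, hne'⟩ := po_shift hΛ hb hne
  have hj0 : j ∈ KK U n 0 := J_le_K0 nn hj
  have hj' := (J U (fh c)).inv_mem hj
  have hu3 : Eig π (J U (inn (fh c) 1))
      (fun h => th φ h * kap R (rdm R j * G * rdm R j⁻¹) h) (π j u) :=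
    hu1.act j fun h hh => by
      have e1 := inn_conj cf (fh_diag hc) nn zero_le_one (fh_blk hc (by omega)) hj' hh
      have e2 := hm.conj hj' (J_mono (le_inn nn zero_le_one) hh)
      rw [inv_inv] at e1 e2
      exact ⟨e1, by rw [e2, k5 G j hj0 h (b3 hh)]⟩
  have key : ∀ h ∈ J U (inn (fh c) 1), h ∈ Tri K o →
      th φ h * kap R (rdm R j * G * rdm R j⁻¹) h = dch χ' h := fun h hh ht => by
    have := h2 h ht (π j u)
    rw [hu3 h hh, map_smul, smul_eq_mul] at this
    exact mul_right_cancel₀ hne' this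
  have ka : ∀ k l, c k l ≤ 2 → o k < o l → (rdm R j * G * rdm R j⁻¹) l k = 0 := fun k l e h => by
    have e' : k ≠ l := by rintro rfl; omega
    have hU := el_mem_Uni h (pw U 1)
    have := key _ (el_mem_J e' (by rw [inn_fh hc, if_pos e]; exact lv_pw U 1)) (Uni_le_Tri hU)
    rw [th_el hTHB φ e', k6 _ k l e', dch_uni _ hU, one_mul, ← sg_zero] at this
    exact sg_inj this
  have kb : ∀ (k : Fin n) (α : Kˣ), ‖(α : K)‖ = 1 → (φ k α : ℂ) *
      sg ((rdm R j * G * rdm R j⁻¹) k k * R.red (((α : K) - 1) / pw U 1)) = χ (σ k) α :=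
    fun k α hα => by
    have hn : ∀ x, ‖((Pi.mulSingle k α : Fin n → Kˣ) x : K)‖ = 1 := fun x => by
      rw [Pi.mulSingle_apply]; split_ifs <;> simp [hα]
    have := key (di k α) (dia_mem_J hn fun x => by
      rw [inn_fh hc, if_pos (by rw [hc.diag]; omega)]; exact R.unit_two (hn x)) (dia_mem_Tri _ _)
    rwa [th_di hTHB, k7, dch_di, agree_zero_iff.1 (h1 k) α hα] at this
  have hσ : ∀ k, c k (σ k) ≤ 2 := fun k => lev2 k _ (Or.inr (Or.inl fun α hα hl => by
    have := kb k α hα
    rw [R.of_lv (lv_div_pw.2 hl), mul_zero, sg_zero, mul_one] at this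
    exact Units.ext this))
  refine F3a.alg hc b4 hp hq (fun k l e h => (hpair k l e h).2) hG hG0 (A := rdm R j)
    (B := rdm R j⁻¹) (fun k l e => ?_) ?_ hσ (fun k => ?_) fun k l e h => ?_
  · have e' : k ≠ l := by rintro rfl; rw [hc.diag] at e; omega
    refine R.of_lv ((J_off cf hj e').mono ?_)
    unfold fh; split_ifs <;> omega
  · rw [← k3 j hj0 _ ((KK U n 0).inv_mem hj0), mul_inv_cancel, k4 1 (one_mem _)]
  · have hα : ‖1 + pw U 1‖ = 1 := norm_eq_one_of_lv_one (U := U) (by simpa using lv_pw U 1)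
    have h0 : 1 + pw U 1 ≠ 0 := by intro e; rw [e] at hα; simp at hα
    have e1 : φ k = φ (σ k) := by
      by_cases e : k = σ k
      exacts [congrArg φ e, (hpair k _ e (hσ k)).1]
    have e2 := kb k (Units.mk0 _ h0) hα
    rw [hχ _ _ hα, ← e1, Units.val_mk0, add_sub_cancel_left, div_self (pw_ne U 1), R.one, mul_one,
      mul_one] at e2
    exact sg_inj (mul_left_cancel₀ (Units.ne_zero _) e2)
  · rcases lt_or_gt_of_ne (ho.ne e) with h' | h'
    · exact Or.inr (ka k l h h')
    · exact Or.inl (ka l k (by rw [hc.symm]; exact h) h')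

end Pool.Agent.P.MP_7cb106_nt.PT

end

section

/-! Step FAR. -/

set_option linter.unusedSectionVars false

namespace Pool.Agent.P.MP_7cb106_nt.PT

open Matrix

namespace FARa

theorem dual {n : ℕ} {r i : Fin n} {C : Submodule (ZMod 2) (Fin n → ZMod 2)} (hi : i < r)
    (hC : ∀ x ∈ C, Low r.val x) (h1 : Pi.single i 1 ∉ C) :
    ∃ d : Fin n → ZMod 2, d i = 1 ∧ Low r.val d ∧ ∀ x ∈ C, d ⬝ᵥ x = 0 := by
  obtain ⟨f, f1, f2⟩ := Submodule.exists_dual_map_eq_bot_of_notMem h1 inferInstance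
  refine ⟨fun k => if k < r then f (Pi.single k 1) else 0, ?_, fun k hk => ?_, fun x hx => ?_⟩
  · exact (if_pos hi).trans ((zmod2_cases _).resolve_left f1)
  · exact if_neg (not_lt.2 hk)
  · have e : f x = 0 := by
      have : f x ∈ C.map f := Submodule.mem_map_of_mem hx
      rwa [f2, Submodule.mem_bot] at this
    refine Eq.trans ?_ e
    rw [LinearMap.pi_apply_eq_sum_univ, dotProduct]
    refine Finset.sum_congr rfl fun k _ => ?_
    split_ifs with h
    · rw [smul_eq_mul, mul_comm]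
      congr 2
      funext j
      rw [Pi.single_apply]
      simp only [eq_comm]
    · rw [hC x hx k (not_lt.1 h), zero_smul, zero_mul]

variable {K : Type} [NontriviallyNormedField K] [IsUltrametricDist K] {U : Unif K} {n : ℕ}

theorem triv (R : Red U (ZMod 2)) {r : Fin n} {C : Submodule (ZMod 2) (Fin n → ZMod 2)}
    {m : Fin n → ℤ} {g h : GL (Fin n) K} {d : Fin n → ZMod 2} (hL : Lat U g = LC R r.val C m)
    (hm : m r ≤ -1) (hd : Low r.val d) (hC : ∀ x ∈ C, d ⬝ᵥ x = 0) (hh : h ∈ St U g) :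
    kap R (vecMulVec (Pi.single r 1) d) h = 1 := by
  have hx : (Pi.single r (pw U (m r)) : Fin n → K) ∈ Lat U g := by
    rw [hL]
    refine ⟨fun i hi => ?_, ?_, fun i _ => ?_⟩
    · rw [Pi.single_eq_of_ne (by rintro rfl; omega)]
      exact lv_zero U 0
    · refine (congrArg (· ∈ C) (funext fun i => ?_)).mpr C.zero_mem
      split_ifs with hi
      · rw [Pi.single_eq_of_ne (by rintro rfl; omega), R.zero, Pi.zero_apply]
      · rfl
    · rw [Pi.single_apply]
      split_ifs with e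
      · subst e; exact lv_pw U _
      · exact lv_zero U _
  have hy := St_mulVec hh hx
  rw [hL] at hy
  obtain ⟨y1, y2, -⟩ := hy
  simp only [mulVec_single, MulOpposite.smul_eq_mul_unop, Pi.smul_apply, col_apply,
    MulOpposite.unop_op] at y1 y2
  have X1 : ∀ k : Fin n, k.val < r.val → Xm R h k r = R.red (h.val k r / pw U 1) := fun k hk => by
    rw [Xm, of_apply, Matrix.sub_apply, Matrix.one_apply_ne (by rintro rfl; omega), sub_zero]
  rw [kap, vecMulVec_mul, trace_vecMulVec, single_dotProduct, one_mul, vecMul, ← sg_zero]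
  congr 1
  rcases hm.eq_or_lt with e | e
  · rw [← hC _ y2, dotProduct, dotProduct]
    refine Finset.sum_congr rfl fun k _ => ?_
    split_ifs with hk
    · rw [X1 k hk, e, pw_neg, div_eq_mul_inv]
    · rw [hd k (not_lt.1 hk), zero_mul, zero_mul]
  · refine Finset.sum_eq_zero fun k _ => ?_
    by_cases hk : k.val < r.val
    · have := y1 k hk
      rw [← neg_add_cancel (m r), lv_mul_pw] at this
      exact mul_eq_zero_of_right _
        ((X1 k hk).trans (R.of_lv (lv_div_pw.2 (this.mono (by omega)))))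
    · rw [hd k (not_lt.1 hk), zero_mul]

end FARa

open FARa in
theorem p_FAR (hWIT : S_WIT) (hCONJ : S_CONJ) (hSWAP : S_SWAP) (hF3 : S_F3) (hKAPA : S_KAPA) (hKAPB : S_KAPB) (hTHA : S_THA) :
    S_FAR := by
  intro K _ _ _ U n χ c V _ _ ρ X P R r C m g w hM hD hL hm hC h1 hw hr
  by_contra hne
  obtain ⟨i, hi⟩ := Function.ne_iff.1 hne
  have wi : w i = 1 := (zmod2_cases _).resolve_left hi
  have ir : i < r := not_le.1 fun e => hi (hw i e)
  obtain ⟨d, d1, d2, d3⟩ := dual ir hC (h1 i)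
  obtain ⟨ha, hJ, -⟩ := (hKAPB R).2 hD
  obtain ⟨-, k2, -, -, k5, -⟩ := hKAPA (n := n) R
  have u0 : uw K r w ∈ KK U n 0 := uw_mem_K0 hw
  have h0 : 1 + (Pi.single r 1 : Fin n → K) ⬝ᵥ lf K w ≠ 0 := by rw [uw_dot hw]; simp
  have r1 : Rel U ρ X (J U (fstd c 1))
      (fun h => th χ h * psi R c r w h * kap R (vecMulVec (Pi.single r 1) d) h) g :=
    hr.congr fun s hs hs' => ⟨hs, by rw [triv R hL hm d2 d3 hs', mul_one]⟩
  have r2 : Rel U ρ X (J U (fstd c 1)) (fun h => th χ h *
      kap R (vecMulVec (rdm R (uw K r w) *ᵥ Pi.single r 1) (d ᵥ* rdm R (uw K r w)⁻¹)) h)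
      (uw K r w * g) := by
    refine r1.act hM _ fun s hs _ => ?_
    have a := (hCONJ R hD hw s hs).2.1
    have b := (hCONJ R hD hw _ a).2.2
    refine ⟨a, ?_⟩
    rw [← b, k5 _ _ u0 s (hJ hs), mul_vecMulVec, vecMulVec_mul]
    congr 2
    group
  obtain ⟨u, hu, hu0, he⟩ := wit hWIT hM
    ((ch_th hTHA hD (fit_fstd hD.toCF ha)).mul (k2 _ _ hJ)) r2
  obtain ⟨u', s1, s2, s3⟩ := hSWAP R hD hM.sm hu0 he
  obtain ⟨Λ, g', l1, l2⟩ := hM.sep u' (Sp_le (fun s _ => hM.act_sup s hu) s1) s2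
  refine l2 (hF3 R (i := i) hD ?_ ?_ s3 l1 g')
  · rw [vecMul, dotProduct, Finset.sum_eq_single i]
    · rw [d1, one_mul, rdm, of_apply, uw, rk_inv_val h0]
      simp [vecMulVec_apply, Pi.single_eq_of_ne ir.ne, R.one]
    · intro k _ hk
      rw [rdm, of_apply, uw, rk_inv_val h0]
      simp [vecMulVec_apply, Pi.single_eq_of_ne ir.ne, Matrix.one_apply_ne hk, R.zero]
    · simp
  · rw [mulVec_single_one, col_apply, rdm, of_apply, uw, rk_apply h0, if_neg ir.ne, zero_add,
      Pi.single_eq_same, mul_one, red_lf, wi]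

end Pool.Agent.P.MP_7cb106_nt.PT

end

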