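import Pool.Agent.P.MP_7cb106_nt.PB.Ana
import Pool.Agent.P.MP_7cb106_nt.PB.Mat
import Pool.Agent.P.MP_7cb106_nt.PB.Odd
import Pool.Agent.P.MP_7cb106_nt.PB.Two

/-! Assembly of the steps. -/

set_option autoImplicit false

namespace Pool.Agent.P.MP_7cb106_nt.PT

theorem a_BR : S_BR := p_BR
theorem a_ORD : S_ORD := p_ORD
theorem a_RED : S_RED := p_RED
theorem a_FINI : S_FINI := p_FINI
theorem a_AV : S_AV := p_AV a_FINI
theorem a_DLT : S_DLT := p_DLT a_AV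
theorem a_THB : S_THB := p_THB
theorem a_TAIL : S_TAIL := p_TAIL a_THB
theorem a_UL : S_UL := p_UL
theorem a_DET : S_DET := p_DET
theorem a_THA : S_THA := p_THA a_DET
theorem a_JAC2 : S_JAC2 := p_JAC2 a_TAIL a_AV a_UL a_THA a_THB
theorem a_DH : S_DH := p_DH
theorem a_ALG : S_ALG := p_ALG
theorem a_E3 : S_E3 := p_E3 a_DH a_FINI a_ALG
theorem a_DW : S_DW := p_DW a_DH a_THB
theorem a_FM : S_FM := p_FM a_DW a_THA a_THB
theorem a_INT : S_INT := p_INT a_JAC2 a_E3 a_FM a_AV a_UL a_THA a_THB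
theorem a_SEP : S_SEP := p_SEP a_ALG a_FINI
theorem a_INT2 : S_INT2 := p_INT2 a_INT a_SEP
theorem a_SIG : S_SIG := p_SIG a_DLT a_INT2 a_AV a_FINI a_THA
theorem a_JAC1 : S_JAC1 := p_JAC1 a_AV a_UL a_THA a_THB
theorem a_MODEL : S_MODEL := p_MODEL a_SEP a_JAC1 a_JAC2 a_E3 a_DH a_FINI
theorem a_FIN : S_FIN := p_FIN a_BR a_SIG a_MODEL a_JAC1 a_JAC2 a_E3 a_FM
theorem a_START : S_START := p_START a_AV a_UL a_THA a_THB
theorem a_AFF : S_AFF := p_AFF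
theorem a_WIT : S_WIT := p_WIT a_AV
theorem a_STEP3 : S_STEP3 := p_STEP3 a_AFF a_WIT a_FM a_THA a_THB
theorem a_F2 : S_F2 := p_F2 a_DW a_DET a_THA a_THB
theorem a_EXC : S_EXC := p_EXC a_F2 a_WIT a_THA a_THB
theorem a_Q3 : S_Q3 := p_Q3 a_START a_STEP3 a_EXC a_THB
theorem a_FOUR : S_FOUR := p_FOUR
theorem a_KAPA : S_KAPA := p_KAPA
theorem a_KAPB : S_KAPB := p_KAPB a_KAPA
theorem a_STEP2 : S_STEP2 := p_STEP2 a_FOUR a_KAPB a_THA a_THB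
theorem a_CONJ : S_CONJ := p_CONJ a_UL a_KAPB a_THA a_THB
theorem a_LOW : S_LOW := p_LOW a_THB
theorem a_SWAP : S_SWAP := p_SWAP a_LOW a_AV a_UL a_KAPA a_KAPB a_THA
theorem a_FLAT : S_FLAT := p_FLAT a_DET a_KAPB a_THB
theorem a_F3 : S_F3 := p_F3 a_FLAT a_DW a_KAPA a_KAPB a_THA a_THB
theorem a_FAR : S_FAR := p_FAR a_WIT a_CONJ a_SWAP a_F3 a_KAPA a_KAPB a_THA
theorem a_LATB : S_LATB := p_LATB
theorem a_Q2 : S_Q2 := p_Q2 a_START a_STEP2 a_CONJ a_FAR a_LATB a_KAPB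
theorem a_LATC : S_LATC := p_LATC a_LATB
theorem a_MAIN : S_MAIN := p_MAIN a_BR a_ORD a_RED a_FIN a_Q3 a_Q2 a_LATC a_KAPB

end Pool.Agent.P.MP_7cb106_nt.PT
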