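import Pool.Agent.P.MP_7cb106_nt.PB.Base

set_option autoImplicit false

section

/-! Step BR. -/

set_option linter.unusedSectionVars false

namespace Pool.Agent.P.MP_7cb106_nt.PT

open Matrix

namespace BRa

open Filter Topology

variable {K : Type} [NontriviallyNormedField K] [IsUltrametricDist K] (U : Unif K) {n : ℕ}

theorem unif [LocallyCompactSpace K] : Nonempty (Unif K) := by
  have : ProperSpace K := .of_nontriviallyNormedField_of_weaklyLocallyCompactSpace K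
  obtain ⟨x, hx, h⟩ := (Metric.isCompact_of_isClosed_isBounded
    (IsUltrametricDist.isClosed_ball (0 : K) 1) Metric.isBounded_ball).exists_isMaxOn
    ⟨0, Metric.mem_ball_self one_pos⟩ continuous_norm.continuousOn
  obtain ⟨y, y0, y1⟩ := NormedField.exists_norm_lt_one K
  exact ⟨⟨Units.mk0 x (norm_pos_iff.1 (y0.trans_le (h (mem_ball_zero_iff.2 y1)))),
    mem_ball_zero_iff.1 hx, fun z hz => h (mem_ball_zero_iff.2 hz)⟩⟩

theorem lim {x : ℕ → K} {a : K} (h : ∀ N : ℕ, Lv U N (x N - a)) : Tendsto x atTop (𝓝 a) :=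
  tendsto_iff_norm_sub_tendsto_zero.2 (squeeze_zero (fun _ => norm_nonneg _)
    (fun N => (h N).trans_eq (zpow_natCast _ _))
    (tendsto_pow_atTop_nhds_zero_of_lt_one U.pos.le U.lt))

theorem limG {g : ℕ → GL (Fin n) K} (h : ∀ N : ℕ, g N ∈ KK U n N) : Tendsto g atTop (𝓝 1) := by
  have k : ∀ g : ℕ → GL (Fin n) K, (∀ N : ℕ, Lev U (fun _ _ => (N : ℤ)) (g N)) →
      Tendsto (fun N => (g N).val) atTop (𝓝 1) := fun g h =>
    tendsto_pi_nhds.2 fun k => tendsto_pi_nhds.2 fun l => lim U fun N => h N k l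
  exact Units.isInducing_embedProduct.tendsto_nhds_iff.2
    ((k g fun N => (mem_KK.1 (h N)).1).prodMk_nhds ((MulOpposite.continuous_op.tendsto _).comp
      (k (fun N => (g N)⁻¹) fun N => (mem_KK.1 (h N)).2)))

theorem opn (N : ℕ) : IsOpen (KK U n N : Set (GL (Fin n) K)) := by
  have k : IsOpen {g : GL (Fin n) K | Lev U (fun _ _ => (N : ℤ)) g} := by
    simp only [Lev, Set.ofPred_forall]
    refine isOpen_iInter_of_finite fun k => isOpen_iInter_of_finite fun l => ?_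
    have := (IsUltrametricDist.isOpen_closedBall (0 : K) (zpow_pos U.pos (N : ℤ)).ne').preimage
      ((Units.continuous_val.sub continuous_const).matrix_elem k l :
        Continuous fun g : GL (Fin n) K => (g.val - 1) k l)
    convert this using 1
    ext g
    exact mem_closedBall_zero_iff.symm
  convert k.inter (k.preimage continuous_inv) using 1
  ext g
  exact mem_KK

theorem sm {A V : Type} [Group A] [TopologicalSpace A] [ContinuousMul A] [AddCommGroup V]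
    [Module ℂ V] (φ : A →* GL (Fin n) K) (hφ : IsInducing φ) (τ : Representation ℂ A V) :
    Smooth τ ↔ ∀ v, ∃ N : ℕ, ∀ k, φ k ∈ KK U n N → τ k v = v := by
  refine forall_congr' fun v => ⟨fun h => ?_, fun ⟨N, h⟩ => ?_⟩
  · by_contra! c
    choose g g1 g2 using c
    have := (hφ.tendsto_nhds_iff.2 ((map_one φ).symm ▸ limG U g1)).eventually
      (h.mem_nhds (by simp))
    exact this.exists.elim g2
  · let S : Subgroup A :=
      { carrier := {g | τ g v = v}
        mul_mem' := fun {a b} (ha : τ a v = v) (hb : τ b v = v) => by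
          show τ (a * b) v = v
          rw [map_mul, Module.End.mul_apply, hb, ha]
        one_mem' := by simp
        inv_mem' := fun {a} (ha : τ a v = v) => by
          show τ a⁻¹ v = v
          conv_lhs => rw [← ha, ← Module.End.mul_apply, ← map_mul, inv_mul_cancel, map_one]
          rfl }
    exact Subgroup.isOpen_mono (H₁ := (KK U n N).comap φ) (H₂ := S) h
      ((opn U N).preimage hφ.continuous)

end BRa

theorem p_BR :
    S_BR := by
  intro K _ _ _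
  refine ⟨BRa.unif, fun U => ⟨fun χ h => ?_, fun n V _ _ =>
    ⟨BRa.sm U (MonoidHom.id _) .id, BRa.sm U (Kint K n).subtype .subtypeVal⟩⟩⟩
  by_contra! c
  simp only [Agree, not_forall] at c
  choose x _ x2 x3 using c
  have := ((Units.isEmbedding_val₀.tendsto_nhds_iff (f := x) (y := 1)).2 (BRa.lim U x2)).eventually
    (h.mem_nhds χ.ker.one_mem)
  exact this.exists.elim x3

end Pool.Agent.P.MP_7cb106_nt.PT

end

section

/-! Step FINI. -/

set_option linter.unusedSectionVars false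

namespace Pool.Agent.P.MP_7cb106_nt.PT

open Matrix

namespace FINIa

variable {K : Type} [NontriviallyNormedField K] [IsUltrametricDist K] [LocallyCompactSpace K]
  (U : Unif K) (n N : ℕ)

theorem exists_r (M L : ℤ) : ∃ (t : Set K) (r : K → K), t.Finite ∧
    ∀ x, Lv U M x → r x ∈ t ∧ Lv U L (x - r x) := by
  have := ProperSpace.of_locallyCompactSpace K (E := K)
  obtain ⟨t, -, ht, hc⟩ := (isCompact_closedBall (0 : K) (‖(U.ϖ : K)‖ ^ M)).finite_cover_balls
    (zpow_pos U.pos L)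
  have h : ∀ x, ∃ y, Lv U M x → y ∈ t ∧ Lv U L (x - y) := fun x => by
    by_cases hx : Lv U M x
    · obtain ⟨y, hy, h⟩ := Set.mem_iUnion₂.1 (hc (mem_closedBall_zero_iff.2 hx))
      exact ⟨y, fun _ => ⟨hy, (mem_ball_iff_norm.1 h).le⟩⟩
    · exact ⟨0, fun h => absurd h hx⟩
  choose r hr using h
  exact ⟨t, r, ht, hr⟩

/-- bounded elements -/
def B (M : ℕ) : Set (GL (Fin n) K) :=
  {g | (∀ k l, Lv U (-(M : ℤ)) (g.val k l)) ∧ ∀ k l, Lv U (-(M : ℤ)) ((g⁻¹).val k l)}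

theorem cover (M : ℕ) :
    ∃ S ⊆ B U n M, S.Finite ∧ ∀ k ∈ B U n M, ∃ s ∈ S, s⁻¹ * k ∈ KK U n N := by
  obtain ⟨t, r, ht, hr⟩ := exists_r U (-(M : ℤ)) (N + M)
  have lev : ∀ g ∈ B U n M, ∀ h ∈ B U n M, (∀ k l, r (g.val k l) = r (h.val k l)) →
      Lev U (fun _ _ => (N : ℤ)) (g⁻¹ * h) := by
    intro g hg h hh e k l
    have e1 : (g⁻¹ * h).val - 1 = (g⁻¹).val * (h.val - g.val) := by
      rw [Matrix.mul_sub, ← Units.val_mul, ← Units.val_mul, inv_mul_cancel, Units.val_one]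
    rw [e1, Matrix.mul_apply]
    refine lv_sum _ _ fun j _ => (hg.2 k j).mul' (m' := N + M) ?_ (by simp)
    have := (hr _ (hh.1 j l)).2.sub (hr _ (hg.1 j l)).2
    rw [e] at this
    simpa using this
  have hf : ((fun g : GL (Fin n) K => fun k l => r (g.val k l)) '' B U n M).Finite :=
    (Set.Finite.pi' fun _ => Set.Finite.pi' fun _ => ht).subset (by
      rintro _ ⟨g, hg, rfl⟩ k l
      exact (hr _ (hg.1 k l)).1)
  obtain ⟨S, h1, h2, h3⟩ := (Set.exists_subset_image_finite_and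
    (p := fun t => (fun g : GL (Fin n) K => fun k l => r (g.val k l)) '' B U n M ⊆ t)).1
    ⟨_, subset_rfl, hf, subset_rfl⟩
  refine ⟨S, h1, h2, fun g hg => ?_⟩
  obtain ⟨s, hs, e⟩ := h3 ⟨g, hg, rfl⟩
  have e' : ∀ k l, r (s.val k l) = r (g.val k l) := fun k l => congrFun (congrFun e k) l
  refine ⟨s, hs, mem_KK.2 ⟨lev s (h1 hs) g hg e', ?_⟩⟩
  rw [_root_.mul_inv_rev, inv_inv]
  exact lev g hg s (h1 hs) fun k l => (e' k l).symm

theorem exists_B (g : GL (Fin n) K) : ∃ M, g ∈ B U n M := by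
  choose a ha using fun k l => exists_lv U (g.val k l)
  choose b hb using fun k l => exists_lv U ((g⁻¹).val k l)
  obtain ⟨M, hM⟩ := exists_bound fun k l => (a k l + b k l : ℤ)
  exact ⟨M, fun k l => (ha k l).mono (by have := hM k l; omega),
    fun k l => (hb k l).mono (by have := hM k l; omega)⟩

end FINIa

theorem p_FINI :
    S_FINI := by
  intro K _ _ _ U n N
  constructor
  · obtain ⟨S, h1, h2, h3⟩ := FINIa.cover U n N 0
    have e : ∀ g, g ∈ FINIa.B U n 0 ↔ g ∈ KK U n 0 := fun g => by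
      rw [mem_K0]; simp [FINIa.B]
    exact ⟨h2.toFinset, fun s hs => (e s).1 (h1 (h2.mem_toFinset.1 hs)), fun k hk =>
      (h3 k ((e k).2 hk)).imp fun s hs => ⟨h2.mem_toFinset.2 hs.1, hs.2⟩⟩
  · choose S h1 h2 h3 using FINIa.cover U n N
    rw [← Set.countable_univ_iff]
    refine ((Set.countable_iUnion fun M => (h2 M).countable).image
      fun g => (g : GL (Fin n) K ⧸ KK U n N)).mono fun x _ => ?_
    obtain ⟨g, rfl⟩ := QuotientGroup.mk_surjective x
    obtain ⟨M, hM⟩ := FINIa.exists_B U n g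
    obtain ⟨s, hs, h⟩ := h3 M g hM
    exact ⟨s, Set.mem_iUnion.2 ⟨M, hs⟩, QuotientGroup.eq.2 h⟩

end Pool.Agent.P.MP_7cb106_nt.PT

end

section

/-! Step RED. -/

set_option linter.unusedSectionVars false

namespace Pool.Agent.P.MP_7cb106_nt.PT

open Matrix

namespace REDa

variable {K : Type} [NontriviallyNormedField K] [IsUltrametricDist K] {U : Unif K} {κ κ' : Type}
  [Field κ] [Field κ']

theorem tr (R : Red U κ) (e : κ ≃+* κ') : Nonempty (Red U κ') :=
  ⟨⟨fun x => e (R.red x), fun x y a b => by rw [R.add x y a b, map_add],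
    fun x y a b => by rw [R.mul x y a b, map_mul], by rw [R.one, map_one],
    fun x a => by rw [map_eq_zero, R.zero_iff x a], fun a =>
    let ⟨x, h, e'⟩ := R.surj (e.symm a); ⟨x, h, by rw [e', e.apply_symm_apply]⟩⟩⟩

open IsLocalRing in
theorem ex (U : Unif K) : ∃ (κ : Type) (_ : Field κ), Nonempty (Red U κ) := by
  classical
  let O := (NormedField.valuation (K := K)).valuationSubring
  have hO : ∀ {x}, Lv U 0 x → x ∈ O := fun {x} => (lv0_iff U x).1
  refine ⟨ResidueField O, inferInstance, ⟨⟨fun x => if h : x ∈ O then residue O ⟨x, h⟩ else 0,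
    fun x y a b => ?_, fun x y a b => ?_, ?_, fun x a => ?_, fun a => ?_⟩⟩⟩
  · rw [dif_pos (hO a), dif_pos (hO b), dif_pos (add_mem (hO a) (hO b)), ← map_add]
    rfl
  · rw [dif_pos (hO a), dif_pos (hO b), dif_pos (mul_mem (hO a) (hO b)), ← map_mul]
    rfl
  · rw [dif_pos (one_mem _)]
    exact map_one (residue O)
  · rw [dif_pos (hO a), residue_eq_zero_iff, Valuation.mem_maximalIdeal_iff, lv1_iff]
    rfl
  · obtain ⟨x, rfl⟩ := residue_surjective a
    exact ⟨x, (lv0_iff U _).2 x.2, dif_pos x.2⟩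

theorem fin [LocallyCompactSpace K] (R : Red U κ) : Finite κ := by
  have := ProperSpace.of_locallyCompactSpace K (E := K)
  obtain ⟨t, a, b, c⟩ := finite_cover_balls_of_compact (isCompact_closedBall (0 : K) 1) one_pos
  refine Set.finite_univ_iff.1 ((b.image R.red).subset fun y _ => ?_)
  obtain ⟨x, hx, rfl⟩ := R.surj y
  obtain ⟨z, hz, e⟩ := Set.mem_iUnion₂.1 (c (mem_closedBall_zero_iff.2 ((lv0_iff U x).1 hx)))
  exact ⟨z, hz, (R.congr ((lv0_iff U z).2 (mem_closedBall_zero_iff.1 (a hz)))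
    ((lv1_iff U _).2 (mem_ball_iff_norm.1 e))).symm⟩

theorem card [Fintype κ] (R : Red U κ) :
    (∃ x : K, ‖x‖ = 1 ∧ ‖x - 1‖ = 1) ↔ 2 < Fintype.card κ := by
  have key : ∀ x, Lv U 0 x → (‖x‖ = 1 ∧ ‖x - 1‖ = 1 ↔ R.red x ≠ 0 ∧ R.red x ≠ 1) := fun x h => by
    rw [← R.ne_zero_iff h, ← R.ne_zero_iff (h.sub (lv_one U)), R.sub h (lv_one U), R.one,
      sub_ne_zero]
  rw [Fintype.two_lt_card_iff]
  refine ⟨fun ⟨x, h⟩ => ?_, fun ⟨a, b, c, h⟩ => by_contra fun e => ?_⟩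
  · obtain ⟨a, b⟩ := (key x (lv_unit h.1)).1 h
    exact ⟨_, _, _, a, b, zero_ne_one⟩
  · have : ∀ a : κ, a = 0 ∨ a = 1 := fun a => by
      obtain ⟨x, hx, rfl⟩ := R.surj a
      exact by_contra fun e' => e ⟨x, (key x hx).2 (not_or.1 e')⟩
    grind [this a, this b, this c]

end REDa

theorem p_RED :
    S_RED := by
  intro K _ _ _ U
  obtain ⟨κ, _, ⟨R⟩⟩ := REDa.ex U
  have := REDa.fin R
  have := Fintype.ofFinite κ
  have h1 := Fintype.one_lt_card (α := κ)
  rw [REDa.card R]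
  refine ⟨fun h => REDa.tr R (ZMod.ringEquivOfPrime κ Nat.prime_two (by omega)).symm, fun h => ?_⟩
  rcases eq_or_ne (Fintype.card κ) 3 with e | e
  · exact .inl (REDa.tr R (ZMod.ringEquivOfPrime κ Nat.prime_three e).symm)
  · exact .inr ⟨κ, _, _, by omega, ⟨R⟩⟩

end Pool.Agent.P.MP_7cb106_nt.PT

end

section

/-! Step AV. -/

set_option linter.unusedSectionVars false

namespace Pool.Agent.P.MP_7cb106_nt.PT

open Matrix

namespace AVa

variable {Γ : Type} [Group Γ] {V : Type} [AddCommGroup V] [Module ℂ V]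

/-- a finite transversal of `H` modulo `A`, containing `1` -/
def Tr (H A : Subgroup Γ) (T : Finset Γ) : Prop :=
  1 ∈ T ∧ (∀ t ∈ T, t ∈ H) ∧ (∀ h ∈ H, ∃ t ∈ T, t⁻¹ * h ∈ A) ∧
    ∀ t ∈ T, ∀ t' ∈ T, t⁻¹ * t' ∈ A → t = t'

theorem tr_ex {H A : Subgroup Γ} (S : Finset Γ) (hS : ∀ k ∈ H, ∃ s ∈ S, s⁻¹ * k ∈ A) :
    ∃ T, Tr H A T := by
  classical
  have hr : ∀ c : Γ ⧸ A, ∃ g : Γ, g ∈ H ∧ ((∃ h ∈ H, (h : Γ ⧸ A) = c) → (g : Γ ⧸ A) = c) ∧
      (c = ((1 : Γ) : Γ ⧸ A) → g = 1) := by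
    intro c
    by_cases h1 : c = ((1 : Γ) : Γ ⧸ A)
    · exact ⟨1, H.one_mem, fun _ => h1.symm, fun _ => rfl⟩
    · by_cases h2 : ∃ h ∈ H, (h : Γ ⧸ A) = c
      · obtain ⟨h, hh, e⟩ := h2
        exact ⟨h, hh, fun _ => e, fun e' => absurd e' h1⟩
      · exact ⟨1, H.one_mem, fun e => absurd e h2, fun _ => rfl⟩
  choose r hrH hrq hr1 using hr
  let Q : Finset (Γ ⧸ A) := (S.image fun s : Γ => (s : Γ ⧸ A)).filter fun c => ∃ h ∈ H, (h : Γ ⧸ A) = c
  have hQ : ∀ h ∈ H, (h : Γ ⧸ A) ∈ Q := by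
    intro h hh
    obtain ⟨s, hs, e⟩ := hS h hh
    exact Finset.mem_filter.2 ⟨Finset.mem_image.2 ⟨s, hs, QuotientGroup.eq.2 e⟩, h, hh, rfl⟩
  refine ⟨Q.image r, Finset.mem_image.2 ⟨_, hQ 1 H.one_mem, hr1 _ rfl⟩, ?_, ?_, ?_⟩
  · intro t ht
    obtain ⟨c, -, rfl⟩ := Finset.mem_image.1 ht
    exact hrH c
  · intro h hh
    exact ⟨r h, Finset.mem_image.2 ⟨_, hQ h hh, rfl⟩, QuotientGroup.eq.1 (hrq _ ⟨h, hh, rfl⟩)⟩
  · intro t ht t' ht' e
    obtain ⟨c, hc, rfl⟩ := Finset.mem_image.1 ht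
    obtain ⟨c', hc', rfl⟩ := Finset.mem_image.1 ht'
    have e' := QuotientGroup.eq.2 e
    rw [hrq c (Finset.mem_filter.1 hc).2, hrq c' (Finset.mem_filter.1 hc').2] at e'
    rw [e']

theorem sum_perm {H A : Subgroup Γ} {T : Finset Γ} (hT : Tr H A T) (F : Γ → V)
    (hF : ∀ g ∈ H, ∀ g' ∈ H, g⁻¹ * g' ∈ A → F g = F g') (φ : Γ → Γ) (hφ : ∀ g ∈ H, φ g ∈ H)
    (hφ' : ∀ g ∈ H, ∀ g' ∈ H, (φ g)⁻¹ * φ g' ∈ A → g⁻¹ * g' ∈ A) :
    ∑ t ∈ T, F (φ t) = ∑ t ∈ T, F t := by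
  classical
  obtain ⟨-, h1, h2, h3⟩ := hT
  choose! ρ hρ hρ' using h2
  have hinj : Set.InjOn (fun t => ρ (φ t)) T := by
    intro t ht t' ht' e
    have e : ρ (φ t) = ρ (φ t') := e
    refine h3 t ht t' ht' (hφ' t (h1 t ht) t' (h1 t' ht') ?_)
    have a := hρ' _ (hφ t (h1 t ht))
    have b := hρ' _ (hφ t' (h1 t' ht'))
    rw [← e] at b
    have := A.mul_mem (A.inv_mem a) b
    convert this using 1
    group
  have him : T.image (fun t => ρ (φ t)) = T := by
    apply Finset.eq_of_subset_of_card_le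
    · intro u hu
      obtain ⟨t, ht, rfl⟩ := Finset.mem_image.1 hu
      exact hρ _ (hφ t (h1 t ht))
    · rw [Finset.card_image_of_injOn hinj]
  conv_rhs => rw [← him, Finset.sum_image hinj]
  refine Finset.sum_congr rfl fun t ht => ?_
  have m := hφ t (h1 t ht)
  exact (hF _ (h1 _ (hρ _ m)) _ m (hρ' _ m)).symm

theorem hF {π : Representation ℂ Γ V} {H A : Subgroup Γ} {Θ : Γ → ℂ} (hΘ : Mult H Θ)
    (hA : ∀ g ∈ H, g ∈ A → Θ g = 1) {x : V} (hx : ∀ a ∈ A, π a x = x) :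
    ∀ g ∈ H, ∀ g' ∈ H, g⁻¹ * g' ∈ A → (Θ g)⁻¹ • π g x = (Θ g')⁻¹ • π g' x := by
  intro g hg g' hg' e
  have m : g⁻¹ * g' ∈ H := H.mul_mem (H.inv_mem hg) hg'
  have e' : g' = g * (g⁻¹ * g') := by group
  rw [e', hΘ.2 g hg _ m, hA _ m e, mul_one, rep_mul, hx _ e]

theorem left {π : Representation ℂ Γ V} {H A : Subgroup Γ} {Θ : Γ → ℂ} {T : Finset Γ}
    (hT : Tr H A T) (hΘ : Mult H Θ) (hA : ∀ g ∈ H, g ∈ A → Θ g = 1) {x : V}
    (hx : ∀ a ∈ A, π a x = x) : Eig π H Θ (∑ s ∈ T, (Θ s)⁻¹ • π s x) := by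
  intro h hh
  have e := sum_perm hT (fun s => (Θ s)⁻¹ • π s x) (hF hΘ hA hx) (fun g => h * g)
    (fun g hg => H.mul_mem hh hg) (fun g _ g' _ e => by convert e using 1; group)
  conv_rhs => rw [← e]
  rw [map_sum, Finset.smul_sum]
  refine Finset.sum_congr rfl fun s hs => ?_
  rw [hΘ.2 h hh s (hT.2.1 s hs), rep_mul, map_smul, smul_smul]
  congr 1
  have := hΘ.ne_zero hh
  field_simp

theorem right {π : Representation ℂ Γ V} {H A : Subgroup Γ} {Θ : Γ → ℂ} {T : Finset Γ}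
    (hT : Tr H A T) (hΘ : Mult H Θ) (hA : ∀ g ∈ H, g ∈ A → Θ g = 1)
    (hN : ∀ k ∈ H, ∀ a ∈ A, k * a * k⁻¹ ∈ A) {x : V}
    (hx : ∀ a ∈ A, π a x = x) {h : Γ} (hh : h ∈ H) :
    ∑ s ∈ T, (Θ s)⁻¹ • π s (π h x - Θ h • x) = 0 := by
  have e := sum_perm hT (fun s => (Θ s)⁻¹ • π s x) (hF hΘ hA hx) (fun g => g * h)
    (fun g hg => H.mul_mem hg hh) (fun g _ g' _ e => by
      convert hN h hh _ e using 1; group)
  have e2 : ∀ s ∈ T, (Θ s)⁻¹ • π s (π h x - Θ h • x) =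
      Θ h • ((Θ (s * h))⁻¹ • π (s * h) x) - Θ h • ((Θ s)⁻¹ • π s x) := by
    intro s hs
    rw [hΘ.2 s (hT.2.1 s hs) h hh, rep_mul, map_sub, map_smul, smul_sub, smul_smul, smul_smul,
      smul_smul, mul_comm (Θ s)⁻¹ (Θ h)]
    congr 2
    have := hΘ.ne_zero hh
    field_simp
  rw [Finset.sum_congr rfl e2, Finset.sum_sub_distrib, ← Finset.smul_sum, ← Finset.smul_sum]
  rw [e, sub_self]

end AVa

theorem p_AV (hFINI : S_FINI) :
    S_AV := by
  intro K _ _ _ U n V _ _ π H Θ hπ hΘ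
  obtain ⟨M, hM⟩ := hΘ.sm
  have hT : ∀ N, ∃ T, AVa.Tr H (KK U n N) T := by
    intro N
    obtain ⟨⟨S, -, hS⟩, -⟩ := hFINI K U n N
    exact AVa.tr_ex S fun k hk => hS k (hΘ.le hk)
  refine ⟨fun v hv hc => ?_, fun x => ?_⟩
  · have key : ∀ y ∈ Co π H Θ, ∃ N0, ∀ N, N0 ≤ N → ∀ T, AVa.Tr H (KK U n N) T →
        ∑ s ∈ T, (Θ s)⁻¹ • π s y = 0 := by
      intro y hy
      induction hy using Submodule.span_induction with
      | mem y hy =>
        obtain ⟨h, hh, x, rfl⟩ := hy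
        obtain ⟨N1, hN1⟩ := hπ x
        refine ⟨max M N1, fun N hN T hT => ?_⟩
        exact AVa.right hT hΘ.mult
          (fun g hg hk => hM g hg (KK_mono ((le_max_left _ _).trans hN) hk))
          (fun k hk a ha => KK_conj (hΘ.le hk) ha)
          (fun a ha => hN1 a (KK_mono ((le_max_right _ _).trans hN) ha)) hh
      | zero => exact ⟨0, fun _ _ _ _ => by simp⟩
      | add y z _ _ h1 h2 =>
        obtain ⟨N1, h1⟩ := h1
        obtain ⟨N2, h2⟩ := h2
        refine ⟨max N1 N2, fun N hN T hT => ?_⟩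
        simp only [map_add, smul_add, Finset.sum_add_distrib]
        rw [h1 N ((le_max_left _ _).trans hN) T hT, h2 N ((le_max_right _ _).trans hN) T hT,
          add_zero]
      | smul c y _ h1 =>
        obtain ⟨N1, h1⟩ := h1
        refine ⟨N1, fun N hN T hT => ?_⟩
        simp only [map_smul, smul_comm _ c, ← Finset.smul_sum]
        rw [h1 N hN T hT, smul_zero]
    obtain ⟨N, hN⟩ := key v hc
    obtain ⟨T, hT⟩ := hT N
    have e := hN N le_rfl T hT
    have e2 : ∀ s ∈ T, (Θ s)⁻¹ • π s v = v := by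
      intro s hs
      rw [hv s (hT.2.1 s hs), smul_smul, inv_mul_cancel₀ (hΘ.mult.ne_zero (hT.2.1 s hs)), one_smul]
    rw [Finset.sum_congr rfl e2, Finset.sum_const, ← Nat.cast_smul_eq_nsmul ℂ] at e
    refine (smul_eq_zero.1 e).resolve_left ?_
    exact_mod_cast (Finset.card_pos.2 ⟨1, hT.1⟩).ne'
  · obtain ⟨N1, hN1⟩ := hπ x
    obtain ⟨T, hT⟩ := hT (max M N1)
    exact ⟨T, hT.1, hT.2.1, AVa.left hT hΘ.mult
      (fun g hg hk => hM g hg (KK_mono (le_max_left _ _) hk))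
      (fun a ha => hN1 a (KK_mono (le_max_right _ _) ha))⟩

end Pool.Agent.P.MP_7cb106_nt.PT

end

section

/-! Step ALG. -/

set_option linter.unusedSectionVars false

namespace Pool.Agent.P.MP_7cb106_nt.PT

open Matrix

namespace ALGa

open Polynomial

theorem nil {V : Type} [AddCommGroup V] [Module ℂ V] {φ : Module.End ℂ V}
    (h : ∀ c : ℂ, c ≠ 0 → Function.Bijective fun x => φ x - c • x) (s : Multiset ℂ) :
    ∀ u, aeval φ (s.map (X - C ·)).prod u = 0 → ∃ k : ℕ, (φ ^ k) u = 0 := by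
  induction s using Multiset.induction_on with
  | empty => exact fun u e => ⟨0, by simpa using e⟩
  | cons r s ih =>
    intro u e
    rw [Multiset.map_cons, Multiset.prod_cons] at e
    rcases eq_or_ne r 0 with rfl | r0
    · rw [mul_comm, map_mul, map_zero, sub_zero, aeval_X] at e
      obtain ⟨k, hk⟩ := ih _ e
      exact ⟨k + 1, by rwa [pow_succ]⟩
    · rw [map_mul, map_sub, aeval_X, aeval_C] at e
      exact ih u ((h r r0).1 (e.trans (by simp)))

end ALGa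

open Polynomial in
theorem p_ALG :
    S_ALG := by
  intro V _ _ φ ⟨A, a1, a2⟩ h u
  let W : Submodule ℂ V := LinearMap.range (LinearMap.applyₗ u ∘ₗ (aeval φ).toLinearMap)
  have hW : ∀ x, x ∈ W ↔ ∃ p : ℂ[X], aeval φ p u = x := fun _ => Iff.rfl
  have inv : W ≤ W.comap φ := fun x hx => by
    obtain ⟨p, rfl⟩ := (hW x).1 hx
    exact (hW _).2 ⟨X * p, by simp⟩
  choose w hw using fun c : {c : ℂ | c ≠ 0} => (h c c.2).2 u
  obtain ⟨c, hc⟩ : ∃ c, w c ∈ W := by
    by_contra! e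
    have li := Module.End.eigenvectors_linearIndependent (W.mapQ W φ inv) _
      (fun c => W.mkQ (w c)) fun c => ⟨Module.End.mem_eigenspace_iff.2 ?_, ?_⟩
    · have h1 := li.cardinal_le_rank.trans (rank_quotient_le W)
      rw [← rank_top, ← a2] at h1
      have h2 := Cardinal.le_aleph0_iff_set_countable.1 (h1.trans ((rank_span_le A).trans
        (Cardinal.le_aleph0_iff_set_countable.2 a1)))
      exact not_countable_complex ((h2.insert 0).mono fun c _ => eq_or_ne c 0)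
    · exact (Submodule.Quotient.eq W).2 ((hW _).2 ⟨1, by rw [map_one]; exact (hw c).symm⟩)
    · exact fun e' => e c ((Submodule.Quotient.mk_eq_zero W).1 e')
  obtain ⟨p, hp⟩ := (hW _).1 hc
  have q0 : (X - C c.1) * p - 1 ≠ 0 := fun e => by simpa using congrArg (eval c.1) e
  have q1 : aeval φ ((X - C c.1) * p - 1) u = 0 := by
    rw [map_sub, map_mul, map_sub, aeval_X, aeval_C, map_one, LinearMap.sub_apply,
      Module.End.mul_apply, hp]
    exact sub_eq_zero.2 (hw c)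
  rw [(IsAlgClosed.splits (_ - 1)).eq_prod_roots, map_mul, aeval_C, Module.End.mul_apply,
    Module.algebraMap_end_apply, smul_eq_zero, leadingCoeff_eq_zero] at q1
  exact ALGa.nil h _ u (q1.resolve_left q0)

end Pool.Agent.P.MP_7cb106_nt.PT

end

section

/-! Step SEP. -/

set_option linter.unusedSectionVars false

namespace Pool.Agent.P.MP_7cb106_nt.PT

open Matrix

namespace SEPa

open scoped ComplexConjugate

section ip

variable {X Y : Type}

/-- the hermitian pairing -/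
noncomputable def ip (z : X →₀ ℂ) : (X →₀ ℂ) →ₗ[ℂ] ℂ :=
  Finsupp.linearCombination ℂ fun x => conj (z x)

theorem ip_single (z : X →₀ ℂ) (x : X) (a : ℂ) : ip z (.single x a) = a * conj (z x) := by
  simp [ip]

theorem ip_symm (z v : X →₀ ℂ) : ip z v = conj (ip v z) := by
  classical
  rw [ip, ip, Finsupp.linearCombination_apply, Finsupp.linearCombination_apply,
    Finsupp.sum_of_support_subset _ (Finset.subset_union_left (s₂ := z.support)) _ (by simp),
    Finsupp.sum_of_support_subset _ (Finset.subset_union_right (s₁ := v.support)) _ (by simp),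
    map_sum]
  exact Finset.sum_congr rfl fun x _ => by simp [mul_comm]

theorem ip_self {v : X →₀ ℂ} (h : ip v v = 0) : v = 0 := by
  rw [ip, Finsupp.linearCombination_apply, Finsupp.sum] at h
  simp only [smul_eq_mul, Complex.mul_conj, ← Complex.ofReal_sum, Complex.ofReal_eq_zero] at h
  ext x
  by_contra e
  exact e (Complex.normSq_eq_zero.1 ((Finset.sum_eq_zero_iff_of_nonneg fun x _ =>
    Complex.normSq_nonneg _).1 h x (Finsupp.mem_support_iff.2 e)))

variable {T : Y → X →₀ ℂ} (F : ∀ x, (Function.support fun y => conj (T y x)).Finite)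

/-- the adjoint of `Finsupp.linearCombination ℂ T` -/
noncomputable def B : (X →₀ ℂ) →ₗ[ℂ] Y →₀ ℂ :=
  Finsupp.linearCombination ℂ fun x => Finsupp.ofSupportFinite _ (F x)

theorem B_apply (v : X →₀ ℂ) (y : Y) : B F v y = ip (T y) v := by
  induction v using Finsupp.induction_linear with
  | zero => simp
  | add a b ha hb => rw [map_add, map_add, Finsupp.add_apply, ha, hb]
  | single x a => simp [B, ip_single, Finsupp.ofSupportFinite_coe]

theorem adj (v : X →₀ ℂ) (f : Y →₀ ℂ) :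
    ip v (Finsupp.linearCombination ℂ T f) = ip (B F v) f := by
  induction f using Finsupp.induction_linear with
  | zero => simp
  | add a b ha hb => rw [map_add, map_add, map_add, ha, hb]
  | single y a => rw [ip_single, B_apply, ← ip_symm, Finsupp.linearCombination_single, map_smul,
      smul_eq_mul]

/-- the positive operator -/
noncomputable def φ : Module.End ℂ (X →₀ ℂ) := Finsupp.linearCombination ℂ T ∘ₗ B F

theorem φ_ip (v w : X →₀ ℂ) : ip v (φ F w) = ip (B F v) (B F w) := adj F v _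

theorem φ_sa (v w : X →₀ ℂ) : ip v (φ F w) = ip (φ F v) w := by
  rw [φ_ip, ip_symm, ← φ_ip, ← ip_symm]

theorem φ_inj {c : ℂ} (h : Function.Surjective fun x => φ F x - conj c • x) :
    Function.Injective fun x => φ F x - c • x := fun a b e => by
  obtain ⟨w, e0⟩ := h (a - b)
  have e1 : φ F (a - b) = c • (a - b) := by
    rw [map_sub, smul_sub, sub_eq_sub_iff_sub_eq_sub]
    exact e
  refine sub_eq_zero.1 (ip_self ((congrArg (ip (a - b)) e0.symm).trans ?_))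
  rw [map_sub (ip _), φ_sa, e1, map_smul, ip_symm (c • _), map_smul, ip_symm (a - b) w,
    smul_eq_mul, smul_eq_mul, map_mul, sub_self]

theorem φ_pow (v : X →₀ ℂ) (k : ℕ) : (φ F ^ (k + 1)) v = 0 → φ F v = 0 := by
  induction k with
  | zero =>
    rw [zero_add, pow_one]
    exact id
  | succ k ih =>
    intro e
    rw [pow_succ', pow_succ', Module.End.mul_apply, Module.End.mul_apply] at e
    refine ih (ip_self ?_)
    rw [pow_succ', Module.End.mul_apply, ← φ_sa, e, map_zero]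

theorem key (hALG : S_ALG) [Countable X]
    (h : ∀ c : ℂ, c ≠ 0 → Function.Surjective fun x => φ F x - c • x) (y : Y) : T y = 0 := by
  obtain ⟨k, hk⟩ := hALG _ (φ F) ⟨_, Set.countable_range _, Finsupp.basisSingleOne.span_eq⟩
    (fun c hc => ⟨φ_inj F (h _ (by simpa using hc)), h c hc⟩) (T y)
  have h1 := φ_pow F (T y) k (by rw [pow_succ', Module.End.mul_apply, hk, map_zero])
  have h2 : B F (T y) = 0 := ip_self (by rw [← φ_ip, h1, map_zero])
  exact ip_self (by rw [← B_apply F, h2]; rfl)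

end ip

theorem exists_max {Γ V : Type} [Group Γ] [AddCommGroup V] [Module ℂ V]
    (π : Representation ℂ Γ V) (e : V) {R : Submodule ℂ V} (h : ∀ g, ∀ v ∈ R, π g v ∈ R)
    (he : e ∉ R) : ∃ A, R ≤ A ∧ Maximal (fun A : Submodule ℂ V =>
      (∀ g, ∀ v ∈ A, π g v ∈ A) ∧ e ∉ A) A :=
  zorn_le_nonempty₀ {A : Submodule ℂ V | (∀ g, ∀ v ∈ A, π g v ∈ A) ∧ e ∉ A}
    (fun c hc h1 y hy => by
      have m := fun {z} => Submodule.mem_sSup_of_directed (z := z) ⟨y, hy⟩ h1.directedOn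
      exact ⟨sSup c, ⟨fun g v hv => let ⟨A, a, b⟩ := m.1 hv; m.2 ⟨A, a, (hc a).1 g v b⟩,
        fun hv => let ⟨A, a, b⟩ := m.1 hv; (hc a).2 b⟩, fun _ => le_sSup⟩) R ⟨h, he⟩

variable {K : Type} [NontriviallyNormedField K] [IsUltrametricDist K] [LocallyCompactSpace K]
  {U : Unif K} {n N M : ℕ}

theorem cyc {A : Submodule ℂ (Wn U n N)} (h : ∀ g, ∀ v ∈ A, Wr U n N g v ∈ A)
    (he : Finsupp.single ((1 : GL (Fin n) K) : _ ⧸ KK U n N) 1 ∈ A) : A = ⊤ :=
  eq_top_iff.2 fun v hv => by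
    clear hv
    induction v using Finsupp.induction_linear with
    | zero => exact zero_mem _
    | add a b ha hb => exact add_mem ha hb
    | single x a =>
      obtain ⟨g, rfl⟩ := QuotientGroup.mk_surjective x
      simpa [Wr_single] using A.smul_mem a (h g _ he)

theorem fin1 (hFINI : S_FINI) (x s : GL (Fin n) K ⧸ KK U n N) :
    {y : GL (Fin n) K ⧸ KK U n M | y.out⁻¹ • x = s}.Finite := by
  obtain ⟨a, rfl⟩ := QuotientGroup.mk_surjective x
  obtain ⟨b, rfl⟩ := QuotientGroup.mk_surjective s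
  obtain ⟨L, hL⟩ := exists_KK_conj (U := U) b⁻¹ M
  obtain ⟨S, -, hS⟩ := (hFINI K U n L).1
  refine (S.finite_toSet.image fun t => ((a * t * b⁻¹ : GL (Fin n) K) : _ ⧸ KK U n M)).subset
    fun y hy => ?_
  obtain ⟨t, h1, h2⟩ := hS _ (KK_mono (Nat.zero_le N) (QuotientGroup.eq.1 hy))
  refine ⟨t, h1, (QuotientGroup.eq.2 ?_).trans y.out_eq'⟩
  simpa [mul_assoc] using hL _ h2

theorem out_smul {u : Wn U n N} (h : ∀ g ∈ KK U n M, Wr U n N g u = u) (g : GL (Fin n) K)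
    (y : GL (Fin n) K ⧸ KK U n M) : Wr U n N (g • y).out u = Wr U n N g (Wr U n N y.out u) := by
  have e : (g * y.out)⁻¹ * (g • y).out ∈ KK U n M := QuotientGroup.eq.1 (by
    rw [QuotientGroup.out_eq', ← smul_eq_mul, ← MulAction.Quotient.smul_coe, QuotientGroup.out_eq'])
  rw [← rep_mul, ← mul_inv_cancel_left (g * y.out) (g • y).out, rep_mul _ (g * y.out), h _ e]

theorem ip_Wr (g : GL (Fin n) K) (z v : Wn U n N) :
    ip z (Wr U n N g v) = ip (Wr U n N g⁻¹ z) v := by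
  induction v using Finsupp.induction_linear with
  | zero => simp
  | add a b ha hb => rw [map_add, map_add, map_add, ha, hb]
  | single x a => rw [Wr_single, ip_single, ip_single, Wr_apply, inv_inv]

theorem φ_Wr {T : GL (Fin n) K ⧸ KK U n M → Wn U n N} (F)
    (h : ∀ g y, T (g • y) = Wr U n N g (T y)) (g : GL (Fin n) K) (v : Wn U n N) :
    φ (T := T) F (Wr U n N g v) = Wr U n N g (φ F v) := by
  have e : B F (Wr U n N g v) = Wr U n M g (B F v) := Finsupp.ext fun y => by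
    rw [Wr_apply, B_apply, B_apply, ip_Wr, h]
  rw [φ, LinearMap.comp_apply, LinearMap.comp_apply, e]
  induction B F v using Finsupp.induction_linear with
  | zero => simp
  | add a b ha hb => simp only [map_add, ha, hb]
  | single y a => simp [Wr_single, h]

end SEPa

open SEPa in
theorem p_SEP (hALG : S_ALG) (hFINI : S_FINI) :
    S_SEP := by
  intro K _ _ _ U n N u hu
  by_contra hc
  obtain ⟨M, hM⟩ := sm_Wr N u
  have := (hFINI K U n N).2
  have F : ∀ x, (Function.support fun y : GL (Fin n) K ⧸ KK U n M =>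
      starRingEnd ℂ (Wr U n N y.out u x)).Finite := fun x =>
    (u.support.finite_toSet.biUnion fun s _ => fin1 hFINI x s).subset fun y hy =>
      Set.mem_biUnion (x := y.out⁻¹ • x) (by simpa [Wr_apply] using hy) rfl
  refine rep_ne _ _ hu (key F hALG (fun c h0 => ?_) ((1 : GL (Fin n) K) : _ ⧸ KK U n M))
  have st : ∀ g, ∀ v ∈ LinearMap.range (φ F - c • LinearMap.id),
      Wr U n N g v ∈ LinearMap.range (φ F - c • LinearMap.id) := by
    rintro g _ ⟨v, rfl⟩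
    exact ⟨Wr U n N g v, by simp [φ_Wr F (out_smul hM)]⟩
  refine LinearMap.range_eq_top.1 (cyc st (by_contra fun he => ?_))
  obtain ⟨A, h1, ⟨h2, h3⟩, h4⟩ := exists_max (Wr U n N) _ st he
  by_cases h5 : u ∈ A
  · have h6 : ∀ f, Finsupp.linearCombination ℂ (fun y : GL (Fin n) K ⧸ KK U n M =>
        Wr U n N y.out u) f ∈ A := fun f => sum_mem fun y _ => A.smul_mem _ (h2 _ _ h5)
    refine h3 ((A.smul_mem_iff h0).1 ?_)
    simpa [φ] using sub_mem (h6 (B F (.single (1 : GL (Fin n) K) 1)))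
      (h1 ⟨.single (1 : GL (Fin n) K) 1, rfl⟩)
  refine hc ⟨_, inferInstance, inferInstance, (Wr U n N).quotient A h2, A.mkQ,
    ⟨⟨_, mt (Submodule.Quotient.mk_eq_zero A).1 h3⟩, fun B hB => ?_⟩, fun v => ?_,
      fun _ _ => rfl, mt (Submodule.Quotient.mk_eq_zero A).1 h5⟩
  · have h6 : ∀ g, ∀ v ∈ B.comap A.mkQ, Wr U n N g v ∈ B.comap A.mkQ := fun g v hv => hB g _ hv
    rw [← Submodule.map_comap_eq_of_surjective A.mkQ_surjective B]
    by_cases h7 : Finsupp.single ((1 : GL (Fin n) K) : _ ⧸ KK U n N) 1 ∈ B.comap A.mkQ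
    · exact .inr (by rw [cyc h6 h7, Submodule.map_top, Submodule.range_mkQ])
    · exact .inl (eq_bot_iff.2 ((Submodule.map_mono (h4 ⟨h6, h7⟩ (A.le_comap_mkQ B))).trans
        A.mkQ_map_self.le))
  · obtain ⟨v, rfl⟩ := A.mkQ_surjective v
    exact (sm_Wr N v).imp fun _ h g hg => congrArg A.mkQ (h g hg)

end Pool.Agent.P.MP_7cb106_nt.PT

end

section

/-! Step ORD. -/

set_option linter.unusedSectionVars false

namespace Pool.Agent.P.MP_7cb106_nt.PT

open Matrix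

namespace ORDa

theorem mid {a b d : ℕ → ℕ} (h1 : toLex a ≤ toLex b) (h2 : toLex b ≤ toLex d) (T : ℕ)
    (h : ∀ t ≤ T, a t = d t) : ∀ t ≤ T, a t = b t := by
  intro t
  induction t using Nat.strong_induction_on with
  | _ t ih =>
    intro ht
    have k1 := Pi.apply_le_of_toLex h1 (i := t) fun j hj => ih j hj (by omega)
    have k2 := Pi.apply_le_of_toLex h2 (i := t) fun j hj =>
      (ih j hj (by omega)).symm.trans (h j (by omega))
    have := h t ht
    omega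

theorem sort {n : ℕ} (c : Fin n → Fin n → ℕ) (N : ℕ) (hN : ∀ k l, c k l ≤ N)
    (h0 : ∀ k, c k k = 0) (hs : ∀ k l, c k l = c l k)
    (hu : ∀ k l m, c k m ≤ max (c k l) (c l m)) :
    ∃ w : Equiv.Perm (Fin n), ∀ k k' l' l, k ≤ k' → k' ≤ l' → l' ≤ l →
      c (w k') (w l') ≤ c (w k) (w l) := by
  let cl : ℕ → Fin n → ℕ := fun m i =>
    Fintype.equivFin (Finset (Fin n)) (Finset.univ.filter fun j => c i j ≤ m)
  have hcl : ∀ m i j, cl m i = cl m j ↔ c i j ≤ m := fun m i j => by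
    simp only [cl, Fin.val_inj, EmbeddingLike.apply_eq_iff_eq, Finset.ext_iff, Finset.mem_filter,
      Finset.mem_univ, true_and]
    refine ⟨fun h => (h j).2 (by rw [h0]; omega), fun h a => ⟨fun h' => ?_, fun h' => ?_⟩⟩
    · exact (hu j i a).trans (max_le (hs i j ▸ h) h')
    · exact (hu i j a).trans (max_le h h')
  let key : Fin n → Lex (ℕ → ℕ) := fun i => toLex fun t => cl (N - t) i
  refine ⟨Tuple.sort key, fun k k' l' l a1 a2 a3 => ?_⟩
  have hm := Tuple.monotone_sort key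
  set w := Tuple.sort key
  have b := hN (w k) (w l)
  have b0 : ∀ t ≤ N - c (w k) (w l), cl (N - t) (w k) = cl (N - t) (w l) := fun t ht =>
    (hcl _ _ _).2 (by omega)
  have b1 := mid (hm a1) (hm (a2.trans a3)) _ b0 _ le_rfl
  have b2 := mid (hm (a1.trans a2)) (hm a3) _ b0 _ le_rfl
  have b3 := (hcl _ _ _).1 (b1.symm.trans b2)
  omega

end ORDa

theorem p_ORD :
    S_ORD := by
  classical
  intro K _ _ _ U n χ h1 h2
  choose N0 hN0 using h1
  have hN : ∀ i, Agree U (χ i) 1 (Finset.univ.sup N0 : ℕ) := fun i =>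
    (hN0 i).mono (by exact_mod_cast Finset.le_sup (f := N0) (Finset.mem_univ i))
  have ex : ∀ k l, ∃ m : ℕ, Agree U (χ k) (χ l) m := fun k l => ⟨_, (hN k).trans (hN l).symm⟩
  let c : Fin n → Fin n → ℕ := fun k l => Nat.find (ex k l)
  have c1 : ∀ k l, Agree U (χ k) (χ l) (c k l) := fun k l => Nat.find_spec (ex k l)
  have c2 : ∀ k l (m : ℕ), Agree U (χ k) (χ l) m → c k l ≤ m := fun k l m h =>
    Nat.find_min' (ex k l) h
  have h0 : ∀ k, c k k = 0 := fun k => Nat.le_zero.1 (c2 k k 0 fun _ _ _ => rfl)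
  have hs : ∀ k l, c k l = c l k := fun k l =>
    le_antisymm (c2 _ _ _ (c1 l k).symm) (c2 _ _ _ (c1 k l).symm)
  have hu : ∀ k l m, c k m ≤ max (c k l) (c l m) := fun k l m => c2 _ _ _
    (((c1 k l).mono (by exact_mod_cast le_max_left _ _)).trans
      ((c1 l m).mono (by exact_mod_cast le_max_right _ _)))
  have hp : ∀ k l, k ≠ l → 1 ≤ c k l := fun k l h => by
    by_contra h'
    have h3 := c1 k l
    rw [show c k l = 0 by omega] at h3
    exact h (h2 k l h3)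
  obtain ⟨w, hw⟩ := ORDa.sort c _ (fun k l => c2 _ _ _ ((hN k).trans (hN l).symm)) h0 hs hu
  refine ⟨w, fun k l => c (w k) (w l), ⟨fun k l => by rw [hs], fun k => by rw [h0]; rfl,
    fun k l h => by exact_mod_cast hp _ _ (w.injective.ne h),
    fun k k' l' l a1 a2 a3 => by exact_mod_cast hw k k' l' l a1 a2 a3,
    fun k l m => by exact_mod_cast hu _ _ _⟩, fun k l => c1 _ _, fun k l h h' => ?_,
    _, fun i => hN _⟩
  have h3 := hp _ _ (w.injective.ne h)
  have h4 := c2 (w k) (w l) (c (w k) (w l) - 1) (by rwa [Nat.cast_sub h3])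
  omega

end Pool.Agent.P.MP_7cb106_nt.PT

end

section

/-! Step E3. -/

set_option linter.unusedSectionVars false

namespace Pool.Agent.P.MP_7cb106_nt.PT

open Matrix

namespace E3a

variable {V : Type} [AddCommGroup V] [Module ℂ V] {T : Type} [CommGroup T]

/-- a maximal proper stable submodule -/
theorem exists_max (ρ : Representation ℂ T V) {A0 : Submodule ℂ V}
    (h0 : ∀ d, ∀ x ∈ A0, ρ d x ∈ A0) (hne : A0 ≠ ⊤) (F : Finset V)
    (hF : ∀ A, A0 ≤ A → (∀ d, ∀ x ∈ A, ρ d x ∈ A) → (∀ x ∈ F, x ∈ A) → A = ⊤) :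
    ∃ A, A0 ≤ A ∧ (∀ d, ∀ x ∈ A, ρ d x ∈ A) ∧ A ≠ ⊤ ∧
      ∀ B, A ≤ B → (∀ d, ∀ x ∈ B, ρ d x ∈ B) → B = A ∨ B = ⊤ := by
  obtain ⟨A, -, hA⟩ := zorn_le_nonempty₀
    {A : Submodule ℂ V | A0 ≤ A ∧ (∀ d, ∀ x ∈ A, ρ d x ∈ A) ∧ A ≠ ⊤}
    (fun c hc hch y hy => ⟨sSup c, ⟨(hc hy).1.trans (le_sSup hy), fun d x hx => by
      obtain ⟨B, hB, hx⟩ := (Submodule.mem_sSup_of_directed ⟨y, hy⟩ hch.directedOn).1 hx
      exact le_sSup hB ((hc hB).2.1 d x hx), fun e => by
      obtain ⟨B, hB, hx⟩ := DirectedOn.exists_mem_subset_of_finset_subset_biUnion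
        (f := fun A : Submodule ℂ V => (A : Set V)) (s := F) ⟨y, hy⟩ hch.directedOn fun x _ => by
          obtain ⟨B, hB, hx⟩ := (Submodule.mem_sSup_of_directed ⟨y, hy⟩ hch.directedOn).1
            (e ▸ Submodule.mem_top : x ∈ sSup c)
          exact Set.mem_biUnion hB hx
      exact (hc hB).2.2 (hF B (hc hB).1 (hc hB).2.1 fun x h => hx h)⟩, fun _ => le_sSup⟩)
    A0 ⟨le_rfl, h0, hne⟩
  refine ⟨A, hA.1.1, hA.1.2.1, hA.1.2.2, fun B h1 h2 => ?_⟩
  by_cases e : B = ⊤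
  · exact Or.inr e
  · exact Or.inl (le_antisymm (hA.2 ⟨hA.1.1.trans h1, h2, e⟩ h1) h1)

/-- every element acts by a scalar on a simple countably generated quotient -/
theorem scalar (hALG : S_ALG) (ρ : Representation ℂ T V) {A : Submodule ℂ V}
    (hA : ∀ d, ∀ x ∈ A, ρ d x ∈ A) (hne : A ≠ ⊤)
    (hmax : ∀ B, A ≤ B → (∀ d, ∀ x ∈ B, ρ d x ∈ B) → B = A ∨ B = ⊤) {B : Set V}
    (hB : B.Countable) (hsp : A ⊔ Submodule.span ℂ B = ⊤) (d : T) :
    ∃ c : ℂ, c ≠ 0 ∧ ∀ x, ρ d x - c • x ∈ A := by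
  by_contra hc
  push Not at hc
  have comm : ∀ (c : ℂ) e x, ρ e (ρ d x - c • x) = ρ d (ρ e x) - c • ρ e x := fun c e x => by
    rw [map_sub, map_smul, ← rep_mul, mul_comm, rep_mul]
  have h := hALG (V ⧸ A) (A.mapQ A (ρ d) (hA d)) ⟨A.mkQ '' B, hB.image _, by
    rw [← Submodule.map_span, Submodule.map_mkQ_eq_top, hsp]⟩ fun c hc0 => by
      obtain ⟨x0, hx0⟩ := hc c hc0
      constructor
      · have e := (hmax (A.comap (ρ d - c • LinearMap.id))
          (fun x hx => Submodule.mem_comap.2 (A.sub_mem (hA d x hx) (A.smul_mem c hx)))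
          fun e x hx => Submodule.mem_comap.2 (by
            have := hA e (ρ d x - c • x) (Submodule.mem_comap.1 hx)
            rwa [comm] at this)).resolve_right fun e =>
              hx0 (by simpa using (e ▸ Submodule.mem_top : x0 ∈ A.comap (ρ d - c • LinearMap.id)))
        intro x y hxy
        obtain ⟨x, rfl⟩ := A.mkQ_surjective x
        obtain ⟨y, rfl⟩ := A.mkQ_surjective y
        refine (Submodule.Quotient.eq A).2 (e.le ?_)
        rw [Submodule.mem_comap, map_sub]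
        exact (Submodule.Quotient.eq A).1 hxy
      · have e := (hmax (A ⊔ LinearMap.range (ρ d - c • LinearMap.id)) le_sup_left
          fun e x hx => by
            obtain ⟨a, ha, _, ⟨z, rfl⟩, rfl⟩ := Submodule.mem_sup.1 hx
            rw [map_add]
            exact Submodule.add_mem_sup (hA e a ha) ⟨ρ e z, (comm c e z).symm⟩).resolve_left
              fun e => hx0 (e.le (Submodule.mem_sup_right ⟨x0, rfl⟩))
        intro y
        obtain ⟨y, rfl⟩ := A.mkQ_surjective y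
        obtain ⟨a, ha, _, ⟨z, rfl⟩, rfl⟩ := Submodule.mem_sup.1 (e.ge (Submodule.mem_top (x := y)))
        refine ⟨A.mkQ z, ?_⟩
        rw [map_add, A.mkQ_apply a, (Submodule.Quotient.mk_eq_zero A).2 ha, zero_add]
        rfl
  refine hne (eq_top_iff.2 fun x _ => ?_)
  obtain ⟨k, hk⟩ := h (A.mkQ x)
  induction k generalizing x with
  | zero => simpa using hk
  | succ k ih =>
    have := hA d⁻¹ _ (ih (x := ρ d x) Submodule.mem_top hk)
    rwa [rep_inv] at this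

theorem functional (hALG : S_ALG) (ρ : Representation ℂ T V) {A0 : Submodule ℂ V}
    (h0 : ∀ d, ∀ x ∈ A0, ρ d x ∈ A0) (hne : A0 ≠ ⊤) (F : Finset V)
    (hF : ∀ A, A0 ≤ A → (∀ d, ∀ x ∈ A, ρ d x ∈ A) → (∀ x ∈ F, x ∈ A) → A = ⊤) {B : Set V}
    (hB : B.Countable) (hsp : A0 ⊔ Submodule.span ℂ B = ⊤) :
    ∃ Λ : V →ₗ[ℂ] ℂ, Λ ≠ 0 ∧ (∀ x ∈ A0, Λ x = 0) ∧
      ∃ C : T →* ℂˣ, ∀ d x, Λ (ρ d x) = C d * Λ x := by
  obtain ⟨A, h1, h2, h3, h4⟩ := exists_max ρ h0 hne F hF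
  choose c hc0 hc using scalar hALG ρ h2 h3 h4 hB
    (eq_top_iff.2 (hsp.ge.trans (sup_le_sup_right h1 _)))
  obtain ⟨Λ, hΛ, hA⟩ := A.exists_le_ker_of_lt_top (lt_top_iff_ne_top.2 h3)
  have key : ∀ d x, Λ (ρ d x) = c d * Λ x := fun d x => by
    simpa [sub_eq_zero] using hA (hc d x)
  obtain ⟨x0, hx0⟩ := DFunLike.ne_iff.1 hΛ
  refine ⟨Λ, hΛ, fun x hx => hA (h1 hx),
    MonoidHom.mk' (fun d => Units.mk0 (c d) (hc0 d)) fun d e => Units.ext ?_, key⟩
  refine mul_right_cancel₀ hx0 ?_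
  have := key (d * e) x0
  rw [rep_mul, key, key, ← mul_assoc] at this
  exact this.symm

variable {K : Type} [NontriviallyNormedField K] [IsUltrametricDist K] {n : ℕ}

theorem uni_le {u : GL (Fin n) K} (hu : u ∈ Uni K (so n)) : u ∈ Bz K n :=
  ⟨Uni_le_Tri hu, fun i => by rw [Uni_diag hu, norm_one]⟩

theorem dia_mem {e : Fin n → Kˣ} (he : ∀ i, ‖(e i : K)‖ = 1) : dia e ∈ Bz K n :=
  ⟨dia_mem_Tri _ _, fun i => by rw [dia_val, diagonal_apply_eq, he]⟩

theorem stable (π : Representation ℂ (GL (Fin n) K) V) (χ : Fin n → Kˣ →* ℂˣ) (d : Fin n → Kˣ) :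
    Co π (Bz K n) (dch χ) ≤ (Co π (Bz K n) (dch χ)).comap (π (dia d)) := by
  refine Submodule.span_le.2 ?_
  rintro _ ⟨b, hb, x, rfl⟩
  have e : ∀ i, (dia d * b * (dia d)⁻¹).val i i = b.val i i := fun i => by
    rw [dia_conj, mul_right_comm, mul_inv_cancel₀ (d i).ne_zero, one_mul]
  have hm : dia d * b * (dia d)⁻¹ ∈ Bz K n := ⟨(Tri K _).mul_mem ((Tri K _).mul_mem
    (dia_mem_Tri _ _) hb.1) ((Tri K _).inv_mem (dia_mem_Tri _ _)), fun i => by rw [e, hb.2]⟩
  have := sub_mem_Co π (dch χ) hm (π (dia d) x)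
  rwa [show dch χ (dia d * b * (dia d)⁻¹) = dch χ b by simp only [dch, e], rep_mul, rep_inv,
    rep_mul, ← map_smul, ← map_sub] at this

end E3a

theorem p_E3 (hDH : S_DH) (hFINI : S_FINI) (hALG : S_ALG) :
    S_E3 := by
  intro K _ _ _ U n χ V _ _ π v hi hs hv
  classical
  have h0 : v ≠ 0 := by rintro rfl; exact hv (Submodule.zero_mem _)
  obtain ⟨N, hN⟩ := hs v
  obtain ⟨⟨S, -, hS⟩, -⟩ := hFINI K U n N
  have hBz : ∀ A, Co π (Bz K n) (dch χ) ≤ A → ∀ b ∈ Bz K n, ∀ x ∈ A, π b x ∈ A :=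
    fun A hA b hb x hx => by
      simpa using A.add_mem (hA (sub_mem_Co π (dch χ) hb x)) (A.smul_mem (dch χ b) hx)
  have gen : ∀ A, Co π (Bz K n) (dch χ) ≤ A → (∀ y, ∀ s ∈ S, π (dg U y) (π s v) ∈ A) → A = ⊤ := by
    intro A hA h
    refine eq_top_iff.2 ((hi.sp_eq h0).ge.trans (Sp_le fun g _ => ?_))
    obtain ⟨b, hb, k, hk, rfl⟩ := iwasawa hDH U g
    obtain ⟨s, hs, hk'⟩ := hS k hk
    obtain ⟨u, hu, d, -, rfl⟩ := Tri_eq so_inj hb
    obtain ⟨y, e, he, hd⟩ := exists_dia_eq U d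
    have e1 : u * dia d * k = u * (dia e * (dg U y * (s * (s⁻¹ * k)))) := by
      rw [hd, dg, dia_comm]; group
    rw [e1, rep_mul, rep_mul, rep_mul, rep_mul, hN _ hk']
    exact hBz A hA u (E3a.uni_le hu) _ (hBz A hA _ (E3a.dia_mem he) _ (h y s hs))
  obtain ⟨Λ, hΛ, h1, C, hC⟩ := E3a.functional hALG (π.comp (MonoidHom.mk' dia dia_mul))
    (fun d x hx => E3a.stable π χ d hx) (fun e => hv (e ▸ Submodule.mem_top))
    (S.image fun s => π s v)
    (fun A hA hst h => gen A hA fun y s hs => hst _ _ (h _ (Finset.mem_image_of_mem _ hs)))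
    (Set.countable_range fun p : (Fin n → ℤ) × S => π (dg U p.1) (π p.2.1 v))
    (gen _ le_sup_left fun y s hs =>
      Submodule.mem_sup_right (Submodule.subset_span ⟨(y, ⟨s, hs⟩), rfl⟩))
  have hC' : ∀ d x, Λ (π (dia d) x) = C d * Λ x := hC
  have h2 : ∀ b ∈ Bz K n, ∀ x, Λ (π b x) = dch χ b * Λ x := fun b hb x => by
    simpa [sub_eq_zero] using h1 _ (sub_mem_Co π (dch χ) hb x)
  obtain ⟨x0, hx0⟩ := DFunLike.ne_iff.1 hΛ
  refine ⟨Λ, hΛ, fun i => C.comp (MonoidHom.mulSingle (fun _ => Kˣ) i),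
    fun i α hα _ => Units.ext (mul_right_cancel₀ hx0 ?_), fun b hb x => ?_⟩
  · rw [← dch_di, ← h2 (di i α) (E3a.dia_mem fun k => by
      rw [Pi.mulSingle_apply]; split_ifs <;> simp [hα]), di, hC']
    rfl
  · obtain ⟨u, hu, d, -, rfl⟩ := Tri_eq so_inj hb
    rw [rep_mul, h2 u (E3a.uni_le hu), dch_mul _ so_inj (Uni_le_Tri hu) (dia_mem_Tri _ _),
      dch_uni _ hu, dch_uni _ hu, one_mul, one_mul, hC', dch_dia]
    congr 1
    conv_lhs => rw [← Finset.univ_prod_mulSingle d]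
    simp

end Pool.Agent.P.MP_7cb106_nt.PT

end

section

/-! Step MODEL. -/

set_option linter.unusedSectionVars false

namespace Pool.Agent.P.MP_7cb106_nt.PT

open Matrix

namespace MODELa

variable {K : Type} [NontriviallyNormedField K] [IsUltrametricDist K] {U : Unif K} {n : ℕ}
  {T : Type} [AddCommGroup T] [Module ℂ T] {τ : Representation ℂ (Kint K n) T}

theorem lev (hi : Irr τ) (hs : SmK U τ) :
    ∃ N : ℕ, ∀ k : Kint K n, k.val ∈ KK U n N → ∀ v, τ k v = v := by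
  obtain ⟨v0, h0⟩ := hi.1
  obtain ⟨N, hN⟩ := hs v0
  refine ⟨N, fun k hk v => ?_⟩
  have : Sp τ (⊤ : Subgroup (Kint K n)) v0 ≤ LinearMap.eqLocus (τ k) LinearMap.id :=
    Sp_le fun g _ => by
      have e : k * g = g * (g⁻¹ * k * g⁻¹⁻¹) := by group
      change τ k (τ g v0) = τ g v0
      rw [← rep_mul, e, rep_mul, hN _ (KK_conj ((K0_eq U).ge (g⁻¹).2) hk)]
  rw [hi.sp_eq h0] at this
  exact this (Submodule.mem_top (x := v))

open Classical in
/-- a matrix coefficient extended by zero -/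
noncomputable def F (τ : Representation ℂ (Kint K n) T) (l : T →ₗ[ℂ] ℂ) (x : GL (Fin n) K) :
    T →ₗ[ℂ] ℂ := if h : x ∈ Kint K n then l ∘ₗ τ (⟨x, h⟩ : Kint K n)⁻¹ else 0

theorem F_mem (l : T →ₗ[ℂ] ℂ) (k : Kint K n) (v : T) : F τ l k.val v = l (τ k⁻¹ v) := by
  rw [F, dif_pos k.2]; rfl

theorem F_left (l : T →ₗ[ℂ] ℂ) (k : Kint K n) (x : GL (Fin n) K) (v : T) :
    F τ l (k.val⁻¹ * x) v = F τ l x (τ k v) := by
  by_cases h : x ∈ Kint K n
  · have := F_mem (τ := τ) l (k⁻¹ * ⟨x, h⟩) v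
    rw [_root_.mul_inv_rev, inv_inv, rep_mul, ← F_mem] at this
    exact this
  · rw [F, F, dif_neg h, dif_neg fun e => h (((Kint K n).mul_mem_cancel_left
      ((Kint K n).inv_mem k.2)).1 e)]
    rfl

theorem F_right {N : ℕ} (hN : ∀ k : Kint K n, k.val ∈ KK U n N → ∀ v, τ k v = v) (l : T →ₗ[ℂ] ℂ)
    (x : GL (Fin n) K) (v : T) : F τ l (x : _ ⧸ KK U n N).out v = F τ l x v := by
  obtain ⟨g, e⟩ := QuotientGroup.mk_out_eq_mul (KK U n N) x
  have hg : g.val ∈ Kint K n := K0_eq U ▸ KK_mono N.zero_le g.2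
  rw [e]
  by_cases h : x ∈ Kint K n
  · have := F_mem (τ := τ) l (⟨x, h⟩ * ⟨g, hg⟩) v
    rw [_root_.mul_inv_rev, rep_mul, hN _ ((KK U n N).inv_mem g.2), ← F_mem] at this
    exact this
  · rw [F, F, dif_neg h, dif_neg fun e => h (((Kint K n).mul_mem_cancel_right hg).1 e)]

theorem emb [LocallyCompactSpace K] (hFINI : S_FINI) (hi : Irr τ) (hs : SmK U τ) :
    ∃ (N : ℕ) (ι : T →ₗ[ℂ] Wn U n N), Function.Injective ι ∧
      (∀ (k : Kint K n) z, ι (τ k z) = Wr U n N k.val (ι z)) ∧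
      ∀ z (x : GL (Fin n) K), x ∉ KK U n 0 → ι z (x : _ ⧸ KK U n N) = 0 := by
  classical
  obtain ⟨N, hN⟩ := lev hi hs
  obtain ⟨S, -, hS⟩ := (hFINI K U n N).1
  obtain ⟨v0, h0⟩ := hi.1
  obtain ⟨l, hl⟩ := Module.Projective.exists_dual_ne_zero ℂ h0
  obtain ⟨ι, hι⟩ : ∃ ι : T →ₗ[ℂ] Wn U n N, ∀ v q, ι v q = F τ l q.out v :=
    ⟨⟨⟨fun v => Finsupp.onFinset (S.image QuotientGroup.mk) (fun q => F τ l q.out v) fun q hq => by
      obtain ⟨s, a, b⟩ := hS q.out (by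
        by_contra h
        rw [F, dif_neg (K0_eq U ▸ h)] at hq
        exact hq rfl)
      exact Finset.mem_image.2 ⟨s, a, (QuotientGroup.eq.2 b).trans q.out_eq'⟩,
      fun v w => by ext q; simp⟩, fun a v => by ext q; simp⟩, fun _ _ => rfl⟩
  have hx : ∀ v (x : GL (Fin n) K), ι v (x : _ ⧸ KK U n N) = F τ l x v := fun v x => by
    rw [hι, F_right hN]
  refine ⟨N, ι, (injective_iff_map_eq_zero ι).2 fun z hz => by_contra fun h => ?_,
    fun k z => ?_, fun z x h => ?_⟩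
  · obtain ⟨g, hg⟩ := hi.exists_ne h (Λ := l) (by rintro rfl; exact hl rfl)
    have := hx z (g⁻¹).val
    rw [hz, F_mem, inv_inv] at this
    exact hg this.symm
  · ext q
    obtain ⟨x, rfl⟩ := QuotientGroup.mk_surjective q
    rw [Wr_apply_mk, hx, hx, F_left]
  · rw [hx, F, dif_neg (K0_eq U ▸ h)]
    rfl

end MODELa

theorem p_MODEL (hSEP : S_SEP) (hJAC1 : S_JAC1) (hJAC2 : S_JAC2) (hE3 : S_E3) (hDH : S_DH) (hFINI : S_FINI) :
    S_MODEL := by
  classical
  intro K _ _ _ U n χ c a T _ _ τ hD ha hi hs hT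
  obtain ⟨N, ι, i1, i2, i3⟩ := MODELa.emb hFINI hi hs
  have i4 : ∀ g z (q : _ ⧸ KK U n N), g⁻¹ * q.out ∉ KK U n 0 → Wr U n N g (ι z) q = 0 :=
    fun g z q h => by rw [← q.out_eq', Wr_apply_mk, i3 _ _ h]
  have i5 : ∀ g, ∀ k : Kint K n, ∀ z, Wr U n N (g * k) (ι z) = Wr U n N g (ι (τ k z)) :=
    fun g k z => by rw [rep_mul, i2]
  have key : ∀ (V : Type) [AddCommGroup V] [Module ℂ V] (π : Representation ℂ (GL (Fin n) K) V)
      (q : Wn U n N →ₗ[ℂ] V), Irr π → Sm U π → (∀ g x, q (Wr U n N g x) = π g (q x)) →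
      q ∘ₗ ι ≠ 0 → ∃ Λ, Λ ≠ 0 ∧ PO U χ π (so n) Λ := fun V _ _ π q a1 a2 a3 a4 =>
    hT V π a1 a2 ⟨q ∘ₗ ι, a4, fun k z => by simp only [LinearMap.comp_apply, i2, a3]⟩
  refine ⟨Wn U n N, _, _, Wr U n N, fun g => LinearMap.range (Wr U n N g ∘ₗ ι),
    fun g => ⟨⟨Finsupp.filter fun q => g⁻¹ * q.out ∈ KK U n 0, fun _ _ => Finsupp.filter_add⟩,
      fun _ _ => Finsupp.filter_smul⟩, ⟨sm_Wr N, ?_, fun g k hk => ?_, ?_, ?_, fun v hv h0 => ?_,
      ?_⟩, ?_⟩
  · rintro h g _ ⟨z, rfl⟩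
    exact ⟨z, rep_mul (Wr U n N) h g (ι z)⟩
  · rw [K0_eq] at hk
    refine le_antisymm ?_ ?_
    · rintro _ ⟨z, rfl⟩
      exact ⟨_, (i5 g ⟨k, hk⟩ z).symm⟩
    · rintro _ ⟨z, rfl⟩
      exact ⟨τ (⟨k, hk⟩ : Kint K n)⁻¹ z, (i5 g ⟨k, hk⟩ _).trans (by rw [rep_inv']; rfl)⟩
  · rintro g _ ⟨z, rfl⟩
    exact (Finsupp.filter_eq_self_iff _ _).2 fun q h => by_contra fun e => h (i4 g z q e)
  · rintro g g' h _ ⟨z, rfl⟩
    refine (Finsupp.filter_eq_zero_iff _ _).2 fun q a => i4 g' z q fun e => h ?_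
    simpa [mul_assoc] using (KK U n 0).mul_mem a ((KK U n 0).inv_mem e)
  · obtain ⟨V, _, _, π, q, a1, a2, a3, a4⟩ := hSEP K U n N v h0
    obtain ⟨Λ, l0, σ, χ', l1, l2⟩ := key V π q a1 a2 a3 fun e => a4 (by
      refine (iSup_le ?_ : _ ≤ LinearMap.ker q) hv
      rintro g _ ⟨z, rfl⟩
      have : q (ι z) = 0 := LinearMap.congr_fun e z
      rw [LinearMap.mem_ker, LinearMap.comp_apply, a3, this, map_zero])
    obtain ⟨g, hg⟩ := a1.exists_ne a4 l0
    exact ⟨Λ ∘ₗ q, g, ⟨σ, χ', l1, fun b hb x => by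
      simp only [LinearMap.comp_apply, a3, l2 b hb]⟩, by rwa [LinearMap.comp_apply, a3]⟩
  · obtain ⟨v0, h0⟩ := hi.1
    obtain ⟨V, _, _, π, q, a1, a2, a3, a4⟩ := hSEP K U n N (ι v0) ((map_ne_zero_iff ι i1).2 h0)
    obtain ⟨Λ0, l0, l1⟩ := key V π q a1 a2 a3 fun e => a4 (LinearMap.congr_fun e v0)
    obtain ⟨w, w0, w1⟩ := hJAC1 hD (fit_fstd hD.toCF ha) a2 l0 l1
    obtain ⟨Λ, m0, χ', m1, m2⟩ := sorted hJAC2 hE3 hD ha a1 a2 w1 w0
    obtain ⟨g, hg⟩ := a1.exists_ne a4 m0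
    obtain ⟨b, hb, k, hk, rfl⟩ := iwasawa hDH U g
    rw [K0_eq] at hk
    rw [rep_mul, m2 b hb] at hg
    refine ⟨Λ ∘ₗ q, ⟨χ', m1, fun b hb x => by simp only [LinearMap.comp_apply, a3, m2 b hb]⟩, _,
      ⟨τ ⟨k, hk⟩ v0, rfl⟩, ?_⟩
    rw [LinearMap.comp_apply, LinearMap.comp_apply, ← i5, one_mul, a3]
    exact right_ne_zero_of_mul hg
  · rintro H Θ g hH ⟨_, ⟨z, rfl⟩, h0, he⟩
    refine ⟨z, by rintro rfl; exact h0 (map_zero _), fun h hh k e => i1 ?_⟩
    have := he h ⟨hh, hH hh⟩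
    rw [LinearMap.comp_apply, ← rep_mul, e, i5, ← map_smul] at this
    rw [map_smul, ← rep_inv (Wr U n N) g (ι _), this, rep_inv]

end Pool.Agent.P.MP_7cb106_nt.PT

end

section

/-! Step DLT. -/

set_option linter.unusedSectionVars false

namespace Pool.Agent.P.MP_7cb106_nt.PT

open Matrix

namespace DLTa

variable {K : Type} [NontriviallyNormedField K] [IsUltrametricDist K] {U : Unif K} {n N : ℕ}
  {H : Subgroup (GL (Fin n) K)} {Θ : GL (Fin n) K → ℂ} {δ : Wn U n N}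

theorem val (hc : Ch U H Θ) (h : Dlt U H Θ N δ) {y : GL (Fin n) K} (hy : y ∈ H) :
    δ (y : _ ⧸ KK U n N) = (Θ y)⁻¹ * δ ((1 : GL (Fin n) K) : _ ⧸ KK U n N) := by
  have := Wr_apply_mk N y⁻¹ δ 1
  rw [h.eig _ (H.inv_mem hy), hc.mult.inv hy, inv_inv, mul_one] at this
  exact this.symm

theorem right (hc : Ch U H Θ) (h : Dlt U H Θ N δ) (x : GL (Fin n) K) {s : GL (Fin n) K}
    (hs : s ∈ H) :
    δ ((x * s : GL (Fin n) K) : _ ⧸ KK U n N) = (Θ s)⁻¹ * δ (x : _ ⧸ KK U n N) := by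
  by_cases hx : x ∈ H
  · rw [val hc h (H.mul_mem hx hs), val hc h hx, hc.mult.2 x hx s hs, mul_inv]
    ring
  · rw [h.supp x hx, h.supp _ fun e => hx ((H.mul_mem_cancel_right hs).1 e), mul_zero]

variable {T : Type} [AddCommGroup T] [Module ℂ T] (τ : Representation ℂ (Kint K n) T) (z : T)
  (g : GL (Fin n) K)

open Classical in
/-- the values of the universal map -/
noncomputable def F0 (x : GL (Fin n) K) : T := if h : x * g ∈ Kint K n then τ ⟨x * g, h⟩ z else 0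

theorem F0_left (k : Kint K n) (x : GL (Fin n) K) : F0 τ z g (k.val * x) = τ k (F0 τ z g x) := by
  unfold F0
  by_cases h : x * g ∈ Kint K n
  · rw [dif_pos h, dif_pos (mul_assoc k.val x g ▸ mul_mem k.2 h), ← rep_mul]
    congr 2
    exact Subtype.ext (mul_assoc _ _ _)
  · rw [dif_neg h, map_zero, dif_neg fun e => h ?_]
    rwa [mul_assoc, (Kint K n).mul_mem_cancel_left k.2] at e

variable {τ z g}

theorem F0_right (hg : H ≤ St U g) (hz : EigK τ H Θ g z) (x : GL (Fin n) K) {s : GL (Fin n) K}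
    (hs : s ∈ H) : F0 τ z g (x * s) = Θ s • F0 τ z g x := by
  have h1 : g⁻¹ * s * g ∈ Kint K n := K0_eq U ▸ mem_St.1 (hg hs)
  have e : x * s * g = x * g * (g⁻¹ * s * g) := by group
  unfold F0
  by_cases h : x * g ∈ Kint K n
  · rw [dif_pos h, dif_pos (e ▸ mul_mem h h1), ← map_smul, ← hz s hs ⟨_, h1⟩ (by group), ← rep_mul]
    congr 2
    exact Subtype.ext e
  · rw [dif_neg h, smul_zero, dif_neg fun e' => h ?_]
    rwa [e, (Kint K n).mul_mem_cancel_right h1] at e'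

end DLTa

open DLTa in
theorem p_DLT (hAV : S_AV) :
    S_DLT := by
  classical
  intro K _ _ _ U n H Θ hc
  refine ⟨fun ⟨N1, h1⟩ => ?_, fun N δ h => ⟨fun a ha x s hs => ?_, fun g hg T _ _ τ z hz => ?_⟩⟩
  · obtain ⟨N2, h2⟩ := hc.sm
    have a1 := (KK_mono (le_max_left N1 N2)).trans h1
    have a2 := fun g hg => h2 g (a1 hg) (KK_mono (le_max_right N1 N2) hg)
    obtain ⟨S, s1, s2, s3⟩ := (hAV (sm_Wr (max N1 N2)) hc).2
      (Finsupp.single ((1 : GL (Fin n) K) : _ ⧸ KK U n _) 1)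
    have e : ∀ x : GL (Fin n) K, (∑ s ∈ S, (Θ s)⁻¹ • Wr U n (max N1 N2) s
        (Finsupp.single ((1 : GL (Fin n) K) : _ ⧸ KK U n _) 1)) (x : _ ⧸ KK U n _) =
          ∑ s ∈ S, if s⁻¹ * x ∈ KK U n (max N1 N2) then (Θ s)⁻¹ else 0 := fun x => by
      rw [Finsupp.finsetSum_apply]
      refine Finset.sum_congr rfl fun s _ => ?_
      rw [Wr_single, Finsupp.smul_apply, Finsupp.single_apply, MulAction.Quotient.smul_mk,
        smul_eq_mul, smul_eq_mul, mul_one, mul_ite, mul_one, mul_zero]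
      exact if_congr QuotientGroup.eq rfl rfl
    refine ⟨_, _, a1, a2, s3, ?_, fun x hx => (e x).trans (Finset.sum_eq_zero fun s hs =>
      if_neg fun b => hx ((H.mul_mem_cancel_left (H.inv_mem (s2 s hs))).1 (a1 b)))⟩
    rw [e, Finset.sum_congr rfl fun s _ => if_ctx_congr Iff.rfl (fun b => (show (Θ s)⁻¹ = 1 by
      rw [a2 s (by simpa using b), inv_one])) fun _ => rfl, Finset.sum_boole, Nat.cast_ne_zero]
    exact Finset.card_ne_zero.2 ⟨1, Finset.mem_filter.2 ⟨s1, by simp⟩⟩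
  · induction ha using Submodule.span_induction with
    | mem a ha =>
      obtain ⟨g, -, rfl⟩ := ha
      rw [Wr_apply_mk, Wr_apply_mk, ← mul_assoc, right hc h _ hs]
    | zero => simp
    | add a b _ _ p q => rw [Finsupp.add_apply, Finsupp.add_apply, p, q, mul_add]
    | smul c a _ p =>
      rw [Finsupp.smul_apply, Finsupp.smul_apply, p, smul_eq_mul, smul_eq_mul, mul_left_comm]
  · have e : ∀ x : GL (Fin n) K, F0 τ z g (x : _ ⧸ KK U n N).out = F0 τ z g x := fun x => by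
      obtain ⟨κ, e⟩ := QuotientGroup.mk_out_eq_mul (KK U n N) x
      rw [e, F0_right hg hz x (h.le κ.2), h.triv _ κ.2, one_smul]
    have c0 : (δ.support.card : ℂ) * δ ((1 : GL (Fin n) K) : _ ⧸ KK U n N) ≠ 0 :=
      mul_ne_zero (Nat.cast_ne_zero.2 (Finset.card_ne_zero.2
        ⟨_, Finsupp.mem_support_iff.2 h.one⟩)) h.one
    refine ⟨((δ.support.card : ℂ) * δ ((1 : GL (Fin n) K) : _ ⧸ KK U n N))⁻¹ •
      Finsupp.linearCombination ℂ fun q => F0 τ z g q.out, fun k a => ?_, ?_⟩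
    · rw [LinearMap.smul_apply, LinearMap.smul_apply, map_smul]
      congr 1
      induction a using Finsupp.induction_linear with
      | zero => simp
      | add a b p q => simp only [map_add, p, q]
      | single q a =>
        obtain ⟨x, rfl⟩ := QuotientGroup.mk_surjective q
        rw [Wr_single, Finsupp.linearCombination_single, Finsupp.linearCombination_single,
          MulAction.Quotient.smul_mk, e, e, smul_eq_mul, F0_left, map_smul]
    · rw [LinearMap.smul_apply, inv_smul_eq_iff₀ c0]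
      refine (Finsupp.linearCombination_mapDomain _ _ _).trans ?_
      rw [Finsupp.linearCombination_apply, Finsupp.sum, mul_smul, Nat.cast_smul_eq_nsmul,
        ← Finset.sum_const]
      refine Finset.sum_congr rfl fun q hq => ?_
      obtain ⟨y, rfl⟩ := QuotientGroup.mk_surjective q
      have hy : y ∈ H := by_contra fun b => Finsupp.mem_support_iff.1 hq (h.supp y b)
      rw [Function.comp_apply, MulAction.Quotient.smul_mk, e, smul_eq_mul, F0_right hg hz _ hy,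
        val hc h hy, smul_smul, mul_right_comm, inv_mul_cancel₀ (hc.mult.ne_zero hy), one_mul,
        F0, dif_pos (by simp)]
      simp only [inv_mul_cancel]
      exact congrArg _ (LinearMap.congr_fun (map_one τ) z)

end Pool.Agent.P.MP_7cb106_nt.PT

end

section

/-! Step INT2. -/

set_option linter.unusedSectionVars false

namespace Pool.Agent.P.MP_7cb106_nt.PT

open Matrix

namespace INT2a

variable {K : Type} [NontriviallyNormedField K] [IsUltrametricDist K] {n : ℕ}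

/-- the functions that vanish on `Y` -/
def van (U : Unif K) (N : ℕ) (Y : Set (GL (Fin n) K)) : Submodule ℂ (Wn U n N) where
  carrier := {u | ∀ x ∈ Y, u (x : _ ⧸ KK U n N) = 0}
  add_mem' hu hv x hx := by rw [Finsupp.add_apply, hu x hx, hv x hx, add_zero]
  zero_mem' _ _ := rfl
  smul_mem' a u hu x hx := by rw [Finsupp.smul_apply, hu x hx, smul_zero]

theorem mem_van {U : Unif K} {N : ℕ} {H : Subgroup (GL (Fin n) K)} {Θ : GL (Fin n) K → ℂ}
    {δ : Wn U n N} (h : Dlt U H Θ N δ) {Y : Set (GL (Fin n) K)} {t : GL (Fin n) K}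
    (ht : ∀ s ∈ H, t * s ∉ Y) : Wr U n N t δ ∈ van U N Y := by
  intro x hx
  rw [Wr_apply_mk]
  refine h.supp _ fun e => ht _ e ?_
  rwa [mul_inv_cancel_left]

end INT2a

open INT2a in
theorem p_INT2 (hINT : S_INT) (hSEP : S_SEP) :
    S_INT2 := by
  intro K _ _ _ U n χ c a N δ ι g hD ha hδ hR C C' z hz he h0
  obtain ⟨Z, hZ⟩ : ∃ Z : Set (GL (Fin n) K), ∀ x, x ∈ Z ↔ (g C')⁻¹ * x * g C ∈ KK U n 0 :=
    ⟨{x | (g C')⁻¹ * x * g C ∈ KK U n 0}, fun _ => Iff.rfl⟩
  have key : ∀ B : Submodule ℂ (Wn U n N),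
      (∀ k ∈ KK U n 0, Wr U n N (g C' * k * (g C)⁻¹) δ ∈ B) → Wr U n N (g C') z ∈ B := by
    intro B hB
    have : Sp (Wr U n N) (KK U n 0) (Wr U n N (g C)⁻¹ δ) ≤ B.comap (Wr U n N (g C')) :=
      Sp_le fun k hk => by
        rw [Submodule.mem_comap, ← rep_mul, ← rep_mul]; exact hB k hk
    exact this hz
  have hA : Wr U n N (g C') z ∈ van U N Zᶜ := key _ fun k hk => mem_van hδ fun s hs e => e (by
    rw [hZ, show (g C')⁻¹ * (g C' * k * (g C)⁻¹ * s) * g C = k * ((g C)⁻¹ * s * g C) by group]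
    exact (KK U n 0).mul_mem hk (hR.le C hs))
  have hu := hINT hD ha (sm_Wr N) (hSEP K U n N) hδ.eig he
    (key _ fun k _ => mem_Sp _ (Set.mem_univ _) δ)
  obtain ⟨D, hDd⟩ : ∃ D : Submodule ℂ (Wn U n N), D = Submodule.span ℂ {y | C = C' ∧ y = δ} :=
    ⟨_, rfl⟩
  have hDA : D ≤ van U N Zᶜ := by
    rw [hDd, Submodule.span_le]
    rintro y ⟨rfl, rfl⟩ x hx
    exact hδ.supp x fun e => hx ((hZ x).2 (hR.le C e))
  have hle : Submodule.span ℂ {y | Eig (Wr U n N) (J U (fstd c a)) (th χ) y ∧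
      ∃ d, y ∈ Sp (Wr U n N) {x | ∃ s ∈ J U (fstd c a), x = s * dia d} δ} ≤ van U N Z ⊔ D := by
    rw [Submodule.span_le]
    rintro y ⟨-, d, hy⟩
    refine Sp_le (B := van U N Z ⊔ D) ?_ hy
    rintro _ ⟨s, hs, rfl⟩
    by_cases hd : (g C')⁻¹ * dia d * g C ∈ KK U n 0
    · obtain ⟨e, hd'⟩ := hR.rig C C' d hd
      rw [hδ.eig _ ((J U _).mul_mem hs (dia_mem_J0 (fstd_diag c a) hd'))]
      refine Submodule.mem_sup_right (D.smul_mem _ ?_)
      rw [hDd]; exact Submodule.subset_span ⟨e, rfl⟩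
    · refine Submodule.mem_sup_left (mem_van hδ fun t ht e => hd ?_)
      rw [hZ] at e
      rw [show (g C')⁻¹ * dia d * g C = ((g C')⁻¹ * s⁻¹ * g C') *
        ((g C')⁻¹ * (s * dia d * t) * g C) * ((g C)⁻¹ * t⁻¹ * g C) by group]
      exact (KK U n 0).mul_mem ((KK U n 0).mul_mem (hR.le C' ((J U _).inv_mem hs)) e)
        (hR.le C ((J U _).inv_mem ht))
  obtain ⟨b, hb, d, hd, e⟩ := Submodule.mem_sup.1 (hle hu)
  have hb0 : b = 0 := by
    have h1 : b ∈ van U N Zᶜ := by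
      rw [eq_sub_of_add_eq e]; exact Submodule.sub_mem _ hA (hDA hd)
    ext q
    obtain ⟨x, rfl⟩ := QuotientGroup.mk_surjective q
    by_cases hx : x ∈ Z
    exacts [hb x hx, h1 x hx]
  rw [hb0, zero_add] at e
  have hC : C = C' := by
    by_contra hC
    rw [hDd, show {y | C = C' ∧ y = δ} = ∅ from
      Set.eq_empty_of_forall_notMem fun _ h => hC h.1, Submodule.span_empty] at hd
    exact rep_ne _ _ h0 (e.symm.trans hd)
  refine ⟨hC, ?_⟩
  subst hC
  have : D ≤ Submodule.span ℂ {δ} := by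
    rw [hDd]; exact Submodule.span_mono fun y hy => hy.2
  obtain ⟨κ, hκ⟩ := Submodule.mem_span_singleton.1 (this hd)
  exact ⟨κ, by rw [← map_smul, hκ, e, rep_inv]⟩

end Pool.Agent.P.MP_7cb106_nt.PT

end

section

/-! Step SIG. -/

set_option linter.unusedSectionVars false

namespace Pool.Agent.P.MP_7cb106_nt.PT

open Matrix

namespace SIGa

/-- a finite-dimensional stable subspace in coordinates -/
theorem model {Γ : Type} [Group Γ] {W : Type} [AddCommGroup W] [Module ℂ W]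
    (ρ : Representation ℂ Γ W) (H : Subgroup Γ) (A : Submodule ℂ W) [Module.Finite ℂ A]
    (hA : ∀ h ∈ H, ∀ v ∈ A, ρ h v ∈ A) :
    ∃ (d : ℕ) (σ : Representation ℂ H (Fin d → ℂ)) (j : (Fin d → ℂ) →ₗ[ℂ] W),
      Function.Injective j ∧ (∀ k y, j (σ k y) = ρ k.val (j y)) ∧ LinearMap.range j = A := by
  let e := (Module.finBasis ℂ A).equivFun
  let r : H → A →ₗ[ℂ] A := fun k => (ρ k.val).restrict (hA k.val k.2)
  have hr : ∀ k (v : A), ((r k v : A) : W) = ρ k.val v := fun _ _ => rfl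
  let j : (Fin (Module.finrank ℂ A) → ℂ) →ₗ[ℂ] W := A.subtype ∘ₗ e.symm.toLinearMap
  have hj : Function.Injective j := A.injective_subtype.comp e.symm.injective
  let s : H → (Fin (Module.finrank ℂ A) → ℂ) →ₗ[ℂ] (Fin (Module.finrank ℂ A) → ℂ) :=
    fun k => e.toLinearMap ∘ₗ r k ∘ₗ e.symm.toLinearMap
  have hs : ∀ k y, j (s k y) = ρ k.val (j y) := by
    intro k y
    change ((e.symm (e (r k (e.symm y))) : A) : W) = _
    rw [e.symm_apply_apply, hr]
    rfl
  refine ⟨_, ⟨⟨s, ?_⟩, ?_⟩, j, hj, hs, ?_⟩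
  · refine LinearMap.ext fun y => hj ?_
    rw [hs, OneMemClass.coe_one, map_one]
    rfl
  · intro k l
    refine LinearMap.ext fun y => hj ?_
    change j (s (k * l) y) = j (s k (s l y))
    rw [hs, hs, hs, Subgroup.coe_mul, rep_mul]
  · rw [LinearMap.range_comp, LinearEquiv.range, Submodule.map_top, Submodule.range_subtype]

variable {K : Type} [NontriviallyNormedField K] [IsUltrametricDist K] [LocallyCompactSpace K]
  {U : Unif K} {n : ℕ}

theorem fin (hFINI : S_FINI) {N : ℕ} (x : Wn U n N) :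
    Module.Finite ℂ (Sp (Wr U n N) (KK U n 0) x) := by
  obtain ⟨M, hM⟩ := sm_Wr (U := U) N x
  obtain ⟨S, _, hS⟩ := (hFINI K U n M).1
  have hf : ((fun s => Wr U n N s x) '' (S : Set (GL (Fin n) K))).Finite :=
    S.finite_toSet.image _
  have := FiniteDimensional.span_of_finite ℂ hf
  refine Submodule.finiteDimensional_of_le
    (S₂ := Submodule.span ℂ ((fun s => Wr U n N s x) '' (S : Set (GL (Fin n) K)))) ?_
  refine Sp_le fun k hk => ?_
  obtain ⟨s, hs, h⟩ := hS k hk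
  refine Submodule.subset_span ⟨s, hs, ?_⟩
  rw [show k = s * (s⁻¹ * k) by group, rep_mul, hM _ h]

variable {H : Subgroup (GL (Fin n) K)} {Θ : GL (Fin n) K → ℂ} {N : ℕ} {δ : Wn U n N}
  {g : GL (Fin n) K}

theorem supp (hδ : Dlt U H Θ N δ) (hg : H ≤ St U g) {a : Wn U n N}
    (ha : a ∈ Sp (Wr U n N) (KK U n 0) (Wr U n N g⁻¹ δ)) (x : GL (Fin n) K)
    (hx : x * g ∉ KK U n 0) : a (x : _ ⧸ KK U n N) = 0 := by
  have : Sp (Wr U n N) (KK U n 0) (Wr U n N g⁻¹ δ) ≤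
      LinearMap.ker (Finsupp.lapply (x : _ ⧸ KK U n N) : Wn U n N →ₗ[ℂ] ℂ) := by
    refine Sp_le fun k hk => ?_
    rw [LinearMap.mem_ker, Finsupp.lapply_apply, Wr_apply_mk, Wr_apply_mk]
    refine hδ.supp _ fun h => hx ?_
    have h1 := (KK U n 0).mul_mem hk (mem_St.1 (hg h))
    rwa [show k * (g⁻¹ * (g⁻¹⁻¹ * (k⁻¹ * x)) * g) = x * g by group] at h1
  exact this ha

theorem sp_univ {a : Wn U n N} (ha : a ∈ Sp (Wr U n N) (KK U n 0) (Wr U n N g⁻¹ δ)) :
    a ∈ Sp (Wr U n N) Set.univ δ := by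
  refine Sp_le (B := Sp (Wr U n N) Set.univ δ) (fun k _ => ?_) ha
  rw [← rep_mul]
  exact mem_Sp _ (Set.mem_univ _) δ

/-- a nonzero stable subspace has a nonzero eigenvector -/
theorem eigen (hDLT : S_DLT) (hAV : S_AV) (hc : Ch U H Θ) (hδ : Dlt U H Θ N δ) (hg : H ≤ St U g)
    {B : Submodule ℂ (Wn U n N)} (hB : B ≤ Sp (Wr U n N) (KK U n 0) (Wr U n N g⁻¹ δ))
    (hs : ∀ k ∈ KK U n 0, ∀ v ∈ B, Wr U n N k v ∈ B) {a : Wn U n N} (ha : a ∈ B) (h0 : a ≠ 0) :
    ∃ z ∈ B, z ≠ 0 ∧ Eig (Wr U n N) H Θ (Wr U n N g z) := by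
  obtain ⟨x, hx⟩ := DFunLike.ne_iff.1 h0
  obtain ⟨x, rfl⟩ := QuotientGroup.mk_surjective x
  have hk : x * g ∈ KK U n 0 := by
    by_contra h
    exact hx (supp hδ hg (hB ha) x h)
  set b := Wr U n N (x * g)⁻¹ a with hb
  have hbB : b ∈ B := hs _ ((KK U n 0).inv_mem hk) a ha
  have hb0 : b ((g⁻¹ : GL (Fin n) K) : _ ⧸ KK U n N) ≠ 0 := by
    rw [hb, Wr_apply_mk, show (x * g)⁻¹⁻¹ * g⁻¹ = x by group]
    exact hx
  obtain ⟨S, h1, hS, he⟩ := (hAV (sm_Wr (U := U) N) hc).2 (Wr U n N g b)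
  refine ⟨Wr U n N g⁻¹ (∑ s ∈ S, (Θ s)⁻¹ • Wr U n N s (Wr U n N g b)), ?_, rep_ne _ _ ?_, ?_⟩
  · rw [map_sum]
    refine B.sum_mem fun s hs' => ?_
    rw [map_smul, ← rep_mul, ← rep_mul]
    exact B.smul_mem _ (hs _ (mem_St.1 (hg (hS s hs'))) b hbB)
  · intro e
    have e1 := DFunLike.congr_fun e ((1 : GL (Fin n) K) : _ ⧸ KK U n N)
    rw [Finsupp.finsetSum_apply, Finset.sum_congr rfl
      (g := fun _ => b ((g⁻¹ : GL (Fin n) K) : _ ⧸ KK U n N)), Finset.sum_const,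
      nsmul_eq_mul] at e1
    · exact mul_ne_zero (Nat.cast_ne_zero.2 (Finset.card_ne_zero_of_mem h1)) hb0 e1
    · intro s hs'
      have h2 := ((hDLT hc).2 N δ hδ).1 b (sp_univ (hB hbB)) g⁻¹ s⁻¹ (H.inv_mem (hS s hs'))
      rw [Finsupp.smul_apply, Wr_apply_mk, Wr_apply_mk, mul_one, h2, hc.mult.inv (hS s hs'),
        inv_inv, smul_eq_mul, inv_mul_cancel_left₀ (hc.mult.ne_zero (hS s hs'))]
  · rw [rep_inv']
    exact he

/-- eigenvectors in coordinates -/
theorem eigK_iff {d : ℕ} {σ : Representation ℂ (Kint K n) (Fin d → ℂ)}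
    {j : (Fin d → ℂ) →ₗ[ℂ] Wn U n N} (hj : Function.Injective j)
    (hσ : ∀ k y, j (σ k y) = Wr U n N k.val (j y)) (hg : H ≤ St U g) (y : Fin d → ℂ) :
    EigK σ H Θ g y ↔ Eig (Wr U n N) H Θ (Wr U n N g (j y)) := by
  constructor
  · intro h s hs
    have e := h s hs ⟨g⁻¹ * s * g, K0_eq U ▸ mem_St.1 (hg hs)⟩ (by simp [mul_assoc])
    have e' := congrArg j e
    rw [hσ, map_smul] at e'
    rw [← map_smul, ← e', ← rep_mul, ← rep_mul]
    simp [mul_assoc]
  · intro h s hs k hk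
    apply hj
    have e := congrArg (Wr U n N g⁻¹) (h s hs)
    rw [← rep_mul _ s, hk, rep_mul, rep_inv, map_smul, rep_inv] at e
    rw [hσ, map_smul, e]

end SIGa

theorem p_SIG (hDLT : S_DLT) (hINT2 : S_INT2) (hAV : S_AV) (hFINI : S_FINI) (hTHA : S_THA) :
    S_SIG := by
  intro K _ _ _ U n χ c a ι g hD ha hR
  have hc := ch_th hTHA hD (fit_fstd hD.toCF ha)
  obtain ⟨N, δ, hδ⟩ := (hDLT hc).1 ((exists_bound (fstd c a)).imp fun _ h => KK_le_J h)
  have hδ0 : δ ≠ 0 := by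
    rintro rfl
    exact hδ.one rfl
  have key : ∀ C, ∃ (d : ℕ) (σ : Representation ℂ (Kint K n) (Fin d → ℂ))
      (j : (Fin d → ℂ) →ₗ[ℂ] Wn U n N), Function.Injective j ∧
        (∀ k y, j (σ k y) = Wr U n N k.val (j y)) ∧
        LinearMap.range j = Sp (Wr U n N) (KK U n 0) (Wr U n N (g C)⁻¹ δ) := by
    intro C
    have := SIGa.fin hFINI (Wr U n N (g C)⁻¹ δ)
    exact SIGa.model (Wr U n N) (Kint K n) _ fun h hh v hv => Sp_act _ (K0_eq U ▸ hh) hv
  choose d σ j hj hσ hr using key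
  have hm : ∀ C y, j C y ∈ Sp (Wr U n N) (KK U n 0) (Wr U n N (g C)⁻¹ δ) :=
    fun C y => hr C ▸ LinearMap.mem_range_self _ y
  have hx : ∀ C, ∃ x, j C x = Wr U n N (g C)⁻¹ δ := by
    intro C
    have := mem_Sp (Wr U n N) (A := KK U n 0) (KK U n 0).one_mem (Wr U n N (g C)⁻¹ δ)
    rw [map_one, ← hr C] at this
    exact this
  choose x hx using hx
  have hx0 : ∀ C, x C ≠ 0 := by
    intro C e
    apply rep_ne (Wr U n N) (g C)⁻¹ hδ0
    rw [← hx C, e, map_zero]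
  have hE : ∀ C, EigK (σ C) (J U (fstd c a)) (th χ) (g C) (x C) := by
    intro C
    rw [SIGa.eigK_iff (hj C) (hσ C) (hR.le C), hx C, rep_inv']
    exact hδ.eig
  refine ⟨d, σ, x, fun C => ⟨⟨⟨x C, hx0 C⟩, fun B hB => ?_⟩, fun v => ?_, hx0 C, hE C,
    fun T _ _ τ z hz => ?_⟩, fun C C' ⟨e⟩ => ?_⟩
  · rw [or_iff_not_imp_left]
    intro hB0
    obtain ⟨y, hy, hy0⟩ := (Submodule.ne_bot_iff B).1 hB0
    have hs : ∀ k ∈ KK U n 0, ∀ v ∈ B.map (j C), Wr U n N k v ∈ B.map (j C) := by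
      rintro k hk _ ⟨v, hv, rfl⟩
      exact ⟨_, hB ⟨k, K0_eq U ▸ hk⟩ v hv, hσ C _ v⟩
    have hle : B.map (j C) ≤ Sp (Wr U n N) (KK U n 0) (Wr U n N (g C)⁻¹ δ) := by
      rintro _ ⟨v, _, rfl⟩
      exact hm C v
    obtain ⟨z, hz, hz0, he⟩ := SIGa.eigen hDLT hAV hc hδ (hR.le C) hle hs
      (Submodule.mem_map_of_mem hy) fun e => hy0 (hj C (e.trans (map_zero _).symm))
    obtain ⟨_, κ, rfl⟩ := hINT2 hD ha hδ hR C C z (hle hz) he hz0
    have hκ : κ ≠ 0 := by
      rintro rfl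
      exact hz0 (zero_smul _ _)
    have h1 : Sp (Wr U n N) (KK U n 0) (Wr U n N (g C)⁻¹ δ) ≤ B.map (j C) :=
      Sp_le fun k hk => hs k hk _ ((Submodule.smul_mem_iff _ hκ).1 hz)
    rw [eq_top_iff]
    intro v _
    obtain ⟨w, hw, e⟩ := h1 (hm C v)
    exact hj C e ▸ hw
  · obtain ⟨M, hM⟩ := sm_Wr (U := U) N (j C v)
    exact ⟨M, fun k hk => hj C (by rw [hσ, hM _ hk])⟩
  · obtain ⟨Φ, h1, h2⟩ := ((hDLT hc).2 N δ hδ).2 (g C) (hR.le C) T τ z hz
    refine ⟨LinearMap.intertwiningMap_of_isIntertwiningMap (σ C) τ (Φ ∘ₗ j C) fun k v => ?_, ?_⟩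
    · rw [LinearMap.comp_apply, hσ, h1, LinearMap.comp_apply]
    · change Φ (j C (x C)) = z
      rw [hx, h2]
  · have h1 : EigK (σ C') (J U (fstd c a)) (th χ) (g C) (e (x C)) := by
      intro h hh k hk
      have := Representation.IntertwiningMap.isIntertwining _ _ e.toIntertwiningMap k (x C)
      rw [hE C h hh k hk, map_smul] at this
      exact this.symm
    rw [SIGa.eigK_iff (hj C') (hσ C') (hR.le C)] at h1
    refine (hINT2 hD ha hδ hR C' C _ (hm C' _) h1 fun h0 => hx0 C ?_).1.symm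
    have h2 : e (x C) = 0 := hj C' (h0.trans (map_zero _).symm)
    rw [← e.symm_apply_apply (x C), h2, map_zero]

end Pool.Agent.P.MP_7cb106_nt.PT

end

section

/-! Step FIN. -/

set_option linter.unusedSectionVars false

namespace Pool.Agent.P.MP_7cb106_nt.PT

open Matrix

namespace FINa

variable {K : Type} [NontriviallyNormedField K] [IsUltrametricDist K] {n : ℕ} {U : Unif K}
  {V T : Type} [AddCommGroup V] [Module ℂ V] [AddCommGroup T] [Module ℂ T]

theorem eig_ev {σ : Representation ℂ (Kint K n) T} {π : Representation ℂ (GL (Fin n) K) V}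
    {H : Subgroup (GL (Fin n) K)} {Θ : GL (Fin n) K → ℂ} {g : GL (Fin n) K} {x : T}
    (hH : H ≤ St U g) (hx : EigK σ H Θ g x)
    (f : σ.IntertwiningMap (π.comp (Kint K n).subtype)) : Eig π H Θ (π g (f x)) := by
  intro h hh
  have hk : g⁻¹ * h * g ∈ Kint K n := by rw [← K0_eq U]; exact hH hh
  have e : h * g = g * (g⁻¹ * h * g) := by group
  have h1 := hx h hh ⟨_, hk⟩ e
  have h2 : f (σ ⟨_, hk⟩ x) = π (g⁻¹ * h * g) (f x) :=
    Representation.IntertwiningMap.isIntertwining _ _ f ⟨_, hk⟩ x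
  rw [← rep_mul, e, rep_mul, ← h2, h1, map_smul, map_smul]

theorem eigK_of {π : Representation ℂ (GL (Fin n) K) V}
    {H : Subgroup (GL (Fin n) K)} {Θ : GL (Fin n) K → ℂ} (g : GL (Fin n) K) {v : V}
    (hv : Eig π H Θ v) : EigK (π.comp (Kint K n).subtype) H Θ g (π g⁻¹ v) := by
  intro h hh k e
  have e2 : k.val * g⁻¹ = g⁻¹ * h := by
    rw [eq_inv_mul_iff_mul_eq, ← mul_assoc, ← e, mul_inv_cancel_right]
  change π k.val (π g⁻¹ v) = _
  rw [← rep_mul, e2, rep_mul, hv h hh, map_smul]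

theorem zero_of {Γ : Type} [Group Γ] {σ : Representation ℂ Γ T} {τ : Representation ℂ Γ V}
    (hσ : Irr σ) {x : T} (hx : x ≠ 0) (f : σ.IntertwiningMap τ) (h : f x = 0) : f = 0 := by
  by_contra h0
  have h1 : f.toLinearMap ≠ 0 := fun e => h0 (Representation.IntertwiningMap.ext e)
  obtain ⟨k, hk⟩ := hσ.exists_ne hx h1
  apply hk
  rw [Representation.IntertwiningMap.toLinearMap_apply,
    Representation.IntertwiningMap.isIntertwining, h, map_zero]

end FINa

theorem p_FIN (hBR : S_BR) (hSIG : S_SIG) (hMODEL : S_MODEL) (hJAC1 : S_JAC1) (hJAC2 : S_JAC2) (hE3 : S_E3) (hFM : S_FM) :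
    S_FIN := by
  intro K _ _ _ U n χ c a ι g hD ha hR hcore
  obtain ⟨d, σ, x, hσ, hne⟩ := hSIG hD ha hR
  have hB := ((hBR K).2 U).2 n
  have hfit := fit_fstd hD.toCF ha
  refine ⟨d, σ, fun C => ?_, hne, ?_⟩
  · obtain ⟨hi, hs, hx0, hx, hun⟩ := hσ C
    refine ⟨(irr_iff _).1 hi, ((hB _).2 _).2 hs, fun V _ _ π hπ hsm => ?_⟩
    have hπ' := (irr_iff π).2 hπ
    have hsm' := ((hB V).1 π).1 hsm
    have hev := fun f : (σ C).IntertwiningMap (π.comp (Kint K n).subtype) =>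
      FINa.eig_ev (π := π) (hR.le C) hx f
    have hz : ∀ f : (σ C).IntertwiningMap (π.comp (Kint K n).subtype), π (g C) (f (x C)) = 0 →
        f = 0 := fun f h => FINa.zero_of hi hx0 f (by
      by_contra h0
      exact rep_ne π (g C) h0 h)
    refine ⟨fun hp => ?_, fun hp f => ?_⟩
    · obtain ⟨Λ0, h0, hΛ0⟩ := (principal_iff U χ π).1 hp
      obtain ⟨v, hv0, hv⟩ := hJAC1 hD hfit hsm' h0 hΛ0
      obtain ⟨f0, hf0⟩ := hun V _ _ (FINa.eigK_of (g C) hv)
      obtain ⟨Λ, hΛ, hps⟩ := sorted hJAC2 hE3 hD ha hπ' hsm' hv hv0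
      have e0 : π (g C) (f0 (x C)) = v := by rw [hf0, rep_inv']
      have hf : f0 ≠ 0 := by
        rintro rfl
        apply hv0
        rw [← e0]
        exact map_zero _
      have hΛv := ps_ne hFM hD hfit (fstd_diag c a) hπ' hps hΛ hv hv0
      refine (finrank_eq_one_iff_of_nonzero' f0 hf).2 fun f => ?_
      refine ⟨Λ (π (g C) (f (x C))) / Λ v, sub_eq_zero.1 (hz _ ?_)⟩
      by_contra h1
      refine ps_ne hFM hD hfit (fstd_diag c a) hπ' hps hΛ (hev _) h1 ?_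
      have e1 : ∀ κ : ℂ, (κ • f0 - f) (x C) = κ • f0 (x C) - f (x C) := fun _ => rfl
      rw [e1, map_sub, map_sub, map_smul, map_smul, e0, smul_eq_mul, div_mul_cancel₀ _ hΛv,
        sub_self]
    · refine hz f ?_
      by_contra h1
      obtain ⟨Λ, hΛ, hps⟩ := sorted hJAC2 hE3 hD ha hπ' hsm' (hev f) h1
      exact hp ((principal_iff U χ π).2 ⟨Λ, hΛ, hps.po⟩)
  · intro T _ _ τ hτ hsm hty
    obtain ⟨V, _, _, ρ, X, P, hM, hrel⟩ := hMODEL hD ha ((irr_iff τ).2 hτ) (((hB T).2 τ).1 hsm)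
      (fun V _ _ π hπ hs ⟨f, hf0, hf⟩ => (principal_iff U χ π).1
        (hty V π ((irr_iff π).1 hπ) (((hB V).1 π).2 hs)
          ⟨f.intertwiningMap_of_isIntertwiningMap τ (π.comp (Kint K n).subtype) hf, fun e =>
            hf0 (congrArg Representation.IntertwiningMap.toLinearMap e)⟩))
    obtain ⟨C, hC⟩ := hcore V ρ X P hM
    obtain ⟨z, hz0, hz⟩ := hrel _ _ _ (hR.le C) hC
    obtain ⟨hi, -, -, -, hun⟩ := hσ C
    obtain ⟨φ, hφ⟩ := hun T τ z hz
    have hi' := (irr_iff _).1 hi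
    rcases Representation.IsIrreducible.bijective_or_eq_zero φ with hb | hb
    · exact ⟨C, ⟨(φ.ofBijective hb).symm⟩⟩
    · exact absurd (by rw [← hφ, hb]; rfl) hz0

end Pool.Agent.P.MP_7cb106_nt.PT

end

section

/-! Step WIT. -/

set_option linter.unusedSectionVars false

namespace Pool.Agent.P.MP_7cb106_nt.PT

open Matrix

theorem p_WIT (hAV : S_AV) :
    S_WIT := by
  classical
  intro K _ _ _ U n χ V _ _ ρ X P H Θ g v h hc hv he
  obtain ⟨S, s1, s2, s3⟩ := (hAV h.sm hc).2 v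
  have z : ∀ t ∉ St U g, P g (ρ t v) = 0 := fun t ht =>
    h.pz g (t * g) (by rwa [← mul_assoc]) _ (h.act t g v hv)
  have e : ∀ y, P g (ρ y (∑ s ∈ S, (Θ s)⁻¹ • ρ s v)) = ∑ s ∈ S, (Θ s)⁻¹ • P g (ρ (y * s) v) :=
    fun y => by simp only [map_sum, map_smul, rep_mul]
  refine ⟨_, sum_mem fun s _ => Submodule.smul_mem _ _
    (Submodule.mem_iSup_of_mem _ (h.act s g v hv)), s3, (S.filter (· ∈ St U g)).card,
    Nat.cast_ne_zero.2 (Finset.card_ne_zero.2 ⟨1, Finset.mem_filter.2 ⟨s1, one_mem _⟩⟩),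
    fun y hy => ?_, fun y hy => ?_⟩
  · rw [e, Nat.cast_smul_eq_nsmul, ← Finset.sum_const, Finset.sum_filter]
    refine Finset.sum_congr rfl fun s hs => ?_
    split_ifs with a
    · rw [h.px g _ (h.stab (mul_mem hy a) hv), rep_mul, he s ⟨s2 s hs, a⟩, map_smul,
        inv_smul_smul₀ (hc.mult.ne_zero (s2 s hs))]
    · rw [z _ fun b => a (((St U g).mul_mem_cancel_left hy).1 b), smul_zero]
  · rw [e]
    exact Finset.sum_eq_zero fun s hs => by rw [z _ (hy s (s2 s hs)), smul_zero]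

end Pool.Agent.P.MP_7cb106_nt.PT

end

section

/-! Step AFF. -/

set_option linter.unusedSectionVars false

namespace Pool.Agent.P.MP_7cb106_nt.PT

open Matrix

namespace AFFa

open Classical in
theorem co {κ : Type} [Field κ] [Fintype κ] {η : MulChar κ ℂ} (h : η ≠ 1) (z : κ) :
    ∑ y, η y * η⁻¹ (z - y) = -η (-1) + if z = 0 then Fintype.card κ * η (-1) else 0 := by
  split_ifs with e
  · have : ∀ y : κ, η y * η⁻¹ (z - y) = -(if y = 0 then η (-1) else 0) + η (-1) := fun y => by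
      split_ifs with e'
      · simp [e', η.map_zero]
      · rw [MulChar.inv_apply', ← map_mul, e, zero_sub, inv_neg, mul_neg, mul_inv_cancel₀ e']
        simp
    simp [this, Finset.sum_add_distrib]
  · rw [add_zero, ← jacobiSum_nontrivial_inv h, jacobiSum, ← Equiv.sum_comp (Equiv.mulLeft₀ z e)]
    refine Finset.sum_congr rfl fun y _ => ?_
    rw [Equiv.mulLeft₀_apply, ← mul_one_sub, map_mul, map_mul, mul_mul_mul_comm,
      MulChar.inv_apply' η z, ← map_mul, mul_inv_cancel₀ e, map_one, one_mul]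

end AFFa

theorem p_AFF :
    S_AFF := by
  intro Γ _ V _ _ π κ _ _ H H' Θ α β s v hΘ hα hβ hH hs hv
  classical
  set u : κ → V := fun x => (Θ (s x))⁻¹ • π (s x) v with hu
  have k0 : ∀ g ∈ H, π g v = Θ g • u (β g) := fun g hg => by
    obtain ⟨a, b, c⟩ := hs (β g)
    have m := H.mul_mem (H.inv_mem a) hg
    have := hβ _ a _ m
    rw [mul_inv_cancel_left, b, c, one_mul, left_eq_add] at this
    conv_lhs => rw [← mul_inv_cancel_left (s (β g)) g, rep_mul, hv _ ((hH _).2 ⟨m, this⟩)]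
    rw [map_smul, hΘ.2 _ (H.inv_mem a) _ hg, hΘ.inv a, hu, smul_smul, mul_comm]
  have key : ∀ h ∈ H, ∀ x, π h (u x) = Θ h • u (β h + α h * x) := fun h hh x => by
    obtain ⟨a, b, -⟩ := hs x
    simp only [hu, map_smul]
    rw [← rep_mul, k0 _ (H.mul_mem hh a), hβ _ hh _ a, b, hΘ.2 _ hh _ a, smul_smul, mul_comm (Θ h),
      inv_mul_cancel_left₀ (hΘ.ne_zero a)]
  simp only [mul_smul]
  change Eig π H Θ (∑ x, u x) ∧ ∀ η : MulChar κ ℂ, Eig π H' _ (∑ x, η⁻¹ x • u x) ∧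
    (_ → ∑ x, u x = 0 → ∑ x, η⁻¹ x • u x = 0 → _)
  clear_value u
  refine ⟨fun h hh => ?_, fun η => ⟨fun h hh => ?_, fun h1 h2 h3 => ?_⟩⟩
  · rw [map_sum, Finset.smul_sum]
    exact Fintype.sum_equiv ((Equiv.mulLeft₀ _ (hα h hh)).trans (Equiv.addLeft (β h))) _ _
      (key h hh)
  · obtain ⟨a, b⟩ := (hH h).1 hh
    rw [map_sum, Finset.smul_sum]
    refine Fintype.sum_equiv (Equiv.mulLeft₀ _ (hα h a)) _ _ fun x => ?_
    beta_reduce
    rw [map_smul, key h a, b, zero_add, Equiv.mulLeft₀_apply, smul_smul, smul_smul, map_mul,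
      mul_assoc, ← mul_assoc (η _), MulChar.inv_apply' η (α h), ← map_mul,
      mul_inv_cancel₀ (hα h a), map_one, one_mul, mul_comm]
  · have t : ∀ y, ∑ z, η⁻¹ (z - y) • u z = 0 := fun y => by
      obtain ⟨a, b, c⟩ := hs y
      have := congrArg (π (s y)) h3
      simp only [map_sum, map_smul, map_zero, key _ a, b, c, one_mul, smul_comm _ (Θ (s y)),
        ← Finset.smul_sum, smul_eq_zero, hΘ.ne_zero a, false_or] at this
      rw [← this]
      exact (Fintype.sum_equiv (Equiv.addLeft y) _ _ fun x => by simp).symm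
    have t2 : ∑ y, η y • ∑ z, η⁻¹ (z - y) • u z = 0 := by simp only [t, smul_zero, Finset.sum_const_zero]
    simp only [Finset.smul_sum, smul_smul] at t2
    rw [Finset.sum_comm] at t2
    simp only [← Finset.sum_smul, AFFa.co h1, add_smul, Finset.sum_add_distrib, ← Finset.smul_sum,
      h2, smul_zero, zero_add, ite_smul, zero_smul, Finset.sum_ite_eq', Finset.mem_univ, if_true,
      smul_eq_zero, mul_eq_zero, Nat.cast_eq_zero, Fintype.card_ne_zero, false_or] at t2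
    have u0 : u 0 = 0 := t2.resolve_left (η.apply_ne_zero_iff.2 isUnit_one.neg)
    have b1 := hβ 1 H.one_mem 1 H.one_mem
    rw [one_mul, left_eq_add, mul_eq_zero, or_iff_right (hα 1 H.one_mem)] at b1
    simpa [b1, u0] using k0 1 H.one_mem

end Pool.Agent.P.MP_7cb106_nt.PT

end

section

/-! Step FOUR. -/

set_option linter.unusedSectionVars false

namespace Pool.Agent.P.MP_7cb106_nt.PT

open Matrix

namespace FOURa

theorem sg_sq (a : ZMod 2) : sg a * sg a = 1 := by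
  unfold sg; split_ifs <;> simp

theorem orth {n : ℕ} {a : Fin n → ZMod 2} (h : a ≠ 0) : ∑ w, sg (w ⬝ᵥ a) = 0 := by
  obtain ⟨i, hi⟩ := Function.ne_iff.1 h
  have e := Equiv.sum_comp (Equiv.addRight (Pi.single i 1 : Fin n → ZMod 2)) fun w => sg (w ⬝ᵥ a)
  simp only [Equiv.coe_addRight, add_dotProduct, sg_add, single_dotProduct,
    (zmod2_cases (a i)).resolve_left hi, sg_one, mul_neg, mul_one, Finset.sum_neg_distrib] at e
  linear_combination (-1 / 2 : ℂ) * e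

end FOURa

open FOURa in
theorem p_FOUR :
    S_FOUR := by
  classical
  intro Γ _ V _ _ π n H Θ p v hΘ hp h0 hv
  obtain ⟨u, u1, u2⟩ : ∃ u : (Fin n → ZMod 2) → V, (∀ g ∈ H, u (p g) = (Θ g)⁻¹ • π g v) ∧
      ∀ a, (¬ ∃ g ∈ H, p g = a) → u a = 0 := by
    refine ⟨fun a => if h : ∃ g ∈ H, p g = a then (Θ h.choose)⁻¹ • π h.choose v else 0,
      fun g hg => ?_, fun a h => dif_neg h⟩
    have h : ∃ s ∈ H, p s = p g := ⟨g, hg, rfl⟩
    obtain ⟨h1, h2⟩ := h.choose_spec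
    simp only [dif_pos h]
    generalize h.choose = s at h1 h2
    obtain ⟨t, rfl⟩ : ∃ t, g = s * t := ⟨s⁻¹ * g, by group⟩
    have ht := (H.mul_mem_cancel_left h1).1 hg
    rw [hp s h1 t ht] at h2
    rw [rep_mul, h0 t ht (left_eq_add.1 h2), map_smul, smul_smul, hΘ.2 s h1 t ht, mul_inv,
      inv_mul_cancel_right₀ (hΘ.ne_zero ht)]
  have u3 : ∀ h ∈ H, ∀ a, π h (u a) = Θ h • u (p h + a) := fun h hh a => by
    by_cases e : ∃ g ∈ H, p g = a
    · obtain ⟨g, hg, rfl⟩ := e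
      rw [← hp h hh g hg, u1 g hg, u1 _ (H.mul_mem hh hg), map_smul, rep_mul, smul_smul,
        hΘ.2 h hh g hg, mul_inv, mul_inv_cancel_left₀ (hΘ.ne_zero hh)]
    · rw [u2 a e, u2, map_zero, smul_zero]
      rintro ⟨g, hg, e'⟩
      have ht := H.mul_mem (H.inv_mem hh) hg
      refine e ⟨_, ht, add_left_cancel (a := p h) ?_⟩
      rw [← hp h hh _ ht, mul_inv_cancel_left, e']
  have u0 : u 0 = v := by
    have := hp 1 H.one_mem 1 H.one_mem
    rw [mul_one] at this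
    rw [← left_eq_add.1 this, u1 1 H.one_mem, hΘ.1, map_one]
    simp
  obtain ⟨w, hw⟩ : ∃ w : Fin n → ZMod 2, ∑ a, sg (w ⬝ᵥ a) • u a ≠ 0 := by
    by_contra h
    push Not at h
    have e := Finset.sum_eq_zero (s := Finset.univ) fun w _ => h w
    rw [Finset.sum_comm, Finset.sum_eq_single 0 (fun a _ ha => by
      rw [← Finset.sum_smul, orth ha, zero_smul]) (by simp), ← Finset.sum_smul, u0] at e
    simp [sg_zero, hv] at e
  refine ⟨w, _, Submodule.sum_mem _ fun a _ => Submodule.smul_mem _ _ ?_, hw, fun h hh => ?_⟩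
  · by_cases e : ∃ g ∈ H, p g = a
    · obtain ⟨g, hg, rfl⟩ := e
      rw [u1 g hg]
      exact Submodule.smul_mem _ _ (mem_Sp π hg v)
    · rw [u2 a e]
      exact zero_mem _
  · rw [map_sum, ← Equiv.sum_comp (Equiv.addLeft (p h)) fun a => sg (w ⬝ᵥ a) • u a,
      Finset.smul_sum]
    refine Finset.sum_congr rfl fun a _ => ?_
    rw [map_smul, u3 h hh, Equiv.coe_addLeft, smul_smul, smul_smul, dotProduct_add, sg_add]
    congr 1
    linear_combination (-(Θ h * sg (w ⬝ᵥ a))) * sg_sq (w ⬝ᵥ p h)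

end Pool.Agent.P.MP_7cb106_nt.PT

end

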