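import Pool.Agent.P.MP_7cb106_nt.PB.Defs

set_option autoImplicit false

section

/-! Levels: `Lv U m x` says that `x` lies in the `m`-th power of the maximal ideal. -/

set_option linter.unusedSectionVars false

namespace Pool.Agent.P.MP_7cb106_nt.PT

/-- a uniformiser -/
structure Unif (K : Type) [NormedField K] where
  ϖ : Kˣ
  lt : ‖(ϖ : K)‖ < 1
  mx : ∀ x : K, ‖x‖ < 1 → ‖x‖ ≤ ‖(ϖ : K)‖

variable {K : Type} [NontriviallyNormedField K] [IsUltrametricDist K]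

/-- `x` has valuation at least `m` -/
def Lv (U : Unif K) (m : ℤ) (x : K) : Prop := ‖x‖ ≤ ‖(U.ϖ : K)‖ ^ m

/-- the `m`-th power of the uniformiser -/
def pw (U : Unif K) (m : ℤ) : K := (U.ϖ : K) ^ m

variable (U : Unif K)

theorem Unif.pos : 0 < ‖(U.ϖ : K)‖ := norm_pos_iff.2 U.ϖ.ne_zero

theorem pw_ne (m : ℤ) : pw U m ≠ 0 := zpow_ne_zero _ U.ϖ.ne_zero
theorem pw_add (m m' : ℤ) : pw U (m + m') = pw U m * pw U m' := zpow_add₀ U.ϖ.ne_zero _ _
theorem pw_zero : pw U 0 = 1 := zpow_zero _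
theorem pw_one : pw U 1 = U.ϖ := zpow_one _
theorem pw_neg (m : ℤ) : pw U (-m) = (pw U m)⁻¹ := zpow_neg _ _
theorem pw_val (m : ℤ) : ((U.ϖ ^ m : Kˣ) : K) = pw U m := by simp [pw]
theorem norm_pw (m : ℤ) : ‖pw U m‖ = ‖(U.ϖ : K)‖ ^ m := norm_zpow _ _
theorem lv_pw (m : ℤ) : Lv U m (pw U m) := (norm_pw U m).le
theorem lv_zero (m : ℤ) : Lv U m 0 := by
  unfold Lv; rw [norm_zero]; exact (zpow_pos U.pos _).le
theorem lv0_iff (x : K) : Lv U 0 x ↔ ‖x‖ ≤ 1 := by unfold Lv; rw [zpow_zero]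
theorem lv1_iff (x : K) : Lv U 1 x ↔ ‖x‖ < 1 := by
  unfold Lv; rw [zpow_one]
  exact ⟨fun h => h.trans_lt U.lt, U.mx x⟩
theorem lv_one : Lv U 0 (1 : K) := (lv0_iff U 1).2 norm_one.le
theorem zpow_le_iff (m m' : ℤ) : ‖(U.ϖ : K)‖ ^ m ≤ ‖(U.ϖ : K)‖ ^ m' ↔ m' ≤ m :=
  zpow_le_zpow_iff_right_of_lt_one₀ U.pos U.lt
theorem not_lv_pw (m : ℤ) : ¬ Lv U (m + 1) (pw U m) := by
  unfold Lv; rw [norm_pw, zpow_le_iff]; omega

variable {U}

theorem Lv.mono {m m' : ℤ} {x : K} (h : Lv U m x) (hm : m' ≤ m) : Lv U m' x :=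
  le_trans h ((zpow_le_iff U m m').2 hm)
theorem Lv.neg {m : ℤ} {x : K} (h : Lv U m x) : Lv U m (-x) := by
  unfold Lv at *; rwa [norm_neg]
theorem Lv.add {m : ℤ} {x y : K} (hx : Lv U m x) (hy : Lv U m y) : Lv U m (x + y) :=
  (IsUltrametricDist.norm_add_le_max x y).trans (max_le hx hy)
theorem Lv.sub {m : ℤ} {x y : K} (hx : Lv U m x) (hy : Lv U m y) : Lv U m (x - y) := by
  rw [sub_eq_add_neg]; exact hx.add hy.neg
theorem Lv.mul {m m' : ℤ} {x y : K} (hx : Lv U m x) (hy : Lv U m' y) : Lv U (m + m') (x * y) := by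
  unfold Lv at *
  rw [norm_mul, zpow_add₀ U.pos.ne']
  exact mul_le_mul hx hy (norm_nonneg _) (zpow_pos U.pos _).le
theorem Lv.mul' {m m' k : ℤ} {x y : K} (hx : Lv U m x) (hy : Lv U m' y) (hk : k ≤ m + m') :
    Lv U k (x * y) := (hx.mul hy).mono hk
theorem lv_sum {ι : Type} {m : ℤ} (s : Finset ι) (x : ι → K) (h : ∀ i ∈ s, Lv U m (x i)) :
    Lv U m (∑ i ∈ s, x i) :=
  Finset.sum_induction x (Lv U m) (fun _ _ => Lv.add) (lv_zero U m) h
theorem lv_prod {ι : Type} (s : Finset ι) (m : ι → ℤ) (x : ι → K) (h : ∀ i ∈ s, Lv U (m i) (x i)) :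
    Lv U (∑ i ∈ s, m i) (∏ i ∈ s, x i) := by
  classical
  induction s using Finset.induction_on with
  | empty => simpa using lv_one U
  | insert a s ha ih =>
    rw [Finset.sum_insert ha, Finset.prod_insert ha]
    exact (h a (Finset.mem_insert_self _ _)).mul
      (ih fun i hi => h i (Finset.mem_insert_of_mem hi))
theorem lv_of_norm_le {m : ℤ} {x y : K} (h : Lv U m y) (hxy : ‖x‖ ≤ ‖y‖) : Lv U m x := hxy.trans h
theorem lv_unit {x : K} (h : ‖x‖ = 1) : Lv U 0 x := (lv0_iff U x).2 h.le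
theorem lv_unit_inv {x : K} (h : ‖x‖ = 1) : Lv U 0 x⁻¹ := lv_unit (by rw [norm_inv, h, inv_one])
theorem Lv.mul_unit {m : ℤ} {x y : K} (hx : Lv U m x) (hy : ‖y‖ = 1) : Lv U m (x * y) :=
  hx.mul' (lv_unit hy) (by omega)
theorem Lv.div_unit {m : ℤ} {x y : K} (hx : Lv U m x) (hy : ‖y‖ = 1) : Lv U m (x / y) := by
  rw [div_eq_mul_inv]; exact hx.mul' (lv_unit_inv hy) (by omega)
theorem lv_mul_pw {m k : ℤ} {x : K} : Lv U (m + k) (x * pw U k) ↔ Lv U m x := by
  unfold Lv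
  rw [norm_mul, norm_pw, zpow_add₀ U.pos.ne']
  exact mul_le_mul_iff_left₀ (zpow_pos U.pos _)
theorem lv_div_pw {m k : ℤ} {x : K} : Lv U m (x / pw U k) ↔ Lv U (m + k) x := by
  rw [← lv_mul_pw (k := k), div_mul_cancel₀ _ (pw_ne U k)]
/-- the value group is generated by the uniformiser: not of level `m + 1` means norm at least
that of `pw m` -/
theorem le_of_not_lv {m : ℤ} {x : K} (h : ¬ Lv U (m + 1) x) : ‖(U.ϖ : K)‖ ^ m ≤ ‖x‖ := by
  by_contra hlt
  push Not at hlt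
  apply h
  rw [add_comm, ← lv_div_pw, lv1_iff, norm_div, norm_pw]
  exact (div_lt_one (zpow_pos U.pos _)).2 hlt
theorem ne_zero_of_not_lv {m : ℤ} {x : K} (h : ¬ Lv U m x) : x ≠ 0 := by
  rintro rfl; exact h (lv_zero U m)
theorem lv_inv_of_not {m : ℤ} {x : K} (h : ¬ Lv U (m + 1) x) : Lv U (-m) x⁻¹ := by
  unfold Lv
  rw [norm_inv, zpow_neg]
  exact inv_anti₀ (zpow_pos U.pos _) (le_of_not_lv h)
theorem Lv.div_of_not {m m' : ℤ} {x y : K} (hx : Lv U m x) (hy : ¬ Lv U (m' + 1) y) :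
    Lv U (m - m') (x / y) := by
  rw [div_eq_mul_inv]; exact hx.mul' (lv_inv_of_not hy) (by omega)
theorem norm_eq_one_iff {x : K} : ‖x‖ = 1 ↔ Lv U 0 x ∧ ¬ Lv U 1 x := by
  rw [lv0_iff, lv1_iff, not_lt]
  exact ⟨fun h => ⟨h.le, h.ge⟩, fun h => le_antisymm h.1 h.2⟩
theorem norm_eq_one_of_lv {x y : K} (hy : ‖y‖ = 1) (h : Lv U 1 (x - y)) : ‖x‖ = 1 := by
  rw [norm_eq_one_iff (U := U)] at *
  refine ⟨by simpa using (h.mono (by omega)).add hy.1, fun hx => hy.2 ?_⟩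
  simpa using hx.sub h
theorem norm_eq_one_of_lv_one {x : K} (h : Lv U 1 (x - 1)) : ‖x‖ = 1 :=
  norm_eq_one_of_lv norm_one h
theorem norm_eq_one_of_mul {x y : K} (hx : Lv U 0 x) (hy : Lv U 0 y) (h : ‖x * y‖ = 1) :
    ‖x‖ = 1 := by
  rw [norm_eq_one_iff (U := U)] at *
  exact ⟨hx, fun h1 => h.2 (h1.mul' hy (by omega))⟩
theorem exists_lv (U : Unif K) (x : K) : ∃ N : ℕ, Lv U (-(N : ℤ)) x := by
  have h1 : 1 < ‖(U.ϖ : K)‖⁻¹ := (one_lt_inv₀ U.pos).2 U.lt
  obtain ⟨N, hN⟩ := pow_unbounded_of_one_lt ‖x‖ h1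
  refine ⟨N, ?_⟩
  unfold Lv
  rw [zpow_neg, zpow_natCast, ← inv_pow]
  exact hN.le
theorem exists_not_lv (U : Unif K) {x : K} (hx : x ≠ 0) : ∃ N : ℕ, ¬ Lv U (N : ℤ) x := by
  obtain ⟨N, hN⟩ := exists_pow_lt_of_lt_one (norm_pos_iff.2 hx) U.lt
  refine ⟨N, ?_⟩
  unfold Lv
  rw [zpow_natCast]
  exact not_le.2 hN
/-- the valuation of a nonzero element -/
theorem exists_val (U : Unif K) {x : K} (hx : x ≠ 0) : ∃ m : ℤ, Lv U m x ∧ ¬ Lv U (m + 1) x := by
  obtain ⟨N, hN⟩ := exists_lv U x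
  obtain ⟨M, hM⟩ := exists_not_lv U hx
  obtain ⟨m, hm, hmax⟩ := Int.exists_greatest_of_bdd (P := fun m => Lv U m x)
    ⟨M, fun z hz => by
      by_contra h
      exact hM (hz.mono (by omega))⟩ ⟨_, hN⟩
  exact ⟨m, hm, fun h => by have := hmax _ h; omega⟩
theorem norm_div_pw {m : ℤ} {x : K} (h : Lv U m x) (h' : ¬ Lv U (m + 1) x) :
    ‖x / pw U m‖ = 1 := by
  rw [norm_eq_one_iff (U := U), lv_div_pw, lv_div_pw, zero_add, add_comm]
  exact ⟨h, h'⟩

/-- two characters agree on the units congruent to one at level `m` (all units for `m = 0`) -/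
def Agree (U : Unif K) (χ χ' : Kˣ →* ℂˣ) (m : ℤ) : Prop :=
  ∀ x : Kˣ, ‖(x : K)‖ = 1 → Lv U m ((x : K) - 1) → χ x = χ' x

theorem Agree.mono {χ χ' : Kˣ →* ℂˣ} {m m' : ℤ} (h : Agree U χ χ' m) (hm : m ≤ m') :
    Agree U χ χ' m' := fun x hx hl => h x hx (hl.mono hm)
theorem Agree.symm {χ χ' : Kˣ →* ℂˣ} {m : ℤ} (h : Agree U χ χ' m) : Agree U χ' χ m :=
  fun x hx hl => (h x hx hl).symm
theorem Agree.trans {χ χ' χ'' : Kˣ →* ℂˣ} {m : ℤ} (h : Agree U χ χ' m) (h' : Agree U χ' χ'' m) :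
    Agree U χ χ'' m := fun x hx hl => (h x hx hl).trans (h' x hx hl)
theorem agree_zero_iff {χ χ' : Kˣ →* ℂˣ} :
    Agree U χ χ' 0 ↔ ∀ x : Kˣ, ‖(x : K)‖ = 1 → χ x = χ' x :=
  ⟨fun h x hx => h x hx ((lv_unit hx).sub (lv_one U)), fun h x hx _ => h x hx⟩

/-- a character of `Kˣ` as a function on `K`, with value one at zero -/
noncomputable def ext (χ : Kˣ →* ℂˣ) (x : K) : ℂ :=
  open Classical in if h : x = 0 then 1 else (χ (Units.mk0 x h) : ℂ)

theorem ext_val (χ : Kˣ →* ℂˣ) (x : Kˣ) : ext χ (x : K) = χ x := by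
  unfold ext; rw [dif_neg x.ne_zero]; simp
theorem ext_of_ne (χ : Kˣ →* ℂˣ) {x : K} (h : x ≠ 0) : ext χ x = χ (Units.mk0 x h) := by
  unfold ext; rw [dif_neg h]
theorem ext_ne_zero (χ : Kˣ →* ℂˣ) (x : K) : ext χ x ≠ 0 := by
  unfold ext; split_ifs <;> simp
theorem ext_one (χ : Kˣ →* ℂˣ) : ext χ (1 : K) = 1 := by
  simpa using ext_val χ 1
theorem ext_triv (x : K) : ext (1 : Kˣ →* ℂˣ) x = 1 := by
  unfold ext; split_ifs <;> simp
theorem ext_mul (χ : Kˣ →* ℂˣ) {x y : K} (hx : x ≠ 0) (hy : y ≠ 0) :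
    ext χ (x * y) = ext χ x * ext χ y := by
  rw [ext_of_ne χ hx, ext_of_ne χ hy, ← Units.val_mul, ← map_mul, ← ext_val]; simp
theorem ext_div_char (χ χ' : Kˣ →* ℂˣ) (x : K) : ext (χ / χ') x = ext χ x / ext χ' x := by
  unfold ext; split_ifs <;> simp
theorem ext_mul_char (χ χ' : Kˣ →* ℂˣ) (x : K) : ext (χ * χ') x = ext χ x * ext χ' x := by
  unfold ext; split_ifs <;> simp
theorem Agree.ext_eq {χ χ' : Kˣ →* ℂˣ} {m : ℤ} (h : Agree U χ χ' m) {x : K} (hx : ‖x‖ = 1)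
    (hl : Lv U m (x - 1)) : ext χ x = ext χ' x := by
  have h0 : x ≠ 0 := by rintro rfl; simp at hx
  rw [ext_of_ne χ h0, ext_of_ne χ' h0, h (Units.mk0 x h0) hx hl]
/-- the ratio of two characters that agree at level `m` only sees units modulo level `m` -/
theorem Agree.ext_div_congr {χ χ' : Kˣ →* ℂˣ} {m : ℤ} (h : Agree U χ χ' m) {x y : K}
    (hx : ‖x‖ = 1) (hy : ‖y‖ = 1) (hl : Lv U m (x - y)) : ext (χ / χ') x = ext (χ / χ') y := by
  have hy0 : y ≠ 0 := by rintro rfl; simp at hy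
  have hx0 : x ≠ 0 := by rintro rfl; simp at hx
  have h1 : ‖x / y‖ = 1 := by rw [norm_div, hx, hy, div_one]
  have h2 : Lv U m (x / y - 1) := by
    have := hl.div_unit hy
    rwa [sub_div, div_self hy0] at this
  have h3 : ext (χ / χ') (x / y) = 1 := by
    rw [ext_div_char, h.ext_eq h1 h2, div_self (ext_ne_zero _ _)]
  have : x = x / y * y := (div_mul_cancel₀ x hy0).symm
  rw [this, ext_mul _ (div_ne_zero hx0 hy0) hy0, h3, one_mul]

/-- reduction of the integers of `K` onto the residue field `κ` -/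
structure Red (U : Unif K) (κ : Type) [Field κ] where
  red : K → κ
  add : ∀ x y, Lv U 0 x → Lv U 0 y → red (x + y) = red x + red y
  mul : ∀ x y, Lv U 0 x → Lv U 0 y → red (x * y) = red x * red y
  one : red 1 = 1
  zero_iff : ∀ x, Lv U 0 x → (red x = 0 ↔ Lv U 1 x)
  surj : ∀ a, ∃ x, Lv U 0 x ∧ red x = a

namespace Red
variable {κ : Type} [Field κ] (R : Red U κ)
theorem zero : R.red 0 = 0 := (R.zero_iff 0 (lv_zero U 0)).2 (lv_zero U 1)
theorem of_lv {x : K} (h : Lv U 1 x) : R.red x = 0 := (R.zero_iff x (h.mono (by omega))).2 h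
theorem neg {x : K} (h : Lv U 0 x) : R.red (-x) = -R.red x := by
  have := R.add x (-x) h h.neg
  rw [add_neg_cancel, R.zero] at this
  exact (neg_eq_of_add_eq_zero_right this.symm).symm
theorem sub {x y : K} (hx : Lv U 0 x) (hy : Lv U 0 y) : R.red (x - y) = R.red x - R.red y := by
  rw [sub_eq_add_neg, R.add _ _ hx hy.neg, R.neg hy, sub_eq_add_neg]
theorem eq_iff {x y : K} (hx : Lv U 0 x) (hy : Lv U 0 y) : R.red x = R.red y ↔ Lv U 1 (x - y) := by
  rw [← R.zero_iff _ (hx.sub hy), R.sub hx hy, sub_eq_zero]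
theorem congr {x y : K} (hy : Lv U 0 y) (h : Lv U 1 (x - y)) : R.red x = R.red y :=
  (R.eq_iff (by simpa using (h.mono (by omega)).add hy) hy).2 h
theorem sum {ι : Type} (s : Finset ι) (x : ι → K) (h : ∀ i ∈ s, Lv U 0 (x i)) :
    R.red (∑ i ∈ s, x i) = ∑ i ∈ s, R.red (x i) := by
  classical
  induction s using Finset.induction_on with
  | empty => simpa using R.zero
  | insert a s ha ih =>
    have h' : ∀ i ∈ s, Lv U 0 (x i) := fun i hi => h i (Finset.mem_insert_of_mem hi)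
    rw [Finset.sum_insert ha, Finset.sum_insert ha,
      R.add _ _ (h a (Finset.mem_insert_self _ _)) (lv_sum s x h'), ih h']
theorem ne_zero_iff {x : K} (h : Lv U 0 x) : R.red x ≠ 0 ↔ ‖x‖ = 1 := by
  rw [Ne, R.zero_iff x h, norm_eq_one_iff (U := U)]
  exact ⟨fun h' => ⟨h, h'⟩, fun h' => h'.2⟩
theorem inv {x : K} (h : ‖x‖ = 1) : R.red x⁻¹ = (R.red x)⁻¹ := by
  have h0 : x ≠ 0 := by rintro rfl; simp at h
  have := R.mul x x⁻¹ (lv_unit h) (lv_unit_inv h)
  rw [mul_inv_cancel₀ h0, R.one] at this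
  exact eq_inv_of_mul_eq_one_right this.symm
theorem div {x y : K} (hx : Lv U 0 x) (hy : ‖y‖ = 1) : R.red (x / y) = R.red x / R.red y := by
  rw [div_eq_mul_inv, R.mul _ _ hx (lv_unit_inv hy), R.inv hy, div_eq_mul_inv]
end Red

/-- with residue field of two elements every unit is congruent to one -/
theorem Red.unit_two (R : Red U (ZMod 2)) {x : K} (h : ‖x‖ = 1) : Lv U 1 (x - 1) := by
  rw [← R.eq_iff (lv_unit h) (lv_one U), R.one]
  have := (R.ne_zero_iff (lv_unit h)).2 h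
  revert this
  generalize R.red x = a
  revert a
  decide

end Pool.Agent.P.MP_7cb106_nt.PT

end

section

/-! Subgroups of `GL n K` given by level functions, special elements, the character `th`. -/

set_option linter.unusedSectionVars false

namespace Pool.Agent.P.MP_7cb106_nt.PT

open Matrix

variable {K : Type} [NontriviallyNormedField K] [IsUltrametricDist K] {n : ℕ}

/-- the entries of `g - 1` have the levels `f` -/
def Lev (U : Unif K) (f : Fin n → Fin n → ℤ) (g : GL (Fin n) K) : Prop :=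
  ∀ k l, Lv U (f k l) ((g.val - 1) k l)

/-- concave level function -/
def Conc (f : Fin n → Fin n → ℤ) : Prop :=
  (∀ k, 0 ≤ f k k) ∧ ∀ k l m, f k m ≤ f k l + f l m

/-- the group of the level function `f` -/
def J (U : Unif K) (f : Fin n → Fin n → ℤ) : Subgroup (GL (Fin n) K) :=
  Subgroup.closure {g | Lev U f g ∧ Lev U f g⁻¹}

/-- the congruence subgroup of level `N` (`N = 0`: the maximal compact subgroup) -/
def KK (U : Unif K) (n : ℕ) (N : ℕ) : Subgroup (GL (Fin n) K) := J U (fun _ _ : Fin n => (N : ℤ))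

variable {U : Unif K}

theorem Lev.mul {f : Fin n → Fin n → ℤ} (hf : Conc f) {g h : GL (Fin n) K} (hg : Lev U f g)
    (hh : Lev U f h) : Lev U f (g * h) := by
  intro k m
  have e : (g * h).val - 1 = (g.val - 1) + (h.val - 1) + (g.val - 1) * (h.val - 1) := by
    rw [Units.val_mul]; noncomm_ring
  rw [e, Matrix.add_apply, Matrix.add_apply, Matrix.mul_apply]
  exact ((hg k m).add (hh k m)).add (lv_sum _ _ fun l _ => (hg k l).mul' (hh l m) (hf.2 k l m))

theorem lev_one (f : Fin n → Fin n → ℤ) : Lev U f 1 := by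
  intro k l; simpa using lv_zero U _

theorem mem_J {f : Fin n → Fin n → ℤ} (hf : Conc f) {g : GL (Fin n) K} :
    g ∈ J U f ↔ Lev U f g ∧ Lev U f g⁻¹ := by
  refine ⟨fun h => ?_, fun h => Subgroup.subset_closure h⟩
  induction h using Subgroup.closure_induction with
  | mem x hx => exact hx
  | one => exact ⟨lev_one f, by rw [inv_one]; exact lev_one f⟩
  | mul x y _ _ hx hy => exact ⟨hx.1.mul hf hy.1, by rw [_root_.mul_inv_rev]; exact hy.2.mul hf hx.2⟩
  | inv x _ hx => exact ⟨hx.2, by rw [inv_inv]; exact hx.1⟩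

theorem mem_J_of {f : Fin n → Fin n → ℤ} {g : GL (Fin n) K} (h : Lev U f g) (h' : Lev U f g⁻¹) :
    g ∈ J U f := Subgroup.subset_closure ⟨h, h'⟩

theorem J_mono {f f' : Fin n → Fin n → ℤ} (h : ∀ k l, f' k l ≤ f k l) : J U f ≤ J U f' :=
  Subgroup.closure_mono fun _ hg => ⟨fun k l => (hg.1 k l).mono (h k l),
    fun k l => (hg.2 k l).mono (h k l)⟩

theorem J_lev {f : Fin n → Fin n → ℤ} (hf : Conc f) {g : GL (Fin n) K} (hg : g ∈ J U f) :
    Lev U f g := ((mem_J hf).1 hg).1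

theorem Lev.off {f : Fin n → Fin n → ℤ} {g : GL (Fin n) K} (hg : Lev U f g) {k l : Fin n}
    (h : k ≠ l) : Lv U (f k l) (g.val k l) := by
  simpa [Matrix.one_apply_ne h] using hg k l

theorem Lev.diag {f : Fin n → Fin n → ℤ} {g : GL (Fin n) K} (hg : Lev U f g) (k : Fin n) :
    Lv U (f k k) (g.val k k - 1) := by simpa using hg k k

theorem lev_of {f : Fin n → Fin n → ℤ} {g : GL (Fin n) K}
    (h : ∀ k l, k ≠ l → Lv U (f k l) (g.val k l)) (h' : ∀ k, Lv U (f k k) (g.val k k - 1)) :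
    Lev U f g := by
  intro k l
  by_cases e : k = l
  · subst e; simpa using h' k
  · simpa [Matrix.one_apply_ne e] using h k l e

theorem J_off {f : Fin n → Fin n → ℤ} (hf : Conc f) {g : GL (Fin n) K} (hg : g ∈ J U f)
    {k l : Fin n} (h : k ≠ l) : Lv U (f k l) (g.val k l) := (J_lev hf hg).off h

theorem J_diag {f : Fin n → Fin n → ℤ} (hf : Conc f) {g : GL (Fin n) K} (hg : g ∈ J U f)
    (k : Fin n) : Lv U 0 (g.val k k) := by
  simpa using (((J_lev hf hg).diag k).mono (hf.1 k)).add (lv_one U)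

/-- when the diagonal of `f` vanishes, the entries of `g` itself have the levels `f` -/
theorem J_ent {f : Fin n → Fin n → ℤ} (hf : Conc f) (h0 : ∀ k, f k k = 0) {g : GL (Fin n) K}
    (hg : g ∈ J U f) (k l : Fin n) : Lv U (f k l) (g.val k l) := by
  by_cases e : k = l
  · subst e; rw [h0]; exact J_diag hf hg k
  · exact J_off hf hg e

/-- diagonal entries multiply modulo level one at an index `k` with `1 ≤ f k l + f l k` -/
theorem J_diag_mul {f : Fin n → Fin n → ℤ} (hf : Conc f) {k : Fin n}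
    (hk : ∀ l, l ≠ k → 1 ≤ f k l + f l k) {g h : GL (Fin n) K} (hg : g ∈ J U f) (hh : h ∈ J U f) :
    Lv U 1 ((g * h).val k k - g.val k k * h.val k k) := by
  rw [Units.val_mul, Matrix.mul_apply, ← Finset.add_sum_erase _ _ (Finset.mem_univ k),
    add_sub_cancel_left]
  refine lv_sum _ _ fun l hl => ?_
  have e := Finset.ne_of_mem_erase hl
  exact (J_off hf hg e.symm).mul' (J_off hf hh e) (hk l e)

theorem J_diag_unit {f : Fin n → Fin n → ℤ} (hf : Conc f) {k : Fin n}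
    (hk : ∀ l, l ≠ k → 1 ≤ f k l + f l k) {g : GL (Fin n) K} (hg : g ∈ J U f) :
    ‖g.val k k‖ = 1 := by
  have h := J_diag_mul hf hk hg ((J U f).inv_mem hg)
  rw [mul_inv_cancel] at h
  refine norm_eq_one_of_mul (J_diag hf hg k) (J_diag hf ((J U f).inv_mem hg) k) ?_
  refine norm_eq_one_of_lv_one (U := U) ?_
  simpa using h.neg

/-- conjugation: levels add up -/
theorem J_conj {f f0 f' : Fin n → Fin n → ℤ} (hf : Conc f) (hf0 : Conc f0)
    (h0 : ∀ k, f0 k k = 0) (h : ∀ k k' l' l, f' k l ≤ f0 k k' + f k' l' + f0 l' l)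
    {j g : GL (Fin n) K} (hj : j ∈ J U f0) (hg : g ∈ J U f) : j * g * j⁻¹ ∈ J U f' := by
  have key : ∀ g : GL (Fin n) K, Lev U f g → Lev U f' (j * g * j⁻¹) := by
    intro g hg k l
    have e : (j * g * j⁻¹).val - 1 = j.val * (g.val - 1) * (j⁻¹).val := by
      rw [Matrix.mul_sub, Matrix.sub_mul, Matrix.mul_one, ← Units.val_mul j j⁻¹, mul_inv_cancel]
      rfl
    rw [e, Matrix.mul_apply]
    refine lv_sum _ _ fun l' _ => ?_
    rw [Matrix.mul_apply, Finset.sum_mul]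
    exact lv_sum _ _ fun k' _ => ((J_ent hf0 h0 hj k k').mul (hg k' l')).mul'
      (J_ent hf0 h0 ((J U f0).inv_mem hj) l' l) (h k k' l' l)
  have hg' := (mem_J hf).1 hg
  refine mem_J_of (key g hg'.1) ?_
  have := key g⁻¹ hg'.2
  simpa [mul_assoc] using this

theorem conc_const (N : ℕ) : Conc (fun _ _ : Fin n => (N : ℤ)) :=
  ⟨fun _ => by positivity, fun _ _ _ => by simp⟩

theorem mem_KK {N : ℕ} {g : GL (Fin n) K} :
    g ∈ KK U n N ↔ Lev U (fun _ _ => (N : ℤ)) g ∧ Lev U (fun _ _ => (N : ℤ)) g⁻¹ :=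
  mem_J (conc_const N)

theorem KK_mono {N N' : ℕ} (h : N ≤ N') : KK U n N' ≤ KK U n N :=
  J_mono fun _ _ => by exact_mod_cast h

theorem KK_conj {N : ℕ} {k g : GL (Fin n) K} (hk : k ∈ KK U n 0) (hg : g ∈ KK U n N) :
    k * g * k⁻¹ ∈ KK U n N :=
  J_conj (conc_const N) (conc_const 0) (fun _ => rfl) (fun _ _ _ _ => by simp) hk hg

theorem K0_ent {g : GL (Fin n) K} (hg : g ∈ KK U n 0) (k l : Fin n) : Lv U 0 (g.val k l) :=
  J_ent (conc_const 0) (fun _ => rfl) hg k l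

theorem mem_K0 {g : GL (Fin n) K} :
    g ∈ KK U n 0 ↔ (∀ k l, Lv U 0 (g.val k l)) ∧ ∀ k l, Lv U 0 ((g⁻¹).val k l) := by
  refine ⟨fun h => ⟨K0_ent h, K0_ent ((KK U n 0).inv_mem h)⟩, fun h => mem_KK.2 ⟨?_, ?_⟩⟩
  · exact lev_of (fun k l _ => h.1 k l) fun k => (h.1 k k).sub (lv_one U)
  · exact lev_of (fun k l _ => h.2 k l) fun k => (h.2 k k).sub (lv_one U)

theorem K0_eq (U : Unif K) : KK U n 0 = Kint K n := by
  ext g
  rw [mem_K0]
  simp only [lv0_iff]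
  rfl

theorem J_le_K0 {f : Fin n → Fin n → ℤ} (h : ∀ k l, 0 ≤ f k l) : J U f ≤ KK U n 0 :=
  J_mono fun k l => by simpa using h k l

theorem KK_le_J {f : Fin n → Fin n → ℤ} {N : ℕ} (h : ∀ k l, f k l ≤ N) : KK U n N ≤ J U f :=
  J_mono h

theorem exists_bound (f : Fin n → Fin n → ℤ) : ∃ N : ℕ, ∀ k l, f k l ≤ N := by
  refine ⟨∑ k, ∑ l, (f k l).natAbs, fun k l => ?_⟩
  have h1 : (f k l).natAbs ≤ ∑ l, (f k l).natAbs :=
    Finset.single_le_sum (f := fun l => (f k l).natAbs) (fun _ _ => Nat.zero_le _)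
      (Finset.mem_univ l)
  have h2 : ∑ l, (f k l).natAbs ≤ ∑ k, ∑ l, (f k l).natAbs :=
    Finset.single_le_sum (f := fun k => ∑ l, (f k l).natAbs) (fun _ _ => Nat.zero_le _)
      (Finset.mem_univ k)
  omega

/-- every conjugate of a congruence subgroup contains a congruence subgroup -/
theorem exists_KK_conj (g : GL (Fin n) K) (N : ℕ) :
    ∃ N' : ℕ, ∀ h ∈ KK U n N', g⁻¹ * h * g ∈ KK U n N := by
  choose a ha using fun p : Fin n × Fin n => exists_lv U (g.val p.1 p.2)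
  choose b hb using fun p : Fin n × Fin n => exists_lv U ((g⁻¹).val p.1 p.2)
  obtain ⟨A, hA⟩ := exists_bound (fun k l => (a (k, l) : ℤ))
  obtain ⟨B, hB⟩ := exists_bound (fun k l => (b (k, l) : ℤ))
  refine ⟨N + A + B, fun h hh => ?_⟩
  have key : ∀ h : GL (Fin n) K, Lev U (fun _ _ => ((N + A + B : ℕ) : ℤ)) h →
      Lev U (fun _ _ => (N : ℤ)) (g⁻¹ * h * g) := by
    intro h hh k l
    have e : (g⁻¹ * h * g).val - 1 = (g⁻¹).val * (h.val - 1) * g.val := by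
      rw [Matrix.mul_sub, Matrix.sub_mul, Matrix.mul_one, ← Units.val_mul g⁻¹ g, inv_mul_cancel]
      rfl
    rw [e, Matrix.mul_apply]
    refine lv_sum _ _ fun l' _ => ?_
    rw [Matrix.mul_apply, Finset.sum_mul]
    refine lv_sum _ _ fun k' _ => ((hb (k, k')).mul (hh k' l')).mul' (ha (l', l)) ?_
    have := hA l' l
    have := hB k k'
    push_cast
    omega
  have hh' := mem_KK.1 hh
  refine mem_KK.2 ⟨key h hh'.1, ?_⟩
  have := key h⁻¹ hh'.2
  simpa [mul_assoc] using this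

/-! ### diagonal matrices -/

/-- the diagonal matrix with entries `d` -/
def dia (d : Fin n → Kˣ) : GL (Fin n) K where
  val := diagonal fun i => (d i : K)
  inv := diagonal fun i => (((d i)⁻¹ : Kˣ) : K)
  val_inv := by rw [diagonal_mul_diagonal]; simp
  inv_val := by rw [diagonal_mul_diagonal]; simp

theorem dia_val (d : Fin n → Kˣ) : (dia d).val = diagonal fun i => (d i : K) := rfl
theorem dia_mul (d e : Fin n → Kˣ) : dia (d * e) = dia d * dia e := by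
  ext1; rw [Units.val_mul, dia_val, dia_val, dia_val, diagonal_mul_diagonal]; simp
theorem dia_one : dia (1 : Fin n → Kˣ) = 1 := by ext1; rw [dia_val]; simp
theorem dia_inv (d : Fin n → Kˣ) : (dia d)⁻¹ = dia d⁻¹ := by
  rw [inv_eq_iff_mul_eq_one, ← dia_mul, mul_inv_cancel, dia_one]
theorem dia_comm (d e : Fin n → Kˣ) : dia d * dia e = dia e * dia d := by
  rw [← dia_mul, ← dia_mul, mul_comm]
theorem dia_conj (d : Fin n → Kˣ) (g : GL (Fin n) K) (k l : Fin n) :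
    (dia d * g * (dia d)⁻¹).val k l = d k * g.val k l * ((d l : K))⁻¹ := by
  rw [dia_inv, Units.val_mul, Units.val_mul, dia_val, dia_val, mul_diagonal, diagonal_mul]; simp
theorem dia_mem_J {f : Fin n → Fin n → ℤ} {d : Fin n → Kˣ} (hd : ∀ i, ‖(d i : K)‖ = 1)
    (h : ∀ i, Lv U (f i i) ((d i : K) - 1)) : dia d ∈ J U f := by
  refine mem_J_of (lev_of (fun k l e => ?_) fun k => ?_) (lev_of (fun k l e => ?_) fun k => ?_)
  · rw [dia_val, diagonal_apply_ne _ e]; exact lv_zero U _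
  · simpa [dia_val] using h k
  · rw [dia_inv, dia_val, diagonal_apply_ne _ e]; exact lv_zero U _
  · have := (h k).neg.div_unit (hd k)
    rw [neg_sub, sub_div, div_self (d k).ne_zero, one_div] at this
    simpa [dia_inv, dia_val] using this
theorem dia_mem_J0 {f : Fin n → Fin n → ℤ} (h0 : ∀ k, f k k = 0) {d : Fin n → Kˣ}
    (hd : ∀ i, ‖(d i : K)‖ = 1) : dia d ∈ J U f :=
  dia_mem_J hd fun i => by rw [h0]; exact (lv_unit (hd i)).sub (lv_one U)

/-- the diagonal matrix with `α` at the place `i` and one elsewhere -/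
def di (i : Fin n) (α : Kˣ) : GL (Fin n) K := dia (Pi.mulSingle i α)

theorem di_val (i : Fin n) (α : Kˣ) (k l : Fin n) :
    (di i α).val k l = if k = l then (if k = i then (α : K) else 1) else 0 := by
  rw [di, dia_val, diagonal_apply, Pi.mulSingle_apply]
  split_ifs <;> rfl
theorem di_mem_J0 {f : Fin n → Fin n → ℤ} (h0 : ∀ k, f k k = 0) (i : Fin n) {α : Kˣ}
    (hα : ‖(α : K)‖ = 1) : di i α ∈ J U f :=
  dia_mem_J0 h0 fun k => by rw [Pi.mulSingle_apply]; split_ifs <;> simp [hα]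

/-- the diagonal matrix of powers of the uniformiser -/
def dg (U : Unif K) (y : Fin n → ℤ) : GL (Fin n) K := dia fun i => U.ϖ ^ y i

theorem dg_val (y : Fin n → ℤ) : (dg U y).val = diagonal fun i => pw U (y i) := by
  rw [dg, dia_val]; simp [pw]
theorem dg_add (y z : Fin n → ℤ) : dg U (y + z) = dg U y * dg U z := by
  rw [dg, dg, dg, ← dia_mul]; congr 1; funext i; exact _root_.zpow_add _ _ _
theorem dg_zero : dg U (0 : Fin n → ℤ) = 1 := by
  rw [dg, ← dia_one]; congr 1; ext i; simp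
theorem dg_neg (y : Fin n → ℤ) : dg U (-y) = (dg U y)⁻¹ := by
  rw [eq_inv_iff_mul_eq_one, ← dg_add, neg_add_cancel, dg_zero]
theorem dg_conj (y : Fin n → ℤ) (g : GL (Fin n) K) (k l : Fin n) :
    (dg U y * g * (dg U y)⁻¹).val k l = g.val k l * pw U (y k - y l) := by
  rw [dg, dia_conj, pw_val, pw_val, sub_eq_add_neg, pw_add, pw_neg]; ring
/-- every diagonal matrix is a power of the uniformiser times a unit matrix -/
theorem exists_dia_eq (U : Unif K) (d : Fin n → Kˣ) :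
    ∃ (y : Fin n → ℤ) (e : Fin n → Kˣ), (∀ i, ‖(e i : K)‖ = 1) ∧ dia d = dg U y * dia e := by
  choose y hy using fun i => exists_val U (d i).ne_zero
  refine ⟨y, fun i => d i / U.ϖ ^ y i, fun i => ?_, ?_⟩
  · rw [Units.val_div_eq_div_val, pw_val]; exact norm_div_pw (hy i).1 (hy i).2
  · rw [dg, ← dia_mul]; congr 1; ext i; simp

/-- the level function of the conjugate of `J f` by `dg y` -/
def sh (f : Fin n → Fin n → ℤ) (y : Fin n → ℤ) : Fin n → Fin n → ℤ :=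
  fun k l => f k l + y k - y l

theorem Conc.sh {f : Fin n → Fin n → ℤ} (hf : Conc f) (y : Fin n → ℤ) : Conc (sh f y) :=
  ⟨fun k => by have := hf.1 k; simp only [PT.sh]; omega,
    fun k l m => by have := hf.2 k l m; simp only [PT.sh]; omega⟩

theorem lev_dg {f : Fin n → Fin n → ℤ} (y : Fin n → ℤ) {g : GL (Fin n) K} :
    Lev U (sh f y) (dg U y * g * (dg U y)⁻¹) ↔ Lev U f g := by
  refine forall_congr' fun k => forall_congr' fun l => ?_
  have e : ((dg U y * g * (dg U y)⁻¹).val - 1) k l = (g.val - 1) k l * pw U (y k - y l) := by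
    rw [Matrix.sub_apply, dg_conj, Matrix.sub_apply, sub_mul, Matrix.one_apply]
    split_ifs with h
    · subst h; simp [pw_zero]
    · simp
  rw [e, sh, add_sub_assoc, lv_mul_pw]

theorem mem_J_sh {f : Fin n → Fin n → ℤ} (hf : Conc f) (y : Fin n → ℤ) {g : GL (Fin n) K} :
    dg U y * g * (dg U y)⁻¹ ∈ J U (sh f y) ↔ g ∈ J U f := by
  rw [mem_J (hf.sh y), mem_J hf, lev_dg]
  have : (dg U y * g * (dg U y)⁻¹)⁻¹ = dg U y * g⁻¹ * (dg U y)⁻¹ := by simp [mul_assoc]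
  rw [this, lev_dg]

/-! ### rank one perturbations of the identity, elementary and permutation matrices -/

/-- the matrix `1 + b a` (column times row), or one when it is singular -/
noncomputable def rk (b a : Fin n → K) : GL (Fin n) K :=
  open Classical in
  if h : 1 + a ⬝ᵥ b ≠ 0 then
    { val := 1 + vecMulVec b a
      inv := 1 - (1 + a ⬝ᵥ b)⁻¹ • vecMulVec b a
      val_inv := by
        have e : vecMulVec b a * vecMulVec b a = (a ⬝ᵥ b) • vecMulVec b a := by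
          rw [vecMulVec_mul_vecMulVec]; ext i j; simp [vecMulVec_apply]; ring
        rw [add_mul, one_mul, mul_sub, mul_one, Matrix.mul_smul, e, smul_smul]
        ext i j
        simp only [Matrix.add_apply, Matrix.sub_apply, Matrix.smul_apply, smul_eq_mul]
        field_simp
        ring
      inv_val := by
        have e : vecMulVec b a * vecMulVec b a = (a ⬝ᵥ b) • vecMulVec b a := by
          rw [vecMulVec_mul_vecMulVec]; ext i j; simp [vecMulVec_apply]; ring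
        rw [sub_mul, one_mul, Matrix.smul_mul, mul_add, mul_one, e]
        ext i j
        simp only [Matrix.add_apply, Matrix.sub_apply, Matrix.smul_apply, smul_eq_mul]
        field_simp
        ring }
  else 1

theorem rk_val {b a : Fin n → K} (h : 1 + a ⬝ᵥ b ≠ 0) : (rk b a).val = 1 + vecMulVec b a := by
  rw [rk, dif_pos h]
theorem rk_inv_val {b a : Fin n → K} (h : 1 + a ⬝ᵥ b ≠ 0) :
    ((rk b a)⁻¹).val = 1 - (1 + a ⬝ᵥ b)⁻¹ • vecMulVec b a := by
  rw [rk, dif_pos h]; rfl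
theorem rk_apply {b a : Fin n → K} (h : 1 + a ⬝ᵥ b ≠ 0) (k l : Fin n) :
    (rk b a).val k l = (if k = l then 1 else 0) + b k * a l := by
  rw [rk_val h, Matrix.add_apply, Matrix.one_apply, vecMulVec_apply]
theorem rk_mem_J {f : Fin n → Fin n → ℤ} {b a : Fin n → K} (h : ‖1 + a ⬝ᵥ b‖ = 1)
    (hl : ∀ k l, Lv U (f k l) (b k * a l)) : rk b a ∈ J U f := by
  have h0 : 1 + a ⬝ᵥ b ≠ 0 := by intro e; rw [e] at h; simp at h
  refine mem_J_of (fun k l => ?_) fun k l => ?_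
  · rw [rk_val h0]; simpa [vecMulVec_apply] using hl k l
  · rw [rk_inv_val h0]
    have := ((hl k l).div_unit h).neg
    simpa [vecMulVec_apply, div_eq_mul_inv, mul_comm] using this
/-- conjugates of rank one perturbations -/
theorem rk_conj {b a : Fin n → K} (h : 1 + a ⬝ᵥ b ≠ 0) (g : GL (Fin n) K) :
    g * rk b a * g⁻¹ = rk (g.val *ᵥ b) (a ᵥ* (g⁻¹).val) := by
  have e : (a ᵥ* (g⁻¹).val) ⬝ᵥ (g.val *ᵥ b) = a ⬝ᵥ b := by
    rw [← dotProduct_mulVec, mulVec_mulVec, ← Units.val_mul, inv_mul_cancel]; simp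
  ext1
  rw [rk_val (by rwa [e]), Units.val_mul, Units.val_mul, rk_val h, mul_add, add_mul, mul_one,
    ← Units.val_mul, mul_inv_cancel, mul_vecMulVec, vecMulVec_mul]
  rfl

/-- the elementary matrix `1 + x E k l` (for `k ≠ l`) -/
noncomputable def el (k l : Fin n) (x : K) : GL (Fin n) K := rk (Pi.single k x) (Pi.single l 1)

theorem el_dot {k l : Fin n} (h : k ≠ l) (x : K) :
    (Pi.single l 1 : Fin n → K) ⬝ᵥ Pi.single k x = 0 := by simp [h.symm]
theorem el_apply {k l : Fin n} (h : k ≠ l) (x : K) (i j : Fin n) :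
    (el k l x).val i j = (if i = j then 1 else 0) + if i = k ∧ j = l then x else 0 := by
  rw [el, rk_apply (by rw [el_dot h]; simp), Pi.single_apply, Pi.single_apply]
  by_cases h1 : i = k <;> by_cases h2 : j = l <;> simp [h1, h2]
theorem el_val {k l : Fin n} (h : k ≠ l) (x : K) : (el k l x).val = 1 + Matrix.single k l x := by
  ext i j
  rw [el_apply h, Matrix.add_apply, Matrix.one_apply, Matrix.single_apply]
  simp only [eq_comm]
theorem el_add {k l : Fin n} (h : k ≠ l) (x y : K) : el k l (x + y) = el k l x * el k l y := by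
  ext1
  rw [Units.val_mul, el_val h, el_val h, el_val h, add_mul, one_mul, mul_add, mul_one,
    Matrix.single_mul_single_of_ne _ _ _ _ h.symm, add_zero, Matrix.single_add]
  abel
theorem el_zero {k l : Fin n} (h : k ≠ l) : el k l (0 : K) = 1 := by
  ext1; rw [el_val h]; simp
theorem el_neg {k l : Fin n} (h : k ≠ l) (x : K) : el k l (-x) = (el k l x)⁻¹ := by
  rw [eq_inv_iff_mul_eq_one, ← el_add h, neg_add_cancel, el_zero h]
theorem el_mem_J {f : Fin n → Fin n → ℤ} {k l : Fin n} (h : k ≠ l) {x : K}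
    (hx : Lv U (f k l) x) : el k l x ∈ J U f := by
  refine rk_mem_J (by rw [el_dot h]; simp) fun i j => ?_
  rw [Pi.single_apply, Pi.single_apply]
  split_ifs with h1 h2
  · subst h1 h2; simpa using hx
  all_goals simpa using lv_zero U _

/-- the permutation matrix whose row `i` is the basis vector `w i` -/
def pm (K : Type) [Field K] (w : Equiv.Perm (Fin n)) : GL (Fin n) K where
  val := of fun i j => if j = w i then 1 else 0
  inv := of fun i j => if i = w j then 1 else 0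
  val_inv := by
    ext i j; simp [Matrix.mul_apply, Matrix.one_apply, eq_comm]
  inv_val := by
    ext i j
    simp only [Matrix.mul_apply, of_apply, Matrix.one_apply]
    rw [Finset.sum_eq_single (w.symm i)]
    · simp [eq_comm]
    · intro b _ hb
      rw [if_neg, zero_mul]
      rintro rfl; simp at hb
    · simp

theorem pm_apply (w : Equiv.Perm (Fin n)) (i j : Fin n) :
    (pm K w).val i j = if j = w i then 1 else 0 := rfl
theorem pm_inv_apply (w : Equiv.Perm (Fin n)) (i j : Fin n) :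
    ((pm K w)⁻¹).val i j = if i = w j then 1 else 0 := rfl
theorem pm_mul_apply (w : Equiv.Perm (Fin n)) (A : Matrix (Fin n) (Fin n) K) (i j : Fin n) :
    ((pm K w).val * A) i j = A (w i) j := by
  simp [Matrix.mul_apply, pm_apply]
theorem pm_conj (w : Equiv.Perm (Fin n)) (g : GL (Fin n) K) (i j : Fin n) :
    (pm K w * g * (pm K w)⁻¹).val i j = g.val (w i) (w j) := by
  rw [Units.val_mul, Units.val_mul, Matrix.mul_apply]
  simp [pm_mul_apply, pm_inv_apply]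
theorem pm_one : pm K (1 : Equiv.Perm (Fin n)) = 1 := by
  ext i j; simp [pm_apply, Matrix.one_apply, eq_comm]
theorem pm_mem_K0 (w : Equiv.Perm (Fin n)) : pm K w ∈ KK U n 0 := by
  refine mem_K0.2 ⟨fun k l => ?_, fun k l => ?_⟩
  · rw [pm_apply]; split_ifs; exacts [lv_one U, lv_zero U 0]
  · rw [pm_inv_apply]; split_ifs; exacts [lv_one U, lv_zero U 0]

/-! ### triangular groups for the order given by a key function `o` -/

/-- matrices that are upper triangular for the key `o` -/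
def Tri (K : Type) [Field K] (o : Fin n → ℤ) : Subgroup (GL (Fin n) K) where
  carrier := {g | g.val.BlockTriangular o}
  mul_mem' hg hh := BlockTriangular.mul hg hh
  one_mem' := blockTriangular_one
  inv_mem' := by
    intro g hg
    have := g.invertible
    have h := blockTriangular_inv_of_blockTriangular hg
    show ((g⁻¹ : GL (Fin n) K).val).BlockTriangular o
    rwa [Matrix.coe_units_inv]

theorem mem_Tri {o : Fin n → ℤ} {g : GL (Fin n) K} :
    g ∈ Tri K o ↔ ∀ k l, o l < o k → g.val k l = 0 :=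
  ⟨fun h _ _ e => h e, fun h _ _ e => h _ _ e⟩

/-- unipotent upper triangular matrices for the key `o` -/
def Uni (K : Type) [Field K] (o : Fin n → ℤ) : Subgroup (GL (Fin n) K) where
  carrier := {g | ∀ k l, o l ≤ o k → (g.val - 1) k l = 0}
  mul_mem' := by
    intro g h hg hh k m hkm
    have e : (g * h).val - 1 = (g.val - 1) + (h.val - 1) + (g.val - 1) * (h.val - 1) := by
      rw [Units.val_mul]; noncomm_ring
    rw [e, Matrix.add_apply, Matrix.add_apply, Matrix.mul_apply, hg k m hkm, hh k m hkm,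
      Finset.sum_eq_zero, add_zero, add_zero]
    intro l _
    by_cases hl : o l ≤ o k
    · rw [hg k l hl, zero_mul]
    · rw [hh l m (by omega), mul_zero]
  one_mem' := by intro k l _; simp
  inv_mem' := by
    intro g hg k m hkm
    have ht : g ∈ Tri K o := by
      intro i j hij
      have := hg i j hij.le
      have hne : i ≠ j := by rintro rfl; exact lt_irrefl _ hij
      simpa [Matrix.one_apply_ne hne] using this
    have hi : ((g⁻¹).val).BlockTriangular o := (Tri K o).inv_mem ht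
    have e : (g⁻¹).val - 1 = -((g⁻¹).val * (g.val - 1)) := by
      rw [Matrix.mul_sub, ← Units.val_mul, inv_mul_cancel]; simp
    rw [e, Matrix.neg_apply, Matrix.mul_apply, Finset.sum_eq_zero, neg_zero]
    intro l _
    by_cases hl : o l < o k
    · rw [hi hl, zero_mul]
    · rw [hg l m (by omega), mul_zero]

theorem mem_Uni {o : Fin n → ℤ} {g : GL (Fin n) K} :
    g ∈ Uni K o ↔ ∀ k l, o l ≤ o k → (g.val - 1) k l = 0 := Iff.rfl

theorem Uni_diag {o : Fin n → ℤ} {g : GL (Fin n) K} (hg : g ∈ Uni K o) (k : Fin n) :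
    g.val k k = 1 := by simpa [sub_eq_zero] using hg k k le_rfl
theorem Uni_le_Tri {o : Fin n → ℤ} : Uni K o ≤ Tri K o := by
  intro g hg i j hij
  have hne : i ≠ j := by rintro rfl; exact lt_irrefl _ hij
  simpa [Matrix.one_apply_ne hne] using hg i j hij.le
theorem mem_Uni_of {o : Fin n → ℤ} (ho : Function.Injective o) {g : GL (Fin n) K}
    (hg : g ∈ Tri K o) (h1 : ∀ k, g.val k k = 1) : g ∈ Uni K o := by
  intro k l hkl
  by_cases e : k = l
  · subst e; simp [h1]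
  · have : o l < o k := lt_of_le_of_ne hkl fun h => e (ho h).symm
    simpa [Matrix.one_apply_ne e] using mem_Tri.1 hg k l this
theorem Tri_mul_diag {o : Fin n → ℤ} (ho : Function.Injective o) {g h : GL (Fin n) K}
    (hg : g ∈ Tri K o) (hh : h ∈ Tri K o) (k : Fin n) :
    (g * h).val k k = g.val k k * h.val k k := by
  rw [Units.val_mul, Matrix.mul_apply, Finset.sum_eq_single k]
  · intro l _ hl
    rcases lt_or_gt_of_ne (ho.ne hl) with h1 | h1
    · rw [mem_Tri.1 hg k l h1, zero_mul]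
    · rw [mem_Tri.1 hh l k h1, mul_zero]
  · simp
theorem Tri_diag_ne {o : Fin n → ℤ} (ho : Function.Injective o) {g : GL (Fin n) K}
    (hg : g ∈ Tri K o) (k : Fin n) : g.val k k ≠ 0 := by
  intro h
  have := Tri_mul_diag ho hg ((Tri K o).inv_mem hg) k
  rw [mul_inv_cancel, h] at this
  simp at this
theorem dia_mem_Tri (o : Fin n → ℤ) (d : Fin n → Kˣ) : dia d ∈ Tri K o :=
  blockTriangular_diagonal _
theorem el_mem_Uni {o : Fin n → ℤ} {k l : Fin n} (h : o k < o l) (x : K) : el k l x ∈ Uni K o := by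
  have e : k ≠ l := by rintro rfl; exact lt_irrefl _ h
  intro i j hij
  rw [el_val e, add_sub_cancel_left, Matrix.single_apply, if_neg]
  rintro ⟨rfl, rfl⟩; omega
/-- a triangular matrix is a unipotent matrix times its diagonal -/
theorem Tri_eq {o : Fin n → ℤ} (ho : Function.Injective o) {b : GL (Fin n) K} (hb : b ∈ Tri K o) :
    ∃ u ∈ Uni K o, ∃ d : Fin n → Kˣ, (∀ i, (d i : K) = b.val i i) ∧ b = u * dia d := by
  let d : Fin n → Kˣ := fun i => Units.mk0 _ (Tri_diag_ne ho hb i)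
  have hm : b * (dia d)⁻¹ ∈ Tri K o := (Tri K o).mul_mem hb ((Tri K o).inv_mem (dia_mem_Tri o d))
  refine ⟨b * (dia d)⁻¹, mem_Uni_of ho hm fun k => ?_, d, fun _ => rfl, by simp⟩
  rw [Tri_mul_diag ho hb ((Tri K o).inv_mem (dia_mem_Tri o d)), dia_inv, dia_val]
  simp [d, Tri_diag_ne ho hb k]

/-- the key of the standard order -/
def so (n : ℕ) : Fin n → ℤ := fun i => (i.val : ℤ)

theorem so_lt {k l : Fin n} : so n k < so n l ↔ k < l := by simp [so]
theorem so_le {k l : Fin n} : so n k ≤ so n l ↔ k ≤ l := by simp [so]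
theorem so_inj : Function.Injective (so n) := fun k l h => by
  simpa [so, Fin.ext_iff] using h

/-! ### characters -/

/-- the character of triangular matrices given by the `χ i` on the diagonal -/
noncomputable def dch (χ : Fin n → Kˣ →* ℂˣ) (g : GL (Fin n) K) : ℂ := ∏ i, ext (χ i) (g.val i i)

theorem dch_ne_zero (χ : Fin n → Kˣ →* ℂˣ) (g : GL (Fin n) K) : dch χ g ≠ 0 :=
  Finset.prod_ne_zero_iff.2 fun _ _ => ext_ne_zero _ _
theorem dch_dia (χ : Fin n → Kˣ →* ℂˣ) (d : Fin n → Kˣ) : dch χ (dia d) = ∏ i, (χ i (d i) : ℂ) :=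
  Finset.prod_congr rfl fun i _ => by rw [dia_val, diagonal_apply_eq, ext_val]
theorem dch_di (χ : Fin n → Kˣ →* ℂˣ) (i : Fin n) (α : Kˣ) : dch χ (di i α) = χ i α := by
  rw [di, dch_dia, Finset.prod_eq_single i]
  · simp
  · intro b _ hb; simp [Pi.mulSingle_eq_of_ne hb]
  · simp
theorem dch_uni (χ : Fin n → Kˣ →* ℂˣ) {o : Fin n → ℤ} {g : GL (Fin n) K} (hg : g ∈ Uni K o) :
    dch χ g = 1 := Finset.prod_eq_one fun i _ => by rw [Uni_diag hg, ext_one]
theorem dch_mul (χ : Fin n → Kˣ →* ℂˣ) {o : Fin n → ℤ} (ho : Function.Injective o)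
    {g h : GL (Fin n) K} (hg : g ∈ Tri K o) (hh : h ∈ Tri K o) :
    dch χ (g * h) = dch χ g * dch χ h := by
  rw [dch, dch, dch, ← Finset.prod_mul_distrib]
  exact Finset.prod_congr rfl fun i _ => by
    rw [Tri_mul_diag ho hg hh, ext_mul _ (Tri_diag_ne ho hg i) (Tri_diag_ne ho hh i)]
theorem dch_congr {χ χ' : Fin n → Kˣ →* ℂˣ} (h : ∀ i, Agree U (χ i) (χ' i) 0)
    {g : GL (Fin n) K} (hg : ∀ i, ‖g.val i i‖ = 1) : dch χ g = dch χ' g :=
  Finset.prod_congr rfl fun i _ => (h i).ext_eq (hg i) ((lv_unit (hg i)).sub (lv_one U))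

/-- the leading principal minor on the indices `≤ j` -/
noncomputable def Dl (j : Fin n) (g : GL (Fin n) K) : K :=
  (of fun k l => if k ≤ j ∧ l ≤ j then g.val k l else (1 : Matrix (Fin n) (Fin n) K) k l).det

/-- the next character, trivial after the last index -/
def nx (χ : Fin n → Kˣ →* ℂˣ) (j : Fin n) : Kˣ →* ℂˣ :=
  if h : j.val + 1 < n then χ ⟨j.val + 1, h⟩ else 1

/-- the function on `GL n K` that restricts to the character of the type -/
noncomputable def th (χ : Fin n → Kˣ →* ℂˣ) (g : GL (Fin n) K) : ℂ :=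
  ∏ j, ext (χ j / nx χ j) (Dl j g)

theorem th_ne_zero (χ : Fin n → Kˣ →* ℂˣ) (g : GL (Fin n) K) : th χ g ≠ 0 :=
  Finset.prod_ne_zero_iff.2 fun _ _ => ext_ne_zero _ _

end Pool.Agent.P.MP_7cb106_nt.PT

end

section

/-! Conductor data, the level functions in use, eigenvectors, models, lattices. -/

set_option linter.unusedSectionVars false

namespace Pool.Agent.P.MP_7cb106_nt.PT

open Matrix

/-! ### representations of an abstract group -/

section Rep

variable {Γ : Type} [Group Γ] {V : Type} [AddCommGroup V] [Module ℂ V]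

/-- `v` is an eigenvector (possibly zero) of the subgroup `H` for `Θ` -/
def Eig (π : Representation ℂ Γ V) (H : Subgroup Γ) (Θ : Γ → ℂ) (v : V) : Prop :=
  ∀ h ∈ H, π h v = Θ h • v

/-- the kernel of the projection to the `(H, Θ)`-coinvariants -/
def Co (π : Representation ℂ Γ V) (H : Subgroup Γ) (Θ : Γ → ℂ) : Submodule ℂ V :=
  Submodule.span ℂ {y | ∃ h ∈ H, ∃ x, y = π h x - Θ h • x}

/-- the span of the translates of `v` by the elements of `A` -/
def Sp (π : Representation ℂ Γ V) (A : Set Γ) (v : V) : Submodule ℂ V :=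
  Submodule.span ℂ {y | ∃ g ∈ A, y = π g v}

/-- irreducible -/
def Irr (π : Representation ℂ Γ V) : Prop :=
  (∃ v : V, v ≠ 0) ∧ ∀ A : Submodule ℂ V, (∀ g, ∀ v ∈ A, π g v ∈ A) → A = ⊥ ∨ A = ⊤

/-- `Θ` is a character of `H` -/
def Mult (H : Subgroup Γ) (Θ : Γ → ℂ) : Prop :=
  Θ 1 = 1 ∧ ∀ g ∈ H, ∀ h ∈ H, Θ (g * h) = Θ g * Θ h

theorem rep_mul (π : Representation ℂ Γ V) (g h : Γ) (v : V) : π (g * h) v = π g (π h v) := by
  rw [map_mul]; rfl
theorem rep_inv (π : Representation ℂ Γ V) (g : Γ) (v : V) : π g⁻¹ (π g v) = v := by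
  rw [← rep_mul, inv_mul_cancel, map_one]; rfl
theorem rep_inv' (π : Representation ℂ Γ V) (g : Γ) (v : V) : π g (π g⁻¹ v) = v := by
  rw [← rep_mul, mul_inv_cancel, map_one]; rfl
theorem rep_ne (π : Representation ℂ Γ V) (g : Γ) {v : V} (h : v ≠ 0) : π g v ≠ 0 := by
  intro e; apply h; rw [← rep_inv π g v, e, map_zero]

theorem Mult.mul_inv {H : Subgroup Γ} {Θ : Γ → ℂ} (hΘ : Mult H Θ) {h : Γ} (hh : h ∈ H) :
    Θ h * Θ h⁻¹ = 1 := by rw [← hΘ.2 h hh _ (H.inv_mem hh), mul_inv_cancel, hΘ.1]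
theorem Mult.ne_zero {H : Subgroup Γ} {Θ : Γ → ℂ} (hΘ : Mult H Θ) {h : Γ} (hh : h ∈ H) :
    Θ h ≠ 0 := left_ne_zero_of_mul_eq_one (hΘ.mul_inv hh)
theorem Mult.inv {H : Subgroup Γ} {Θ : Γ → ℂ} (hΘ : Mult H Θ) {h : Γ} (hh : h ∈ H) :
    Θ h⁻¹ = (Θ h)⁻¹ := eq_inv_of_mul_eq_one_right (hΘ.mul_inv hh)
theorem Mult.conj {H : Subgroup Γ} {Θ : Γ → ℂ} (hΘ : Mult H Θ) {j h : Γ} (hj : j ∈ H)
    (hh : h ∈ H) : Θ (j * h * j⁻¹) = Θ h := by
  rw [hΘ.2 _ (H.mul_mem hj hh) _ (H.inv_mem hj), hΘ.2 _ hj _ hh, mul_right_comm, hΘ.mul_inv hj,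
    one_mul]
theorem Mult.mono {H H' : Subgroup Γ} {Θ : Γ → ℂ} (hΘ : Mult H Θ) (h : H' ≤ H) : Mult H' Θ :=
  ⟨hΘ.1, fun g hg k hk => hΘ.2 g (h hg) k (h hk)⟩
theorem Mult.mul {H : Subgroup Γ} {Θ Θ' : Γ → ℂ} (h : Mult H Θ) (h' : Mult H Θ') :
    Mult H fun g => Θ g * Θ' g :=
  ⟨by simp [h.1, h'.1], fun g hg k hk => by
    simp only [h.2 g hg k hk, h'.2 g hg k hk]; ring⟩

theorem Eig.mono {π : Representation ℂ Γ V} {H H' : Subgroup Γ} {Θ : Γ → ℂ} {v : V}
    (h : Eig π H Θ v) (h' : H' ≤ H) : Eig π H' Θ v := fun g hg => h g (h' hg)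
theorem Eig.congr {π : Representation ℂ Γ V} {H : Subgroup Γ} {Θ Θ' : Γ → ℂ} {v : V}
    (h : Eig π H Θ v) (h' : ∀ g ∈ H, Θ g = Θ' g) : Eig π H Θ' v :=
  fun g hg => by rw [h g hg, h' g hg]
theorem Eig.smul {π : Representation ℂ Γ V} {H : Subgroup Γ} {Θ : Γ → ℂ} {v : V}
    (h : Eig π H Θ v) (a : ℂ) : Eig π H Θ (a • v) :=
  fun g hg => by rw [map_smul, h g hg, smul_comm]
theorem Eig.add {π : Representation ℂ Γ V} {H : Subgroup Γ} {Θ : Γ → ℂ} {v w : V}
    (h : Eig π H Θ v) (h' : Eig π H Θ w) : Eig π H Θ (v + w) :=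
  fun g hg => by rw [map_add, h g hg, h' g hg, smul_add]
theorem Eig.sub {π : Representation ℂ Γ V} {H : Subgroup Γ} {Θ : Γ → ℂ} {v w : V}
    (h : Eig π H Θ v) (h' : Eig π H Θ w) : Eig π H Θ (v - w) :=
  fun g hg => by rw [map_sub, h g hg, h' g hg, smul_sub]
theorem eig_zero (π : Representation ℂ Γ V) (H : Subgroup Γ) (Θ : Γ → ℂ) : Eig π H Θ 0 :=
  fun g _ => by simp
/-- translation of an eigenvector -/
theorem Eig.act {π : Representation ℂ Γ V} {H H' : Subgroup Γ} {Θ Θ' : Γ → ℂ} {v : V}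
    (h : Eig π H Θ v) (t : Γ) (h' : ∀ g ∈ H', t⁻¹ * g * t ∈ H ∧ Θ' g = Θ (t⁻¹ * g * t)) :
    Eig π H' Θ' (π t v) := by
  intro g hg
  have e : g * t = t * (t⁻¹ * g * t) := by group
  rw [← rep_mul, e, rep_mul, h _ (h' g hg).1, map_smul, (h' g hg).2]
theorem sub_mem_Co (π : Representation ℂ Γ V) {H : Subgroup Γ} (Θ : Γ → ℂ) {h : Γ} (hh : h ∈ H)
    (x : V) : π h x - Θ h • x ∈ Co π H Θ := Submodule.subset_span ⟨h, hh, x, rfl⟩
/-- a translate by an element that does not intertwine dies in the coinvariants -/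
theorem Eig.mem_Co {π : Representation ℂ Γ V} {H : Subgroup Γ} {Θ : Γ → ℂ} {v : V}
    (hv : Eig π H Θ v) {s h : Γ} (hh : h ∈ H) (hs : s⁻¹ * h * s ∈ H)
    (hne : Θ h ≠ Θ (s⁻¹ * h * s)) : π s v ∈ Co π H Θ := by
  have h1 := sub_mem_Co π Θ hh (π s v)
  have e : h * s = s * (s⁻¹ * h * s) := by group
  rw [← rep_mul, e, rep_mul, hv _ hs, map_smul, ← sub_smul] at h1
  exact (Submodule.smul_mem_iff _ (sub_ne_zero.2 hne.symm)).1 h1
theorem mem_Sp (π : Representation ℂ Γ V) {A : Set Γ} {g : Γ} (hg : g ∈ A) (v : V) :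
    π g v ∈ Sp π A v := Submodule.subset_span ⟨g, hg, rfl⟩
theorem Sp_le {π : Representation ℂ Γ V} {A : Set Γ} {v : V} {B : Submodule ℂ V}
    (h : ∀ g ∈ A, π g v ∈ B) : Sp π A v ≤ B :=
  Submodule.span_le.2 (by rintro _ ⟨g, hg, rfl⟩; exact h g hg)
theorem Sp_act (π : Representation ℂ Γ V) {H : Subgroup Γ} {v x : V} {h : Γ} (hh : h ∈ H)
    (hx : x ∈ Sp π H v) : π h x ∈ Sp π H v := by
  have : Sp π H v ≤ (Sp π H v).comap (π h) := Sp_le fun g hg => by
    rw [Submodule.mem_comap, ← rep_mul]; exact mem_Sp π (H.mul_mem hh hg) v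
  exact this hx
theorem Irr.sp_eq {π : Representation ℂ Γ V} (hπ : Irr π) {v : V} (hv : v ≠ 0) :
    Sp π (⊤ : Subgroup Γ) v = ⊤ := by
  refine (hπ.2 _ fun g x hx => Sp_act π (Subgroup.mem_top g) hx).resolve_left fun e => hv ?_
  have := mem_Sp π (A := (⊤ : Subgroup Γ)) (g := 1) (Subgroup.mem_top 1) v
  rw [e, map_one] at this
  exact this
/-- a nonzero linear map on an irreducible representation sees a translate of every vector -/
theorem Irr.exists_ne {π : Representation ℂ Γ V} (hπ : Irr π) {v : V} (hv : v ≠ 0) {T : Type}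
    [AddCommGroup T] [Module ℂ T] {Λ : V →ₗ[ℂ] T} (hΛ : Λ ≠ 0) : ∃ g, Λ (π g v) ≠ 0 := by
  by_contra h
  push Not at h
  apply hΛ
  have : Sp π (⊤ : Subgroup Γ) v ≤ LinearMap.ker Λ := Sp_le fun g _ => h g
  rw [hπ.sp_eq hv, top_le_iff] at this
  exact LinearMap.ker_eq_top.1 this
theorem irr_iff (π : Representation ℂ Γ V) : Irr π ↔ π.IsIrreducible := by
  constructor
  · rintro ⟨⟨v, hv⟩, h⟩
    have : Nontrivial (Subrepresentation π) := ⟨⊥, ⊤, fun e => hv (by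
      have : v ∈ (⊤ : Subrepresentation π).toSubmodule := Submodule.mem_top
      rw [← e] at this
      exact this)⟩
    exact ⟨fun A => (h A.toSubmodule fun g v hv => A.apply_mem_toSubmodule g hv).imp
      (fun e => Subrepresentation.toSubmodule_injective e)
      fun e => Subrepresentation.toSubmodule_injective e⟩
  · intro h
    refine ⟨?_, fun A hA => (eq_bot_or_eq_top (⟨A, fun g v hv => hA g v hv⟩ :
      Subrepresentation π)).imp (fun e => congrArg Subrepresentation.toSubmodule e)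
        fun e => congrArg Subrepresentation.toSubmodule e⟩
    by_contra h0
    push Not at h0
    refine (bot_ne_top (α := Subrepresentation π)) (Subrepresentation.toSubmodule_injective ?_)
    ext v
    rw [h0 v]
    simp

end Rep

variable {K : Type} [NontriviallyNormedField K] [IsUltrametricDist K] {n : ℕ}

/-! ### conductors and level functions -/

/-- the combinatorial properties of the conductors `c k l` of the ratios, after sorting -/
structure CF (c : Fin n → Fin n → ℤ) : Prop where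
  symm : ∀ k l, c k l = c l k
  diag : ∀ k, c k k = 0
  pos : ∀ k l, k ≠ l → 1 ≤ c k l
  intv : ∀ k k' l' l, k ≤ k' → k' ≤ l' → l' ≤ l → c k' l' ≤ c k l
  ultra : ∀ k l m, c k m ≤ max (c k l) (c l m)

/-- sorted characters with their conductors -/
structure Dat (U : Unif K) (χ : Fin n → Kˣ →* ℂˣ) (c : Fin n → Fin n → ℤ) : Prop extends CF c where
  agree : ∀ k l, Agree U (χ k) (χ l) (c k l)
  differ : ∀ k l, k ≠ l → ¬ Agree U (χ k) (χ l) (c k l - 1)
  smooth : ∃ N : ℕ, ∀ i, Agree U (χ i) 1 N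

/-- a concave nonnegative level function whose symmetrisation is `c` off the diagonal -/
structure Fit (c f : Fin n → Fin n → ℤ) : Prop where
  conc : Conc f
  nonneg : ∀ k l, 0 ≤ f k l
  sum : ∀ k l, k ≠ l → f k l + f l k = c k l

/-- the condition under which `th χ` is a character of `J f` -/
def Cut (U : Unif K) (χ : Fin n → Kˣ →* ℂˣ) (f : Fin n → Fin n → ℤ) : Prop :=
  ∀ j j' : Fin n, j'.val = j.val + 1 → χ j = χ j' ∨
    ∃ C : ℤ, 1 ≤ C ∧ Agree U (χ j) (χ j') C ∧ ∀ k l, k ≤ j → j < l → C ≤ f k l + f l k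

/-- admissible upper level -/
def Adm (c : Fin n → Fin n → ℤ) (a : ℤ) : Prop := 0 ≤ a ∧ ∀ k l, k ≠ l → a + 1 ≤ c k l

/-- the standard level function: `a` above the diagonal, `c - a` below -/
def fstd (c : Fin n → Fin n → ℤ) (a : ℤ) : Fin n → Fin n → ℤ :=
  fun k l => if k < l then a else if l < k then c k l - a else 0

/-- `fstd c 0` with one level moved from the row `r` to the column `r` at the places `≥ t` -/
def ft (c : Fin n → Fin n → ℤ) (r : Fin n) (t : ℕ) : Fin n → Fin n → ℤ :=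
  fun k l => if k = r ∧ t ≤ l.val ∧ l < r then c k l - 1
    else if l = r ∧ t ≤ k.val ∧ k < r then 1 else fstd c 0 k l

/-- `fstd c 0` with level `x` at the place `(i, j)` -/
def fx (c : Fin n → Fin n → ℤ) (i j : Fin n) (x : ℤ) : Fin n → Fin n → ℤ :=
  fun k l => if k = i ∧ l = j then x else fstd c 0 k l

/-- residue field of two elements: zero on the blocks `c ≤ 2`, else `2` above and `c - 2` below -/
def fh (c : Fin n → Fin n → ℤ) : Fin n → Fin n → ℤ :=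
  fun k l => if c k l ≤ 2 then 0 else if k < l then 2 else c k l - 2

/-- level `e` inside the blocks of `f` (the diagonal included) -/
def inn (f : Fin n → Fin n → ℤ) (e : ℤ) : Fin n → Fin n → ℤ :=
  fun k l => if f k l + f l k = 0 then e else f k l

/-- the facts on three increasing indices -/
theorem CF.ord {c : Fin n → Fin n → ℤ} (h : CF c) {x y z : Fin n} (h1 : x < y) (h2 : y < z) :
    c y x = c x y ∧ c z x = c x z ∧ c z y = c y z ∧ 1 ≤ c x y ∧ 1 ≤ c y z ∧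
      c x y ≤ c x z ∧ c y z ≤ c x z ∧ (c x z = c x y ∨ c x z = c y z) := by
  have a := h.intv x x y z le_rfl h1.le h2.le
  have b := h.intv x y z z h1.le h2.le le_rfl
  have := h.ultra x y z
  exact ⟨h.symm _ _, h.symm _ _, h.symm _ _, h.pos _ _ h1.ne, h.pos _ _ h2.ne, a, b, by omega⟩

/-- concavity is checked on increasing triples -/
theorem conc_of {f : Fin n → Fin n → ℤ} (h0 : ∀ k, 0 ≤ f k k)
    (h1 : ∀ k l, k ≠ l → f k k ≤ f k l + f l k)
    (h2 : ∀ x y z, x < y → y < z → f x z ≤ f x y + f y z ∧ f x y ≤ f x z + f z y ∧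
      f y z ≤ f y x + f x z ∧ f z x ≤ f z y + f y x ∧ f y x ≤ f y z + f z x ∧
      f z y ≤ f z x + f x y) : Conc f := by
  refine ⟨h0, fun k l m => ?_⟩
  rcases eq_or_ne k l with rfl | e1
  · have := h0 k; omega
  rcases eq_or_ne l m with rfl | e2
  · have := h0 l; omega
  rcases eq_or_ne k m with rfl | e3
  · exact h1 k l e1
  rcases lt_or_gt_of_ne e1 with a | a <;> rcases lt_or_gt_of_ne e2 with b | b <;>
    rcases lt_or_gt_of_ne e3 with d | d
  · exact (h2 k l m a b).1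
  · exact absurd (a.trans b) d.not_gt
  · exact (h2 k m l d b).2.1
  · exact (h2 m k l d a).2.2.2.2.1
  · exact (h2 l k m a d).2.2.1
  · exact (h2 l m k b d).2.2.2.2.2
  · exact absurd (b.trans a) d.not_gt
  · exact (h2 m l k b a).2.2.2.1

theorem CF.nonneg {c : Fin n → Fin n → ℤ} (h : CF c) (k l : Fin n) : 0 ≤ c k l := by
  rcases eq_or_ne k l with rfl | e
  · exact (h.diag k).ge
  · have := h.pos k l e; omega
theorem adm_zero {c : Fin n → Fin n → ℤ} (h : CF c) : Adm c 0 :=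
  ⟨le_rfl, fun k l e => by simpa using h.pos k l e⟩
theorem Fit.one_le {c f : Fin n → Fin n → ℤ} (hf : Fit c f) (h : CF c) (k l : Fin n) (e : l ≠ k) :
    1 ≤ f k l + f l k := by rw [hf.sum k l e.symm]; exact h.pos k l e.symm

theorem fstd_diag (c : Fin n → Fin n → ℤ) (a : ℤ) (k : Fin n) : fstd c a k k = 0 := by simp [fstd]
theorem fstd_lt (c : Fin n → Fin n → ℤ) (a : ℤ) {k l : Fin n} (h : k < l) : fstd c a k l = a := by
  simp [fstd, h]
theorem fstd_gt (c : Fin n → Fin n → ℤ) (a : ℤ) {k l : Fin n} (h : l < k) :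
    fstd c a k l = c k l - a := by simp [fstd, h, h.le.not_gt]
theorem ft_diag (c : Fin n → Fin n → ℤ) (r : Fin n) (t : ℕ) (k : Fin n) : ft c r t k k = 0 := by
  simp only [ft, fstd, Fin.ext_iff, Fin.lt_def]; split_ifs <;> omega
theorem ft_self (c : Fin n → Fin n → ℤ) (r : Fin n) : ft c r r.val = fstd c 0 := by
  funext k l
  simp only [ft, Fin.ext_iff, Fin.lt_def]
  rw [if_neg (by omega), if_neg (by omega)]
theorem ft_lt (c : Fin n → Fin n → ℤ) (r : Fin n) (t : ℕ) {k l : Fin n} (h : k < l) :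
    ft c r t k l = if l = r ∧ t ≤ k.val then 1 else 0 := by
  rw [Fin.lt_def] at h
  simp only [ft, fstd, Fin.ext_iff, Fin.lt_def]; split_ifs <;> omega
theorem ft_gt (c : Fin n → Fin n → ℤ) (r : Fin n) (t : ℕ) {k l : Fin n} (h : l < k) :
    ft c r t k l = c k l - if k = r ∧ t ≤ l.val then 1 else 0 := by
  rw [Fin.lt_def] at h
  simp only [ft, fstd, Fin.ext_iff, Fin.lt_def]; split_ifs <;> omega

theorem fit_of {c f : Fin n → Fin n → ℤ} (h : CF c) (h0 : ∀ k, f k k = 0)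
    (h1 : ∀ k l, k < l → 0 ≤ f k l ∧ 0 ≤ f l k ∧ f k l + f l k = c k l)
    (h2 : ∀ x y z, x < y → y < z → f x z ≤ f x y + f y z ∧ f x y ≤ f x z + f z y ∧
      f y z ≤ f y x + f x z ∧ f z x ≤ f z y + f y x ∧ f y x ≤ f y z + f z x ∧
      f z y ≤ f z x + f x y) : Fit c f := by
  have hn : ∀ k l, 0 ≤ f k l := fun k l => by
    rcases lt_trichotomy k l with e | rfl | e
    exacts [(h1 k l e).1, (h0 k).ge, (h1 l k e).2.1]
  refine ⟨conc_of (fun k => hn k k) (fun k l _ => ?_) h2, hn, fun k l e => ?_⟩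
  · have := hn k l; have := hn l k; have := h0 k; omega
  · rcases lt_or_gt_of_ne e with e | e
    · exact (h1 k l e).2.2
    · have := (h1 l k e).2.2; have := h.symm k l; omega

theorem fit_fstd {c : Fin n → Fin n → ℤ} (h : CF c) {a : ℤ} (ha : Adm c a) :
    Fit c (fstd c a) := by
  have h0 := ha.1
  refine fit_of h (fstd_diag c a) (fun k l e => ?_) fun x y z h1 h2 => ?_
  · have := ha.2 k l e.ne; have := h.symm k l
    rw [fstd_lt c a e, fstd_gt c a e]; omega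
  · have := h.ord h1 h2
    have := ha.2 x y h1.ne; have := ha.2 y z h2.ne
    simp only [fstd_lt c a h1, fstd_lt c a h2, fstd_lt c a (h1.trans h2), fstd_gt c a h1,
      fstd_gt c a h2, fstd_gt c a (h1.trans h2)]
    omega

theorem fit_ft {c : Fin n → Fin n → ℤ} (h : CF c) (r : Fin n) (t : ℕ) : Fit c (ft c r t) := by
  refine fit_of h (ft_diag c r t) (fun k l e => ?_) fun x y z h1 h2 => ?_
  · have := h.pos k l e.ne; have := h.symm k l
    rw [ft_lt c r t e, ft_gt c r t e]; split_ifs <;> omega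
  · have := h.ord h1 h2
    simp only [ft_lt c r t h1, ft_lt c r t h2, ft_lt c r t (h1.trans h2), ft_gt c r t h1,
      ft_gt c r t h2, ft_gt c r t (h1.trans h2), Fin.ext_iff]
    rw [Fin.lt_def] at h1 h2
    split_ifs <;> omega

theorem fx_diag (c : Fin n → Fin n → ℤ) {i j : Fin n} (e : i ≠ j) (x : ℤ) (k : Fin n) :
    fx c i j x k k = 0 := by
  rw [fx, if_neg, fstd_diag]; rintro ⟨rfl, rfl⟩; exact e rfl
theorem fx_nonneg {c : Fin n → Fin n → ℤ} (h : CF c) (i j : Fin n) {x : ℤ} (hx : 0 ≤ x)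
    (k l : Fin n) : 0 ≤ fx c i j x k l := by
  rw [fx]; split_ifs; exacts [hx, (fit_fstd h (adm_zero h)).nonneg k l]
theorem conc_fx_one {c : Fin n → Fin n → ℤ} (h : CF c) {k r : Fin n} (e : r.val = k.val + 1) :
    Conc (fx c k r 1) := by
  have hn := fx_nonneg h k r zero_le_one
  have h0 := fx_diag c (i := k) (j := r) (by rintro rfl; omega) 1
  refine conc_of (fun i => hn i i) (fun i j _ => ?_) fun x y z h1 h2 => ?_
  · have := hn i j; have := hn j i; have := h0 i; omega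
  · have := h.ord h1 h2
    simp only [fx, fstd_lt c 0 h1, fstd_lt c 0 h2, fstd_lt c 0 (h1.trans h2), fstd_gt c 0 h1,
      fstd_gt c 0 h2, fstd_gt c 0 (h1.trans h2), Fin.ext_iff]
    rw [Fin.lt_def] at h1 h2
    split_ifs <;> omega
theorem conc_fx_zero {c : Fin n → Fin n → ℤ} (h : CF c) {k r : Fin n} (e : r.val = k.val + 1)
    (hc : c k r = 1) : Conc (fx c r k 0) := by
  have hn := fx_nonneg h r k le_rfl
  have h0 := fx_diag c (i := r) (j := k) (by rintro rfl; omega) 0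
  refine conc_of (fun i => hn i i) (fun i j _ => ?_) fun x y z h1 h2 => ?_
  · have := hn i j; have := hn j i; have := h0 i; omega
  · have := h.ord h1 h2
    have a1 : y = r ∧ x = k → c x y = 1 := by rintro ⟨rfl, rfl⟩; exact hc
    have a2 : z = r ∧ y = k → c y z = 1 := by rintro ⟨rfl, rfl⟩; exact hc
    simp only [fx, fstd_lt c 0 h1, fstd_lt c 0 h2, fstd_lt c 0 (h1.trans h2), fstd_gt c 0 h1,
      fstd_gt c 0 h2, fstd_gt c 0 (h1.trans h2), Fin.ext_iff] at a1 a2 ⊢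
    rw [Fin.lt_def] at h1 h2
    split_ifs <;> omega

theorem fh_diag {c : Fin n → Fin n → ℤ} (h : CF c) (k : Fin n) : fh c k k = 0 := by
  simp [fh, h.diag]
theorem fh_lt (c : Fin n → Fin n → ℤ) {k l : Fin n} (h : k < l) :
    fh c k l = if c k l ≤ 2 then 0 else 2 := by simp [fh, h]
theorem fh_gt (c : Fin n → Fin n → ℤ) {k l : Fin n} (h : l < k) :
    fh c k l = if c k l ≤ 2 then 0 else c k l - 2 := by simp [fh, h.le.not_gt]
theorem fh_nonneg (c : Fin n → Fin n → ℤ) (k l : Fin n) : 0 ≤ fh c k l := by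
  simp only [fh]; split_ifs <;> omega
theorem fh_sum {c : Fin n → Fin n → ℤ} (h : CF c) (k l : Fin n) :
    fh c k l + fh c l k = if c k l ≤ 2 then 0 else c k l := by
  have := h.symm k l
  rcases lt_trichotomy k l with e | rfl | e
  · rw [fh_lt c e, fh_gt c e]; split_ifs <;> omega
  · simp [fh_diag h, h.diag]
  · rw [fh_lt c e, fh_gt c e]; split_ifs <;> omega
theorem conc_fh {c : Fin n → Fin n → ℤ} (h : CF c) : Conc (fh c) := by
  refine conc_of (fun k => fh_nonneg c k k) (fun k l _ => ?_) fun x y z h1 h2 => ?_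
  · have := fh_nonneg c k l; have := fh_nonneg c l k; have := fh_diag h k; omega
  · have := h.ord h1 h2
    simp only [fh_lt c h1, fh_lt c h2, fh_lt c (h1.trans h2), fh_gt c h1, fh_gt c h2,
      fh_gt c (h1.trans h2)]
    split_ifs <;> omega

theorem le_inn {f : Fin n → Fin n → ℤ} (h : ∀ k l, 0 ≤ f k l) {e : ℤ} (he : 0 ≤ e) (k l : Fin n) :
    f k l ≤ inn f e k l := by
  have := h k l
  have := h l k
  simp only [inn]; split_ifs <;> omega
theorem inn_of_eq {f : Fin n → Fin n → ℤ} {e : ℤ} {k l : Fin n} (h : f k l + f l k = 0) :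
    inn f e k l = e := if_pos h
theorem inn_of_ne {f : Fin n → Fin n → ℤ} {e : ℤ} {k l : Fin n} (h : f k l + f l k ≠ 0) :
    inn f e k l = f k l := if_neg h

theorem inn_tri {f : Fin n → Fin n → ℤ} (hf : Conc f) (h : ∀ k l, 0 ≤ f k l) {e : ℤ} (he : 0 ≤ e)
    (hb : ∀ k l, f k l + f l k = 0 ∨ e ≤ f k l + f l k) (k l m : Fin n) :
    inn f e k m ≤ f k l + inn f e l m ∧ inn f e k m ≤ inn f e k l + f l m := by
  have := h k l; have := h l k; have := h l m; have := h m l; have := h k m; have := h m k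
  have := hf.2 k l m; have := hf.2 l m k; have := hf.2 l k m; have := hf.2 m l k
  have := hf.2 k m l; have := hf.2 m k l
  have := le_inn h he l m; have := le_inn h he k l
  by_cases e1 : f k m + f m k = 0
  · rw [inn_of_eq e1]
    constructor
    · by_cases e2 : f l m + f m l = 0
      · rw [inn_of_eq e2]; omega
      · have := hb l m; omega
    · by_cases e2 : f k l + f l k = 0
      · rw [inn_of_eq e2]; omega
      · have := hb k l; omega
  · rw [inn_of_ne e1]; omega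

theorem conc_inn {f : Fin n → Fin n → ℤ} (hf : Conc f) (h : ∀ k l, 0 ≤ f k l) {e : ℤ} (he : 0 ≤ e)
    (hb : ∀ k l, f k l + f l k = 0 ∨ e ≤ f k l + f l k) : Conc (inn f e) :=
  ⟨fun k => (h k k).trans (le_inn h he k k), fun k l m => by
    have := (inn_tri hf h he hb k l m).1; have := le_inn h he k l; omega⟩

theorem inn_fh {c : Fin n → Fin n → ℤ} (h : CF c) (e : ℤ) (k l : Fin n) :
    inn (fh c) e k l = if c k l ≤ 2 then e else if k < l then 2 else c k l - 2 := by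
  rw [inn, fh_sum h, fh]; split_ifs <;> omega
theorem fh_blk {c : Fin n → Fin n → ℤ} (h : CF c) {e : ℤ} (he : e ≤ 3) (k l : Fin n) :
    fh c k l + fh c l k = 0 ∨ e ≤ fh c k l + fh c l k := by
  rw [fh_sum h]; split_ifs <;> omega

variable {U : Unif K}

/-- the inner group is normal -/
theorem inn_conj {f : Fin n → Fin n → ℤ} (hf : Conc f) (h0 : ∀ k, f k k = 0)
    (h : ∀ k l, 0 ≤ f k l) {e : ℤ} (he : 0 ≤ e)
    (hb : ∀ k l, f k l + f l k = 0 ∨ e ≤ f k l + f l k) {j g : GL (Fin n) K} (hj : j ∈ J U f)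
    (hg : g ∈ J U (inn f e)) : j * g * j⁻¹ ∈ J U (inn f e) := by
  refine J_conj (conc_inn hf h he hb) hf h0 (fun k k' l' l => ?_) hj hg
  have := (inn_tri hf h he hb k k' l).1
  have := (inn_tri hf h he hb k' l' l).2
  omega

theorem Dat.cut {χ : Fin n → Kˣ →* ℂˣ} {c f : Fin n → Fin n → ℤ} (h : Dat U χ c)
    (hf : ∀ k l, k ≠ l → c k l ≤ f k l + f l k) : Cut U χ f := by
  intro j j' e
  refine Or.inr ⟨c j j', h.pos j j' (by rintro rfl; omega), h.agree j j', fun k l hk hl => ?_⟩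
  refine le_trans (h.intv k j j' l hk ?_ ?_) (hf k l (hk.trans_lt hl).ne)
  · rw [Fin.le_def]; omega
  · rw [Fin.le_def]; rw [Fin.lt_def] at hl; omega

/-- the characters are pairwise different on units -/
theorem Dat.inj {χ : Fin n → Kˣ →* ℂˣ} {c : Fin n → Fin n → ℤ} (h : Dat U χ c) {k l : Fin n}
    (e : Agree U (χ k) (χ l) 0) : k = l := by
  by_contra hne
  exact h.differ k l hne (e.mono (by have := h.pos k l hne; omega))

theorem Uni_conj {o : Fin n → ℤ} (ho : Function.Injective o) {b u : GL (Fin n) K}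
    (hb : b ∈ Tri K o) (hu : u ∈ Uni K o) : b * u * b⁻¹ ∈ Uni K o := by
  have hu' := Uni_le_Tri hu
  have hb' := (Tri K o).inv_mem hb
  refine mem_Uni_of ho ((Tri K o).mul_mem ((Tri K o).mul_mem hb hu') hb') fun k => ?_
  rw [Tri_mul_diag ho ((Tri K o).mul_mem hb hu') hb', Tri_mul_diag ho hb hu', Uni_diag hu, mul_one,
    ← Tri_mul_diag ho hb hb', mul_inv_cancel]
  simp

/-- upper triangular matrices with unit diagonal -/
def Bz (K : Type) [NontriviallyNormedField K] [IsUltrametricDist K] (n : ℕ) :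
    Subgroup (GL (Fin n) K) where
  carrier := {b | b ∈ Tri K (so n) ∧ ∀ i, ‖b.val i i‖ = 1}
  mul_mem' hg hh := ⟨(Tri K _).mul_mem hg.1 hh.1, fun i => by
    rw [Tri_mul_diag so_inj hg.1 hh.1, norm_mul, hg.2, hh.2, one_mul]⟩
  one_mem' := ⟨(Tri K _).one_mem, fun i => by simp⟩
  inv_mem' := by
    intro g hg
    refine ⟨(Tri K _).inv_mem hg.1, fun i => ?_⟩
    have := congrArg norm (Tri_mul_diag so_inj hg.1 ((Tri K _).inv_mem hg.1) i)
    rw [mul_inv_cancel, norm_mul, hg.2, one_mul] at this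
    simpa using this.symm

theorem mem_Bz {b : GL (Fin n) K} : b ∈ Bz K n ↔ b ∈ Tri K (so n) ∧ ∀ i, ‖b.val i i‖ = 1 := Iff.rfl

/-! ### smooth representations, smooth characters, principal series functionals -/

section Rep

variable {V : Type} [AddCommGroup V] [Module ℂ V]

/-- every vector is fixed by a congruence subgroup -/
def Sm (U : Unif K) (π : Representation ℂ (GL (Fin n) K) V) : Prop :=
  ∀ v, ∃ N : ℕ, ∀ g ∈ KK U n N, π g v = v

/-- the same for representations of the maximal compact subgroup -/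
def SmK (U : Unif K) (τ : Representation ℂ (Kint K n) V) : Prop :=
  ∀ v, ∃ N : ℕ, ∀ k : Kint K n, k.val ∈ KK U n N → τ k v = v

/-- `Θ` is a smooth character of the subgroup `H` of the maximal compact subgroup -/
structure Ch (U : Unif K) (H : Subgroup (GL (Fin n) K)) (Θ : GL (Fin n) K → ℂ) : Prop where
  le : H ≤ KK U n 0
  mult : Mult H Θ
  sm : ∃ N : ℕ, ∀ g ∈ H, g ∈ KK U n N → Θ g = 1

theorem Ch.mono {H H' : Subgroup (GL (Fin n) K)} {Θ : GL (Fin n) K → ℂ} (h : Ch U H Θ)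
    (h' : H' ≤ H) : Ch U H' Θ :=
  ⟨h'.trans h.le, h.mult.mono h', h.sm.imp fun _ hN g hg => hN g (h' hg)⟩
theorem Ch.mul {H : Subgroup (GL (Fin n) K)} {Θ Θ' : GL (Fin n) K → ℂ} (h : Ch U H Θ)
    (h' : Ch U H Θ') : Ch U H fun g => Θ g * Θ' g := by
  obtain ⟨N, hN⟩ := h.sm
  obtain ⟨N', hN'⟩ := h'.sm
  exact ⟨h.le, h.mult.mul h'.mult, max N N', fun g hg hk => by
    rw [hN g hg (KK_mono (le_max_left _ _) hk), hN' g hg (KK_mono (le_max_right _ _) hk), one_mul]⟩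

/-- the triangular group of the key `o` acts on `Λ` through the diagonal character `χ'` -/
def PF (π : Representation ℂ (GL (Fin n) K) V) (o : Fin n → ℤ) (χ' : Fin n → Kˣ →* ℂˣ)
    (Λ : V →ₗ[ℂ] ℂ) : Prop := ∀ b ∈ Tri K o, ∀ v, Λ (π b v) = dch χ' b * Λ v

/-- the same with `χ'` a rearrangement of `χ` on units -/
def PO (U : Unif K) (χ : Fin n → Kˣ →* ℂˣ) (π : Representation ℂ (GL (Fin n) K) V) (o : Fin n → ℤ)
    (Λ : V →ₗ[ℂ] ℂ) : Prop :=
  ∃ (σ : Equiv.Perm (Fin n)) (χ' : Fin n → Kˣ →* ℂˣ),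
    (∀ i, Agree U (χ' i) (χ (σ i)) 0) ∧ PF π o χ' Λ

/-- the same in the standard order with `χ'` equal to `χ` on units -/
def PS (U : Unif K) (χ : Fin n → Kˣ →* ℂˣ) (π : Representation ℂ (GL (Fin n) K) V)
    (Λ : V →ₗ[ℂ] ℂ) : Prop :=
  ∃ χ' : Fin n → Kˣ →* ℂˣ, (∀ i, Agree U (χ' i) (χ i) 0) ∧ PF π (so n) χ' Λ

theorem PS.po {χ : Fin n → Kˣ →* ℂˣ} {π : Representation ℂ (GL (Fin n) K) V} {Λ : V →ₗ[ℂ] ℂ}
    (h : PS U χ π Λ) : PO U χ π (so n) Λ := let ⟨χ', h1, h2⟩ := h; ⟨1, χ', h1, h2⟩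

theorem PF.uni {π : Representation ℂ (GL (Fin n) K) V} {o : Fin n → ℤ} {χ' : Fin n → Kˣ →* ℂˣ}
    {Λ : V →ₗ[ℂ] ℂ} (h : PF π o χ' Λ) {u : GL (Fin n) K} (hu : u ∈ Uni K o) (v : V) :
    Λ (π u v) = Λ v := by rw [h u (Uni_le_Tri hu), dch_uni _ hu, one_mul]

/-- moving a functional by a permutation matrix -/
theorem PF.pm {π : Representation ℂ (GL (Fin n) K) V} {o : Fin n → ℤ} {χ' : Fin n → Kˣ →* ℂˣ}
    {Λ : V →ₗ[ℂ] ℂ} (h : PF π o χ' Λ) (w : Equiv.Perm (Fin n)) :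
    PF π (fun i => o (w.symm i)) (fun i => χ' (w.symm i)) (Λ ∘ₗ π (PT.pm K w)) := by
  intro b hb v
  have hb' : PT.pm K w * b * (PT.pm K w)⁻¹ ∈ Tri K o := mem_Tri.2 fun k l e => by
    rw [pm_conj]; exact mem_Tri.1 hb _ _ (by simpa using e)
  have e : PT.pm K w * b = PT.pm K w * b * (PT.pm K w)⁻¹ * PT.pm K w := by group
  rw [LinearMap.comp_apply, LinearMap.comp_apply, ← rep_mul, e, rep_mul, h _ hb']
  congr 1
  unfold dch
  simp only [pm_conj]
  exact Fintype.prod_equiv w _ _ fun i => by simp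

theorem principal_iff (U : Unif K) (χ : Fin n → Kˣ →* ℂˣ) (π : Representation ℂ (GL (Fin n) K) V) :
    Principal χ π ↔ ∃ Λ, Λ ≠ 0 ∧ PO U χ π (so n) Λ := by
  constructor
  · rintro ⟨w, χ', Λ, h0, h1, h2⟩
    refine ⟨Λ, h0, w, χ', fun i => agree_zero_iff.2 (h1 i), fun b hb v => ?_⟩
    rw [h2 b (fun i => Units.mk0 _ (Tri_diag_ne so_inj hb i))
      (fun i j e => mem_Tri.1 hb i j (so_lt.2 e)) (fun _ => rfl) v]
    congr 1
    exact Finset.prod_congr rfl fun i _ => (ext_of_ne _ _).symm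
  · rintro ⟨Λ, h0, w, χ', h1, h2⟩
    refine ⟨w, χ', Λ, h0, fun i => agree_zero_iff.1 (h1 i), fun b d hb hd v => ?_⟩
    rw [h2 b (mem_Tri.2 fun i j e => hb i j (so_lt.1 e)) v]
    congr 1
    exact Finset.prod_congr rfl fun i _ => by
      rw [show b.val i i = d i from hd i, ext_val]

/-- every nonzero vector survives in an irreducible smooth quotient -/
def Sep (U : Unif K) (ρ : Representation ℂ (GL (Fin n) K) V) : Prop :=
  ∀ u : V, u ≠ 0 → ∃ (T : Type) (_ : AddCommGroup T) (_ : Module ℂ T)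
    (π : Representation ℂ (GL (Fin n) K) T) (q : V →ₗ[ℂ] T),
      Irr π ∧ Sm U π ∧ (∀ g x, q (ρ g x) = π g (q x)) ∧ q u ≠ 0

/-- the stabiliser of the lattice spanned by the columns of `g` -/
def St (U : Unif K) (g : GL (Fin n) K) : Subgroup (GL (Fin n) K) where
  carrier := {h | g⁻¹ * h * g ∈ KK U n 0}
  mul_mem' := by
    intro a b ha hb
    have := (KK U n 0).mul_mem ha hb
    simpa [mul_assoc] using this
  one_mem' := by simp
  inv_mem' := by
    intro a ha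
    have := (KK U n 0).inv_mem ha
    simpa [mul_assoc] using this

theorem mem_St {g h : GL (Fin n) K} : h ∈ St U g ↔ g⁻¹ * h * g ∈ KK U n 0 := Iff.rfl
theorem St_one : St U (1 : GL (Fin n) K) = KK U n 0 := by ext h; simp [mem_St]
theorem mem_St_mul {t g h : GL (Fin n) K} : h ∈ St U (t * g) ↔ t⁻¹ * h * t ∈ St U g := by
  simp [mem_St, mul_assoc]
theorem St_right {g k : GL (Fin n) K} (hk : k ∈ KK U n 0) : St U (g * k) = St U g := by
  ext h
  rw [mem_St, mem_St, show (g * k)⁻¹ * h * (g * k) = k⁻¹ * (g⁻¹ * h * g) * k by group,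
    (KK U n 0).mul_mem_cancel_right hk, (KK U n 0).mul_mem_cancel_left ((KK U n 0).inv_mem hk)]
theorem St_dg (m : Fin n → ℤ) : St U (dg U m) = J U fun k l => m k - m l := by
  ext h
  have e : (fun k l => m k - m l) = sh (fun _ _ => ((0 : ℕ) : ℤ)) m := by funext k l; simp [sh]
  rw [mem_St, e, KK, ← mem_J_sh (conc_const 0) m]
  simp [mul_assoc]

/-- the representation of `G` induced from a typical representation: `X g` is the copy attached to
the lattice of `g`, `P g` the projection onto it -/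
structure Md (U : Unif K) (χ : Fin n → Kˣ →* ℂˣ) (ρ : Representation ℂ (GL (Fin n) K) V)
    (X : GL (Fin n) K → Submodule ℂ V) (P : GL (Fin n) K → V →ₗ[ℂ] V) : Prop where
  sm : Sm U ρ
  act : ∀ h g, ∀ v ∈ X g, ρ h v ∈ X (h * g)
  right : ∀ g, ∀ k ∈ KK U n 0, X (g * k) = X g
  px : ∀ g, ∀ v ∈ X g, P g v = v
  pz : ∀ g g', g⁻¹ * g' ∉ KK U n 0 → ∀ v ∈ X g', P g v = 0
  sep : ∀ v ∈ ⨆ g, X g, v ≠ 0 → ∃ Λ g, PO U χ ρ (so n) Λ ∧ Λ (ρ g v) ≠ 0
  start : ∃ Λ, PS U χ ρ Λ ∧ ∃ v ∈ X 1, Λ v ≠ 0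

/-- the copy attached to `g` has an eigenvector of the part of `H` that fixes the lattice -/
def Rel (U : Unif K) (ρ : Representation ℂ (GL (Fin n) K) V) (X : GL (Fin n) K → Submodule ℂ V)
    (H : Subgroup (GL (Fin n) K)) (Θ : GL (Fin n) K → ℂ) (g : GL (Fin n) K) : Prop :=
  ∃ v ∈ X g, v ≠ 0 ∧ Eig ρ (H ⊓ St U g) Θ v

variable {χ : Fin n → Kˣ →* ℂˣ} {ρ : Representation ℂ (GL (Fin n) K) V}
  {X : GL (Fin n) K → Submodule ℂ V} {P : GL (Fin n) K → V →ₗ[ℂ] V}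

theorem Md.stab (h : Md U χ ρ X P) {g s : GL (Fin n) K} (hs : s ∈ St U g) {v : V} (hv : v ∈ X g) :
    ρ s v ∈ X g := by
  have := h.act s g v hv
  rwa [show s * g = g * (g⁻¹ * s * g) by group, h.right g _ hs] at this
theorem Md.sp_le (h : Md U χ ρ X P) {g : GL (Fin n) K} {A : Set (GL (Fin n) K)}
    (hA : ∀ s ∈ A, s ∈ St U g) {v : V} (hv : v ∈ X g) : Sp ρ A v ≤ X g :=
  Sp_le fun s hs => h.stab (hA s hs) hv
theorem Md.act_sup (h : Md U χ ρ X P) (s : GL (Fin n) K) {v : V} (hv : v ∈ ⨆ g, X g) :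
    ρ s v ∈ ⨆ g, X g := by
  have : (⨆ g, X g) ≤ (⨆ g, X g).comap (ρ s) :=
    iSup_le fun g x hx => Submodule.mem_iSup_of_mem (s * g) (h.act s g x hx)
  exact this hv
theorem Rel.act (h : Md U χ ρ X P) {H H' : Subgroup (GL (Fin n) K)} {Θ Θ' : GL (Fin n) K → ℂ}
    {g : GL (Fin n) K} (hr : Rel U ρ X H Θ g) (t : GL (Fin n) K)
    (h' : ∀ s ∈ H', s ∈ St U (t * g) → t⁻¹ * s * t ∈ H ∧ Θ' s = Θ (t⁻¹ * s * t)) :
    Rel U ρ X H' Θ' (t * g) := by
  obtain ⟨v, hv, h0, he⟩ := hr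
  exact ⟨ρ t v, h.act t g v hv, rep_ne ρ t h0, he.act t fun s hs =>
    ⟨⟨(h' s hs.1 hs.2).1, mem_St_mul.1 hs.2⟩, (h' s hs.1 hs.2).2⟩⟩
theorem Rel.congr {H H' : Subgroup (GL (Fin n) K)} {Θ Θ' : GL (Fin n) K → ℂ}
    {g : GL (Fin n) K} (hr : Rel U ρ X H Θ g)
    (h' : ∀ s ∈ H', s ∈ St U g → s ∈ H ∧ Θ' s = Θ s) : Rel U ρ X H' Θ' g := by
  obtain ⟨v, hv, h0, he⟩ := hr
  exact ⟨v, hv, h0, fun s hs => by rw [he s ⟨(h' s hs.1 hs.2).1, hs.2⟩, (h' s hs.1 hs.2).2]⟩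
theorem Rel.right (h : Md U χ ρ X P) {H : Subgroup (GL (Fin n) K)} {Θ : GL (Fin n) K → ℂ}
    {g g' : GL (Fin n) K} (hr : Rel U ρ X H Θ g) (hg : g⁻¹ * g' ∈ KK U n 0) :
    Rel U ρ X H Θ g' := by
  have e : g' = g * (g⁻¹ * g') := by group
  unfold Rel at *
  rwa [e, h.right g _ hg, St_right hg]

/-- `z` is an eigenvector of the conjugate of `H` by `g`, in a representation of `Kint` -/
def EigK (τ : Representation ℂ (Kint K n) V) (H : Subgroup (GL (Fin n) K)) (Θ : GL (Fin n) K → ℂ)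
    (g : GL (Fin n) K) (z : V) : Prop :=
  ∀ h ∈ H, ∀ k : Kint K n, h * g = g * k.val → τ k z = Θ h • z

/-- the sum over the eight unipotent elements of `SL 2` over the field of three elements, placed
at the indices `k`, `r`, minus two -/
noncomputable def cusp (π : Representation ℂ (GL (Fin n) K) V) (k r : Fin n) (u : V) : V :=
  ∑ y : Fin 2, (π (el k r (![1, -1] y)) u + ∑ x : Fin 3,
    π (el k r (![0, 1, -1] x) * el r k (![1, -1] y) * el k r (-(![0, 1, -1] x))) u) - (2 : ℂ) • u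

end Rep

/-- finitely supported functions on the cosets of the congruence subgroup of level `N` -/
abbrev Wn (U : Unif K) (n N : ℕ) : Type := (GL (Fin n) K ⧸ KK U n N) →₀ ℂ

/-- left translation -/
noncomputable def Wr (U : Unif K) (n N : ℕ) : Representation ℂ (GL (Fin n) K) (Wn U n N) where
  toFun g := Finsupp.lmapDomain ℂ ℂ (g • ·)
  map_one' := by ext; simp
  map_mul' g h := by ext; simp [mul_smul]

theorem Wr_single (N : ℕ) (g : GL (Fin n) K) (x : GL (Fin n) K ⧸ KK U n N) (a : ℂ) :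
    Wr U n N g (Finsupp.single x a) = Finsupp.single (g • x) a := by simp [Wr]
theorem Wr_apply (N : ℕ) (g : GL (Fin n) K) (u : Wn U n N) (x : GL (Fin n) K ⧸ KK U n N) :
    Wr U n N g u x = u (g⁻¹ • x) := by
  have := Finsupp.mapDomain_apply (MulAction.injective g) u (g⁻¹ • x)
  rwa [smul_inv_smul] at this
theorem Wr_apply_mk (N : ℕ) (g : GL (Fin n) K) (u : Wn U n N) (x : GL (Fin n) K) :
    Wr U n N g u (x : GL (Fin n) K ⧸ KK U n N) = u ((g⁻¹ * x : GL (Fin n) K) : _ ⧸ KK U n N) :=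
  Wr_apply N g u x
theorem sm_Wr (N : ℕ) : Sm U (Wr U n N) := by
  intro u
  induction u using Finsupp.induction_linear with
  | zero => exact ⟨0, fun g _ => map_zero _⟩
  | add u v hu hv =>
    obtain ⟨a, ha⟩ := hu
    obtain ⟨b, hb⟩ := hv
    exact ⟨max a b, fun g hg => by
      rw [map_add, ha g (KK_mono (le_max_left _ _) hg), hb g (KK_mono (le_max_right _ _) hg)]⟩
  | single x a =>
    obtain ⟨x, rfl⟩ := QuotientGroup.mk_surjective x
    obtain ⟨N', hN'⟩ := exists_KK_conj (U := U) x N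
    refine ⟨N', fun g hg => ?_⟩
    rw [Wr_single]
    congr 1
    refine (QuotientGroup.eq.2 ?_).symm
    simpa [mul_assoc] using hN' g hg

/-- the universal eigenvector: supported on `H`, nonzero at the origin -/
structure Dlt (U : Unif K) (H : Subgroup (GL (Fin n) K)) (Θ : GL (Fin n) K → ℂ) (N : ℕ)
    (δ : Wn U n N) : Prop where
  le : KK U n N ≤ H
  triv : ∀ g ∈ KK U n N, Θ g = 1
  eig : Eig (Wr U n N) H Θ δ
  one : δ ((1 : GL (Fin n) K) : _ ⧸ KK U n N) ≠ 0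
  supp : ∀ x : GL (Fin n) K, x ∉ H → δ (x : _ ⧸ KK U n N) = 0

/-- the family `g` of lattices is fixed by `H`, and rigid under diagonal matrices -/
structure Rig (U : Unif K) (H : Subgroup (GL (Fin n) K)) {ι : Type} (g : ι → GL (Fin n) K) :
    Prop where
  le : ∀ C, H ≤ St U (g C)
  rig : ∀ C C' d, (g C')⁻¹ * dia d * g C ∈ KK U n 0 → C = C' ∧ ∀ i, ‖(d i : K)‖ = 1

/-- the conclusion of the theorem for the index set `ι` -/
def Concl (χ : Fin n → Kˣ →* ℂˣ) (ι : Type) : Prop :=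
  ∃ (d : ι → ℕ) (σ : ∀ C, Representation ℂ (Kint K n) (Fin (d C) → ℂ)),
    (∀ C, (σ C).IsIrreducible ∧ Smooth (σ C) ∧
      ∀ (V : Type) [AddCommGroup V] [Module ℂ V] (π : Representation ℂ (GL (Fin n) K) V),
        π.IsIrreducible → Smooth π →
          (Principal χ π →
            Module.finrank ℂ ((σ C).IntertwiningMap (π.comp (Kint K n).subtype)) = 1) ∧
          (¬ Principal χ π →
            ∀ f : (σ C).IntertwiningMap (π.comp (Kint K n).subtype), f = 0)) ∧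
    (∀ C C', Nonempty ((σ C).Equiv (σ C')) → C = C') ∧
    ∀ (T : Type) [AddCommGroup T] [Module ℂ T] (τ : Representation ℂ (Kint K n) T),
      τ.IsIrreducible → Smooth τ →
      (∀ (V : Type) [AddCommGroup V] [Module ℂ V] (π : Representation ℂ (GL (Fin n) K) V),
        π.IsIrreducible → Smooth π →
          (∃ f : τ.IntertwiningMap (π.comp (Kint K n).subtype), f ≠ 0) → Principal χ π) →
      ∃ C, Nonempty (τ.Equiv (σ C))

/-! ### residue field of two elements -/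

/-- the sign of a bit -/
noncomputable def sg (a : ZMod 2) : ℂ := if a = 0 then 1 else -1

theorem sg_zero : sg 0 = 1 := by simp [sg]
theorem sg_one : sg 1 = -1 := by simp [sg]
theorem zmod2_cases (a : ZMod 2) : a = 0 ∨ a = 1 := by revert a; decide
theorem sg_add (a b : ZMod 2) : sg (a + b) = sg a * sg b := by
  have e : (1 + 1 : ZMod 2) = 0 := by decide
  rcases zmod2_cases a with rfl | rfl <;> rcases zmod2_cases b with rfl | rfl <;>
    simp [e, sg_zero, sg_one]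
theorem sg_inj {a b : ZMod 2} (h : sg a = sg b) : a = b := by
  rcases zmod2_cases a with rfl | rfl <;> rcases zmod2_cases b with rfl | rfl <;>
    first | rfl | (rw [sg_zero, sg_one] at h; norm_num at h)
theorem sg_ne_zero (a : ZMod 2) : sg a ≠ 0 := by unfold sg; split_ifs <;> simp
theorem sg_sum {ι : Type} (s : Finset ι) (a : ι → ZMod 2) :
    sg (∑ i ∈ s, a i) = ∏ i ∈ s, sg (a i) := by
  classical
  induction s using Finset.induction_on with
  | empty => simpa using sg_zero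
  | insert i s hi ih => rw [Finset.sum_insert hi, Finset.prod_insert hi, sg_add, ih]

/-- reduction of an integral matrix -/
def rdm {κ : Type} [Field κ] (R : Red U κ) (g : GL (Fin n) K) : Matrix (Fin n) (Fin n) κ :=
  of fun k l => R.red (g.val k l)

/-- the first order term of an element of the first congruence subgroup -/
def Xm (R : Red U (ZMod 2)) (h : GL (Fin n) K) : Matrix (Fin n) (Fin n) (ZMod 2) :=
  of fun k l => R.red ((h.val - 1) k l / pw U 1)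

/-- the character of the first congruence subgroup attached to `β` -/
noncomputable def kap (R : Red U (ZMod 2)) (β : Matrix (Fin n) (Fin n) (ZMod 2))
    (h : GL (Fin n) K) : ℂ := sg (β * Xm R h).trace

/-- the leading bits of the row `r` to the left of the diagonal -/
def prow (R : Red U (ZMod 2)) (c : Fin n → Fin n → ℤ) (r : Fin n) (h : GL (Fin n) K) :
    Fin n → ZMod 2 := fun k => if k < r then R.red (h.val r k / pw U (c r k - 1)) else 0

/-- the character of `J (fstd c 1)` attached to the word `w` -/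
noncomputable def psi (R : Red U (ZMod 2)) (c : Fin n → Fin n → ℤ) (r : Fin n) (w : Fin n → ZMod 2)
    (h : GL (Fin n) K) : ℂ := sg (w ⬝ᵥ prow R c r h)

/-- the part of `β` inside the blocks `c ≤ 2` -/
def blk (c : Fin n → Fin n → ℤ) (β : Matrix (Fin n) (Fin n) (ZMod 2)) :
    Matrix (Fin n) (Fin n) (ZMod 2) := of fun k l => if c k l ≤ 2 then β k l else 0

/-- the lift of a word with entries zero and one -/
def lf (K : Type) [Field K] (w : Fin n → ZMod 2) : Fin n → K := fun i => if w i = 0 then 0 else 1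

/-- the identity with the lift of `w` added to the column `r` -/
noncomputable def uw (K : Type) [NontriviallyNormedField K] [IsUltrametricDist K] (r : Fin n)
    (w : Fin n → ZMod 2) : GL (Fin n) K := rk (lf K w) (Pi.single r 1)

/-- `w` vanishes at the places `≥ r` -/
def Low (r : ℕ) (w : Fin n → ZMod 2) : Prop := ∀ i : Fin n, r ≤ i.val → w i = 0

theorem lv_lf (w : Fin n → ZMod 2) (i : Fin n) : Lv U 0 (lf K w i) := by
  unfold lf; split_ifs; exacts [lv_zero U 0, lv_one U]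
theorem red_lf (R : Red U (ZMod 2)) (w : Fin n → ZMod 2) (i : Fin n) : R.red (lf K w i) = w i := by
  unfold lf
  rcases zmod2_cases (w i) with e | e <;> simp [e, R.zero, R.one]
theorem uw_dot {r : Fin n} {w : Fin n → ZMod 2} (hw : Low r.val w) :
    (Pi.single r 1 : Fin n → K) ⬝ᵥ lf K w = 0 := by simp [lf, hw r le_rfl]
theorem uw_zero (r : Fin n) : uw K r 0 = 1 := by
  ext1
  have : lf K (0 : Fin n → ZMod 2) = 0 := by funext i; simp [lf]
  rw [uw, this, rk_val (by simp)]; simp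
theorem uw_mem_K0 {r : Fin n} {w : Fin n → ZMod 2} (hw : Low r.val w) : uw K r w ∈ KK U n 0 := by
  refine rk_mem_J (by rw [uw_dot hw]; simp) fun k l => ?_
  rw [Pi.single_apply]
  split_ifs
  · simpa using lv_lf w k
  · simpa using lv_zero U 0

/-- the lattice spanned by the columns of `g` -/
def Lat (U : Unif K) (g : GL (Fin n) K) : Set (Fin n → K) := {x | ∀ i, Lv U 0 (((g⁻¹).val *ᵥ x) i)}

/-- the lattice given by the code `C` on the places `< r` and by the levels `m` on the others -/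
def LC (R : Red U (ZMod 2)) (r : ℕ) (C : Submodule (ZMod 2) (Fin n → ZMod 2)) (m : Fin n → ℤ) :
    Set (Fin n → K) :=
  {x | (∀ i : Fin n, i.val < r → Lv U 0 (x i)) ∧
    (fun i : Fin n => if i.val < r then R.red (x i) else 0) ∈ C ∧
    ∀ i : Fin n, r ≤ i.val → Lv U (m i) (x i)}

theorem mem_Lat_mul {h g : GL (Fin n) K} {x : Fin n → K} :
    x ∈ Lat U (h * g) ↔ (h⁻¹).val *ᵥ x ∈ Lat U g := by
  simp only [Lat, Set.mem_ofPred_eq, _root_.mul_inv_rev, Units.val_mul, mulVec_mulVec]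
theorem K0_mulVec {k : GL (Fin n) K} (hk : k ∈ KK U n 0) {x : Fin n → K} (hx : ∀ i, Lv U 0 (x i))
    (i : Fin n) : Lv U 0 ((k.val *ᵥ x) i) := by
  rw [mulVec, dotProduct]
  exact lv_sum _ _ fun j _ => (K0_ent hk i j).mul' (hx j) (add_zero 0).ge
theorem ent_of_Lat {g g' : GL (Fin n) K} (h : Lat U g' ⊆ Lat U g) (k l : Fin n) :
    Lv U 0 ((g⁻¹ * g').val k l) := by
  have : g'.val *ᵥ Pi.single l 1 ∈ Lat U g' := by
    intro i
    rw [mulVec_mulVec, ← Units.val_mul, inv_mul_cancel, Units.val_one, one_mulVec, Pi.single_apply]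
    split_ifs; exacts [lv_one U, lv_zero U 0]
  have := h this k
  rw [mulVec_mulVec] at this
  simpa using this
theorem Lat_eq_iff {g g' : GL (Fin n) K} : Lat U g = Lat U g' ↔ g⁻¹ * g' ∈ KK U n 0 := by
  refine ⟨fun h => mem_K0.2 ⟨ent_of_Lat h.ge, ?_⟩, fun h => ?_⟩
  · simpa using ent_of_Lat h.le
  · have key : ∀ g g' : GL (Fin n) K, g⁻¹ * g' ∈ KK U n 0 → Lat U g' ⊆ Lat U g := by
      intro g g' h x hx i
      have := K0_mulVec h hx i
      rwa [mulVec_mulVec, ← Units.val_mul, mul_inv_cancel_right] at this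
    exact Set.Subset.antisymm (key g' g (by simpa using (KK U n 0).inv_mem h)) (key g g' h)
theorem mem_St_iff {g h : GL (Fin n) K} : h ∈ St U g ↔ Lat U g = Lat U (h * g) := by
  rw [Lat_eq_iff, mem_St, mul_assoc]
theorem St_mulVec {g h : GL (Fin n) K} (hh : h ∈ St U g) {x : Fin n → K} (hx : x ∈ Lat U g) :
    h.val *ᵥ x ∈ Lat U g := by
  rw [mem_St_iff.1 hh, mem_Lat_mul, mulVec_mulVec, ← Units.val_mul, inv_mul_cancel]
  simpa using hx
theorem mem_St_of {g h : GL (Fin n) K} (h1 : ∀ x ∈ Lat U g, h.val *ᵥ x ∈ Lat U g)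
    (h2 : ∀ x ∈ Lat U g, (h⁻¹).val *ᵥ x ∈ Lat U g) : h ∈ St U g := by
  rw [mem_St_iff]
  ext x
  rw [mem_Lat_mul]
  refine ⟨h2 x, fun hx => ?_⟩
  have := h1 _ hx
  rw [mulVec_mulVec, ← Units.val_mul, mul_inv_cancel] at this
  simpa using this

end Pool.Agent.P.MP_7cb106_nt.PT

end

section

/-! Statements, part A: analysis, algebra, matrices. -/

set_option linter.unusedSectionVars false

namespace Pool.Agent.P.MP_7cb106_nt.PT

open Matrix

def S_BR : Prop :=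
  ∀ (K : Type) [NontriviallyNormedField K] [IsUltrametricDist K] [LocallyCompactSpace K],
    Nonempty (Unif K) ∧ ∀ U : Unif K,
      (∀ χ : Kˣ →* ℂˣ, IsOpen (χ.ker : Set Kˣ) → ∃ N : ℕ, Agree U χ 1 N) ∧
      ∀ (n : ℕ) (V : Type) [AddCommGroup V] [Module ℂ V],
        (∀ π : Representation ℂ (GL (Fin n) K) V, Smooth π ↔ Sm U π) ∧
        ∀ τ : Representation ℂ (Kint K n) V, Smooth τ ↔ SmK U τ

def S_FINI : Prop :=
  ∀ (K : Type) [NontriviallyNormedField K] [IsUltrametricDist K] [LocallyCompactSpace K]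
    (U : Unif K) (n N : ℕ),
    (∃ S : Finset (GL (Fin n) K), (∀ s ∈ S, s ∈ KK U n 0) ∧
      ∀ k ∈ KK U n 0, ∃ s ∈ S, s⁻¹ * k ∈ KK U n N) ∧
    Countable (GL (Fin n) K ⧸ KK U n N)

def S_RED : Prop :=
  ∀ (K : Type) [NontriviallyNormedField K] [IsUltrametricDist K] [LocallyCompactSpace K]
    (U : Unif K),
    ((¬ ∃ x : K, ‖x‖ = 1 ∧ ‖x - 1‖ = 1) → Nonempty (Red U (ZMod 2))) ∧
    ((∃ x : K, ‖x‖ = 1 ∧ ‖x - 1‖ = 1) → Nonempty (Red U (ZMod 3)) ∨
      ∃ (κ : Type) (_ : Field κ) (_ : Fintype κ), 4 ≤ Fintype.card κ ∧ Nonempty (Red U κ))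

def S_AV : Prop :=
  ∀ {K : Type} [NontriviallyNormedField K] [IsUltrametricDist K] [LocallyCompactSpace K]
    {U : Unif K} {n : ℕ}
    {V : Type} [AddCommGroup V] [Module ℂ V] {π : Representation ℂ (GL (Fin n) K) V}
    {H : Subgroup (GL (Fin n) K)} {Θ : GL (Fin n) K → ℂ}, Sm U π → Ch U H Θ →
    (∀ v, Eig π H Θ v → v ∈ Co π H Θ → v = 0) ∧
    ∀ x, ∃ S : Finset (GL (Fin n) K), 1 ∈ S ∧ (∀ s ∈ S, s ∈ H) ∧
      Eig π H Θ (∑ s ∈ S, (Θ s)⁻¹ • π s x)

def S_ALG : Prop :=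
  ∀ (V : Type) [AddCommGroup V] [Module ℂ V] (φ : Module.End ℂ V),
    (∃ A : Set V, A.Countable ∧ Submodule.span ℂ A = ⊤) →
    (∀ c : ℂ, c ≠ 0 → Function.Bijective fun x => φ x - c • x) → ∀ u, ∃ k : ℕ, (φ ^ k) u = 0

def S_SEP : Prop :=
  ∀ (K : Type) [NontriviallyNormedField K] [IsUltrametricDist K] [LocallyCompactSpace K]
    (U : Unif K) (n N : ℕ), Sep U (Wr U n N)

def S_ORD : Prop :=
  ∀ (K : Type) [NontriviallyNormedField K] [IsUltrametricDist K] [LocallyCompactSpace K]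
    (U : Unif K) (n : ℕ) (χ : Fin n → Kˣ →* ℂˣ), (∀ i, ∃ N : ℕ, Agree U (χ i) 1 N) →
    (∀ i j, Agree U (χ i) (χ j) 0 → i = j) →
    ∃ (w : Equiv.Perm (Fin n)) (c : Fin n → Fin n → ℤ), Dat U (fun i => χ (w i)) c

def S_DET : Prop :=
  ∀ {K : Type} [NontriviallyNormedField K] [IsUltrametricDist K] [LocallyCompactSpace K]
    {U : Unif K} {n : ℕ} {f : Fin n → Fin n → ℤ}, Conc f →
    (∀ g : GL (Fin n) K, Lev U f g → ‖g.val.det‖ = 1 → g ∈ J U f) ∧
    (∀ g ∈ J U f, ∀ j, Lv U 0 (Dl j g)) ∧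
    (∀ g ∈ J U f, ∀ h ∈ J U f, ∀ (j : Fin n) (C : ℤ),
      (∀ k l, k ≤ j → j < l → C ≤ f k l + f l k) → Lv U C (Dl j (g * h) - Dl j g * Dl j h)) ∧
    ∀ g ∈ J U f, ∀ (j : Fin n) (C : ℤ), (∀ k l, k ≠ l → C ≤ f k l + f l k) →
      Lv U C (Dl j g - ∏ i ∈ Finset.univ.filter (· ≤ j), g.val i i)

def S_THA : Prop :=
  ∀ (K : Type) [NontriviallyNormedField K] [IsUltrametricDist K] [LocallyCompactSpace K]
    (U : Unif K) (n : ℕ) (χ : Fin n → Kˣ →* ℂˣ),
    (∀ f, Conc f → Cut U χ f → Mult (J U f) (th χ)) ∧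
    ((∃ N : ℕ, ∀ i, Agree U (χ i) 1 N) → ∃ N : ℕ, ∀ g ∈ KK U n N, th χ g = 1)

def S_THB : Prop :=
  ∀ {K : Type} [NontriviallyNormedField K] [IsUltrametricDist K] {n : ℕ} (χ : Fin n → Kˣ →* ℂˣ),
    (∀ o, Function.Injective o → ∀ g ∈ Tri K o, th χ g = dch χ g) ∧
    (∀ d g, th χ (dia d * g * (dia d)⁻¹) = th χ g) ∧
    (∀ b a : Fin n → K, 1 + a ⬝ᵥ b ≠ 0 → ∀ j,
      Dl j (rk b a) = 1 + ∑ i ∈ Finset.univ.filter (· ≤ j), a i * b i) ∧
    (∀ k l, k ≤ l → ∀ x : K, ∏ j ∈ Finset.univ.filter (fun j => k ≤ j ∧ j < l),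
      ext (χ j / nx χ j) x = ext (χ k / χ l) x) ∧
    ∀ (b a : Fin n → K) (k l : Fin n), k < l → a ⬝ᵥ b = 0 →
      (∀ i, i ≠ k → i ≠ l → a i * b i = 0) → th χ (rk b a) = ext (χ k / χ l) (1 + a k * b k)

def S_UL : Prop :=
  ∀ {K : Type} [NontriviallyNormedField K] [IsUltrametricDist K] [LocallyCompactSpace K]
    {U : Unif K} {n : ℕ} {f : Fin n → Fin n → ℤ} {o : Fin n → ℤ}, Conc f →
    (∀ k l, l ≠ k → 1 ≤ f k l + f l k) → Function.Injective o → ∀ g ∈ J U f,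
      ∃ b ∈ J U f, ∃ l ∈ J U f, b ∈ Tri K o ∧ l ∈ Uni K (fun i => -o i) ∧ g = b * l

def S_DH : Prop :=
  ∀ (K : Type) [NontriviallyNormedField K] [IsUltrametricDist K] [LocallyCompactSpace K]
    (U : Unif K) {n : ℕ} {f : Fin n → Fin n → ℤ}, Conc f → (∀ k, f k k = 0) → ∀ g : GL (Fin n) K,
    (∃ b ∈ Tri K (so n), ∃ w, ∃ j ∈ J U f, g = b * pm K w * j) ∨
    ∃ j ∈ J U f, ∃ i i' : Fin n, i < i' ∧ 2 ≤ f i i' + f i' i ∧
      ∀ s : K, Lv U (f i i' + f i' i - 1) s → ∃ b a : Fin n → K, a ⬝ᵥ b = 0 ∧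
        (∀ k, k ≠ i → k ≠ i' → b k = 0) ∧ a i * b i = s ∧ (∀ k l, Lv U (f k l) (b k * a l)) ∧
        (∀ k l, k ≠ l → f k l + f l k ≤ 1 → b k * a l = 0) ∧
        g * j * rk b a * (g * j)⁻¹ ∈ Uni K (so n)

def S_DW : Prop :=
  ∀ {K : Type} [NontriviallyNormedField K] [IsUltrametricDist K] [LocallyCompactSpace K]
    {U : Unif K} {n : ℕ} {χ : Fin n → Kˣ →* ℂˣ} {f : Fin n → Fin n → ℤ} {e : ℤ}
    {V : Type} [AddCommGroup V] [Module ℂ V] {π : Representation ℂ (GL (Fin n) K) V}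
    {m : V} {Λ : V →ₗ[ℂ] ℂ} {g : GL (Fin n) K},
    Conc f → (∀ k, f k k = 0) → (∀ k l, 0 ≤ f k l) → Mult (J U f) (th χ) → 1 ≤ e →
    (∀ k l, f k l + f l k = 0 ∨ e ≤ f k l + f l k) →
    (∀ k l, k < l → 2 ≤ f k l + f l k →
      e + 1 ≤ f k l + f l k ∧ ¬ Agree U (χ k) (χ l) (f k l + f l k - 1)) →
    Eig π (J U (inn f e)) (th χ) m → (∀ u ∈ Uni K (so n), ∀ v, Λ (π u v) = Λ v) →
    Λ (π g m) ≠ 0 → ∃ b ∈ Tri K (so n), ∃ w, ∃ j ∈ J U f, g = b * pm K w * j

def S_FM : Prop :=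
  ∀ {K : Type} [NontriviallyNormedField K] [IsUltrametricDist K] [LocallyCompactSpace K]
    {U : Unif K} {n : ℕ} {χ : Fin n → Kˣ →* ℂˣ} {c : Fin n → Fin n → ℤ}
    {f : Fin n → Fin n → ℤ}
    {V : Type} [AddCommGroup V] [Module ℂ V] {π : Representation ℂ (GL (Fin n) K) V}
    {m : V} {Λ : V →ₗ[ℂ] ℂ} {g : GL (Fin n) K},
    Dat U χ c → Fit c f → (∀ k, f k k = 0) → Λ (π g m) ≠ 0 →
    (∀ Θ, Eig π (J U f) Θ m → (∀ h ∈ J U (inn f 1), Θ h = th χ h) → PO U χ π (so n) Λ →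
      ∃ σ : Equiv.Perm (Fin n), ∀ (i : Fin n) (α : Kˣ), ‖(α : K)‖ = 1 →
        Θ (di i α) = χ (σ i) α) ∧
    (Eig π (J U f) (th χ) m → PS U χ π Λ → ∃ b ∈ Tri K (so n), ∃ j ∈ J U f, g = b * j)

/-! ### consequences that every step may use -/

variable {K : Type} [NontriviallyNormedField K] [IsUltrametricDist K] [LocallyCompactSpace K]
  {U : Unif K} {n : ℕ}

/-- Iwasawa decomposition -/
theorem iwasawa (hDH : S_DH) (U : Unif K) (g : GL (Fin n) K) :
    ∃ b ∈ Tri K (so n), ∃ k ∈ KK U n 0, g = b * k := by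
  rcases hDH K U (conc_const 0) (fun _ => rfl) g with ⟨b, hb, w, j, hj, e⟩ | ⟨j, _, i, i', _, h, _⟩
  · exact ⟨b, hb, pm K w * j, (KK U n 0).mul_mem (pm_mem_K0 w) hj, by rw [e, mul_assoc]⟩
  · simp at h

/-- the factorisation in the other order -/
theorem ul_rev (hUL : S_UL) {f : Fin n → Fin n → ℤ} {o : Fin n → ℤ} (hf : Conc f)
    (h1 : ∀ k l, l ≠ k → 1 ≤ f k l + f l k) (ho : Function.Injective o) {g : GL (Fin n) K}
    (hg : g ∈ J U f) :
    ∃ b ∈ J U f, ∃ l ∈ J U f, b ∈ Tri K o ∧ l ∈ Uni K (fun i => -o i) ∧ g = l * b := by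
  obtain ⟨b, hb, l, hl, hb', hl', e⟩ := hUL hf h1 ho _ ((J U f).inv_mem hg)
  exact ⟨b⁻¹, (J U f).inv_mem hb, l⁻¹, (J U f).inv_mem hl, (Tri K o).inv_mem hb',
    (Uni K _).inv_mem hl', by rw [← _root_.mul_inv_rev, ← e, inv_inv]⟩

theorem neg_inj' {o : Fin n → ℤ} (ho : Function.Injective o) :
    Function.Injective fun i => -o i := fun _ _ h => ho (neg_injective h)

/-- `th χ` is a smooth character of `J f` -/
theorem ch_th' (hTHA : S_THA) {χ : Fin n → Kˣ →* ℂˣ} {c f : Fin n → Fin n → ℤ} (hD : Dat U χ c)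
    (hf : Conc f) (h0 : ∀ k l, 0 ≤ f k l) (h : ∀ k l, k ≠ l → c k l ≤ f k l + f l k) :
    Ch U (J U f) (th χ) :=
  ⟨J_le_K0 h0, (hTHA K U n χ).1 f hf (hD.cut h),
    ((hTHA K U n χ).2 hD.smooth).imp fun _ hN g _ hg => hN g hg⟩
theorem ch_th (hTHA : S_THA) {χ : Fin n → Kˣ →* ℂˣ} {c f : Fin n → Fin n → ℤ} (hD : Dat U χ c)
    (hf : Fit c f) : Ch U (J U f) (th χ) :=
  ch_th' hTHA hD hf.conc hf.nonneg fun k l e => (hf.sum k l e).ge

theorem th_uni (hTHB : S_THB) (χ : Fin n → Kˣ →* ℂˣ) {o : Fin n → ℤ} (ho : Function.Injective o)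
    {g : GL (Fin n) K} (hg : g ∈ Uni K o) : th χ g = 1 := by
  rw [(hTHB χ).1 o ho g (Uni_le_Tri hg), dch_uni χ hg]
theorem th_el (hTHB : S_THB) (χ : Fin n → Kˣ →* ℂˣ) {k l : Fin n} (h : k ≠ l) (x : K) :
    th χ (el k l x) = 1 := by
  rcases lt_or_gt_of_ne h with e | e
  · exact th_uni hTHB χ so_inj (el_mem_Uni (so_lt.2 e) x)
  · exact th_uni hTHB χ (neg_inj' so_inj) (el_mem_Uni (neg_lt_neg (so_lt.2 e)) x)
theorem th_di (hTHB : S_THB) (χ : Fin n → Kˣ →* ℂˣ) (i : Fin n) (α : Kˣ) :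
    th χ (di i α) = χ i α := by
  rw [(hTHB χ).1 _ so_inj (di i α) (dia_mem_Tri _ _)]; exact dch_di χ i α
theorem th_dg (hTHB : S_THB) (χ : Fin n → Kˣ →* ℂˣ) (y : Fin n → ℤ) (g : GL (Fin n) K) :
    th χ (dg U y * g * (dg U y)⁻¹) = th χ g := (hTHB χ).2.1 _ g
theorem th_dg' (hTHB : S_THB) (χ : Fin n → Kˣ →* ℂˣ) (y : Fin n → ℤ) (g : GL (Fin n) K) :
    th χ ((dg U y)⁻¹ * g * dg U y) = th χ g := by
  have := th_dg (U := U) hTHB χ (-y) g
  rwa [dg_neg, inv_inv] at this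
theorem mem_J_sh' {f : Fin n → Fin n → ℤ} (hf : Conc f) (y : Fin n → ℤ) {g : GL (Fin n) K} :
    (dg U y)⁻¹ * g * dg U y ∈ J U f ↔ g ∈ J U (sh f y) := by
  rw [← mem_J_sh hf y]; simp [mul_assoc]
theorem th_mul_char (χ η : Fin n → Kˣ →* ℂˣ) (g : GL (Fin n) K) :
    th (fun i => χ i * η i) g = th χ g * th η g := by
  rw [th, th, th, ← Finset.prod_mul_distrib]
  refine Finset.prod_congr rfl fun j _ => ?_
  rw [← ext_mul_char]
  congr 1
  unfold nx
  split_ifs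
  · ext x; simp [mul_div_mul_comm]
  · ext x; simp

/-- from the decomposition of the support to a functional for another order -/
theorem po_shift {χ : Fin n → Kˣ →* ℂˣ} {V : Type} [AddCommGroup V] [Module ℂ V]
    {π : Representation ℂ (GL (Fin n) K) V} {Λ : V →ₗ[ℂ] ℂ} (hΛ : PO U χ π (so n) Λ) {m : V}
    {b j : GL (Fin n) K} {w : Equiv.Perm (Fin n)} (hb : b ∈ Tri K (so n))
    (h : Λ (π (b * pm K w * j) m) ≠ 0) :
    ∃ (o : Fin n → ℤ) (Λ' : V →ₗ[ℂ] ℂ), Function.Injective o ∧ PO U χ π o Λ' ∧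
      Λ' (π j m) ≠ 0 := by
  obtain ⟨σ, χ', h1, h2⟩ := hΛ
  refine ⟨_, _, so_inj.comp w.symm.injective,
    ⟨w.symm.trans σ, _, fun i => h1 (w.symm i), h2.pm w⟩, fun e => h ?_⟩
  rw [mul_assoc, rep_mul, h2 b hb, rep_mul]
  exact mul_eq_zero_of_right _ e

end Pool.Agent.P.MP_7cb106_nt.PT

end

section

/-! Statements, part B: the type property, the representations `σ`, the model. -/

set_option linter.unusedSectionVars false

namespace Pool.Agent.P.MP_7cb106_nt.PT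

open Matrix

def S_JAC1 : Prop :=
  ∀ {K : Type} [NontriviallyNormedField K] [IsUltrametricDist K] [LocallyCompactSpace K]
    {U : Unif K} {n : ℕ} {χ : Fin n → Kˣ →* ℂˣ} {c : Fin n → Fin n → ℤ}
    {f : Fin n → Fin n → ℤ}
    {V : Type} [AddCommGroup V] [Module ℂ V] {π : Representation ℂ (GL (Fin n) K) V}
    {Λ : V →ₗ[ℂ] ℂ}, Dat U χ c → Fit c f → Sm U π → Λ ≠ 0 → PO U χ π (so n) Λ →
    ∃ v, v ≠ 0 ∧ Eig π (J U f) (th χ) v

def S_TAIL : Prop :=
  ∀ {K : Type} [NontriviallyNormedField K] [IsUltrametricDist K] [LocallyCompactSpace K]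
    {U : Unif K} {n : ℕ} {χ : Fin n → Kˣ →* ℂˣ} {c : Fin n → Fin n → ℤ}
    {a : ℤ} {r : ℕ} {u : GL (Fin n) K}, Dat U χ c → Adm c a →
    (∀ k l : Fin n, r ≤ k.val ∨ l.val < r → (u.val - 1) k l = 0) →
    (∀ k l, Lv U (a - 1) ((u.val - 1) k l)) → u ∉ J U (fstd c a) →
    ∃ h ∈ J U (fstd c a), u⁻¹ * h * u ∈ J U (fstd c a) ∧ th χ h ≠ th χ (u⁻¹ * h * u)

def S_JAC2 : Prop :=
  ∀ {K : Type} [NontriviallyNormedField K] [IsUltrametricDist K] [LocallyCompactSpace K]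
    {U : Unif K} {n : ℕ} {χ : Fin n → Kˣ →* ℂˣ} {c : Fin n → Fin n → ℤ} {a : ℤ}
    {V : Type} [AddCommGroup V] [Module ℂ V] {π : Representation ℂ (GL (Fin n) K) V}
    {v : V}, Dat U χ c → Adm c a → Sm U π → Eig π (J U (fstd c a)) (th χ) v → v ≠ 0 →
    v ∉ Co π (Bz K n) (dch χ)

def S_E3 : Prop :=
  ∀ {K : Type} [NontriviallyNormedField K] [IsUltrametricDist K] [LocallyCompactSpace K]
    {U : Unif K} {n : ℕ} {χ : Fin n → Kˣ →* ℂˣ}
    {V : Type} [AddCommGroup V] [Module ℂ V] {π : Representation ℂ (GL (Fin n) K) V}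
    {v : V}, Irr π → Sm U π → v ∉ Co π (Bz K n) (dch χ) → ∃ Λ, Λ ≠ 0 ∧ PS U χ π Λ

def S_INT : Prop :=
  ∀ {K : Type} [NontriviallyNormedField K] [IsUltrametricDist K] [LocallyCompactSpace K]
    {U : Unif K} {n : ℕ} {χ : Fin n → Kˣ →* ℂˣ} {c : Fin n → Fin n → ℤ} {a : ℤ}
    {V : Type} [AddCommGroup V] [Module ℂ V] {π : Representation ℂ (GL (Fin n) K) V}
    {δ u : V}, Dat U χ c → Adm c a → Sm U π → Sep U π → Eig π (J U (fstd c a)) (th χ) δ →
    Eig π (J U (fstd c a)) (th χ) u → u ∈ Sp π Set.univ δ →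
    u ∈ Submodule.span ℂ {y | Eig π (J U (fstd c a)) (th χ) y ∧
      ∃ d, y ∈ Sp π {x | ∃ s ∈ J U (fstd c a), x = s * dia d} δ}

def S_DLT : Prop :=
  ∀ {K : Type} [NontriviallyNormedField K] [IsUltrametricDist K] [LocallyCompactSpace K]
    {U : Unif K} {n : ℕ} {H : Subgroup (GL (Fin n) K)} {Θ : GL (Fin n) K → ℂ}, Ch U H Θ →
    ((∃ N, KK U n N ≤ H) → ∃ (N : ℕ) (δ : Wn U n N), Dlt U H Θ N δ) ∧
    ∀ (N : ℕ) (δ : Wn U n N), Dlt U H Θ N δ →
      (∀ a ∈ Sp (Wr U n N) Set.univ δ, ∀ (x : GL (Fin n) K), ∀ s ∈ H,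
        a ((x * s : GL (Fin n) K) : _ ⧸ KK U n N) = (Θ s)⁻¹ * a (x : _ ⧸ KK U n N)) ∧
      ∀ g, H ≤ St U g → ∀ (T : Type) [AddCommGroup T] [Module ℂ T]
        (τ : Representation ℂ (Kint K n) T) (z : T), EigK τ H Θ g z →
        ∃ Φ : Wn U n N →ₗ[ℂ] T, (∀ (k : Kint K n) (a : Wn U n N),
          Φ (Wr U n N k.val a) = τ k (Φ a)) ∧ Φ (Wr U n N g⁻¹ δ) = z

def S_INT2 : Prop :=
  ∀ {K : Type} [NontriviallyNormedField K] [IsUltrametricDist K] [LocallyCompactSpace K]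
    {U : Unif K} {n : ℕ} {χ : Fin n → Kˣ →* ℂˣ} {c : Fin n → Fin n → ℤ} {a : ℤ}
    {N : ℕ} {δ : Wn U n N} {ι : Type} {g : ι → GL (Fin n) K}, Dat U χ c → Adm c a →
    Dlt U (J U (fstd c a)) (th χ) N δ → Rig U (J U (fstd c a)) g → ∀ (C C' : ι) (z : Wn U n N),
    z ∈ Sp (Wr U n N) (KK U n 0) (Wr U n N (g C)⁻¹ δ) →
    Eig (Wr U n N) (J U (fstd c a)) (th χ) (Wr U n N (g C') z) → z ≠ 0 →
    C = C' ∧ ∃ κ : ℂ, z = κ • Wr U n N (g C)⁻¹ δ

def S_SIG : Prop :=
  ∀ {K : Type} [NontriviallyNormedField K] [IsUltrametricDist K] [LocallyCompactSpace K]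
    {U : Unif K} {n : ℕ} {χ : Fin n → Kˣ →* ℂˣ} {c : Fin n → Fin n → ℤ} {a : ℤ}
    {ι : Type} {g : ι → GL (Fin n) K}, Dat U χ c → Adm c a → Rig U (J U (fstd c a)) g →
    ∃ (d : ι → ℕ) (σ : ∀ C, Representation ℂ (Kint K n) (Fin (d C) → ℂ))
      (x : ∀ C, Fin (d C) → ℂ),
      (∀ C, Irr (σ C) ∧ SmK U (σ C) ∧ x C ≠ 0 ∧
        EigK (σ C) (J U (fstd c a)) (th χ) (g C) (x C) ∧
        ∀ (T : Type) [AddCommGroup T] [Module ℂ T] (τ : Representation ℂ (Kint K n) T) (z : T),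
          EigK τ (J U (fstd c a)) (th χ) (g C) z →
            ∃ φ : (σ C).IntertwiningMap τ, φ (x C) = z) ∧
      ∀ C C', Nonempty ((σ C).Equiv (σ C')) → C = C'

def S_MODEL : Prop :=
  ∀ {K : Type} [NontriviallyNormedField K] [IsUltrametricDist K] [LocallyCompactSpace K]
    {U : Unif K} {n : ℕ} {χ : Fin n → Kˣ →* ℂˣ} {c : Fin n → Fin n → ℤ} {a : ℤ}
    {T : Type} [AddCommGroup T] [Module ℂ T] {τ : Representation ℂ (Kint K n) T},
    Dat U χ c → Adm c a → Irr τ → SmK U τ →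
    (∀ (V : Type) [AddCommGroup V] [Module ℂ V] (π : Representation ℂ (GL (Fin n) K) V),
      Irr π → Sm U π → (∃ f : T →ₗ[ℂ] V, f ≠ 0 ∧ ∀ (k : Kint K n) (z : T),
        f (τ k z) = π k.val (f z)) → ∃ Λ, Λ ≠ 0 ∧ PO U χ π (so n) Λ) →
    ∃ (V : Type) (_ : AddCommGroup V) (_ : Module ℂ V) (ρ : Representation ℂ (GL (Fin n) K) V)
      (X : GL (Fin n) K → Submodule ℂ V) (P : GL (Fin n) K → V →ₗ[ℂ] V), Md U χ ρ X P ∧
      ∀ H Θ g, H ≤ St U g → Rel U ρ X H Θ g → ∃ z, z ≠ 0 ∧ EigK τ H Θ g z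

def S_START : Prop :=
  ∀ {K : Type} [NontriviallyNormedField K] [IsUltrametricDist K] [LocallyCompactSpace K]
    {U : Unif K} {n : ℕ} {χ : Fin n → Kˣ →* ℂˣ} {c : Fin n → Fin n → ℤ} {a : ℤ}
    {V : Type} [AddCommGroup V] [Module ℂ V] {ρ : Representation ℂ (GL (Fin n) K) V}
    {X : GL (Fin n) K → Submodule ℂ V} {P : GL (Fin n) K → V →ₗ[ℂ] V},
    Md U χ ρ X P → Dat U χ c → Adm c a → ∃ N : ℕ, ∀ m : Fin n → ℤ,
      (∀ k l, k < l → (N : ℤ) ≤ m k - m l) → Rel U ρ X (J U (fstd c a)) (th χ) (dg U m)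

def S_WIT : Prop :=
  ∀ {K : Type} [NontriviallyNormedField K] [IsUltrametricDist K] [LocallyCompactSpace K]
    {U : Unif K} {n : ℕ} {χ : Fin n → Kˣ →* ℂˣ}
    {V : Type} [AddCommGroup V] [Module ℂ V] {ρ : Representation ℂ (GL (Fin n) K) V}
    {X : GL (Fin n) K → Submodule ℂ V} {P : GL (Fin n) K → V →ₗ[ℂ] V}
    {H : Subgroup (GL (Fin n) K)} {Θ : GL (Fin n) K → ℂ} {g : GL (Fin n) K} {v : V},
    Md U χ ρ X P → Ch U H Θ → v ∈ X g → Eig ρ (H ⊓ St U g) Θ v →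
    ∃ u ∈ ⨆ g, X g, Eig ρ H Θ u ∧ ∃ γ : ℂ, γ ≠ 0 ∧
      (∀ y ∈ St U g, P g (ρ y u) = γ • ρ y v) ∧
      ∀ y, (∀ s ∈ H, y * s ∉ St U g) → P g (ρ y u) = 0

def S_FIN : Prop :=
  ∀ {K : Type} [NontriviallyNormedField K] [IsUltrametricDist K] [LocallyCompactSpace K]
    {U : Unif K} {n : ℕ} {χ : Fin n → Kˣ →* ℂˣ} {c : Fin n → Fin n → ℤ} {a : ℤ}
    {ι : Type} {g : ι → GL (Fin n) K}, Dat U χ c → Adm c a → Rig U (J U (fstd c a)) g →
    (∀ (V : Type) [AddCommGroup V] [Module ℂ V] (ρ : Representation ℂ (GL (Fin n) K) V)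
      (X : GL (Fin n) K → Submodule ℂ V) (P : GL (Fin n) K → V →ₗ[ℂ] V), Md U χ ρ X P →
        ∃ C, Rel U ρ X (J U (fstd c a)) (th χ) (g C)) → Concl χ ι

/-! ### consequences -/

variable {K : Type} [NontriviallyNormedField K] [IsUltrametricDist K] [LocallyCompactSpace K]
  {U : Unif K} {n : ℕ} {χ : Fin n → Kˣ →* ℂˣ} {c : Fin n → Fin n → ℤ}
  {V : Type} [AddCommGroup V] [Module ℂ V]

/-- an irreducible representation with an eigenvector has a functional for the standard order -/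
theorem sorted (hJAC2 : S_JAC2) (hE3 : S_E3) {a : ℤ} {π : Representation ℂ (GL (Fin n) K) V}
    (hD : Dat U χ c) (ha : Adm c a) (hi : Irr π) (hs : Sm U π) {v : V}
    (hv : Eig π (J U (fstd c a)) (th χ) v) (h0 : v ≠ 0) : ∃ Λ, Λ ≠ 0 ∧ PS U χ π Λ :=
  hE3 hi hs (hJAC2 hD ha hs hv h0)

/-- such a functional does not vanish on a nonzero eigenvector -/
theorem ps_ne (hFM : S_FM) {f : Fin n → Fin n → ℤ} {π : Representation ℂ (GL (Fin n) K) V}
    (hD : Dat U χ c) (hf : Fit c f) (h0 : ∀ k, f k k = 0) (hi : Irr π) {Λ : V →ₗ[ℂ] ℂ}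
    (hΛ : PS U χ π Λ) (hΛ0 : Λ ≠ 0) {v : V} (hv : Eig π (J U f) (th χ) v) (hv0 : v ≠ 0) :
    Λ v ≠ 0 := by
  obtain ⟨g, hg⟩ := hi.exists_ne hv0 hΛ0
  obtain ⟨b, hb, j, hj, rfl⟩ := (hFM hD hf h0 hg).2 hv hΛ
  obtain ⟨χ', _, h2⟩ := hΛ
  intro e
  apply hg
  rw [rep_mul, h2 b hb, hv j hj, map_smul, e, smul_zero, mul_zero]

/-- a relation produces a nonzero eigenvector of the whole group in the model -/
theorem wit (hWIT : S_WIT) {ρ : Representation ℂ (GL (Fin n) K) V}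
    {X : GL (Fin n) K → Submodule ℂ V} {P : GL (Fin n) K → V →ₗ[ℂ] V} (hM : Md U χ ρ X P)
    {H : Subgroup (GL (Fin n) K)} {Θ : GL (Fin n) K → ℂ} (hc : Ch U H Θ) {g : GL (Fin n) K}
    (hr : Rel U ρ X H Θ g) : ∃ u ∈ ⨆ g, X g, u ≠ 0 ∧ Eig ρ H Θ u := by
  obtain ⟨v, hv, h0, he⟩ := hr
  obtain ⟨u, hu, hu', γ, hγ, h1, _⟩ := hWIT hM hc hv he
  refine ⟨u, hu, ?_, hu'⟩
  rintro rfl
  have := h1 1 (St U g).one_mem
  rw [map_zero, map_zero, map_one] at this
  exact smul_ne_zero hγ h0 this.symm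

end Pool.Agent.P.MP_7cb106_nt.PT

end

section

/-! Statements, part C: moving the lattice into final position. -/

set_option linter.unusedSectionVars false

namespace Pool.Agent.P.MP_7cb106_nt.PT

open Matrix

def S_AFF : Prop :=
  ∀ {Γ : Type} [Group Γ] {V : Type} [AddCommGroup V] [Module ℂ V] {π : Representation ℂ Γ V}
    {κ : Type} [Field κ] [Fintype κ] {H H' : Subgroup Γ} {Θ : Γ → ℂ} {α β : Γ → κ} {s : κ → Γ}
    {v : V}, Mult H Θ → (∀ h ∈ H, α h ≠ 0) →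
    (∀ g ∈ H, ∀ h ∈ H, β (g * h) = β g + α g * β h) → (∀ h, h ∈ H' ↔ h ∈ H ∧ β h = 0) →
    (∀ x, s x ∈ H ∧ β (s x) = x ∧ α (s x) = 1) → Eig π H' Θ v →
    Eig π H Θ (∑ x, (Θ (s x))⁻¹ • π (s x) v) ∧ ∀ η : MulChar κ ℂ,
      Eig π H' (fun h => Θ h * η (α h)) (∑ x, (η⁻¹ x * (Θ (s x))⁻¹) • π (s x) v) ∧
      (η ≠ 1 → ∑ x, (Θ (s x))⁻¹ • π (s x) v = 0 →
        ∑ x, (η⁻¹ x * (Θ (s x))⁻¹) • π (s x) v = 0 → v = 0)

def S_STEP3 : Prop :=
  ∀ {K : Type} [NontriviallyNormedField K] [IsUltrametricDist K] [LocallyCompactSpace K]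
    {U : Unif K} {n : ℕ} {χ : Fin n → Kˣ →* ℂˣ} {c : Fin n → Fin n → ℤ}
    {V : Type} [AddCommGroup V] [Module ℂ V] {ρ : Representation ℂ (GL (Fin n) K) V}
    {X : GL (Fin n) K → Submodule ℂ V} {P : GL (Fin n) K → V →ₗ[ℂ] V}
    {κ : Type} [Field κ] [Fintype κ] (R : Red U κ) {k r : Fin n} {m : Fin n → ℤ},
    Md U χ ρ X P → Dat U χ c → k < r → 1 ≤ m k - m r →
    Rel U ρ X (J U (ft c r (k.val + 1))) (th χ) (dg U m) →
    Rel U ρ X (J U (ft c r k.val)) (th χ) (dg U m) ∨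
    ((∀ η : MulChar κ ℂ, η ≠ 1 → ∀ x : Kˣ, ‖(x : K)‖ = 1 →
        (χ r x : ℂ) * η (R.red x) = χ k x) ∧
      ∃ v ∈ X (dg U m), v ≠ 0 ∧ Eig ρ (J U (ft c r (k.val + 1)) ⊓ St U (dg U m)) (th χ) v ∧
        ∃ lift : κ → K, (∀ x, Lv U 0 (lift x) ∧ R.red (lift x) = x) ∧
          ∑ x, ρ (el r k (lift x * pw U (c r k - 1))) v = 0)

def S_F2 : Prop :=
  ∀ {K : Type} [NontriviallyNormedField K] [IsUltrametricDist K] [LocallyCompactSpace K]
    {U : Unif K} {n : ℕ} {χ : Fin n → Kˣ →* ℂˣ} {c : Fin n → Fin n → ℤ}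
    {V : Type} [AddCommGroup V] [Module ℂ V] {π : Representation ℂ (GL (Fin n) K) V}
    (_R : Red U (ZMod 3)) {k r : Fin n} {u : V} {Λ : V →ₗ[ℂ] ℂ},
    Dat U χ c → r.val = k.val + 1 → c k r = 1 → Eig π (J U (fx c k r 1)) (th χ) u →
    PO U χ π (so n) Λ → ∀ g, Λ (π g (cusp π k r u)) = 0

def S_EXC : Prop :=
  ∀ {K : Type} [NontriviallyNormedField K] [IsUltrametricDist K] [LocallyCompactSpace K]
    {U : Unif K} {n : ℕ} {χ : Fin n → Kˣ →* ℂˣ} {c : Fin n → Fin n → ℤ}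
    {V : Type} [AddCommGroup V] [Module ℂ V] {ρ : Representation ℂ (GL (Fin n) K) V}
    {X : GL (Fin n) K → Submodule ℂ V} {P : GL (Fin n) K → V →ₗ[ℂ] V}
    (R : Red U (ZMod 3)) {k r : Fin n} {m : Fin n → ℤ} {v : V} {lift : ZMod 3 → K},
    Md U χ ρ X P → Dat U χ c → r.val = k.val + 1 → c k r = 1 → 1 ≤ m k - m r →
    v ∈ X (dg U m) → Eig ρ (J U (fstd c 0) ⊓ St U (dg U m)) (th χ) v →
    (∀ x, Lv U 0 (lift x) ∧ R.red (lift x) = x) → ∑ x, ρ (el r k (lift x)) v = 0 → v = 0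

def S_Q3 : Prop :=
  ∀ {K : Type} [NontriviallyNormedField K] [IsUltrametricDist K] [LocallyCompactSpace K]
    {U : Unif K} {n : ℕ} {χ : Fin n → Kˣ →* ℂˣ} {c : Fin n → Fin n → ℤ}
    {V : Type} [AddCommGroup V] [Module ℂ V] {ρ : Representation ℂ (GL (Fin n) K) V}
    {X : GL (Fin n) K → Submodule ℂ V} {P : GL (Fin n) K → V →ₗ[ℂ] V},
    (Nonempty (Red U (ZMod 3)) ∨
      ∃ (κ : Type) (_ : Field κ) (_ : Fintype κ), 4 ≤ Fintype.card κ ∧ Nonempty (Red U κ)) →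
    Md U χ ρ X P → Dat U χ c → Rel U ρ X (J U (fstd c 0)) (th χ) 1

def S_KAPA : Prop :=
  ∀ {K : Type} [NontriviallyNormedField K] [IsUltrametricDist K] [LocallyCompactSpace K]
    {U : Unif K} {n : ℕ} (R : Red U (ZMod 2)),
    (∀ g ∈ KK U n 1, ∀ h ∈ KK U n 1, Xm R (g * h) = Xm R g + Xm R h) ∧
    (∀ β, ∀ H ≤ KK U n 1, Ch U H (kap R β)) ∧
    (∀ k ∈ KK U n 0, ∀ k' ∈ KK U n 0, rdm R (k * k') = rdm R k * rdm R k') ∧
    (∀ k ∈ KK U n 1, rdm R k = 1) ∧
    (∀ β, ∀ k ∈ KK U n 0, ∀ h ∈ KK U n 1,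
      kap R β (k⁻¹ * h * k) = kap R (rdm R k * β * rdm R k⁻¹) h) ∧
    (∀ β, ∀ k l : Fin n, k ≠ l → kap R β (el k l (pw U 1)) = sg (β l k)) ∧
    (∀ β, ∀ (k : Fin n) (α : Kˣ),
      kap R β (di k α) = sg (β k k * R.red (((α : K) - 1) / pw U 1))) ∧
    ∀ f : Fin n → Fin n → ℤ, Conc f → (∀ k l, k ≠ l → 1 ≤ f k l) → J U f ≤ KK U n 1

def S_KAPB : Prop :=
  ∀ {K : Type} [NontriviallyNormedField K] [IsUltrametricDist K] [LocallyCompactSpace K]
    {U : Unif K} {n : ℕ} (R : Red U (ZMod 2)),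
    (∀ (χ χ' : Kˣ →* ℂˣ) (C : ℤ), 2 ≤ C → Agree U χ χ' C → ¬ Agree U χ χ' (C - 1) →
      ∀ y : K, Lv U (C - 1) y → ext (χ / χ') (1 + y) = sg (R.red (y / pw U (C - 1)))) ∧
    ∀ {χ : Fin n → Kˣ →* ℂˣ} {c : Fin n → Fin n → ℤ}, Dat U χ c →
      Adm c 1 ∧ J U (fstd c 1) ≤ KK U n 1 ∧ J U (inn (fh c) 1) ≤ KK U n 1 ∧
      (∀ k l l', k ≠ l → k ≠ l' → c k l ≤ 2 → c k l' ≤ 2 → l = l') ∧
      (∀ k l, k < l → c k l ≤ 2 → l.val = k.val + 1) ∧
      (∀ r, ∀ g ∈ J U (fstd c 1), ∀ h ∈ J U (fstd c 1),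
        prow R c r (g * h) = prow R c r g + prow R c r h) ∧
      ∀ r w, Ch U (J U (fstd c 1)) (psi R c r w)

def S_FOUR : Prop :=
  ∀ {Γ : Type} [Group Γ] {V : Type} [AddCommGroup V] [Module ℂ V] {π : Representation ℂ Γ V}
    {n : ℕ} {H : Subgroup Γ} {Θ : Γ → ℂ} {p : Γ → Fin n → ZMod 2} {v : V},
    Mult H Θ → (∀ g ∈ H, ∀ h ∈ H, p (g * h) = p g + p h) →
    (∀ h ∈ H, p h = 0 → π h v = Θ h • v) → v ≠ 0 →
    ∃ w : Fin n → ZMod 2, ∃ v' ∈ Sp π H v, v' ≠ 0 ∧ Eig π H (fun h => Θ h * sg (w ⬝ᵥ p h)) v'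

def S_LATB : Prop :=
  ∀ {K : Type} [NontriviallyNormedField K] [IsUltrametricDist K] [LocallyCompactSpace K]
    {U : Unif K} {n : ℕ} (R : Red U (ZMod 2)),
    (∀ m : Fin n → ℤ, Lat U (dg U m) = LC R 0 ⊥ m) ∧
    ∀ (r : Fin n) (C : Submodule (ZMod 2) (Fin n → ZMod 2)) (m : Fin n → ℤ) (g : GL (Fin n) K),
      Lat U g = LC R r.val C m →
      (∀ e : ℤ, Lat U (dg U (Pi.single r e) * g) = LC R r.val C (m + Pi.single r e)) ∧
      ∀ w, Low r.val w → (∀ x ∈ C, Low r.val x) →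
        (m r = 1 → Lat U (uw K r w * g) = LC R (r.val + 1) C m) ∧
        (m r = 0 → Lat U (uw K r w * g) =
          LC R (r.val + 1) (C ⊔ Submodule.span (ZMod 2) {w + Pi.single r 1}) m) ∧
        (m r = 0 → w ∈ C → Lat U (uw K r w * g) = LC R r.val C m)

def S_LATC : Prop :=
  ∀ {K : Type} [NontriviallyNormedField K] [IsUltrametricDist K] [LocallyCompactSpace K]
    {U : Unif K} {n : ℕ} (R : Red U (ZMod 2)),
    ∃ g : Submodule (ZMod 2) (Fin n → ZMod 2) → GL (Fin n) K,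
      (∀ C, Lat U (g C) = LC R n C 0) ∧ (∀ C, KK U n 1 ≤ St U (g C)) ∧
      ∀ C C' d, (∀ i, Pi.single i 1 ∉ C) → (∀ i, Pi.single i 1 ∉ C') →
        (g C')⁻¹ * dia d * g C ∈ KK U n 0 → C = C' ∧ ∀ i, ‖(d i : K)‖ = 1

def S_STEP2 : Prop :=
  ∀ {K : Type} [NontriviallyNormedField K] [IsUltrametricDist K] [LocallyCompactSpace K]
    {U : Unif K} {n : ℕ} {χ : Fin n → Kˣ →* ℂˣ} {c : Fin n → Fin n → ℤ}
    {V : Type} [AddCommGroup V] [Module ℂ V] {ρ : Representation ℂ (GL (Fin n) K) V}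
    {X : GL (Fin n) K → Submodule ℂ V} {P : GL (Fin n) K → V →ₗ[ℂ] V}
    (R : Red U (ZMod 2)) {r : Fin n} {C : Submodule (ZMod 2) (Fin n → ZMod 2)} {m : Fin n → ℤ}
    {g : GL (Fin n) K}, Md U χ ρ X P → Dat U χ c → Lat U g = LC R r.val C m →
    (∀ l, r < l → m l < m r) → Rel U ρ X (J U (fstd c 1)) (th χ) g →
    ∃ w, Low r.val w ∧ Rel U ρ X (J U (fstd c 1)) (fun h => th χ h * psi R c r w h)
      (dg U (Pi.single r 1) * g)

def S_CONJ : Prop :=
  ∀ {K : Type} [NontriviallyNormedField K] [IsUltrametricDist K] [LocallyCompactSpace K]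
    {U : Unif K} {n : ℕ} {χ : Fin n → Kˣ →* ℂˣ} {c : Fin n → Fin n → ℤ}
    (R : Red U (ZMod 2)) {r : Fin n} {w : Fin n → ZMod 2}, Dat U χ c → Low r.val w →
    ∀ h ∈ J U (fstd c 1), uw K r w * h * (uw K r w)⁻¹ ∈ J U (fstd c 1) ∧
      (uw K r w)⁻¹ * h * uw K r w ∈ J U (fstd c 1) ∧
      th χ (uw K r w * h * (uw K r w)⁻¹) = th χ h * psi R c r w h

def S_LOW : Prop :=
  ∀ {K : Type} [NontriviallyNormedField K] [IsUltrametricDist K] [LocallyCompactSpace K]
    {U : Unif K} {n : ℕ} {χ : Fin n → Kˣ →* ℂˣ} {c : Fin n → Fin n → ℤ}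
    {l : GL (Fin n) K}, Dat U χ c → Adm c 1 → l ∈ J U (inn (fh c) 1) →
    l ∈ Uni K (fun i => -so n i) → l ∉ J U (fstd c 1) →
    ∃ h ∈ J U (fstd c 1), l⁻¹ * h * l ∈ J U (fstd c 1) ∧ th χ h ≠ th χ (l⁻¹ * h * l)

def S_SWAP : Prop :=
  ∀ {K : Type} [NontriviallyNormedField K] [IsUltrametricDist K] [LocallyCompactSpace K]
    {U : Unif K} {n : ℕ} {χ : Fin n → Kˣ →* ℂˣ} {c : Fin n → Fin n → ℤ}
    {V : Type} [AddCommGroup V] [Module ℂ V] {π : Representation ℂ (GL (Fin n) K) V}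
    (R : Red U (ZMod 2)) {β : Matrix (Fin n) (Fin n) (ZMod 2)} {u : V}, Dat U χ c → Sm U π →
    u ≠ 0 → Eig π (J U (fstd c 1)) (fun h => th χ h * kap R β h) u →
    ∃ u' ∈ Sp π Set.univ u, u' ≠ 0 ∧
      Eig π (J U (inn (fh c) 1)) (fun h => th χ h * kap R (blk c β) h) u'

def S_FLAT : Prop :=
  ∀ {K : Type} [NontriviallyNormedField K] [IsUltrametricDist K] [LocallyCompactSpace K]
    {U : Unif K} {n : ℕ} {χ : Fin n → Kˣ →* ℂˣ} {c : Fin n → Fin n → ℤ}
    (R : Red U (ZMod 2)), Dat U χ c →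
    ∃ (φ : Fin n → Kˣ →* ℂˣ) (γ : Fin n → ZMod 2), Cut U φ (fh c) ∧
      (∀ k, Agree U (φ k) (χ k) 2) ∧
      (∀ h ∈ J U (inn (fh c) 1), th χ h = th φ h * kap R (diagonal γ) h) ∧
      (∀ (k : Fin n) (α : Kˣ), ‖(α : K)‖ = 1 →
        (χ k α : ℂ) = φ k α * sg (γ k * R.red (((α : K) - 1) / pw U 1))) ∧
      (∀ k l, k ≠ l → c k l ≤ 2 → φ k = φ l ∧ γ k + γ l = 1) ∧
      ∀ k, (∀ l, l ≠ k → 3 ≤ c k l) → γ k = 0

def S_F3 : Prop :=
  ∀ {K : Type} [NontriviallyNormedField K] [IsUltrametricDist K] [LocallyCompactSpace K]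
    {U : Unif K} {n : ℕ} {χ : Fin n → Kˣ →* ℂˣ} {c : Fin n → Fin n → ℤ}
    {V : Type} [AddCommGroup V] [Module ℂ V] {π : Representation ℂ (GL (Fin n) K) V}
    (R : Red U (ZMod 2)) {p q : Fin n → ZMod 2} {i : Fin n} {u : V} {Λ : V →ₗ[ℂ] ℂ},
    Dat U χ c → p i = 1 → q i = 1 →
    Eig π (J U (inn (fh c) 1)) (fun h => th χ h * kap R (blk c (vecMulVec q p)) h) u →
    PO U χ π (so n) Λ → ∀ g, Λ (π g u) = 0

def S_FAR : Prop :=
  ∀ {K : Type} [NontriviallyNormedField K] [IsUltrametricDist K] [LocallyCompactSpace K]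
    {U : Unif K} {n : ℕ} {χ : Fin n → Kˣ →* ℂˣ} {c : Fin n → Fin n → ℤ}
    {V : Type} [AddCommGroup V] [Module ℂ V] {ρ : Representation ℂ (GL (Fin n) K) V}
    {X : GL (Fin n) K → Submodule ℂ V} {P : GL (Fin n) K → V →ₗ[ℂ] V}
    (R : Red U (ZMod 2)) {r : Fin n} {C : Submodule (ZMod 2) (Fin n → ZMod 2)} {m : Fin n → ℤ}
    {g : GL (Fin n) K} {w : Fin n → ZMod 2}, Md U χ ρ X P → Dat U χ c →
    Lat U g = LC R r.val C m → m r ≤ -1 → (∀ x ∈ C, Low r.val x) → (∀ i, Pi.single i 1 ∉ C) →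
    Low r.val w → Rel U ρ X (J U (fstd c 1)) (fun h => th χ h * psi R c r w h) g → w = 0

def S_Q2 : Prop :=
  ∀ {K : Type} [NontriviallyNormedField K] [IsUltrametricDist K] [LocallyCompactSpace K]
    {U : Unif K} {n : ℕ} {χ : Fin n → Kˣ →* ℂˣ} {c : Fin n → Fin n → ℤ}
    {V : Type} [AddCommGroup V] [Module ℂ V] {ρ : Representation ℂ (GL (Fin n) K) V}
    {X : GL (Fin n) K → Submodule ℂ V} {P : GL (Fin n) K → V →ₗ[ℂ] V}
    (R : Red U (ZMod 2)), Md U χ ρ X P → Dat U χ c →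
    ∃ (C : Submodule (ZMod 2) (Fin n → ZMod 2)) (g : GL (Fin n) K), (∀ i, Pi.single i 1 ∉ C) ∧
      Lat U g = LC R n C 0 ∧ Rel U ρ X (J U (fstd c 1)) (th χ) g

def S_MAIN : Prop :=
  ∀ (K : Type) [NontriviallyNormedField K] [IsUltrametricDist K] [LocallyCompactSpace K] (n : ℕ)
    (χ : Fin n → Kˣ →* ℂˣ), (∀ i, IsOpen ((χ i).ker : Set Kˣ)) →
    (∀ i j, (∀ x : Kˣ, ‖(x : K)‖ = 1 → χ i x = χ j x) → i = j) → Concl χ (Code K n)

end Pool.Agent.P.MP_7cb106_nt.PT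

end

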