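import Pool.Agent.P.MP_7cb106_nt.Defs

set_option autoImplicit false

/-! Definitions used by the statement on principal series types. -/


namespace Pool.Agent.P.MP_7cb106_nt.PT

/-- `π` has a nonzero linear form on which the upper triangular group acts through a character
`b ↦ ∏ χ' i (b i i)`, where the `χ' i` agree on units with a rearrangement of the `χ i` -/
def Principal {K : Type} [NormedField K] {n : ℕ} (χ : Fin n → Kˣ →* ℂˣ) {V : Type}
    [AddCommGroup V] [Module ℂ V] (π : Representation ℂ (GL (Fin n) K) V) : Prop :=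
  ∃ (w : Equiv.Perm (Fin n)) (χ' : Fin n → Kˣ →* ℂˣ) (lam : V →ₗ[ℂ] ℂ), lam ≠ 0 ∧
    (∀ (i : Fin n) (x : Kˣ), ‖(x : K)‖ = 1 → χ' i x = χ (w i) x) ∧
    ∀ (b : GL (Fin n) K) (d : Fin n → Kˣ),
      (∀ i j, j < i → (b : Matrix (Fin n) (Fin n) K) i j = 0) →
      (∀ i, (b : Matrix (Fin n) (Fin n) K) i i = d i) →
        ∀ v, lam (π b v) = (∏ i, (χ' i (d i) : ℂ)) * lam v

/-- binary linear codes of length `n` without words of weight one; only the zero code when the
residue field of `K` has more than two elements -/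
def Code (K : Type) [NormedField K] (n : ℕ) : Type :=
  {C : Submodule (ZMod 2) (Fin n → ZMod 2) //
    (∀ i, Pi.single i 1 ∉ C) ∧ ((∃ x : K, ‖x‖ = 1 ∧ ‖x - 1‖ = 1) → C = ⊥)}

end Pool.Agent.P.MP_7cb106_nt.PT

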