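import Pool.Agent.P.MP_7cb106_nt.PB.Defs

/-! The two notions that the statement compares. -/

set_option autoImplicit false

namespace Pool.Agent.P.MP_7cb106_nt.PT

variable {K : Type} [NormedField K] [IsUltrametricDist K] {n : ℕ} {T : Type} [AddCommGroup T]
  [Module ℂ T]

/-- the homomorphisms from `τ` to the restriction of `π` to the maximal compact subgroup -/
abbrev HomK (τ : Representation ℂ (Kint K n) T) {V : Type} [AddCommGroup V] [Module ℂ V]
    (π : Representation ℂ (GL (Fin n) K) V) : Type :=
  τ.IntertwiningMap (π.comp (Kint K n).subtype)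

/-- `σ` occurs with multiplicity one in every principal irreducible smooth representation and in
no other irreducible smooth representation -/
def Detects (χ : Fin n → Kˣ →* ℂˣ) (σ : Representation ℂ (Kint K n) T) : Prop :=
  ∀ (V : Type) [AddCommGroup V] [Module ℂ V] (π : Representation ℂ (GL (Fin n) K) V),
    π.IsIrreducible → Smooth π →
      (Principal χ π → Module.finrank ℂ (HomK σ π) = 1) ∧
      (¬ Principal χ π → ∀ f : HomK σ π, f = 0)

/-- every irreducible smooth representation in which `τ` occurs is principal -/
def Typical (χ : Fin n → Kˣ →* ℂˣ) (τ : Representation ℂ (Kint K n) T) : Prop :=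
  ∀ (V : Type) [AddCommGroup V] [Module ℂ V] (π : Representation ℂ (GL (Fin n) K) V),
    π.IsIrreducible → Smooth π → (∃ f : HomK τ π, f ≠ 0) → Principal χ π

end Pool.Agent.P.MP_7cb106_nt.PT
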